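import Pool.Agent.Lib.MP_813db1_ag.NS.Bs
import Pool.Agent.Lib.MP_813db1_ag.HS.AYAll
import Pool.Agent.Lib.MP_813db1_ag.HS.Calc

/-! The action of the covering group on the sheets. -/

namespace Pool.Agent.Lib.MP_813db1_ag.NS

open Pool.Agent.Lib.MP_813db1_ag.HS Pool.Agent.Lib.MP_813db1_ag.AS Pool.Agent.Lib.MP_813db1_ag.AN
open MeasureTheory Complex Matrix Filter Topology Set Metric
open scoped ComplexOrder ContDiff

namespace ActP

set_option linter.unusedSectionVars false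

variable {ι X Y G : Type} [Fintype ι] [DecidableEq ι] [TopologicalSpace X] [TopologicalSpace Y]
  [Group G] [MulAction G Y] {M : Atl ι X} {H : X → Mat ι} {p : Y → X} {N : Atl ι Y}
  {g : Y → Mat ι} {S : St N g}

theorem zero_mem : (0 : V ι) ∈ ball (0 : V ι) 4 := mem_ball_self (by norm_num)

theorem map_mem {k : S.κ} {y : Y} (hy : y ∈ (S.c k).source) : S.c k y ∈ ball (0 : V ι) 4 :=
  S.tgt k ▸ (S.c k).map_source hy

theorem symm_mem (k : S.κ) {z : V ι} (hz : z ∈ ball (0 : V ι) 4) :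
    (S.c k).symm z ∈ (S.c k).source := (S.c k).map_target (by rw [S.tgt]; exact hz)

theorem right_inv (k : S.κ) {z : V ι} (hz : z ∈ ball (0 : V ι) 4) :
    S.c k ((S.c k).symm z) = z := (S.c k).right_inv (by rw [S.tgt]; exact hz)

theorem ch_src (y : Y) : y ∈ (S.c (S.ch y)).source := S.ch_eq y ▸ N.mem y

theorem base (l : Lk M H p S) {k : S.κ} {y : Y} (hy : y ∈ (S.c k).source) :
    p y ∈ (l.e (S.ty k)).source ∧ l.e (S.ty k) (p y) = S.c k y := by
  have h := l.pr k _ (map_mem hy)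
  rw [(S.c k).left_inv hy] at h
  have ht : S.c k y ∈ (l.e (S.ty k)).target := by rw [l.tgt]; exact map_mem hy
  rw [h]
  exact ⟨(l.e _).map_target ht, (l.e _).right_inv ht⟩

theorem lift (hq : IsQuotientCoveringMap p G) (l : Lk M H p S) {γ : G} {k k' : S.κ}
    (ht : S.ty k = S.ty k') (h0 : γ • (S.c k).symm 0 = (S.c k').symm 0) :
    ∀ z ∈ ball (0 : V ι) 4, γ • (S.c k).symm z = (S.c k').symm z := by
  have hc : ∀ k, ContinuousOn (S.c k).symm (ball (0 : V ι) 4) := fun k =>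
    S.tgt k ▸ (S.c k).continuousOn_symm
  have := hq.toContinuousConstSMul
  refine hq.isCoveringMap.eqOn_of_comp_eqOn (g₁ := fun z => γ • (S.c k).symm z)
    (g₂ := (S.c k').symm) (convex_ball (0 : V ι) 4).isPreconnected
    ((continuous_const_smul γ).comp_continuousOn (hc k)) (hc k') (fun z hz => ?_) zero_mem h0
  simp only [Function.comp_apply]
  rw [hq.map_smul, l.pr k z hz, l.pr k' z hz, ht]

theorem mv (hq : IsQuotientCoveringMap p G) (l : Lk M H p S) (γ : G) (k : S.κ) :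
    ∃ k', S.ty k' = S.ty k ∧ ∀ z ∈ ball (0 : V ι) 4, γ • (S.c k).symm z = (S.c k').symm z := by
  have h1 := base l (symm_mem k zero_mem)
  rw [right_inv k zero_mem, ← hq.map_smul γ] at h1
  obtain ⟨k', ht, hk'⟩ := l.on _ _ h1.1
  refine ⟨k', ht, lift hq l ht.symm ?_⟩
  have h2 := (base l hk').2
  rw [ht, h1.2] at h2
  rw [← (S.c k').left_inv hk', ← h2]

theorem tr (hq : IsQuotientCoveringMap p G) (l : Lk M H p S) (k k' : S.κ)
    (ht : S.ty k = S.ty k') :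
    ∃ γ : G, ∀ z ∈ ball (0 : V ι) 4, γ • (S.c k).symm z = (S.c k').symm z := by
  have h : p ((S.c k').symm 0) = p ((S.c k).symm 0) := by
    rw [l.pr k 0 zero_mem, l.pr k' 0 zero_mem, ht]
  obtain ⟨γ, hγ⟩ := hq.apply_eq_iff_mem_orbit.1 h
  exact ⟨γ, lift hq l ht hγ⟩

theorem rad [CompactSpace X] (l : Lk M H p S) : ∃ r, Rad S r := by
  let U : Ioo (0 : ℝ) 1 → Set X := fun r => ⋃ b, (l.e b).source ∩ l.e b ⁻¹' ball 0 r.1
  have hU : ∀ r, IsOpen (U r) := fun r =>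
    isOpen_iUnion fun b => (l.e b).isOpen_inter_preimage isOpen_ball
  have hcov : (univ : Set X) ⊆ ⋃ r, U r := fun x _ => by
    obtain ⟨y, rfl⟩ := l.sur x
    have h := base l (ch_src (S := S) y)
    have h1 := S.ch_lt y
    have h2 := norm_nonneg (S.c (S.ch y) y)
    refine mem_iUnion.2 ⟨⟨(‖S.c (S.ch y) y‖ + 1) / 2, by linarith, by linarith⟩,
      mem_iUnion.2 ⟨_, h.1, ?_⟩⟩
    rw [mem_preimage, h.2, mem_ball_zero_iff]
    linarith
  have : Nonempty (Ioo (0 : ℝ) 1) := ⟨⟨1 / 2, by norm_num, by norm_num⟩⟩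
  obtain ⟨r, hr⟩ := isCompact_univ.elim_directed_cover U hU hcov
    (directed_of_isDirected_le fun r s hrs => iUnion_mono fun b =>
      inter_subset_inter_right _ (preimage_mono (ball_subset_ball hrs)))
  refine ⟨r.1, r.2.1, r.2.2, fun y => ?_⟩
  obtain ⟨b, hb, hb'⟩ := mem_iUnion.1 (hr (mem_univ (p y)))
  obtain ⟨k, rfl, hk⟩ := l.on b y hb
  rw [mem_preimage, (base l hk).2, mem_ball_zero_iff] at hb'
  exact ⟨k, hk, hb'⟩

/-- two sheets through `y` and `γ • y` in which the action is the identity. -/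
theorem two (A : Act S G) (γ : G) (y : Y) : ∃ k k' z, z ∈ ball (0 : V ι) 4 ∧
    y ∈ (S.c k).source ∧ γ • y ∈ (S.c k').source ∧ S.c k y = z ∧ S.c k' (γ • y) = z ∧
    N.repF g (S.c k) z = N.repF g (S.c k') z ∧
    ∀ u : Y → ℝ, fn (fun x => u (γ • x)) (S.c k) =ᶠ[𝓝 z] fn u (S.c k') := by
  obtain ⟨k', ht, h⟩ := A.mv γ (S.ch y)
  have hz := map_mem (ch_src (S := S) y)
  have h1 := h _ hz
  rw [(S.c _).left_inv (ch_src y)] at h1
  refine ⟨S.ch y, k', _, hz, ch_src y, h1 ▸ symm_mem k' hz, rfl, by rw [h1, right_inv k' hz],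
    by rw [S.rep_g _ _ hz, S.rep_g _ _ hz, ht], fun u => ?_⟩
  filter_upwards [isOpen_ball.mem_nhds hz] with w hw
  simp only [fn, h w hw]

theorem eqv (A : Act S G) : Eqv N g G := by
  have sm : ∀ u, N.Ck ∞ u → ∀ k, ∀ z ∈ ball (0 : V ι) 4, ContDiffAt ℝ ∞ (fn u (S.c k)) z :=
    fun u hu k z hz => hu _ (S.mem k) z (by rw [S.tgt]; exact hz)
  refine ⟨fun γ u hu => (AY.repA' _ _ N).ck_loc ⊤ _ fun y => ?_, fun γ u y hu => ?_,
    fun γ u v y hu hv => ?_⟩
  · obtain ⟨k, k', z, hz, h1, -, h3, -, -, h6⟩ := two A γ y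
    exact ⟨_, S.mem k, h1, h3 ▸ (sm u hu k' z hz).congr_of_eventuallyEq (h6 u)⟩
  · obtain ⟨k, k', z, hz, h1, h2, h3, h4, h5, h6⟩ := two A γ y
    have a := (sm u hu k' z hz).of_le (m := 2) (ENat.LEInfty.out)
    rw [← (AY.repB' _ _ N).lap_rep g _ _ (S.mem k) y h1
      (h3 ▸ a.congr_of_eventuallyEq (h6 u)),
      ← (AY.repB' _ _ N).lap_rep g _ _ (S.mem k') _ h2 (h4 ▸ a), h3, h4, lapL, lapL, h5,
      levi_congr (h6 u)]
  · obtain ⟨k, k', z, hz, h1, h2, h3, h4, h5, h6⟩ := two A γ y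
    have a := (sm u hu k' z hz).differentiableAt (by simp)
    have b := (sm v hv k' z hz).differentiableAt (by simp)
    rw [Atl.grad, Atl.grad, ← (AY.repB' _ _ N).grad_rep g _ _ _ (S.mem k) y h1
      (h3 ▸ a.congr_of_eventuallyEq (h6 u)) (h3 ▸ b.congr_of_eventuallyEq (h6 v)),
      ← (AY.repB' _ _ N).grad_rep g _ _ _ (S.mem k') _ h2 (h4 ▸ a) (h4 ▸ b), h3, h4, h5]
    simp only [dz_congr (h6 u), dz_congr (h6 v)]

theorem ric_congr {A B : V ι → Mat ι} {z : V ι} (h : A =ᶠ[𝓝 z] B) : ric A z = ric B z := by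
  rw [ric, ric, levi_congr]
  filter_upwards [h] with w hw
  rw [hw]

theorem pull_add (J A B : Mat ι) : pull J (A + B) = pull J A + pull J B := by
  simp only [pull, Matrix.mul_add, Matrix.add_mul]

theorem ricci (hK : M.IsK H) (l : Lk M H p S) (h : ∀ x, (M.ricF H x + H x).PosSemidef) (y : Y) :
    (N.ricF g y + g y).PosSemidef := by
  have hy := ch_src (S := S) y
  have hz := map_mem hy
  obtain ⟨h1, h2⟩ := base l hy
  have e1 : N.repF g (S.c (S.ch y)) =ᶠ[𝓝 (S.c (S.ch y) y)] M.repF H (l.e (S.ty (S.ch y))) := by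
    filter_upwards [isOpen_ball.mem_nhds hz] with w hw
    rw [S.rep_g _ _ hw, l.rep _ _ hw]
  have e2 := (AY.repA' _ _ N).repF_self g y
  have e3 := (AY.repB' _ _ M).ric_rep H hK _ (l.mem (S.ty (S.ch y))) _ (by rw [l.tgt]; exact hz)
  rw [Atl.ricF, ← e2, S.ch_eq, ric_congr e1, e1.eq_of_nhds, ← e3, ← h2, Atl.repF, Atl.repF,
    (l.e _).left_inv h1, ← pull_add]
  exact (mat.pull_pd ι _ _ ((AY.repA' _ _ M).tj_det _ (l.mem _) _ (M.ch_mem _) _ h1
    (M.mem _))).2.1 (h _)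

end ActP

open ActP in
theorem actS : ActS := by
  intro ι X Y G _ _ _ _ _ _ _ _ M H p N g S hq hK l
  have A : Act S G := ⟨mv hq l, tr hq l, rad l⟩
  exact ⟨A, eqv A, ricci hK l⟩

end Pool.Agent.Lib.MP_813db1_ag.NS
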