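import Pool.Agent.Lib.MP_813db1_ag.NS.StA
import Pool.Agent.Lib.MP_813db1_ag.AS.F3b

/-! The integral of the top power of a closed two-form depends only on its class. -/

namespace Pool.Agent.Lib.MP_813db1_ag.NS

open Pool.Agent.Lib.MP_813db1_ag.HS Pool.Agent.Lib.MP_813db1_ag.AS Pf
open MeasureTheory Filter Topology Set Function Matrix
open scoped ContDiff ComplexOrder

open F3 in
theorem cohS : CohS := by
  intro ι X _ _ _ _ _ _ _ M g μ W W' W'' U a γ hg hμ hU ha hγ hW
  classical
  have hv := (AY.volS' ι X M g hg).2 μ hμ
  have sγ : ∀ T, F3.Sm M γ T := fun T e he z hz _ => hγ.1 e he z hz trivial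
  have sa : ∀ j, F3.Sm M (a j) (U j) := fun j => (ha j).1
  have aW : ∀ j, ∀ x ∈ U j, ∀ u v, nab M (a j) x u v - nab M (a j) x v u = W x u v :=
    fun j => (ha j).2
  have γW : ∀ x u v, nab M γ x u v - nab M γ x v u = W' x u v := fun x => hγ.2 x trivial
  have op : ∀ y, IsOpen ((M.ch y).source ∩ U y) := fun y => (M.ch y).open_source.inter (hU _).1
  obtain ⟨t, ht⟩ := isCompact_univ.elim_finite_subcover _ op fun x _ =>
    mem_iUnion.2 ⟨x, M.mem x, (hU x).2⟩
  obtain ⟨ψ, y1, y2⟩ := pou AY.repA' AY.repB' ι X M t (fun s => (M.ch s).source ∩ U s)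
    (fun s => op s) fun x => by
      obtain ⟨s, s1, s2⟩ := mem_iUnion₂.1 (ht (mem_univ x))
      exact ⟨⟨s, s1⟩, s2⟩
  have sη : ∀ s T, F3.Sm M (fun x => ψ s x • γ x) T := fun s T e he z hz h =>
    (contDiffAt_ofReal.1 ((y1 s).1 e he z hz)).smul (sγ T e he z hz h)
  have sn : ∀ x, nab M γ x = ∑ s, nab M (fun x => ψ s x • γ x) x := fun x => by
    simp only [nab]
    rw [← fderiv_fun_sum fun s _ => df ((sη s univ).at (M.ch_mem x) (M.mem x) trivial)]
    congr 1
    funext z
    simp only [rep1, ← ContinuousLinearMap.finsetSum_comp, ← Finset.sum_smul, y2, one_smul]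
  let B : Finset ι → X → ι → Bil (V ι) := fun S x =>
    S.piecewise (fun _ => nab M (a x) x - nab M γ x) fun _ => nab M (a x) x
  have := hv.fin
  have ig : ∀ {F : X → ℝ}, Continuous F → Integrable F μ := fun h =>
    h.integrable_of_hasCompactSupport (HasCompactSupport.of_compactSpace _)
  have key : ∀ S, (Continuous fun x => F3.den g (B ∅) x - F3.den g (B S) x) ∧
      ∫ x, F3.den g (B ∅) x - F3.den g (B S) x ∂μ = 0 := by
    intro S
    induction S using Finset.induction_on with
    | empty => simp [continuous_const]
    | insert k S hk ih =>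
      have Z := fun s : t => zero_int hv hg (M.ch_mem s) (hU s).1 (isClosed_tsupport (ψ s))
        (y1 s).2.2 (B := B S)
        (c := S.piecewise (fun _ x => a s x - γ x) fun _ => a s) (fun l => by
          by_cases c : l ∈ S
          · rw [Finset.piecewise_eq_of_mem _ _ _ c]
            exact fun e he z hz h => (sa _ e he z hz h).sub (sγ _ e he z hz h)
          · rw [Finset.piecewise_eq_of_notMem _ _ _ c]
            exact sa _) (fun x hx l u v => by
          have h1 := aW _ x hx u v
          have h2 := aW _ x (hU x).2 u v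
          by_cases c : l ∈ S
          · have h3 : nab M (fun x => a s x - γ x) x = nab M (a s) x - nab M γ x :=
              fderiv_fun_sub (df ((sa _).at (M.ch_mem x) (M.mem x) hx))
                (df ((sγ univ).at (M.ch_mem x) (M.mem x) trivial))
            simp only [B, Finset.piecewise_eq_of_mem _ _ _ c, h3, _root_.sub_apply]
            linarith
          · simp only [B, Finset.piecewise_eq_of_notMem _ _ _ c]
            linarith) (sη s _)
        (fun y hy => by simp [image_eq_zero_of_notMem_tsupport hy]) k
      have e : (fun x => F3.den g (B ∅) x - F3.den g (B (insert k S)) x) = fun x =>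
          (F3.den g (B ∅) x - F3.den g (B S) x) + ∑ s : t,
            F3.den g (fun x => update (B S x) k (nab M (fun x => ψ s x • γ x) x)) x :=
        funext fun x => by
        have h1 : B S x = update (B S x) k (nab M (a x) x) := by
          rw [← Finset.piecewise_eq_of_notMem S (fun _ => nab M (a x) x - nab M γ x)
            (fun _ => nab M (a x) x) hk, update_eq_self]
        have h2 : B (insert k S) x = update (B S x) k (nab M (a x) x - nab M γ x) :=
          Finset.piecewise_insert _ _ _ _
        have h3 := P_sub (B S x) k (nab M (a x) x) (nab M (a x) x - nab M γ x) (bs ι)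
        rw [← h1, ← h2, _root_.sub_sub_cancel (nab M (a x) x), sn, P_sum] at h3
        simp only [F3.den, ← Finset.sum_div, ← h3]
        ring
      have c2 := continuous_finsetSum Finset.univ fun s _ => (Z s).1
      rw [e, integral_add (ig ih.1) (ig c2), ih.2, integral_finsetSum _ fun s _ => ig (Z s).1]
      exact ⟨ih.1.add c2, by simp only [fun s => (Z s).2, Finset.sum_const_zero, add_zero]⟩
  obtain ⟨k1, k2⟩ := key Finset.univ
  have e1 : ∀ x, topF (W x) / (g x).det.re = 2 ^ Fintype.card ι * F3.den g (B ∅) x := fun x => by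
    simp only [F3.den, B, Finset.piecewise_empty]
    rw [top_eq (aW _ x (hU x).2), mul_div_assoc]
  have e2 : ∀ x, topF (W'' x) / (g x).det.re = 2 ^ Fintype.card ι * F3.den g (B Finset.univ) x :=
    fun x => by
    simp only [F3.den, B, Finset.piecewise_univ]
    rw [top_eq (W := W'' x) (B := nab M (a x) x - nab M γ x) fun u v => by
      rw [hW, ← aW _ x (hU x).2, ← γW]
      simp only [_root_.sub_apply]
      ring, mul_div_assoc]
  simp only [e1, e2]
  rw [integral_const_mul, integral_const_mul]
  congr 1
  replace k1 := ig k1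
  by_cases h : Integrable (F3.den g (B Finset.univ)) μ
  · rw [eq_comm, ← sub_eq_zero, ← integral_sub ((k1.add h).congr (.of_forall fun x => by simp)) h]
    exact k2
  · rw [integral_undef h, integral_undef fun k => h ((k.sub k1).congr (.of_forall fun x => by simp))]

end Pool.Agent.Lib.MP_813db1_ag.NS
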