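import Pool.Agent.Lib.MP_813db1_ag.NS.StA

/-! Powers of a two-cocycle. -/

namespace Pool.Agent.Lib.MP_813db1_ag.NS

open Pool.Agent.Lib.MP_813db1_ag.HS Pool.Agent.Lib.MP_813db1_ag.AS Pool.Agent.Lib.MP_813db1_ag.SV
open SV.Bc Finset Fintype

theorem cup_ex {G : Type} [Group G] (b : G → G → G → ℝ)
    (h1 : ∀ h x y z, b (h * x) (h * y) (h * z) = b x y z)
    (h2 : ∀ x y z u, b y z u - b x z u + b x y u - b x y z = 0) (n : ℕ) :
    ∃ c : (Fin (2 * n + 1) → G) → ℝ, Coc c ∧ ∀ (V : Type) (T : Finset G) (r : G → V → ℝ)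
      (F : V → V → ℝ), (∀ x u v, ∑ y ∈ T, ∑ z ∈ T, b x y z * (r y u * r z v) = F u v) →
      ∀ x (v : Fin (2 * n) → V),
        ∑ β ∈ piFinset fun _ : Fin (2 * n) => T, c (Fin.cons x β) * ∏ i, r (β i) (v i) =
          ∏ k : Fin n, F (v ⟨2 * k, by omega⟩) (v ⟨2 * k + 1, by omega⟩) := by
  induction n with
  | zero =>
    exact ⟨fun _ => 1, ⟨fun _ _ => rfl, fun g => by simp [Fin.sum_univ_succ]⟩,
      fun V T r F _ x v => by simp⟩
  | succ n ih =>
    obtain ⟨c, hc, h⟩ := ih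
    let c' : (Fin (2 * n + 1 + 1 + 1) → G) → ℝ := fun g =>
      b (g 0) (g (Fin.succ 0)) (g (Fin.succ (Fin.succ 0))) * c fun i => g i.succ.succ
    have e : ∀ x y w, c' (Fin.cons x (Fin.cons y w)) = b x y (w 0) * c w := fun _ _ _ => rfl
    refine ⟨c', ⟨fun k g => congrArg₂ (· * ·) (h1 _ _ _ _) (hc.1 k _), fun g => ?_⟩,
      fun V T r F hF x (v : Fin (2 * n + 1 + 1) → V) => ?_⟩
    · change Cd.dl c' g = 0
      have k : ∀ x y z w, Cd.dl c' (Fin.cons x (Fin.cons y (Fin.cons z w))) = 0 := fun x y z w => by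
        have k1 : Cd.dl c (Fin.cons z w) = 0 := hc.2 _
        have k2 : Cd.dl (fun v : Fin (2 * n) → G => b x y z * c (Fin.cons z v)) w =
            b x y z * Cd.dl (fun v : Fin (2 * n) → G => c (Fin.cons z v)) w := by
          simp only [Cd.dl, mul_sum, mul_left_comm]
        rw [Cd.dl_cons] at k1
        simp only [Cd.dl_cons, e, Fin.cons_zero, k2]
        linear_combination c w * h2 x y z (w 0) + b x y z * k1
      rw [← Fin.cons_self_tail g, ← Fin.cons_self_tail (Fin.tail g),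
        ← Fin.cons_self_tail (Fin.tail (Fin.tail g))]
      exact k _ _ _ _
    · change ∑ β ∈ piFinset fun _ : Fin (2 * n + 1 + 1) => T,
        c' (Fin.cons x β) * ∏ i, r (β i) (v i) = _
      rw [sum_succ T 0, sum_succ T 0, sum_comm, Fin.prod_univ_succ]
      refine Eq.trans (sum_congr rfl fun z _ => ?_) (congrArg₂ (· * ·) (hF x (v 0) (v (Fin.succ 0)))
        rfl ▸ (sum_mul _ _ _).symm.trans (congrArg₂ (· * ·) sum_comm rfl))
      refine Eq.trans ?_ (congrArg (_ * ·) (h V T r F hF z fun i => v i.succ.succ))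
      simp only [mul_sum]
      refine sum_congr rfl fun β _ => ?_
      rw [sum_mul]
      refine sum_congr rfl fun y _ => ?_
      simp only [Fin.insertNth_zero', e, Fin.prod_univ_succ, Fin.cons_zero, Fin.cons_succ]
      ring

theorem cupS : CupS := by
  intro ι G _ _ _ b h1 h2
  obtain ⟨c, hc, h⟩ := cup_ex b h1 h2 (card ι)
  let B : ι × Fin 2 ≃ Fin (2 * card ι) :=
    (((equivFin ι).prodCongr (Equiv.refl _)).trans finProdFinEquiv).trans (finCongr (mul_comm _ _))
  refine ⟨_, B.symm, c, hc, fun T r F h3 h4 h5 => ?_⟩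
  rw [sm_eq _ _ h3, sum_succ T 0, sum_comm, topF, ← one_mul (∑ σ : Equiv.Perm _, _), ← h4, sum_mul]
  refine sum_congr rfl fun x _ => ?_
  rw [← B.symm.permCongr.sum_comp]
  simp only [mu_apply, dtm_apply, Fin.insertNth_zero', Fin.cons_zero, Fin.cons_succ]
  simp only [← Matrix.det_transpose (Matrix.of _), Matrix.det_apply', mul_sum]
  rw [sum_comm]
  refine sum_congr rfl fun σ _ => ?_
  have := h _ T (fun y u => (r y).2 u) F h5 x fun i => reB (B.symm (σ i))
  rw [← (equivFin ι).prod_comp] at this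
  rw [Equiv.Perm.sign_permCongr, ← this.trans (prod_congr rfl fun k _ => ?_), mul_sum, mul_sum]
  · exact sum_congr rfl fun β _ => by
      simp only [Matrix.transpose_apply, Matrix.of_apply]
      ring
  · have e : ∀ (s : Fin 2) (i : Fin (2 * card ι)), (i : ℕ) = s + 2 * equivFin ι k →
        B.symm (σ i) = B.symm.permCongr σ (k, s) := fun s i hi =>
      congrArg (fun j => B.symm (σ j)) (Fin.ext hi)
    rw [e 0 _ (zero_add _).symm, e 1 _ (add_comm _ _)]

end Pool.Agent.Lib.MP_813db1_ag.NS
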