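import Pool.Agent.Lib.MP_813db1_ag.NS.StA

/-! The partition of unity attached to a cover with labels. -/

namespace Pool.Agent.Lib.MP_813db1_ag.NS

open Pool.Agent.Lib.MP_813db1_ag.HS Pool.Agent.Lib.MP_813db1_ag.AS Pool.Agent.Lib.MP_813db1_ag.SV
open SV.Bc F12
open MeasureTheory Filter Topology Set Metric
open scoped ComplexOrder Manifold ContDiff

theorem famA : FamA := by
  classical
  intro ι X Y G A κ _ _ _ _ _ _ _ _ _ _ _ M p U k m hq hA hU hc hm he hl
  obtain ⟨χ, h1, h2⟩ := HS.pou AY.repA' AY.repB' ι X M κ U hU hc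
  have z0 : ∀ i x, x ∉ U i → χ i x = 0 := fun i x h =>
    by_contra fun e => h ((h1 i).2.2 (subset_tsupport _ e))
  let W : A → Y → ℝ := fun α y => ∑ i, if k i y = α then χ i (p y) else 0
  have loc : ∀ y, ∀ᶠ y' in 𝓝 y, ∀ α,
      W α y' = ∑ i, if p y ∈ U i ∧ k i y = α then χ i (p y') else 0 := fun y => by
    have : ∀ i, ∀ᶠ y' in 𝓝 y, ∀ α, (if k i y' = α then χ i (p y') else 0) =
        if p y ∈ U i ∧ k i y = α then χ i (p y') else 0 := fun i => by
      by_cases h : p y ∈ U i
      · filter_upwards [hl i y h] with y' e α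
        simp only [e, h, true_and]
      · filter_upwards [hq.isCoveringMap.continuous.continuousAt.eventually
          (notMem_tsupport_iff_eventuallyEq.1 fun e => h ((h1 i).2.2 e))] with y' e α
        have e' : χ i (p y') = 0 := e
        simp only [e', ite_self]
    filter_upwards [eventually_all.2 this] with y' e α
    exact Finset.sum_congr rfl fun i _ => e i α
  let T : Y → Finset A := fun y => (Finset.univ.filter fun i => p y ∈ U i).image fun i => k i y
  have fin : ∀ y, ∀ᶠ y' in 𝓝 y, ∀ α ∉ T y, W α y' = 0 := fun y => by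
    filter_upwards [loc y] with y' e α hα
    rw [e]
    exact Finset.sum_eq_zero fun i _ => if_neg fun h =>
      hα (Finset.mem_image.2 ⟨i, Finset.mem_filter.2 ⟨Finset.mem_univ _, h.1⟩, h.2⟩)
  refine ⟨W, ⟨fun α e ha z hz s hs => ?_, fun g α y => Finset.sum_congr rfl fun i _ => ?_,
    fun y => ⟨T y, fin y⟩, fun y => ?_⟩, fun y => ⟨T y, Finset.card_image_le.trans ?_, fin y⟩⟩
  · have h6 : ContDiffAt ℝ ∞ (fun w => ∑ i,
        if p (s z) ∈ U i ∧ k i (s z) = α then χ i (e.symm w) else 0) z :=
      ContDiffAt.sum fun i _ => by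
        split_ifs
        · exact Complex.reCLM.contDiff.contDiffAt.comp z ((h1 i).1 e (hA ha) z hz)
        · exact contDiffAt_const
    refine h6.congr_of_eventuallyEq ?_
    filter_upwards [hs.1.eventually (loc (s z)), hs.2] with w a b
    rw [a α, b]
  · rw [hq.map_smul]
    by_cases h : p y ∈ U i
    · simp only [he i g y h, smul_left_cancel_iff]
    · simp only [z0 i _ h, ite_self]
  · rw [tsum_eq_sum (fin y).self_of_nhds, Finset.sum_comm, ← h2 (p y)]
    refine Finset.sum_congr rfl fun i _ => ?_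
    rw [Finset.sum_ite_eq]
    split_ifs with h
    · rfl
    · exact (z0 i _ fun e =>
        h (Finset.mem_image.2 ⟨i, Finset.mem_filter.2 ⟨Finset.mem_univ _, e⟩, rfl⟩)).symm
  · rw [← Set.ncard_coe_finset]
    simpa using hm (p y)

end Pool.Agent.Lib.MP_813db1_ag.NS
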