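import Pool.Agent.Lib.MP_813db1_ag.NS.StA

/-! The form of a horizontal cochain vanishes. -/

namespace Pool.Agent.Lib.MP_813db1_ag.NS

open Pool.Agent.Lib.MP_813db1_ag.HS Pool.Agent.Lib.MP_813db1_ag.AS Pool.Agent.Lib.MP_813db1_ag.SV
open SV.Bc F12
open Filter Topology Finset Function Fintype Matrix

namespace KerA

variable {A C J : Type} [AddCommGroup J] [Module ℝ J] {k : ℕ}

theorem same {S : Finset (Fin k)} {a : (Fin k → A × C) → ℝ}
    (h : ∀ i ∈ S, ∀ α x, a (update α i ((α i).1, x)) = a α) (α β : Fin k → A × C)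
    (e : ∀ i, (α i).1 = (β i).1 ∧ (i ∉ S → α i = β i)) : a α = a β := by
  induction S using Finset.induction_on generalizing α with
  | empty => exact congrArg a (funext fun i => (e i).2 (notMem_empty i))
  | insert j S _ ih =>
    rw [← h j (mem_insert_self j S) α (β j).2]
    refine ih (fun i hi => h i (mem_insert_of_mem hi)) _ fun i => ?_
    rcases eq_or_ne i j with rfl | n
    · rw [update_self]
      exact ⟨(e i).1, fun _ => Prod.ext (e i).1 rfl⟩
    · rw [update_of_ne n]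
      exact ⟨(e i).1, fun hi => (e i).2 fun q => (mem_insert.1 q).elim n hi⟩

theorem alg {S : Finset (Fin k)} {a : (Fin k → A × C) → ℝ}
    (h : ∀ i ∈ S, ∀ α x, a (update α i ((α i).1, x)) = a α)
    (m : MultilinearMap ℝ (fun _ : Fin k => J) ℝ) {r : A × C → J} {T : Finset A} {U : Finset C}
    (h0 : ∀ q ∉ T ×ˢ U, r q = 0) (hm : ∀ (ρ : Fin k → J) (v : Fin k → A), (∀ i, v i ∈ T) →
      (∀ i ∈ S, ρ i = ∑ y ∈ U, r (v i, y)) → m ρ = 0) : Sm a m r = 0 := by
  classical
  let R : Setoid (Fin k → A × C) := ⟨fun α β => ∀ i, (α i).1 = (β i).1 ∧ (i ∉ S → α i = β i),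
    fun _ _ => ⟨rfl, fun _ => rfl⟩, fun e i => ⟨(e i).1.symm, fun n => ((e i).2 n).symm⟩,
    fun e e' i => ⟨(e i).1.trans (e' i).1, fun n => ((e i).2 n).trans ((e' i).2 n)⟩⟩
  rw [sm_eq a m h0]
  refine sum_cancels_of_partition_cancels R fun β hβ => ?_
  have e : ((piFinset fun _ => T ×ˢ U).filter fun α => R α β) = piFinset fun i =>
      (T ×ˢ U).filter fun q => q.1 = (β i).1 ∧ (i ∉ S → q = β i) := by
    ext α
    simp only [mem_filter, mem_piFinset]
    exact forall_and.symm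
  rw [Finset.sum_congr rfl fun α hα => by rw [same h α β (mem_filter.1 hα).2], ← mul_sum, e,
    ← m.map_sum_finset fun _ q => r q]
  have hT := fun i => (mem_product.1 (mem_piFinset.1 hβ i)).1
  refine mul_eq_zero_of_right _ (hm _ (fun i => (β i).1) hT fun i hi => ?_)
  refine sum_nbij' Prod.snd (fun y => ((β i).1, y)) (fun q hq => ?_) (fun y hy => ?_)
    (fun q hq => ?_) (fun _ _ => rfl) fun q hq => ?_
  · exact (mem_product.1 (mem_filter.1 hq).1).2
  · exact mem_filter.2 ⟨mem_product.2 ⟨hT i, hy⟩, rfl, fun n => absurd hi n⟩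
  · exact Prod.ext (mem_filter.1 hq).2.1.symm rfl
  · exact congrArg r (Prod.ext (mem_filter.1 hq).2.1 rfl)

theorem det0 {S : Finset (Fin k)} {T : Finset A} (hc : T.card ≤ S.card) (hn : T.Nonempty)
    {u : A → Fin k → ℝ} (hu : ∑ x ∈ T, u x = 0) (M : Matrix (Fin k) (Fin k) ℝ) {v : Fin k → A}
    (hv : ∀ i, v i ∈ T) (hM : ∀ i ∈ S, M i = u (v i)) : M.det = 0 := by
  classical
  by_cases hi : Set.InjOn v S
  · have e : S.image v = T := eq_of_subset_of_card_le
      (fun x hx => (mem_image.1 hx).elim fun i q => q.2 ▸ hv i) (by rwa [card_image_of_injOn hi])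
    obtain ⟨i, h1⟩ := card_pos.1 (hn.card_pos.trans_le hc)
    refine exists_vecMul_eq_zero_iff.1 ⟨fun i => if i ∈ S then 1 else 0,
      fun q => by simpa [h1] using congrFun q i, ?_⟩
    rw [← hu, ← e, sum_image hi, ← Finset.sum_congr rfl hM]
    funext j
    simp [vecMul, dotProduct, Finset.sum_apply]
  · simp only [Set.InjOn, not_forall] at hi
    obtain ⟨i, h1, j, h2, h3, h4⟩ := hi
    exact det_zero_of_row_eq h4 ((hM i h1).trans ((congrArg u h3).trans (hM j h2).symm))

end KerA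

theorem kerS : KerS := by
  intro ι X Y G A C _ _ _ _ _ _ _ _ _ p W W' N B S a e z s F F' he hz hs ha ⟨T, hc, hT⟩
  obtain ⟨U, hU⟩ := F'.fin (s z)
  obtain ⟨T', t1, t2⟩ := F.loc he hz hs
  have t4 : ∑' x, jt W s z x = (1, 0) := (tsum_eq_sum t1.self_of_nhds).trans t2
  have t3 : ∑ x ∈ T, jt W s z x = (1, 0) :=
    (tsum_eq_sum (jt_zero hs.1 hT).self_of_nhds).symm.trans t4
  have h1 : ∀ x, ∑ y ∈ U, jt (fun (q : A × C) y => W q.1 y * W' q.2 y) s z (x, y) =
      jt W s z x := fun x => by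
    have k : (fun w => W x (s w)) =ᶠ[𝓝 z] fun w => ∑ y ∈ U, W x (s w) * W' y (s w) :=
      (hs.1.eventually hU).mono fun w hw => by
        simp only [← Finset.mul_sum, (tsum_eq_sum hw).symm.trans (F'.one _), mul_one]
    refine Prod.ext (by rw [Prod.fst_sum]; exact k.self_of_nhds.symm) ?_
    simp only [Prod.snd_sum, jt]
    rw [k.fderiv_eq, fderiv_fun_sum fun y _ =>
      ((F.prod F').sm (x, y) e he z hz s hs).differentiableAt (by simp)]
  refine KerA.alg (S := S.map (Fin.succEmb N)) (T := T) (U := U) (fun i hi => ?_) _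
    (jt_zero hs.1 ((hT.and hU).mono fun w ⟨a, b⟩ q hq => mul_eq_zero.2
      ((not_and_or.1 (mt Finset.mem_product.2 hq)).imp (a _) (b _)))).self_of_nhds
    fun ρ v hv hρ => ?_
  · obtain ⟨j, hj, rfl⟩ := mem_map.1 hi
    exact ha j hj
  · rw [mu_apply, dtm_apply]
    refine mul_eq_zero_of_right _ (KerA.det0 hc (nonempty_of_sum_ne_zero (f := jt W s z) ?_)
      (u := fun x j => (jt W s z x).2 (reB (B j))) (funext fun j => ?_) _ (fun i => hv i.succ)
      fun i hi => funext fun j => ?_)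
    · rw [t3]
      exact fun q => one_ne_zero (congrArg Prod.fst q)
    · rw [Finset.sum_apply, ← _root_.sum_apply, ← Prod.snd_sum, t3]
      rfl
    · rw [of_apply, hρ i.succ (mem_map_of_mem (Fin.succEmb N) hi), h1]

end Pool.Agent.Lib.MP_813db1_ag.NS
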