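import Pool.Agent.Lib.MP_813db1_ag.NS.StA
import Pool.Agent.Lib.MP_813db1_ag.AS.EAll

/-! Non-collapsing beyond the rank of the local groups. -/

namespace Pool.Agent.Lib.MP_813db1_ag.NS

open Pool.Agent.Lib.MP_813db1_ag.AS MeasureTheory Filter Topology Set Metric MulAction

namespace NcA

theorem cnj {G : Type} [Group G] {H Γ : Subgroup G} {h : ℕ} (hH : CdLe H h) (g : G)
    (le : ∀ a, g * a * g⁻¹ ∈ Γ → a ∈ H) : CdLe Γ h := by
  intro Γ' l b hb y y1 y2
  obtain ⟨x, x1, x2⟩ := hH (Γ'.comap (MulAut.conj g).toMonoidHom) (fun a ha => le a (l ha)) b hb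
    (fun u => y fun i => g * u i) (fun a ha u => by
      simpa [mul_assoc] using y1 ha fun i => g * u i) fun u => y2 fun i => g * u i
  refine ⟨fun u => x fun i => g⁻¹ * u i, fun a ha u => ?_, fun u => ?_⟩
  · have := x1 (x := g⁻¹ * a * g) (by simpa [mul_assoc] using ha) fun i => g⁻¹ * u i
    simpa [mul_assoc] using this
  · exact (x2 fun i => g⁻¹ * u i).trans (by simp)

variable {G Z : Type} [Group G] [MulAction G Z] [PseudoMetricSpace Z]

theorem lip (hi : ∀ (g : G) (y y' : Z), dist (g • y) (g • y') = dist y y') (z u u' : Z) :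
    infDist z (orbit G u) ≤ infDist z (orbit G u') + dist u u' := by
  refine sub_le_iff_le_add.1 (le_of_forall_gt fun r hr => ?_)
  obtain ⟨_, ⟨g, rfl⟩, hg⟩ := (infDist_lt_iff ⟨u', mem_orbit_self u'⟩).1 hr
  have h2 := infDist_le_dist_of_mem (x := z) (mem_orbit u g)
  have h3 := dist_triangle z (g • u') (g • u)
  rw [hi, dist_comm u'] at h3
  linarith

omit [PseudoMetricSpace Z] in
theorem im {X Y : Type} [TopologicalSpace X] [TopologicalSpace Y] [MulAction G Y] {p : Y → X}
    {Φ : Y → Z} (hp : IsQuotientCoveringMap p G) (hΦ : ∀ (g : G) y, Φ (g • y) = g • Φ y) (y : Y) :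
    Φ '' (p ⁻¹' {p y}) = orbit G (Φ y) := by
  ext u
  constructor
  · rintro ⟨y', h1, rfl⟩
    obtain ⟨g, rfl⟩ := hp.apply_eq_iff_mem_orbit.1 h1
    exact ⟨g, (hΦ g y).symm⟩
  · rintro ⟨g, rfl⟩
    exact ⟨g • y, hp.map_smul g, hΦ g y⟩

end NcA

theorem ncS (hV : VanH) : NcS := by
  intro ι X Y G Z _ _ _ _ _ _ _ _ _ _ _ _ _ _ _ K p Φ hp hE hi hΦ hc w N z h s T hw hs hm hz hH hT
  by_contra hn
  classical
  set m := 2 * Fintype.card ι - h with em
  have pc : Continuous p := hp.isCoveringMap.continuous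
  set ρ : Fin N → X → ℝ := fun i x => infDist (z i) (Φ '' (p ⁻¹' {x})) with hρ
  have e : ∀ i y, ρ i (p y) = infDist (z i) (orbit G (Φ y)) := fun i y =>
    congrArg (infDist (z i)) (NcA.im hp hΦ y)
  have ct : ∀ i, Continuous (ρ i) := fun i => hp.toIsQuotientMap.continuous_iff.2 (by
    rw [show ρ i ∘ p = _ from funext (e i)]
    exact (LipschitzWith.of_le_add (f := fun u => infDist (z i) (orbit G u))
      (NcA.lip hi (z i))).continuous.comp hc)
  obtain ⟨U, u1, u2, u3, u4⟩ := eCov' (m := m) (v := T.card * (2 * s) ^ m) hw ρ ct (fun x => by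
      obtain ⟨y, rfl⟩ := hp.surjective x
      obtain ⟨i, g, hg⟩ := hz (Φ y)
      exact ⟨i, (EA.lt_iff hp hΦ _ y w).2 ⟨g, hg⟩⟩)
    (fun I => by
      have sb : range (fun (x : X) (j : Fin m) => ρ (I j) x) ⊆ ⋃ t ∈ T,
          Icc (fun j => infDist (z (I j)) (orbit G t) - s)
            fun j => infDist (z (I j)) (orbit G t) + s := by
        rintro _ ⟨x, rfl⟩
        obtain ⟨y, rfl⟩ := hp.surjective x
        obtain ⟨t, ht, g, hg⟩ := hT (Φ y)
        have a1 := fun j => NcA.lip hi (z (I j)) t (g • Φ y)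
        have a2 := fun j => NcA.lip hi (z (I j)) (g • Φ y) t
        simp only [orbit_smul, dist_comm (g • Φ y)] at a1 a2
        refine mem_iUnion₂.2 ⟨t, ht, fun j => ?_, fun j => ?_⟩
        · simp only [e]
          linarith [a1 j]
        · simp only [e]
          linarith [a2 j]
      refine (measure_mono sb).trans ((measure_biUnion_finset_le _ _).trans (le_of_eq ?_))
      simp only [Real.volume_Icc_pi, add_sub_sub_cancel, Finset.prod_const, Finset.sum_const,
        Finset.card_univ, Fintype.card_fin, nsmul_eq_mul, ← two_mul]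
      rw [ENNReal.ofReal_mul T.card.cast_nonneg, ENNReal.ofReal_natCast,
        ENNReal.ofReal_pow (by positivity)])
    (by rw [← mul_assoc]; exact not_le.1 hn)
  have ex : ∀ i y, ∃ g : G, p y ∈ U i → dist (g • z i) (Φ y) < 3 * w := fun i y => by
    by_cases hy : p y ∈ U i
    · obtain ⟨g, hg⟩ := (EA.lt_iff hp hΦ _ y _).1 (u3 i _ hy)
      refine ⟨g⁻¹, fun _ => ?_⟩
      rwa [← hi g, smul_inv_smul]
    · exact ⟨1, fun h' => absurd h' hy⟩
  choose k hk using ex
  have un : ∀ i y (g : G), p y ∈ U i → dist (g • z i) (Φ y) < 3 * w →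
      (k i y : G ⧸ Hs G (z i) (10 * w)) = g := fun i y g hy hg => by
    refine QuotientGroup.eq.2 (Subgroup.subset_closure ?_)
    have := dist_triangle_right (k i y • z i) (g • z i) (Φ y)
    have h1 := hk i y hy
    change dist _ _ < _
    rw [← hi (k i y), smul_smul, mul_inv_cancel_left]
    linarith
  refine hV ι X Y G (Σ i : Fin N, G ⧸ Hs G (z i) (10 * w)) (Fin N) K p U
    (fun i y => ⟨i, k i y⟩) m h hp hE (by omega) ?_ u1 u2 (fun x => ?_)
    (fun i g y hy => congrArg (Sigma.mk i) ?_) fun i y hy => ?_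
  · rintro ⟨i, q⟩
    obtain ⟨g, rfl⟩ := QuotientGroup.mk_surjective q
    refine NcA.cnj (cdLe (hH i).1 (hH i).2.1 (hH i).2.2) g fun a ha => ?_
    have h1 : ((g * a * g⁻¹ * g : G) : G ⧸ Hs G (z i) (10 * w)) = g :=
      eq_of_heq (Sigma.mk.inj ha).2
    simpa using QuotientGroup.eq.1 h1.symm
  · rw [Set.ncard_eq_toFinset_card _ (toFinite _)]
    exact u4 x _ fun i hi => by simpa using hi
  · refine un i (g • y) (g * k i y) (by rwa [hp.map_smul]) ?_
    rw [mul_smul, hΦ, hi]
    exact hk i y hy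
  · filter_upwards [(continuous_const.dist hc).continuousAt.eventually_lt continuousAt_const
      (hk i y hy), pc.continuousAt.preimage_mem_nhds ((u1 i).mem_nhds hy)] with y' y1 y3
    exact congrArg (Sigma.mk i) (un i y' _ y3 y1)

end Pool.Agent.Lib.MP_813db1_ag.NS
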