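import Pool.Agent.Lib.MP_813db1_ag.NS.StA

/-! Degenerate cochains have integral zero. -/

namespace Pool.Agent.Lib.MP_813db1_ag.NS

open Pool.Agent.Lib.MP_813db1_ag.HS Pool.Agent.Lib.MP_813db1_ag.AS Pool.Agent.Lib.MP_813db1_ag.SV
open SV.Bc F12
open Function Matrix MeasureTheory Filter Topology

theorem nulS : NulS := by
  intro ι X Y G A _ _ _ _ _ _ _ _ _ _ _ _ M g μ p W t N B hq hA hch hg hμ F ht
  choose T t1 t2 using fun x => F.loc (chart_mem_atlas _ x) (mem_chart_target _ x) (ht x)
  replace t1 := fun x => (t1 x).self_of_nhds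
  let O : ((Fin (N + 1) → A) → ℝ) →ₗ[ℝ] X → ℝ :=
    { toFun := fun a x => Sm a (mu (dtm B)) (jt W (t x) (chartAt (ι → ℂ) x x)) / (g x).det.re
      map_add' := fun a b => funext fun x => by
        simp only [sm_eq _ _ (t1 x), Pi.add_apply, add_mul, Finset.sum_add_distrib, add_div]
      map_smul' := fun a b => funext fun x => by
        simp only [sm_eq _ _ (t1 x), Pi.smul_apply, smul_eq_mul, mul_assoc, ← Finset.mul_sum,
          mul_div_assoc, RingHom.id_apply] }
  let Z : Submodule ℝ (X → ℝ) :=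
    { carrier := {u | Integrable u μ ∧ ∫ x, u x ∂μ = 0}
      add_mem' := fun a b =>
        ⟨a.1.add b.1, (integral_add a.1 b.1).trans (by rw [a.2, b.2, add_zero])⟩
      zero_mem' := ⟨integrable_zero _ _ _, integral_zero _ _⟩
      smul_mem' := fun c _ a => ⟨a.1.smul c, (integral_smul c _).trans (by rw [a.2, smul_zero])⟩ }
  refine ⟨Z.comap O, fun a i j hj h1 h2 => ?_, fun a a' k => ?_⟩
  · rcases isEmpty_or_nonempty A with hA0 | ⟨⟨x0⟩⟩
    · rw [show a = 0 from funext fun α => isEmptyElim (α 0)]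
      exact zero_mem _
    have h3 : ∀ x β, a (j.insertNth x β) = a (j.insertNth x0 β) := fun x β => by
      rw [← Fin.update_insertNth (x := x0), h2]
    change O a ∈ Z
    revert hj h3
    refine Fin.cases (fun hj h3 => ?_) (fun j _ h3 => ?_) j
    · obtain _ | N := N
      · exact (hj (Fin.fin_one_eq_zero i).symm).elim
      convert F.stokes hq hA hch hg hμ ht B (b := fun β => a (Fin.insertNth 0 x0 β)) fun h β =>
        (h3 (h • x0) _).symm.trans ((congrArg a (funext (Fin.cases rfl fun _ => rfl))).trans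
          (h1 h _)) using 1
      change O a ∈ Z ↔ _ ∈ Z
      refine iff_of_eq (congrArg (· ∈ Z) (funext fun x => congrArg (· / (g x).det.re) ?_))
      rw [sm_slot _ (t1 x) x0 h3, sm_eq _ _ (t1 x), t2]
      simp [mu_apply]
    · refine (show O a = 0 from funext fun x => div_eq_zero_iff.2 (.inl ?_)) ▸ Z.zero_mem
      rw [sm_slot _ (t1 x) x0 h3, t2]
      exact Finset.sum_eq_zero fun β _ => mul_eq_zero_of_right _ (mul_eq_zero_of_right _
        (det_eq_zero_of_row_eq_zero j fun k => by simp [Fin.tail]))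
  · obtain ⟨k1, k2⟩ := k
    rw [map_sub] at k1 k2
    change ∫ x, O a x ∂μ = ∫ x, O a' x ∂μ
    by_cases h : Integrable (O a') μ
    · rw [← sub_eq_zero, ← integral_sub (by simpa using k1.add h) h]
      exact k2
    · rw [integral_undef h, integral_undef fun k => h (by simpa using k.sub k1)]

end Pool.Agent.Lib.MP_813db1_ag.NS
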