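import Pool.Agent.Lib.MP_813db1_ag.NS.StA
import Pool.Agent.Lib.MP_813db1_ag.AS.ExtT
import Pool.Agent.Lib.MP_813db1_ag.AS.F12b
import Pool.Agent.Lib.MP_813db1_ag.AS.PfA
import Pool.Agent.Lib.MP_813db1_ag.SV.Pu

/-! A group cocycle of top degree with nonzero integral. -/

namespace Pool.Agent.Lib.MP_813db1_ag.NS

open Pool.Agent.Lib.MP_813db1_ag.HS Pool.Agent.Lib.MP_813db1_ag.AS Pool.Agent.Lib.MP_813db1_ag.SV
open SV.Bc F12 Pf
open MeasureTheory Filter Topology Set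
open scoped ContDiff

namespace TopP

theorem loc {E G : Type} [NormedAddCommGroup E] [NormedSpace ℝ E] (T : Finset G) {χ : G → E → ℝ}
    {a : G → E → E →L[ℝ] ℝ} {f : G → G → E → ℝ} {z : E} {w : E → E → ℝ}
    (hχ : ∀ i, ContDiffAt ℝ ∞ (χ i) z) (h1 : ∑ i ∈ T, χ i z = 1)
    (s0 : ∀ u, ∑ i ∈ T, fderiv ℝ (χ i) z u = 0) (ha : ∀ i, ContDiffAt ℝ ∞ (a i) z ∧
      ∀ u v, fderiv ℝ (a i) z u v - fderiv ℝ (a i) z v u = w u v)
    (hf : ∀ i k, ContDiffAt ℝ ∞ (f i k) z ∧ fderiv ℝ (f i k) z = a k z - a i z)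
    {L : E → E →L[ℝ] ℝ} (hL : L =ᶠ[𝓝 z] fun y => ∑ i ∈ T, χ i y • a i y +
      ∑ i ∈ T, ∑ k ∈ T, (χ i y * f i k y) • fderiv ℝ (χ k) y) :
    ContDiffAt ℝ ∞ L z ∧ ∀ u v, w u v - (fderiv ℝ L z u v - fderiv ℝ L z v u) =
      ∑ i ∈ T, ∑ k ∈ T, (f k i z - f i k z) * (fderiv ℝ (χ i) z u * fderiv ℝ (χ k) z v) := by
  have A := fun i => fd_smul (hχ i) (a := a i) (Or.inl (ha i).1)
  have B := fun i k => fd_smul' (hχ i) (hχ k) (f := f i k) (Or.inl (hf i k).1)
  have c1 := ContDiffAt.sum (s := T) fun i _ => (A i).1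
  have c2 := fun i => ContDiffAt.sum (s := T) fun k _ => (B i k).1
  have c3 := ContDiffAt.sum (s := T) fun i _ => c2 i
  refine ⟨(c1.add c3).congr_of_eventuallyEq hL, fun u v => ?_⟩
  have D : ∀ u v, fderiv ℝ L z u v =
      ∑ i ∈ T, (fderiv ℝ (χ i) z u * a i z v + χ i z * fderiv ℝ (a i) z u v) +
      ∑ i ∈ T, ∑ k ∈ T, ((fderiv ℝ (χ i) z u * f i k z + χ i z * (a k z u - a i z u)) *
        fderiv ℝ (χ k) z v + χ i z * f i k z * fderiv ℝ (fderiv ℝ (χ k)) z u v) := fun u v => by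
    rw [hL.fderiv_eq, fderiv_fun_add (df c1) (df c3), fderiv_fun_sum fun i _ => df (A i).1,
      fderiv_fun_sum fun i _ => df (c2 i)]
    simp only [_root_.add_apply, _root_.sum_apply]
    congr 1
    · exact Finset.sum_congr rfl fun i _ => by rw [(A i).2]; simp
    · refine Finset.sum_congr rfl fun i _ => ?_
      rw [fderiv_fun_sum fun k _ => df (B i k).1]
      simp only [_root_.sum_apply]
      exact Finset.sum_congr rfl fun k _ => by rw [(B i k).2, (hf i k).2]; simp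
  have e1 : ∑ i ∈ T, χ i z * fderiv ℝ (a i) z u v =
      ∑ i ∈ T, χ i z * fderiv ℝ (a i) z v u + w u v := by
    rw [← one_mul (w u v), ← h1, Finset.sum_mul, ← Finset.sum_add_distrib]
    exact Finset.sum_congr rfl fun i _ => by rw [← (ha i).2]; ring
  have e2 : ∀ u v, ∑ i ∈ T, ∑ k ∈ T, χ i z * (a k z u - a i z u) * fderiv ℝ (χ k) z v =
      ∑ k ∈ T, fderiv ℝ (χ k) z v * a k z u := fun u v => by
    simp only [mul_sub, sub_mul, Finset.sum_sub_distrib, ← Finset.mul_sum, s0, mul_assoc,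
      ← Finset.sum_mul, h1]
    simp [mul_comm]
  have e3 : ∑ i ∈ T, ∑ k ∈ T, f k i z * (fderiv ℝ (χ i) z u * fderiv ℝ (χ k) z v) =
      ∑ i ∈ T, ∑ k ∈ T, fderiv ℝ (χ i) z v * f i k z * fderiv ℝ (χ k) z u := by
    rw [Finset.sum_comm]
    exact Finset.sum_congr rfl fun _ _ => Finset.sum_congr rfl fun _ _ => by ring
  have e4 : ∑ i ∈ T, ∑ k ∈ T, f i k z * (fderiv ℝ (χ i) z u * fderiv ℝ (χ k) z v) =
      ∑ i ∈ T, ∑ k ∈ T, fderiv ℝ (χ i) z u * f i k z * fderiv ℝ (χ k) z v :=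
    Finset.sum_congr rfl fun _ _ => Finset.sum_congr rfl fun _ _ => by ring
  rw [D, D]
  simp only [add_mul, sub_mul, Finset.sum_add_distrib, Finset.sum_sub_distrib, e1, e2, e3, e4,
    fun i => sym2 (hχ i) u v]
  ring

variable {ι X Y : Type} [Fintype ι] [DecidableEq ι] [TopologicalSpace X] [TopologicalSpace Y]
  {p : Y → X} {e e' : Ch ι X} {z : V ι} {s : V ι → Y}

/-- the differential of a function on the covering space. -/
noncomputable def dY (hp : IsLocalHomeomorph p) (e : Ch ι X) (φ : Y → ℝ) (y : Y) : Cv ι :=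
  fderiv ℝ (fun w => φ (sh hp y e w)) (e (p y))

theorem dY_sec (hp : IsLocalHomeomorph p) (hz : z ∈ e.target) (hs : F12.Sec p e z s) (φ : Y → ℝ) :
    dY hp e φ (s z) = fderiv ℝ (fun w => φ (s w)) z := by
  rw [dY, hs.2.self_of_nhds, e.right_inv hz]
  exact EventuallyEq.fderiv_eq ((hs.eq hp hz).mono fun w hw => by simp only [hw])

theorem dY_tr (hp : IsLocalHomeomorph p) {M : Atl ι X} (he : e ∈ M.A) (he' : e' ∈ M.A) {y : Y}
    (h : p y ∈ e.source) (h' : p y ∈ e'.source) {φ : Y → ℝ}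
    (hφ : ContDiffAt ℝ ∞ (fun w => φ (sh hp y e' w)) (e' (p y))) :
    dY hp e φ y = (dY hp e' φ y).comp (fderiv ℝ (e' ∘ e.symm) (e (p y))) := by
  have h1 : e.symm (e (p y)) ∈ e'.source := by rwa [e.left_inv h]
  have h2 : (e' ∘ e.symm) (e (p y)) = e' (p y) := congrArg e' (e.left_inv h)
  rw [dY, dY, ← h2, ← fderiv_comp _ (h2 ▸ df hφ) (df (F1.sm he he' (e.map_source h) h1))]
  exact EventuallyEq.fderiv_eq ((F1.ev (e.map_source h) e'.open_source h1).mono fun w hw => by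
    simp only [Function.comp, sh, e'.left_inv hw.2])

end TopP

open TopP in
theorem topA (h1 : CupS) (h2 : CohS) : TopA := by
  intro ι X Y G _ _ _ _ _ _ _ _ _ _ _ _ K M g μ p hq hA hch hg hr hμ ⟨β, α, v, μ', a1, a2, a3, a4⟩
  have hp := hq.isCoveringMap.isLocalHomeomorph
  have hc : ∀ x, M.ch x ∈ atlas (ι → ℂ) X := fun x => hch x ▸ chart_mem_atlas _ x
  obtain ⟨E, _, c, u, e1, e2, e3⟩ := extT ι X Y G _ p α v
    (fun x => ⟨_, chart_mem_atlas _ x, mem_chart_source _ x⟩) hq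
    fun e he z hz s s1 s2 => (a2 e he z hz s s1 s2).2
  choose τ hτ using c.surj
  obtain ⟨χ, P⟩ := puS ι X Y G M p hq
  have F := fam1 (ι := ι) hq P.cpt (fun e he z hz s s1 s2 => P.sm e (hA he) z hz s ⟨s1, s2⟩)
    fun y => ((Equiv.inv G).tsum_eq fun g => χ (g • y)).trans (P.sum y)
  generalize (fun (g : G) y => χ (g⁻¹ • y)) = W at F
  obtain ⟨f, hf⟩ : ∃ f : G → G → Y → ℝ, f = fun x y q => u (τ (y⁻¹ * x)) (x⁻¹ • q) := ⟨_, rfl⟩
  have f1 : ∀ h x y q, f (h * x) (h * y) (h • q) = f x y q := fun h x y q => by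
    simp [hf, mul_assoc, smul_smul]
  have f2 : ∀ x y z, ∃ t, ∀ q, f y z q - f x z q + f x y q = t := fun x y z => by
    obtain ⟨t, ht⟩ := (c.ker ((τ (z⁻¹ * x))⁻¹ * (τ (z⁻¹ * y) * τ (y⁻¹ * x)))).1 (by simp [hτ])
    refine ⟨t.toAdd, fun q => ?_⟩
    have k1 := e1 (τ (z⁻¹ * y)) (τ (y⁻¹ * x)) (x⁻¹ • q)
    have k2 := e1 (τ (z⁻¹ * x)) (c.ζ t) (x⁻¹ • q)
    rw [(c.ker _).2 ⟨_, rfl⟩, one_smul, show u (c.ζ t) _ = t.toAdd from e2 _ _, ht,
      mul_inv_cancel_left, k1, hτ, smul_smul, mul_inv_cancel_right] at k2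
    simp only [hf]
    linarith
  have f3 : ∀ x y, ∀ e ∈ atlas (ι → ℂ) X, ∀ z ∈ e.target, ∀ s, F12.Sec p e z s →
      ContDiffAt ℝ ∞ (fun w => f x y (s w)) z ∧
        fderiv ℝ (fun w => f x y (s w)) z = α e (y⁻¹ • s z) - α e (x⁻¹ • s z) :=
    fun x y e he z hz s hs => by
      have := e3 (τ (y⁻¹ * x)) e he z hz _ (hs.smul hq x⁻¹).1 (hs.smul hq x⁻¹).2
      rw [hτ, smul_smul, mul_inv_cancel_right] at this
      simpa only [hf] using this
  obtain ⟨y₀⟩ : Nonempty Y := inferInstance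
  obtain ⟨b, hb⟩ : ∃ b : G → G → G → ℝ, ∀ x y z q, b x y z =
      (f z y q - f y z q) - (f z x q - f x z q) + (f y x q - f x y q) := by
    choose t ht using f2
    exact ⟨fun x y z => t z y x - t x y z, fun x y z q => by
      simp only [← ht z y x q, ← ht x y z q]; ring⟩
  obtain ⟨N, B, cc, c1, c2⟩ := h1 ι G b (fun h x y z => by
    rw [hb _ _ _ (h • y₀), hb _ _ _ y₀]; simp only [f1]) fun x y z w => by
    simp only [fun x y z => hb x y z y₀]; ring
  let Θ : Ch ι X → Y → Cv ι := fun e y => ∑' x, W x y • α e (x⁻¹ • y) +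
    ∑' q : G × G, (W q.1 y * f q.1 q.2 y) • dY hp e (W q.2) y
  have Θ1 : ∀ (e : Ch ι X) y (T : Finset G), p y ∈ e.source → (∀ᶠ y' in 𝓝 y, ∀ x ∉ T, W x y' = 0) →
      Θ e y = ∑ x ∈ T, W x y • α e (x⁻¹ • y) +
        ∑ x ∈ T, ∑ x' ∈ T, (W x y * f x x' y) • dY hp e (W x') y := fun e y T hy hT => by
    obtain ⟨s1, s2⟩ := sh_self hp hy
    have k := (jt_zero s1.1 (s2.symm ▸ hT)).self_of_nhds
    simp only [Θ]
    rw [tsum_eq_sum (s := T) fun x hx => by rw [hT.self_of_nhds x hx, zero_smul],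
      tsum_eq_sum (s := T ×ˢ T) fun q hq => ?_, Finset.sum_product]
    rcases not_and_or.1 (mt Finset.mem_product.2 hq) with h | h
    · rw [hT.self_of_nhds _ h, zero_mul, zero_smul]
    · exact smul_eq_zero_of_right _ (congrArg Prod.snd (k _ h))
  obtain ⟨θ, hθ⟩ := desc (α := Θ) (U := univ) (F := fun _ => 0) hq hA hc
    (fun e he e' he' y hy hy' => by
      obtain ⟨T, hT⟩ := F.fin y
      rw [Θ1 e y T hy hT, Θ1 e' y T hy' hT]
      simp only [ContinuousLinearMap.add_comp, ContinuousLinearMap.finsetSum_comp,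
        ContinuousLinearMap.smul_comp]
      congr 1
      · refine Finset.sum_congr rfl fun x _ => ?_
        rw [a1 e he e' he' _ (by rwa [hq.map_smul]) (by rwa [hq.map_smul]), hq.map_smul]
      · refine Finset.sum_congr rfl fun x _ => Finset.sum_congr rfl fun x' _ => ?_
        rw [dY_tr hp (hA he) (hA he') hy hy'
          (F.sm x' e' he' _ (e'.map_source hy') _ (sh_self hp hy').1)])
    (fun _ _ _ _ _ _ _ => contDiffAt_const) fun e he z hz _ s hs h => by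
      congr 1
      simp only [Θ]
      rw [← (Equiv.mulLeft h).tsum_eq, ← ((Equiv.mulLeft h).prodCongr (Equiv.mulLeft h)).tsum_eq]
      congr 1
      · exact tsum_congr fun x => by
          rw [Equiv.coe_mulLeft, ← F.eqv h x (s z), mul_inv_rev, mul_smul, inv_smul_smul]
          rfl
      · refine tsum_congr fun q => ?_
        rw [dY_sec hp hz (hs.smul hq h), dY_sec hp hz hs, ← F.eqv h q.1 (s z), ← f1 h q.1 q.2 (s z)]
        simp only [← F.eqv h q.2 (s _)]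
        rfl
  choose σ hσ using hq.surjective
  let t : X → V ι → Y := fun x => sh hp (σ x) (chartAt (ι → ℂ) x)
  have ht : ∀ x, F12.Sec p (chartAt (ι → ℂ) x) (chartAt (ι → ℂ) x x) (t x) := fun x => by
    have := (sh_self hp (e := chartAt (ι → ℂ) x) (y := σ x)
      (by rw [hσ]; exact mem_chart_source _ x)).1
    rwa [hσ] at this
  have m := fun x => chart_mem_atlas (ι → ℂ) (M := X) x
  have n := fun x => mem_chart_target (ι → ℂ) (M := X) x
  have key : ∀ x, ContDiffAt ℝ ∞ (rep1 M θ (M.ch x)) (M.ch x x) ∧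
      Sm cc (mu (dtm B)) (jt W (t x) (chartAt (ι → ℂ) x x)) = topF fun u v =>
        β (M.ch x) (M.ch x x) u v - (fderiv ℝ (rep1 M θ (M.ch x)) (M.ch x x) u v -
          fderiv ℝ (rep1 M θ (M.ch x)) (M.ch x x) v u) := fun x => by
    obtain ⟨T, hT⟩ := F.fin (t x (chartAt (ι → ℂ) x x))
    have k : (fun w => ∑ α ∈ T, W α (t x w)) =ᶠ[𝓝 (chartAt (ι → ℂ) x x)] fun _ => 1 :=
      ((ht x).1.eventually hT).mono fun w hw => (tsum_eq_sum hw).symm.trans (F.one _)
    have sm := fun y => F.sm y _ (m x) _ (n x) _ (ht x)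
    have s0 : ∀ u, ∑ y ∈ T, fderiv ℝ (fun w => W y (t x w)) (chartAt (ι → ℂ) x x) u = 0 :=
      fun u => by
        rw [← _root_.sum_apply, ← fderiv_fun_sum fun y _ => df (sm y), k.fderiv_eq]
        simp
    rw [hch]
    obtain ⟨l1, l2⟩ := loc T (L := rep1 M θ (chartAt (ι → ℂ) x)) sm k.self_of_nhds s0
      (a := fun y w => α (chartAt (ι → ℂ) x) (y⁻¹ • t x w))
      (fun y => (a2 _ (m x) _ (n x) _ ((ht x).smul hq y⁻¹).1 ((ht x).smul hq y⁻¹).2).1)
      (fun y y' => f3 y y' _ (m x) _ (n x) _ (ht x)) (by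
        filter_upwards [(ht x).ev hp (n x), (chartAt (ι → ℂ) x).open_target.mem_nhds (n x),
          (ht x).1.eventually hT.eventually_nhds] with w w1 w2 w3
        rw [hθ _ (m x) w w2 trivial _ w1, Θ1 _ _ T
          (w1.2.self_of_nhds ▸ (chartAt (ι → ℂ) x).map_target w2) w3]
        simp [dY_sec hp w2 w1])
    refine ⟨l1, c2 T _ _ (jt_zero (ht x).1 hT).self_of_nhds k.self_of_nhds fun y u v => ?_⟩
    rw [l2]
    simp only [fun y y' y'' => hb y y' y'' (t x (chartAt (ι → ℂ) x x)), jt, add_mul,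
      Finset.sum_add_distrib, ← Finset.mul_sum, s0, mul_zero, add_zero]
    simp only [sub_mul (_ - _), Finset.sum_sub_distrib]
    rw [Finset.sum_comm (f := fun y' y'' => (f y'' y _ - f y y'' _) * _)]
    simp [← Finset.mul_sum, ← Finset.sum_mul, s0]
  obtain ⟨-, hV⟩ := AY.volS' ι X M g hg
  obtain rfl : μ' = μ := by
    refine (hV μ hμ).uniq μ' fun x => ?_
    rw [hμ _ (M.ch_mem x), hch x, a3 _ (m x)]
    congr 1
    refine withDensity_congr_ae ?_
    filter_upwards [ae_restrict_mem (chartAt (ι → ℂ) x).open_target.measurableSet] with w hw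
    rw [hr _ (m x) w hw]
  have h6 : ∀ x, g x = K.g (chartAt (ι → ℂ) x) (chartAt (ι → ℂ) x x) := fun x => by
    rw [← (AY.repA' ι X M).repF_self g x, hch x, hr _ (m x) _ (n x)]
  refine ⟨W, t, N, B, cc, F, ht, c1, fun h0 => a4 ?_⟩
  simp only [itg, fun x => (key x).2] at h0
  rw [h2 ι X M g μ' (fun x => β (M.ch x) (M.ch x x)) _ _
    (fun x => (hp.localInverseAt (σ x)).source)
    (fun x y => α (M.ch y) (hp.localInverseAt (σ x) y)) θ hg hμ
    (fun x => ⟨(hp.localInverseAt _).open_source, by nth_rw 2 [← hσ x]; simp⟩)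
    (fun x => prim2_loc fun y hy => ?_)
    (prim2_loc fun y _ => ⟨(key y).1, fun _ _ => rfl⟩) fun _ _ _ => rfl] at h0
  · simpa only [h6, hch] using h0
  · have z1 := (M.ch y).map_source (M.mem y)
    have z2 : (M.ch y).symm (M.ch y y) ∈ (hp.localInverseAt (σ x)).source := by
      rwa [(M.ch y).left_inv (M.mem y)]
    have z3 := sh_sec hp z1 z2
    have z4 : rep1 M (fun y => α (M.ch y) (hp.localInverseAt (σ x) y)) (M.ch y) =ᶠ[𝓝 (M.ch y y)]
        fun w => α (M.ch y) (sh hp (σ x) (M.ch y) w) := by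
      filter_upwards [F1.ev z1 (hp.localInverseAt _).open_source z2] with w hw
      have z5 := hp.apply_localInverseAt_of_mem hw.2
      rw [rep1, sh, a1 _ (hc y) _ (hc ((M.ch y).symm w)) _ (by rw [z5]; exact (M.ch y).map_target hw.1)
        (by rw [z5]; exact M.mem _), z5, (M.ch y).right_inv hw.1]
    rw [z4.fderiv_eq]
    exact (a2 _ (hc y) _ z1 _ z3.1 z3.2).1.imp_left fun h => h.congr_of_eventuallyEq z4

end Pool.Agent.Lib.MP_813db1_ag.NS
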