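import Pool.Agent.Lib.MP_813db1_ag.NS.StA

/-! Covers of small multiplicity with stabilisers of small dimension do not exist. -/

namespace Pool.Agent.Lib.MP_813db1_ag.NS

open Pool.Agent.Lib.MP_813db1_ag.HS Pool.Agent.Lib.MP_813db1_ag.AS Pool.Agent.Lib.MP_813db1_ag.SV
open SV.Bc F12
open MeasureTheory Filter Topology

theorem vanH (h1 : ZigS) (h2 : NulS) (h3 : KerS) (h4 : FamA) (h5 : TopA) : VanH := by
  intro ι X Y G A κ _ _ _ _ _ _ _ _ _ _ _ _ _ _ _ K p U k m h hq hE hm hc u1 u2 u3 k1 k2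
  obtain ⟨M, g, hA, hch, hg, hrep⟩ := maxAtl AY.repA' ι X K
  obtain ⟨⟨μ, hμ⟩, -⟩ := AY.volS' ι X M g hg
  obtain ⟨W', t, N, B, c, F', ht, c1, c2⟩ := h5 ι X Y G K M g μ p hq hA hch hg hrep hμ hE
  obtain ⟨W, F, hW⟩ := h4 ι X Y G A κ M p U k m hq hA u1 u2 u3 k1 k2
  obtain rfl : N = 2 * Fintype.card ι := by simpa [mul_comm] using Fintype.card_congr B
  obtain ⟨Z, z1, z2⟩ := h2 ι X Y G (A × G) M g μ p _ t _ B hq hA hch hg hμ (F.prod F') ht
  obtain ⟨a, S, s1, s2, s3⟩ := h1 G A _ m h c Z c1 hm hc z1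
  have n1 := fun x => chart_mem_atlas (ι → ℂ) (M := X) x
  have n2 := fun x => mem_chart_target (ι → ℂ) (M := X) x
  have e1 : ∀ x, itg B (fun (q : A × G) y => W q.1 y * W' q.2 y) t g a x = 0 := fun x => by
    rw [itg, h3 ι X Y G A G p W W' _ B S a _ _ _ F F' (n1 x) (n2 x) (ht x) s2 (s1 ▸ hW _),
      zero_div]
  have e2 : ∀ x, itg B W' t g c x = itg B (fun (q : A × G) y => W q.1 y * W' q.2 y) t g
      (fun α => c fun i => (α i).2) x := fun x => by
    refine congrArg (· / (g x).det.re) (((F'.fst F (n1 x) (n2 x) (ht x) c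
      (mu (dtm B))).symm.trans (sm_equiv (Equiv.prodComm A G) _ _ _).symm).trans ?_)
    congr 1
    funext q
    simp only [jt, Equiv.prodComm_apply, Prod.fst_swap, Prod.snd_swap, mul_comm]
  refine c2 ?_
  simp only [e2, z2 _ _ s3, e1, integral_zero]

end Pool.Agent.Lib.MP_813db1_ag.NS
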