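import Pool.Agent.Lib.MP_813db1_ag.NS.StA

/-! The zigzag in the double complex of invariant bicochains. -/

namespace Pool.Agent.Lib.MP_813db1_ag.NS

open Pool.Agent.Lib.MP_813db1_ag.SV

namespace Zig

open Cd

variable {G A : Type} [Group G] [MulAction G A] {N p q : ℕ}

/-- invariant bicochains. -/
def Inv (y : (Fin p → A) → (Fin q → G) → ℝ) : Prop :=
  ∀ (h : G) v u, y (h • v) (fun i => h * u i) = y v u

/-- the coboundary in the second variable. -/
def dG (y : (Fin p → A) → (Fin q → G) → ℝ) (v : Fin p → A) (u : Fin (q + 1) → G) : ℝ := dl (y v) u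

/-- the coboundary in the first variable. -/
def dN (y : (Fin p → A) → (Fin q → G) → ℝ) (v : Fin (p + 1) → A) (u : Fin q → G) : ℝ :=
  dl (fun v' => y v' u) v

/-- the cochain on the product given by a choice of slots. -/
def ev (y : (Fin p → A) → (Fin q → G) → ℝ) (σ : Fin p → Fin (N + 1)) (τ : Fin q → Fin (N + 1))
    (α : Fin (N + 1) → A × G) : ℝ := y (fun j => (α (σ j)).1) fun l => (α (τ l)).2

theorem Inv.dN {y : (Fin p → A) → (Fin q → G) → ℝ} (h : Inv y) : Inv (Zig.dN y) := fun g v u => by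
  simp only [Zig.dN, dl]
  exact Finset.sum_congr rfl fun i _ => congrArg _ (h g (fun j => v (i.succAbove j)) u)

omit [Group G] [MulAction G A] in
theorem dG_dN (y : (Fin p → A) → (Fin q → G) → ℝ) (v : Fin (p + 1) → A) (u : Fin (q + 1) → G) :
    dG (dN y) v u = dN (dG y) v u := by
  simp only [dG, dN, dl, Finset.mul_sum]
  rw [Finset.sum_comm]
  exact Finset.sum_congr rfl fun _ _ => Finset.sum_congr rfl fun _ _ => mul_left_comm _ _ _

theorem solve {h b : ℕ} (hs : ∀ v : A, CdLe (MulAction.stabilizer G v) h) (hb : h ≤ b)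
    {y : (Fin (p + 1) → A) → (Fin (b + 2) → G) → ℝ} (hy : Inv y) (h0 : ∀ v u, dG y v u = 0) :
    ∃ x : (Fin (p + 1) → A) → (Fin (b + 1) → G) → ℝ, Inv x ∧ dG x = y := by
  have k1 : ∀ v : Fin (p + 1) → A, ∃ x : (Fin (b + 1) → G) → ℝ,
      MulAction.stabilizer G v ≤ St x ∧ ∀ u, dl x u = y v u := fun v =>
    hs (v 0) _ (fun g (hg : g ∈ MulAction.stabilizer G v) => MulAction.mem_stabilizer_iff.2
      (congrFun (MulAction.mem_stabilizer_iff.1 hg) 0)) b hb (y v)
      (fun g hg u => by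
        have := hy g v u
        rwa [MulAction.mem_stabilizer_iff.1 hg] at this) (h0 v)
  choose x0 x1 x2 using k1
  obtain ⟨r, r1, r2⟩ : ∃ r : (Fin (p + 1) → A) → Fin (p + 1) → A,
      (∀ v, ∃ g : G, g • v = r v) ∧ ∀ (g : G) v, r (g • v) = r v :=
    ⟨fun v => (Quotient.mk (MulAction.orbitRel G _) v).out,
      fun v => Quotient.mk_out (s := MulAction.orbitRel G _) v,
      fun g v => congrArg Quotient.out (Quotient.sound (MulAction.mem_orbit v g))⟩
  choose g hg using r1
  refine ⟨fun v u => x0 (r v) fun i => g v * u i, fun k v u => ?_, ?_⟩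
  · have := x1 (r v) (x := g (k • v) * k * (g v)⁻¹) (MulAction.mem_stabilizer_iff.2 (by
      rw [mul_smul, mul_smul, ← hg v, inv_smul_smul, hg, r2, hg])) fun i => g v * u i
    simp only [r2]
    simpa [mul_assoc] using this
  · funext v u
    exact (x2 (r v) fun i => g v * u i).trans (by rw [← hg v, hy])

theorem deg {Z : Submodule ℝ ((Fin (N + 1) → A × G) → ℝ)} (hZ : Deg G Z) (hN : N ≠ 0)
    {x : (Fin p → A) → (Fin q → G) → ℝ} (hx : Inv x) {σ : Fin p → Fin (N + 1)}
    {τ : Fin q → Fin (N + 1)} (s : Fin (N + 1)) (h1 : ∀ j, σ j ≠ s) (h2 : ∀ l, τ l ≠ s) :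
    ev x σ τ ∈ Z := by
  obtain ⟨i, hi⟩ : ∃ i, s ≠ i := by
    have : Nontrivial (Fin (N + 1)) := Fin.nontrivial_iff_two_le.2 (by omega)
    obtain ⟨i, hi⟩ := exists_ne s
    exact ⟨i, hi.symm⟩
  refine hZ _ i s hi (fun h α => hx h _ _) fun α w => ?_
  simp only [ev, Function.update_of_ne (h1 _), Function.update_of_ne (h2 _)]

omit [Group G] [MulAction G A] in
theorem ev_dG (x : (Fin p → A) → (Fin q → G) → ℝ) (σ : Fin p → Fin (N + 1))
    (τ : Fin (q + 1) → Fin (N + 1)) :
    ev (dG x) σ τ = ∑ l : Fin (q + 1), (-1 : ℝ) ^ (l : ℕ) • ev x σ fun j => τ (l.succAbove j) := by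
  funext α
  simp only [ev, dG, dl, Finset.sum_apply, Pi.smul_apply, smul_eq_mul]

omit [Group G] [MulAction G A] in
theorem ev_dN (x : (Fin p → A) → (Fin q → G) → ℝ) (σ : Fin (p + 1) → Fin (N + 1))
    (τ : Fin q → Fin (N + 1)) :
    ev (dN x) σ τ = ∑ l : Fin (p + 1), (-1 : ℝ) ^ (l : ℕ) • ev x (fun j => σ (l.succAbove j)) τ := by
  funext α
  simp only [ev, dN, dl, Finset.sum_apply, Pi.smul_apply, smul_eq_mul]

theorem zig {m h : ℕ} {c : (Fin (N + 1) → G) → ℝ} {Z : Submodule ℝ ((Fin (N + 1) → A × G) → ℝ)}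
    (hc : Coc c) (hm : m + h ≤ N) (hs : ∀ v : A, CdLe (MulAction.stabilizer G v) h)
    (hZ : Deg G Z) (a : ℕ) : a ≤ m → ∀ b, a + b = N →
    ∃ (y : (Fin (a + 1) → A) → (Fin (b + 1) → G) → ℝ) (ε : ℝ), Inv y ∧ (∀ v u, dG y v u = 0) ∧
      (∀ v u, dN y v u = 0) ∧ ∀ (σ : Fin (a + 1) → Fin (N + 1)) (τ : Fin (b + 1) → Fin (N + 1)),
        (∀ j, (σ j : ℕ) = b + j) → (∀ l, (τ l : ℕ) = l) →
        (fun α => c fun i => (α i).2) - ε • ev y σ τ ∈ Z := by
  induction a with
  | zero =>
    intro _ b hb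
    obtain rfl : b = N := by omega
    refine ⟨fun _ u => c u, 1, fun g _ u => hc.1 g u, fun _ u => hc.2 u, fun v u => ?_,
      fun σ τ _ h2 => ?_⟩
    · simp [dN, dl, Fin.sum_univ_succ]
    · obtain rfl : τ = id := funext fun l => Fin.ext (h2 l)
      rw [one_smul]
      convert Z.zero_mem
      exact sub_self _
  | succ a ih =>
    intro ha b hb
    obtain ⟨y, ε, y1, y2, y3, y4⟩ := ih (by omega) (b + 1) (by omega)
    obtain ⟨x, x1, rfl⟩ := solve hs (by omega : h ≤ b) y1 y2
    refine ⟨dN x, ε * (-1) ^ (b + 1), x1.dN, fun v u => (dG_dN x v u).trans (y3 v u),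
      fun v u => dl_dl (fun v' => x v' u) v, fun σ τ h1 h2 => ?_⟩
    have hN : N ≠ 0 := by omega
    let τ' : Fin (b + 2) → Fin (N + 1) := fun l => ⟨l, by omega⟩
    have e0 := y4 (fun j => σ j.succ) τ' (fun j => by rw [h1, Fin.val_succ]; omega) fun _ => rfl
    have e1 : ev (dG x) (fun j => σ j.succ) τ' -
        (-1 : ℝ) ^ (b + 1) • ev x (fun j => σ j.succ) τ ∈ Z := by
      have : (fun j => τ' ((Fin.last (b + 1)).succAbove j)) = τ := funext fun j => Fin.ext (by
        rw [h2, Fin.succAbove_last]; rfl)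
      rw [ev_dG, Fin.sum_univ_castSucc, this, Fin.val_last, add_sub_cancel_right]
      refine Z.sum_mem fun l _ => Z.smul_mem _ (deg hZ hN x1 (τ' l.castSucc) (fun j e => ?_)
        fun j e => ?_)
      · have := congrArg Fin.val e
        rw [h1, Fin.val_succ] at this
        have h3 := l.2
        simp only [τ', Fin.val_castSucc] at this
        omega
      · exact Fin.succAbove_ne l.castSucc j (Fin.ext (Fin.mk.inj e))
    have e2 : ev (dN x) σ τ - ev x (fun j => σ j.succ) τ ∈ Z := by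
      rw [ev_dN, Fin.sum_univ_succ]
      simp only [Fin.val_zero, pow_zero, one_smul, Fin.succAbove_zero, add_sub_cancel_left]
      refine Z.sum_mem fun l _ => Z.smul_mem _ (deg hZ hN x1 (σ l.succ) (fun j e => ?_)
        fun j e => ?_)
      · have := congrArg Fin.val e
        rw [h1, h1] at this
        exact Fin.succAbove_ne l.succ j (Fin.ext (Nat.add_left_cancel this))
      · have := congrArg Fin.val e
        rw [h1, h2, Fin.val_succ] at this
        have h3 := j.2
        omega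
    have := Z.sub_mem (Z.add_mem e0 (Z.smul_mem ε e1)) (Z.smul_mem (ε * (-1) ^ (b + 1)) e2)
    convert this using 1
    module

end Zig

open Zig in
theorem zigS : ZigS := by
  intro G A _ _ N m h c Z hc hm hs hZ
  obtain ⟨b, hb⟩ : ∃ b, m + b = N := ⟨N - m, by omega⟩
  obtain ⟨y, ε, -, -, -, hy⟩ := zig hc hm hs hZ m le_rfl b hb
  refine ⟨_, Finset.univ.map ⟨fun j : Fin m => (⟨b + j, by omega⟩ : Fin N), fun j j' e =>
    Fin.ext (by simpa using e)⟩, by simp, fun i hi α x => ?_,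
    hy (fun j => ⟨b + j, by omega⟩) (fun l => ⟨l, by omega⟩) (fun _ => rfl) fun _ => rfl⟩
  obtain ⟨j, -, rfl⟩ := Finset.mem_map.1 hi
  simp only [Pi.smul_apply, ev]
  congr 2
  · funext k
    rw [Function.update_apply]
    split_ifs with e
    · rw [e]
    · rfl
  · funext l
    rw [Function.update_of_ne fun e => ?_]
    have := congrArg Fin.val e
    have h3 := l.2
    simp at this
    omega

end Pool.Agent.Lib.MP_813db1_ag.NS
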