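import Pool.Agent.Lib.MP_813db1_ag.NS.AllB
import Pool.Agent.Lib.MP_813db1_ag.NS.Nc
import Pool.Agent.Lib.MP_813db1_ag.NS.VanH
import Pool.Agent.Lib.MP_813db1_ag.NS.Zig
import Pool.Agent.Lib.MP_813db1_ag.NS.Null
import Pool.Agent.Lib.MP_813db1_ag.NS.Ker
import Pool.Agent.Lib.MP_813db1_ag.NS.FamA
import Pool.Agent.Lib.MP_813db1_ag.NS.TopA
import Pool.Agent.Lib.MP_813db1_ag.NS.Cup
import Pool.Agent.Lib.MP_813db1_ag.NS.Coh

/-! The normal Margulis subgroup statement, with no hypotheses left. -/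

namespace Pool.Agent.Lib.MP_813db1_ag.NS

/-- The closed form of `NsS`. -/
theorem nsAll : NsS := nsOf (ncS (vanH zigS nulS kerS famA (topA cupS cohS)))

end Pool.Agent.Lib.MP_813db1_ag.NS
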