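import Pool.Agent.Lib.MP_813db1_ag.NS.Bs2
import Pool.Agent.Lib.MP_813db1_ag.AS.MetCov
import Pool.Agent.Lib.MP_bbd4b9_ag.AF.All

/-! The volume comparison on the covering space. -/

namespace Pool.Agent.Lib.MP_813db1_ag.NS

open Pool.Agent.Lib.MP_813db1_ag.HS Pool.Agent.Lib.MP_813db1_ag.AS
open Pool.Agent.Lib.MP_bbd4b9_ag Pool.Agent.Lib.MP_bbd4b9_ag.LC
open MeasureTheory Filter Topology Set Metric
open scoped ComplexOrder ContDiff ENNReal

open MetCov in
theorem Bg.of_bish (hB : AF.Bish2) (hA : RepA) (hR : RepB) (hm : MatS) : BgS := by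
  intro ι _ _ _
  obtain ⟨C, C0, hB⟩ := hB ι
  refine ⟨C * 240 ^ (2 * Fintype.card ι), by positivity, ?_⟩
  intro X Y G _ _ _ _ _ _ _ _ _ _ M h c a δ p γ _ μ ν hh hc hric hcoh D hbij hd hμ hν y r R hr hrR
    hR1
  have hR0 : 0 < R := hr.trans_le hrR
  set l : ℝ := ((48 * R) ^ 2)⁻¹ with hl
  have hl0 : 0 < l := by positivity
  set r0 : ℝ := r / (240 * R) with hr0
  have r0p : 0 < r0 := by positivity
  have r0s : r0 ≤ 1 / 240 := by
    rw [hr0, div_le_div_iff₀ (by positivity) (by norm_num)]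
    linarith
  have hs : r0 ^ 2 < 1 ^ 2 := pow_lt_pow_left₀ (by linarith) r0p.le two_ne_zero
  have hb : (1 : ℝ) ^ 2 / 4 < 1 ^ 2 := by norm_num
  have k2 := (((hA ι X M).isK_iff h).mp hh).2
  have hh1 := isK_smul hA hh hl0
  have hc1 := cost_smul hc hl0
  set h1 : X → Mat ι := fun x => (l : ℂ) • h x with hh1d
  set c1 : X → X → ℝ := fun p q => l * c p q with hc1d
  have hrat : ∀ x, rat h1 h x = l ^ Fintype.card ι := fun x => by
    rw [rat, hh1d, Matrix.det_smul, ← Complex.ofReal_pow, Complex.re_ofReal_mul,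
      mul_div_assoc, div_self (hm.det ι _ (k2 x)).1.ne', mul_one]
  have z1 : M.Ck ∞ fun _ => (0 : ℝ) := fun e _ z _ => contDiffAt_const
  have z2 : ∀ y, M.grad h1 (fun _ => (0 : ℝ)) (fun _ => (0 : ℝ)) y ≤ 1 := by
    intro y
    have := (hR ι X M).dfn_comp (fun _ => (0 : ℝ)) (fun _ => (0 : ℝ)) y
      (fun e _ z _ => contDiffAt_const) (differentiableAt_const _)
    simp only [deriv_const', Complex.ofReal_zero, zero_smul] at this
    simp [Atl.grad, this, grL]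
  have z3 : ∀ y, (M.ricF h1 y + ((((1 : ℝ) ^ 2)⁻¹ : ℝ) : ℂ) • h1 y).PosSemidef := by
    intro y
    have e2 : 0 ≤ l - (48 ^ 2 : ℝ)⁻¹ := by
      rw [sub_nonneg, hl]
      exact inv_anti₀ (by positivity) (pow_le_pow_left₀ (by positivity) (by linarith) 2)
    have h9 := (hric y).add ((k2 y).posSemidef.smul (Complex.zero_le_real.2 e2))
    rw [hh1d, ric_smul hA hR hm hh hl0]
    convert h9 using 1
    push_cast
    module
  obtain ⟨k, ⟨b1, b2, b3, b4, b5⟩, dle, dge⟩ :=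
    ((hB X G M h h1 μ c1 a (fun _ => 0) (p y) 1 r0 hh hh1 hμ hc1 z1 z2 le_rfl r0p (by linarith)
      fun y _ => ⟨hcoh y, z3 y⟩).and ((D.le (r ^ 2)).and (D.ge R))).exists
  have lp : 0 < l ^ Fintype.card ι := by positivity
  simp only [hrat, integral_mul_const, integrable_mul_const_iff lp.ne'.isUnit] at b4 b5
  rw [← mul_assoc] at b5
  have hI : ∀ t < (1 : ℝ) ^ 2, ENNReal.ofReal (∫ z, (AF.cnt c1 a k (p y) 1 t z : ℝ) ∂μ) =
      ∫⁻ z, ({b | rho c1 a k (p y) 1 z b ≤ t}.encard : ℝ≥0∞) ∂μ := fun t ht => by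
    rw [ofReal_integral_eq_lintegral_ofReal (b4 t ht) (.of_forall fun _ => Nat.cast_nonneg _)]
    refine lintegral_congr fun z => ?_
    have hf : {b | rho c1 a k (p y) 1 z b ≤ t}.Finite :=
      (b1 z).subset fun b hb => lt_of_le_of_lt hb ht
    rw [← hf.cast_ncard_eq, ENNReal.ofReal_natCast]
    rfl
  have up : ν (ball y R) ≤ ENNReal.ofReal (∫ z, (AF.cnt c1 a k (p y) 1 (1 ^ 2 / 4) z : ℝ) ∂μ) := by
    rw [hI _ hb, hν _ measurableSet_ball]
    refine lintegral_mono fun z => ENat.toENNReal_le.2 (encard_le_encard_of_injOn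
      (f := fun y' => (γ y)⁻¹ * γ y') ?_ fun u hu v hv e =>
        hbij.1 (Prod.ext (hu.2.trans hv.2.symm) (mul_left_cancel e)))
    rintro u ⟨hu, rfl⟩
    obtain ⟨s, s0, sk, e, hs'⟩ := dge _ _ _ _ (hd y u ▸ mem_ball'.1 hu)
    show rho c1 a k (p y) 1 (p u) ((γ y)⁻¹ * γ u) ≤ 1 ^ 2 / 4
    rw [← e, inv_mul_cancel_left, ← sk]
    refine (b2 s s0).trans ?_
    rw [hc1d, act_smul, mul_left_comm, hl, inv_mul_le_iff₀ (by positivity)]
    nlinarith [sq_nonneg R]
  have lo : ENNReal.ofReal (∫ z, (AF.cnt c1 a k (p y) 1 (r0 ^ 2) z : ℝ) ∂μ) ≤ ν (ball y r) := by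
    rw [hI _ hs, hν _ measurableSet_ball]
    choose σ hσ using hbij.2
    refine lintegral_mono fun z => ENat.toENNReal_le.2 (encard_le_encard_of_injOn
      (f := fun b => σ (z, γ y * b)) (fun b hb => ⟨?_, congrArg Prod.fst (hσ _)⟩)
      fun u _ v _ e => mul_left_cancel (congrArg Prod.snd
        ((hσ (z, γ y * u)).symm.trans ((congrArg (fun w => (p w, γ w)) e).trans (hσ _)))))
    replace hb : rho c1 a k (p y) 1 z b ≤ r0 ^ 2 := hb
    obtain ⟨s, s0, rfl, rfl, hs'⟩ := b3 z b (hb.trans_lt hs)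
    rw [← hs', hc1d, act_smul, mul_left_comm, hl, inv_mul_le_iff₀ (by positivity)] at hb
    have e : (48 * R) ^ 2 * r0 ^ 2 = (r / 5) ^ 2 := by
      rw [hr0]
      field_simp
      norm_num
    rw [e] at hb
    have h2 := dle s (γ y) (hb.trans (pow_le_pow_left₀ (by positivity) (by linarith) 2))
    have h3 : √(k * act c k s) ≤ r / 5 := Real.sqrt_le_iff.2 ⟨by positivity, hb⟩
    have h4 := Prod.ext_iff.1 (hσ (s k, γ y * lab a s k))
    rw [mem_ball', hd, show p (σ _) = _ from h4.1, show γ (σ _) = _ from h4.2, ← s0]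
    linarith
  have e : 1 / r0 = 240 * (R / r) := by
    rw [hr0]
    field_simp
  rw [e, mul_pow, ← mul_assoc] at b5
  refine up.trans ((ENNReal.ofReal_le_ofReal (le_of_mul_le_mul_right b5 lp)).trans ?_)
  rw [ENNReal.ofReal_mul (by positivity)]
  exact mul_le_mul_right lo _

theorem bgS : BgS := Bg.of_bish AF.All.bish AY.repA' AY.repB' mat

end Pool.Agent.Lib.MP_813db1_ag.NS
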