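import Pool.Agent.Lib.MP_813db1_ag.NS.Dif

/-! The resolvents of bump functions and the approximate distance functions. -/

namespace Pool.Agent.Lib.MP_813db1_ag.NS

open Pool.Agent.Lib.MP_813db1_ag.AS
open MeasureTheory Filter Topology Set Metric

namespace Ana

variable {G Y : Type} [Group G] [MulAction G Y] [MeasurableSpace Y] [MetricSpace Y] {T : Dif Y}
  {n : ℕ} {c : ℝ}

lemma cmp (hC : T.Cal) (hM : T.Mp c) {τ A : ℝ} (h0 : 0 < τ) (h1 : τ ≤ 1 / 2) {u w : Y → ℝ}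
    (hu : T.S u) (hw : T.S w) (hb : ∀ y, u y - w y ≤ A)
    (h : ∀ y, u y - τ * T.L u y ≤ w y - τ * T.L w y) (y : Y) : u y ≤ w y := by
  have := hM.mp τ A (fun y => u y - w y) h0 h1 (hC.s_sub _ _ hu hw) hb (fun y => by
    rw [(hC.sub u w u y hu hw hu).1]
    have := h y
    linarith) y
  linarith

lemma near (hA : T.Ax G n) {z x x' : Y} {g g' : G} {a b r : ℝ} (h : dist z (g • x) < a)
    (h' : dist z (g' • x') < b) (hr : a + b + dist x x' ≤ r) (hg : g' ∈ Hs G z r) :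
    g ∈ Hs G z r := by
  have h1 : g * g'⁻¹ ∈ Hs G z r := by
    refine Subgroup.subset_closure ?_
    show dist z ((g * g'⁻¹) • z) < r
    have e1 : dist (g • x') ((g * g'⁻¹) • z) = dist (g' • x') z := by
      rw [mul_smul, hA.iso, ← hA.iso g', smul_inv_smul]
    have := dist_triangle4 z (g • x) (g • x') ((g * g'⁻¹) • z)
    rw [e1, hA.iso, dist_comm (g' • x')] at this
    linarith
  simpa using Subgroup.mul_mem _ h1 hg

lemma off (hA : T.Ax G n) {N : Subgroup G} {z x y : Y} {a b : ℝ} (hy : y ∉ Nh N z (a + b))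
    (hx : x ∈ ball y b) : x ∉ Nh N z a := by
  rintro ⟨g, hg, h⟩
  refine hy ⟨g, hg, ?_⟩
  have := dist_triangle z (g • x) (g • y)
  rw [hA.iso] at this
  have := mem_ball.1 hx
  linarith

omit [MeasurableSpace Y] in
lemma mono {N N' : Subgroup G} {z y : Y} {a b : ℝ} (hN : N ≤ N') (hab : a ≤ b)
    (hy : y ∈ Nh N z a) : y ∈ Nh N' z b :=
  let ⟨g, hg, h⟩ := hy
  ⟨g, hN hg, h.trans_le hab⟩

lemma inv (hA : T.Ax G n) (hC : T.Cal) (hM : T.Mp c) {τ A : ℝ} (h0 : 0 < τ) (h1 : τ ≤ 1 / 2)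
    {N : Subgroup G} {v h : Y → ℝ} (hv : T.S v) (hb : ∀ y, |v y| ≤ A) (hh : Iv N h)
    (e : ∀ y, v y - τ * T.L v y = h y) : Iv N v := fun g hg y => by
  have hs := hA.s_smul g v hv
  have b : ∀ x x', v x - v x' ≤ A + A := fun x x' => by
    have := abs_le.1 (hb x)
    have := abs_le.1 (hb x')
    linarith
  refine le_antisymm (cmp hC hM h0 h1 hs hv (fun y => b _ _) (fun y => ?_) y)
    (cmp hC hM h0 h1 hv hs (fun y => b _ _) (fun y => ?_) y) <;>
  rw [hA.L_smul g v y hv, e, e, hh g hg]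

lemma vd (hA : T.Ax G n) (hC : T.Cal) (hM : T.Mp c) (N : Subgroup G) (z : Y) (r s : ℝ)
    (hs : 0 < s) (hr : 8 * s ≤ r) : ∃ κ₀ > (0 : ℝ), ∀ κ, 0 < κ → κ ≤ κ₀ →
    ∃ h h₀ v v₀, T.Vd N (N ⊓ Hs G z r) z s κ h h₀ v v₀ := by
  obtain ⟨τ₀, hτ, res⟩ := hA.res
  refine ⟨min (1 / 2) τ₀, lt_min (by norm_num) hτ, fun κ h0 h1 => ?_⟩
  have k1 : κ ≤ 1 / 2 := h1.trans (min_le_left _ _)
  have k2 : κ ≤ τ₀ := h1.trans (min_le_right _ _)
  have t0 : 0 < κ ^ 2 := by positivity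
  have t1 : κ ^ 2 ≤ 1 / 2 := by nlinarith
  have t2 : κ ^ 2 ≤ τ₀ := by nlinarith
  obtain ⟨h₀, s0, i0, m0, o0, z0⟩ := hA.bump N z (2 * s) s hs
  obtain ⟨b, sb, ib, mb, ob, zb⟩ := hA.bump (N ⊓ Hs G z r) z (3 * s) s hs
  rw [show 2 * s + s = 3 * s by ring] at z0
  have sh : T.S fun y => h₀ y * b y := hA.s_mul _ _ s0 sb
  have ih : Iv (N ⊓ Hs G z r) fun y => h₀ y * b y := fun g hg y => by
    simp only [i0 g hg.1, ib g hg]
  have zh : ∀ y ∉ Nh (N ⊓ Hs G z r) z (3 * s), h₀ y * b y = 0 := fun y hy => by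
    by_contra hne
    obtain ⟨g, hg, h⟩ : y ∈ Nh N z (3 * s) := by
      by_contra hc
      exact hne (by rw [z0 y hc, zero_mul])
    obtain ⟨g', hg', h'⟩ : y ∈ Nh (N ⊓ Hs G z r) z (3 * s + s) := by
      by_contra hc
      exact hne (by rw [zb y hc, mul_zero])
    exact hy ⟨g, ⟨hg, near hA h h' (by rw [dist_self]; linarith) hg'.2⟩, h⟩
  have mh : ∀ y, 0 ≤ h₀ y * b y ∧ h₀ y * b y ≤ h₀ y := fun y =>
    ⟨mul_nonneg (m0 y).1 (mb y).1, mul_le_of_le_one_right (m0 y).1 (mb y).2⟩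
  obtain ⟨v, sv, ⟨A, hb⟩, e⟩ := res _ t0 t2 _ z _ _ sh ih zh
  obtain ⟨v₀, sv₀, ⟨A₀, hb₀⟩, e₀⟩ := res _ t0 t2 _ z _ _ s0 i0 z0
  refine ⟨fun y => h₀ y * b y, h₀, v, v₀, ⟨sh, s0, sv, sv₀⟩,
    ⟨ih, i0, inv hA hC hM t0 t1 sv hb ih e, inv hA hC hM t0 t1 sv₀ hb₀ i0 e₀⟩,
    fun y => ⟨⟨(mh y).1, (mh y).2, (m0 y).2⟩, ?_, ?_, ?_⟩, fun y hy => ?_, zh, fun y hy => ?_, z0,
    fun y => ⟨e y, e₀ y⟩⟩
  · refine cmp hC hM (A := A) t0 t1 (hA.s_const 0) sv (fun y => ?_) (fun y => ?_) y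
    · have := abs_le.1 (hb y)
      linarith
    · rw [(hC.const 0 v y sv).1, e]
      have := mh y
      linarith
  · refine cmp hC hM (A := A + A₀) t0 t1 sv sv₀ (fun y => ?_) (fun y => ?_) y
    · have := abs_le.1 (hb y)
      have := abs_le.1 (hb₀ y)
      linarith
    · rw [e, e₀]
      exact (mh y).2
  · refine cmp hC hM (A := A₀) t0 t1 sv₀ (hA.s_const 1) (fun y => ?_) (fun y => ?_) y
    · have := abs_le.1 (hb₀ y)
      linarith
    · rw [(hC.const 1 v y sv).1, e₀]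
      have := m0 y
      linarith
  · simp only [o0 y (mono inf_le_left le_rfl hy), ob y (mono le_rfl (by linarith) hy), one_mul]
  · simp only [ob y hy, mul_one]

/-- decay away from the sources. -/
lemma low (hM : T.Mp c) (hc : 0 < c) {κ ρ : ℝ} (h0 : 0 < κ) (h1 : κ ≤ 1 / 2) (hρ : 0 ≤ ρ)
    {w : Y → ℝ} (sw : T.S w) (hw : ∀ x, w x ≤ 1) {y : Y} (hy : 0 < w y)
    (e : ∀ x ∈ ball y ρ, w x - κ ^ 2 * T.L w x = 0) : (ρ / c - κ) / 2 ≤ -κ * Real.log (w y) := by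
  have hcκ : 0 < c * κ := mul_pos hc h0
  set k := ⌊ρ / (c * κ)⌋₊
  have k1 : (k : ℝ) ≤ ρ / (c * κ) := Nat.floor_le (by positivity)
  have k2 : ρ / (c * κ) < k + 1 := Nat.lt_floor_add_one _
  have d := hM.dec (κ ^ 2) 1 w y k (by positivity) (by nlinarith) zero_le_one sw hw fun x hx => by
    rw [Real.sqrt_sq h0.le] at hx
    exact (e x (ball_subset_ball ((le_div_iff₀ hcκ).1 k1) hx)).le
  have l := Real.log_le_log hy d
  rw [one_div, Real.log_inv, Real.log_pow] at l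
  have l2 := Real.log_two_gt_d9
  have k3 : ρ / c < (k + 1) * κ := by
    rw [div_lt_iff₀ hcκ] at k2
    rw [div_lt_iff₀ hc]
    linarith
  have k4 : (k : ℝ) * (1 / 2) ≤ k * Real.log 2 :=
    mul_le_mul_of_nonneg_left (by linarith) (Nat.cast_nonneg k)
  nlinarith

/-- the approximate eikonal equation away from the sources. -/
lemma eik (hC : T.Cal) {s C κ : ℝ} (hY : T.Cy s C) (hs : 0 < s) (h0 : 0 < κ) (h1 : κ ≤ 1 / 2)
    (h2 : C * κ ≤ 3) {w : Y → ℝ} (sw : T.S w) (hw : ∀ x, 0 < w x) {y : Y}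
    (e : ∀ x ∈ ball y s, w x - κ ^ 2 * T.L w x = 0) :
    T.Γ (fun z => -κ * Real.log (w z)) (fun z => -κ * Real.log (w z)) y ≤ 4 ∧
      T.L (fun z => -κ * Real.log (w z)) y ≤ C ∧
      T.Γ (fun z => -κ * Real.log (w z)) (fun z => -κ * Real.log (w z)) y =
        1 + κ * T.L (fun z => -κ * Real.log (w z)) y := by
  have e1 := fun x hx => (hC.log κ w x sw hw).2 (e x hx)
  have e2 := hY κ _ y h0 (by linarith) (hC.log κ w y sw hw).1 e1
  have e3 := e1 y (mem_ball_self hs)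
  refine ⟨by linarith, le_of_mul_le_mul_left (a := κ) (by linarith) h0, e3⟩

section

variable (hA : T.Ax G n) (hC : T.Cal) (hM : T.Mp c) (hH : T.Hopf n) {N : Subgroup G} {z : Y}
  {r s κ : ℝ} {h h₀ v v₀ : Y → ℝ} (V : T.Vd N (N ⊓ Hs G z r) z s κ h h₀ v v₀) (h0 : 0 < κ)
  (h1 : κ ≤ 1 / 2)

include hA hC hM V h0 h1

lemma sep (hr : 6 * s ≤ r) (g : G) (hg : g ∈ N) (hg' : g ∉ Hs G z r) (y : Y) :
    v (g • y) ≤ v₀ y - v y := by
  obtain ⟨-, -, sv, sv₀⟩ := V.sm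
  refine cmp hC hM (τ := κ ^ 2) (A := 2) (u := fun y => v (g • y)) (w := fun y => v₀ y - v y)
    (by positivity) (by nlinarith) (hA.s_smul g v sv) (hC.s_sub _ _ sv₀ sv) (fun y => ?_)
    (fun y => ?_) y
  · obtain ⟨-, a1, a2, a3⟩ := V.mem y
    obtain ⟨-, b1, b2, b3⟩ := V.mem (g • y)
    linarith
  · rw [hA.L_smul g v y sv, (V.eq _).1, (hC.sub v₀ v v y sv₀ sv sv).1]
    obtain ⟨e, e₀⟩ := V.eq y
    have : h (g • y) ≤ h₀ y - h y := by
      by_cases c1 : g • y ∈ Nh (N ⊓ Hs G z r) z (3 * s)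
      · by_cases c2 : y ∈ Nh (N ⊓ Hs G z r) z (3 * s)
        · obtain ⟨g₁, m₁, d₁⟩ := c1
          obtain ⟨g₂, m₂, d₂⟩ := c2
          rw [← mul_smul] at d₁
          have := near hA d₁ d₂ (by rw [dist_self]; linarith) m₂.2
          exact absurd ((Subgroup.mul_mem_cancel_left _ m₁.2).1 this) hg'
        · rw [V.zero y c2, sub_zero, ← V.iv.2.1 g hg y]
          exact (V.mem _).1.2.1
      · rw [V.zero _ c1, sub_nonneg]
        exact (V.mem _).1.2.1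
    linarith

include hH

lemma hopf (hs : 0 < s) (h2 : c * κ ≤ s) (h3 : 4 + 16 * (n + 1) / s ^ 2 ≤ 4 / (κ * s)) {Λ : ℝ}
    {y : Y} (hy : dist z y < Λ) : Real.exp (-(64 * (4 / (κ * s)) * Λ ^ 2)) / 4 ≤ v y := by
  obtain ⟨-, -, sv, -⟩ := V.sm
  have := hH κ s Λ _ (1 / 2) v z y h0 hs (by norm_num) le_rfl h3 sv
    (fun x => ⟨(V.mem x).2.1, by rw [(V.eq x).1]; exact (V.mem x).1.1⟩) (fun x hx => ?_) hy
  · linarith
  have := hM.half (κ ^ 2) 1 (fun y => 1 - v y) x (by positivity) (by nlinarith) zero_le_one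
    (hC.s_sub _ _ (hA.s_const 1) sv) fun x' hx' => ?_
  · linarith
  rw [Real.sqrt_sq h0.le] at hx'
  have m : x' ∈ Nh (N ⊓ Hs G z r) z (2 * s) := ⟨1, one_mem _, by
    have := dist_triangle z x x'
    have := mem_ball'.1 hx
    have := mem_ball'.1 hx'
    rw [one_smul]
    linarith⟩
  rw [(hC.sub _ v v x' (hA.s_const 1) sv sv).1, (hC.const 1 v x' sv).1]
  have := (V.eq x').1
  have := V.one x' m
  have := (V.mem x').2.1
  constructor <;> linarith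

lemma up (hs : 0 < s) (h2 : c * κ ≤ s) (h3 : 4 + 16 * (n + 1) / s ^ 2 ≤ 4 / (κ * s)) {y : Y}
    (hy : dist z y < 4 * s) {w : ℝ} (hw : v y ≤ w) : -κ * Real.log w ≤ 4096 * s + 2 * κ := by
  have l := Real.log_le_log (by positivity) ((hopf hA hC hM hH V h0 h1 hs h2 h3 hy).trans hw)
  rw [Real.log_div (Real.exp_ne_zero _) (by norm_num), Real.log_exp,
    show (4 : ℝ) = 2 ^ 2 by norm_num, Real.log_pow] at l
  have l2 := Real.log_two_lt_d9
  have e : κ * (64 * (2 ^ 2 / (κ * s)) * (2 ^ 2 * s) ^ 2) = 4096 * s := by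
    field_simp
    norm_num
  have := mul_le_mul_of_nonneg_left l h0.le
  push_cast at this
  nlinarith

end

end Ana

theorem vdS (hC : CalD) (hM : MpS) : VdS := fun n G Y _ _ _ _ _ _ T hA =>
  let ⟨_, _, hM⟩ := hM n
  Ana.vd hA (hC n G Y T hA).1 (hM G Y T hA)

theorem anS (hC : CalD) (hM : MpS) (hH : HopfS) (hY : CyS) : AnS := by
  intro n r hr
  obtain ⟨c, hc, hM⟩ := hM n
  obtain ⟨t, ht⟩ : ∃ t, t = r / (128 * c) := ⟨_, rfl⟩
  have t0 : 0 < t := ht ▸ by positivity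
  obtain ⟨s, s0, s1, s2⟩ : ∃ s > (0 : ℝ), 100 * s ≤ r ∧ 5000 * s ≤ t :=
    ⟨min (r / 100) (t / 5000), lt_min (by positivity) (by positivity),
      by linarith [min_le_left (r / 100) (t / 5000)],
      by linarith [min_le_right (r / 100) (t / 5000)]⟩
  obtain ⟨C, C0, hY⟩ := hY n s s0
  refine ⟨s, s0, s1, t, t0, C, fun R => ⟨3 * s + c * (2 * |R| + 8), ?_⟩⟩
  obtain ⟨B, B0, hB⟩ : ∃ B > (0 : ℝ), B = 4 + 16 * (n + 1) / s ^ 2 := ⟨_, by positivity, rfl⟩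
  refine ⟨min (min (1 / 2) (s / c)) (min (min (4 / (B * s)) (t / 20)) (3 / (C + 1))),
    by positivity, fun G Y _ _ _ _ _ _ T hA N z κ h h₀ v v₀ h0 hκ V hN => ?_⟩
  simp only [le_min_iff] at hκ
  obtain ⟨⟨h1, h2⟩, ⟨h3, h4⟩, h5⟩ := hκ
  have hC := (hC n G Y T hA).1
  have hM := hM G Y T hA
  have hH := hH n G Y T hA
  have hY := hY G Y T hA
  rw [le_div_iff₀ hc, mul_comm] at h2
  have h3' : 4 + 16 * (n + 1) / s ^ 2 ≤ 4 / (κ * s) := by
    rw [← hB, le_div_iff₀ (by positivity)]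
    rw [le_div_iff₀ (by positivity)] at h3
    linarith
  have h5' : C * κ ≤ 3 := by
    rw [le_div_iff₀ (by positivity)] at h5
    nlinarith
  obtain ⟨-, -, sv, sv₀⟩ := V.sm
  have sw := hC.s_sub _ _ sv₀ sv
  have sep := Ana.sep hA hC hM V h0 h1 (by linarith)
  have p : ∀ y, 0 < v y := fun y => lt_of_lt_of_le (by positivity)
    (Ana.hopf hA hC hM hH V h0 h1 s0 h2 h3' (lt_add_one (dist z y)))
  have p' : ∀ y, 0 < v₀ y - v y := fun y => by
    obtain ⟨g, hg, hg'⟩ := SetLike.not_le_iff_exists.1 hN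
    exact (p _).trans_le (sep g hg hg' y)
  have b : ∀ y, v y ≤ 1 := fun y => (V.mem y).2.2.1.trans (V.mem y).2.2.2
  have b' : ∀ y, v₀ y - v y ≤ 1 := fun y => by linarith [p y, (V.mem y).2.2.2]
  have e' : ∀ y, v₀ y - v y - κ ^ 2 * T.L (fun y => v₀ y - v y) y = h₀ y - h y := fun y => by
    rw [(hC.sub v₀ v v y sv₀ sv sv).1]
    linarith [(V.eq y).1, (V.eq y).2]
  have src : ∀ y, v₀ y - v y - κ ^ 2 * T.L (fun y => v₀ y - v y) y ≠ 0 →
      ∃ g ∈ N, g ∉ Hs G z r ∧ dist z (g • y) < 3 * s := fun y hy => by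
    rw [e'] at hy
    by_cases c1 : y ∈ Nh N z (3 * s)
    · obtain ⟨g, hg, d⟩ := c1
      exact ⟨g, hg, fun hg' => hy (by rw [V.same y ⟨g, ⟨hg, hg'⟩, d⟩, sub_self]), d⟩
    · have := V.zero₀ y c1
      obtain ⟨⟨a1, a2, -⟩, -⟩ := V.mem y
      exact absurd (by linarith) hy
  have nn : ∀ w : ℝ, 0 < w → w ≤ 1 → 0 ≤ -κ * Real.log w := fun w w0 w1 =>
    mul_nonneg_of_nonpos_of_nonpos (by linarith) (Real.log_nonpos w0.le w1)
  have sa := (hC.log κ v z sv p).1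
  have sa' := (hC.log κ _ z sw p').1
  refine ⟨fun y => ⟨p y, sub_pos.1 (p' y)⟩, sep, ⟨⟨sa, sa'⟩, ⟨fun g hg y => ?_, fun g hg y => ?_⟩,
    fun y => ⟨nn _ (p y) (b y), nn _ (p' y) (b' y), ?_⟩, fun y hy => ?_, fun y hy => ?_,
    fun y hy => ?_⟩, fun y hy => ?_⟩
  · simp only [V.iv.2.2.1 g hg]
  · simp only [V.iv.2.2.1 g hg, V.iv.2.2.2 g hg.1]
  · have n1 := nn _ (p y) (b y)
    have n2 := nn _ (p' y) (b' y)
    have e8 : r / 4 / c = 32 * t := by
      rw [ht]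
      field_simp
      norm_num
    by_cases c1 : ∀ x ∈ ball y (r / 4), v x - κ ^ 2 * T.L v x = 0
    · have := Ana.low hM hc h0 h1 (by positivity) sv b (p y) c1
      linarith
    · push Not at c1
      obtain ⟨x, hx, hx'⟩ := c1
      obtain ⟨g, hg, d⟩ : x ∈ Nh (N ⊓ Hs G z r) z (3 * s) := by
        by_contra hn
        exact hx' ((V.eq x).1.trans (V.zero x hn))
      have := Ana.low hM hc h0 h1 (ρ := r / 4) (by positivity) sw b' (p' y) fun x' m => by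
        by_contra hn
        obtain ⟨g', -, hg', d'⟩ := src x' hn
        refine hg' (Ana.near hA d' d ?_ hg.2)
        have := dist_triangle_right x' x y
        have := mem_ball.1 m
        have := mem_ball.1 hx
        linarith
      linarith
  · refine Ana.eik hC hY s0 h0 h1 h5' sv p fun x hx => (V.eq x).1.trans (V.zero x ?_)
    refine Ana.off hA (fun ⟨g, hg, d⟩ => ?_) hx
    have := Ana.up hA hC hM hH V h0 h1 s0 h2 h3' (y := g • y) (by linarith) (V.iv.2.2.1 g hg y).le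
    linarith
  · refine Ana.eik hC hY s0 h0 h1 h5' sw p' fun x hx => ?_
    by_contra hn
    obtain ⟨g, hg, hg', d⟩ := src x hn
    have d' : dist z (g • y) < 4 * s := by
      have := dist_triangle z (g • x) (g • y)
      rw [hA.iso] at this
      have := mem_ball.1 hx
      linarith
    have := Ana.up hA hC hM hH V h0 h1 s0 h2 h3' d' (sep g hg hg' y)
    linarith
  · by_contra hn
    have := Ana.low hM hc h0 h1 (ρ := c * (2 * |R| + 8)) (by positivity) sv b (p y) fun x hx =>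
      (V.eq x).1.trans (V.zero x (Ana.off hA hn hx))
    rw [mul_div_cancel_left₀ _ hc.ne'] at this
    have := le_abs_self R
    linarith
  · rw [show 4 * s = 3 * s + s by ring] at hy
    have g1 := (Ana.eik hC hY s0 h0 h1 h5' sv p (y := y) fun x hx => (V.eq x).1.trans (V.zero x
      fun m => Ana.off hA hy hx (Ana.mono inf_le_left le_rfl m))).1
    have g2 := (Ana.eik hC hY s0 h0 h1 h5' sw p' (y := y) fun x hx => by
      by_contra hn
      obtain ⟨g, hg, -, d⟩ := src x hn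
      exact Ana.off hA hy hx ⟨g, hg, d⟩).1
    have sd := hC.s_sub _ _ sa sa'
    have g3 := (hC.cs _ _ y sa sa').1
    rw [(hC.sub _ _ _ y sa sa' sd).2, hA.Γ_comm, hA.Γ_comm _ (fun y => _ - _),
      (hC.sub _ _ _ y sa sa' sa).2, (hC.sub _ _ _ y sa sa' sa').2,
      hA.Γ_comm (fun z => -κ * Real.log (v₀ z - v z)) fun z => -κ * Real.log (v z)]
    have g4 := mul_le_mul g1 g2 (hA.Γ_nn _ _) (by norm_num)
    have g5 := abs_le_of_sq_le_sq' (g3.trans (g4.trans_eq (by norm_num : (4 : ℝ) * 4 = 4 ^ 2)))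
      (by norm_num)
    linarith [g5.1]

end Pool.Agent.Lib.MP_813db1_ag.NS
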