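import Pool.Agent.Lib.MP_813db1_ag.NS.Dif

/-! The bisector lemma. -/

namespace Pool.Agent.Lib.MP_813db1_ag.NS

open MeasureTheory Filter Topology Set Metric Real
open scoped ContDiff

namespace Bisa

theorem dz {k : ℝ → ℝ} {U : Set ℝ} (hU : IsOpen U) (h : ∀ s ∈ U, k s = 0) {s : ℝ} (hs : s ∈ U) :
    k s = 0 ∧ deriv k s = 0 := by
  refine ⟨h s hs, ?_⟩
  have e : k =ᶠ[𝓝 s] fun _ => 0 := by filter_upwards [hU.mem_nhds hs] with x hx using h x hx
  rw [e.deriv_eq, deriv_const]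

theorem prof1 {t : ℝ} (ht : 0 < t) (R : ℝ) : ∃ (k : ℝ → ℝ) (K : ℝ), ContDiff ℝ ∞ k ∧ 0 ≤ K ∧
    HasCompactSupport k ∧ (∀ s, 0 ≤ k s ∧ k s ≤ 1 ∧ |deriv k s| ≤ K) ∧
    (∀ s, s < t ∨ R + 3 < s → k s = 0 ∧ deriv k s = 0) ∧ ∀ s, 2 * t ≤ s → s ≤ R + 2 → k s = 1 := by
  let k : ℝ → ℝ := fun s => smoothTransition (s / t - 1) * smoothTransition (R + 3 - s)
  have hk : ContDiff ℝ ∞ k :=
    (smoothTransition.contDiff.comp (by fun_prop)).mul (smoothTransition.contDiff.comp (by fun_prop))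
  have h0 : ∀ s ∈ Iio t ∪ Ioi (R + 3), k s = 0 := by
    rintro s (h | h)
    · exact mul_eq_zero_of_left (smoothTransition.zero_of_nonpos
        (sub_nonpos.2 ((div_le_one ht).2 (le_of_lt h)))) _
    · exact mul_eq_zero_of_right _ (smoothTransition.zero_of_nonpos (sub_nonpos.2 (le_of_lt h)))
  have hc : HasCompactSupport k := HasCompactSupport.intro (isCompact_Icc (a := t) (b := R + 3))
    fun s hs => h0 s (by
      rw [mem_Icc, not_and_or, not_le, not_le] at hs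
      exact hs)
  obtain ⟨K, hK⟩ := (hk.continuous_deriv (by simp)).bounded_above_of_compact_support hc.deriv
  refine ⟨k, K, hk, (norm_nonneg _).trans (hK 0), hc, fun s => ⟨mul_nonneg
    (smoothTransition.nonneg _) (smoothTransition.nonneg _), mul_le_one₀ (smoothTransition.le_one _)
    (smoothTransition.nonneg _) (smoothTransition.le_one _), hK s⟩,
    fun s hs => dz (isOpen_Iio.union isOpen_Ioi) h0 hs, fun s h1 h2 => ?_⟩
  have : 1 ≤ s / t - 1 := by rw [le_sub_iff_add_le, le_div_iff₀ ht]; linarith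
  simp only [k, smoothTransition.one_of_one_le this,
    smoothTransition.one_of_one_le (show 1 ≤ R + 3 - s by linarith), mul_one]

theorem prof2 : ∃ c ≥ (0 : ℝ), ∀ δ > (0 : ℝ), ∃ Ψ ψ : ℝ → ℝ, ContDiff ℝ ∞ Ψ ∧ ContDiff ℝ ∞ ψ ∧
    ∀ s, deriv Ψ s = ψ s ∧ |Ψ s| ≤ c * δ ∧ 0 ≤ ψ s ∧ ψ s ≤ 1 ∧ |deriv ψ s| ≤ c / δ ∧
      (|s| ≤ δ → ψ s = 1) ∧ (2 * δ < |s| → ψ s = 0 ∧ deriv ψ s = 0) := by
  obtain ⟨k, K, hk, K0, hc, h1, h2, h3⟩ := prof1 one_pos 2
  have ki : Integrable k := hk.continuous.integrable_of_hasCompactSupport hc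
  let P : ℝ → ℝ := fun s => ∫ x in (0 : ℝ)..s, k x
  have hP : ∀ s, HasDerivAt P (k s) s := fun s =>
    (hk.continuous.integral_hasStrictDerivAt 0 s).hasDerivAt
  have eP : deriv P = k := funext fun s => (hP s).deriv
  have cP : ContDiff ℝ ∞ P := contDiff_infty_iff_deriv.2 ⟨fun s => (hP s).differentiableAt, eP ▸ hk⟩
  have bP : ∀ s, |P s| ≤ ∫ x, ‖k x‖ := fun s =>
    (intervalIntegral.norm_integral_le_integral_norm_uIoc).trans
      (setIntegral_le_integral ki.norm (Eventually.of_forall fun _ => norm_nonneg _))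
  have I0 : 0 ≤ ∫ x, ‖k x‖ := (abs_nonneg _).trans (bP 0)
  refine ⟨K + ∫ x, ‖k x‖, add_nonneg K0 I0, fun δ hδ => ⟨fun s => δ * P (s / δ + 3),
    fun s => k (s / δ + 3), contDiff_const.mul (cP.comp (by fun_prop)), hk.comp (by fun_prop),
    fun s => ?_⟩⟩
  have hl : HasDerivAt (fun s : ℝ => s / δ + 3) (1 / δ) s :=
    ((hasDerivAt_id s).div_const δ).add_const 3
  have d1 := (((hP _).comp s hl).const_mul δ).deriv
  have d2 := ((hk.differentiable (by simp) _).hasDerivAt.comp s hl).deriv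
  replace d2 : deriv (fun s => k (s / δ + 3)) s = deriv k (s / δ + 3) * (1 / δ) := d2
  refine ⟨d1.trans (by field_simp), ?_, (h1 _).1, (h1 _).2.1, ?_, fun h => ?_, fun h => ?_⟩
  · rw [abs_mul, abs_of_pos hδ, mul_comm]
    exact mul_le_mul_of_nonneg_right ((bP _).trans (by linarith)) hδ.le
  · rw [d2, abs_mul, abs_of_pos (one_div_pos.2 hδ), mul_one_div]
    exact div_le_div_of_nonneg_right ((h1 _).2.2.trans (by linarith)) hδ.le
  · obtain ⟨a, b⟩ := abs_le.1 h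
    have a' : -1 ≤ s / δ := by rw [le_div_iff₀ hδ]; linarith
    have b' : s / δ ≤ 1 := by rw [div_le_iff₀ hδ]; linarith
    exact h3 _ (by linarith) (by linarith)
  · have : s / δ + 3 < 1 ∨ 2 + 3 < s / δ + 3 := by
      rcases lt_abs.1 h with a | a
      · have : 2 < s / δ := by rw [lt_div_iff₀ hδ]; linarith
        exact Or.inr (by linarith)
      · have : s / δ < -2 := by rw [div_lt_iff₀ hδ]; linarith
        exact Or.inl (by linarith)
    exact ⟨(h2 _ this).1, by rw [d2, (h2 _ this).2, zero_mul]⟩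

theorem prof3 {l : ℝ} (hl : 0 ≤ l) (R : ℝ) : ∃ E : ℝ → ℝ, ContDiff ℝ ∞ E ∧
    ∀ s, 0 ≤ E s ∧ deriv E s ≤ -l * E s ∧ (0 ≤ s → E s ≤ 1) ∧
      (R + 1 < s → E s = 0 ∧ deriv E s = 0) ∧ (s ≤ R → exp (-l * R) ≤ E s) := by
  refine ⟨fun s => exp (-l * s) * smoothTransition (R + 1 - s),
    (contDiff_exp.comp (by fun_prop)).mul (smoothTransition.contDiff.comp (by fun_prop)),
    fun s => ⟨mul_nonneg (exp_pos _).le (smoothTransition.nonneg _), ?_, fun h => ?_, fun h => ?_,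
      fun h => ?_⟩⟩
  · have a : HasDerivAt (fun s => exp (-l * s)) (exp (-l * s) * (-l * 1)) s :=
      ((hasDerivAt_id s).const_mul (-l)).exp
    have b : HasDerivAt (fun s => smoothTransition (R + 1 - s))
        (deriv smoothTransition (R + 1 - s) * (-1)) s :=
      ((smoothTransition.contDiff (n := 1)).differentiable (by simp) _).hasDerivAt.comp s
        ((hasDerivAt_id s).const_sub (R + 1))
    rw [(a.fun_mul b).deriv]
    have := mul_nonneg (exp_pos (-l * s)).le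
      (smoothTransition.monotone.deriv_nonneg (x := R + 1 - s))
    linarith
  · exact mul_le_one₀ (exp_le_one_iff.2 (by nlinarith)) (smoothTransition.nonneg _)
      (smoothTransition.le_one _)
  · exact dz (k := fun s => exp (-l * s) * smoothTransition (R + 1 - s)) isOpen_Ioi
      (fun s hs => mul_eq_zero_of_right _
        (smoothTransition.zero_of_nonpos (sub_nonpos.2 (le_of_lt hs)))) h
  · show _ ≤ _ * _
    rw [smoothTransition.one_of_one_le (show 1 ≤ R + 1 - s by linarith), mul_one]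
    exact exp_le_exp.2 (by nlinarith)

/-- the pointwise inequality. -/
theorem pt {χ Ψ ψ ψ' E E' A A' p q r γ γ' C K κ u w : ℝ} (h0 : 0 ≤ χ) (h1 : χ ≤ 1) (hΨ : |Ψ| ≤ u)
    (p0 : 0 ≤ ψ) (p1 : ψ ≤ 1) (E0 : 0 ≤ E) (hE : E' ≤ -(C + 1) * E) (a1 : E * ψ ≤ χ * ψ)
    (a2 : E * |ψ'| ≤ χ * w) (hA : A ≤ C) (hA' : A' ≤ C) (C0 : 0 ≤ C) (hp : p = 1 + κ * A)
    (hq : q = 1 + κ * A') (n1 : 0 ≤ p - r - (r - q)) (n2 : 0 ≤ p + r + (r + q)) (g1 : |γ| ≤ K)
    (g2 : |γ'| ≤ K) (k0 : 0 ≤ κ) (w0 : 0 ≤ w) :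
    E * ψ ≤ -(E * ψ * (A + A') + (E * (ψ' * (p + r - (r + q))) + ψ * (E' * (p + r + (r + q))))) -
      2 * (C + 1) * (χ * Ψ * A' + (χ * (ψ * (r - q)) + Ψ * γ')) -
      (2 * (C + 1) * u + κ * (3 * (C + 1) + w)) * ((χ * A + γ) + (χ * A' + γ')) +
      (2 * (C + 1) * u * K + (2 * (C + 1) * u + κ * (3 * (C + 1) + w)) * (4 * C + 2 * K)) := by
  have u0 : 0 ≤ u := (abs_nonneg _).trans hΨ
  have b : ∀ {x : ℝ}, x ≤ C → |x| ≤ 2 * C - x := fun h => abs_le.2 ⟨by linarith, by linarith⟩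
  have A0 := abs_nonneg A
  have A0' := abs_nonneg A'
  set W := χ * (|A| + |A'|) with hW
  have c1 : W ≤ 4 * C + 2 * K - ((χ * A + γ) + (χ * A' + γ')) := by
    have := mul_le_mul_of_nonneg_left (add_le_add (b hA) (b hA')) h0
    have := mul_le_mul_of_nonneg_right h1 C0
    linarith [(abs_le.1 g1).2, (abs_le.1 g2).2]
  have d : |A - A'| ≤ |A| + |A'| := abs_sub _ _
  have d' : |A + A'| ≤ |A| + |A'| := abs_add_le _ _
  have m1 : χ * Ψ * A' ≤ u * W := by
    have : Ψ * A' ≤ u * (|A| + |A'|) := (le_abs_self _).trans (by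
      rw [abs_mul]; exact mul_le_mul hΨ (by linarith) A0' u0)
    nlinarith [mul_le_mul_of_nonneg_left this h0]
  have m2 : Ψ * γ' ≤ u * K := (le_abs_self _).trans (by
    rw [abs_mul]; exact mul_le_mul hΨ g2 (abs_nonneg _) u0)
  have cψ : χ * ψ ≤ χ := mul_le_of_le_one_right h0 p1
  have m3 : χ * ψ * (A - A') ≤ W :=
    (mul_le_mul_of_nonneg_left (le_abs_self _) (mul_nonneg h0 p0)).trans
      (mul_le_mul cψ d (abs_nonneg _) h0)
  have m3' := mul_le_mul_of_nonneg_left m3 k0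
  have c2 : χ * ψ * (p - r - (r - q)) ≤ -2 * (χ * Ψ * A' + (χ * (ψ * (r - q)) + Ψ * γ')) +
      2 * u * W + 2 * u * K + κ * W := by
    have : χ * ψ * (p - r - (r - q)) = -2 * (χ * (ψ * (r - q))) + κ * (χ * ψ * (A - A')) := by
      rw [hp, hq]; ring
    linarith
  have eψ := mul_nonneg E0 p0
  have m4 : (C + 1) * (E * ψ * (p + r + (r + q))) ≤ -(ψ * (E' * (p + r + (r + q)))) := by
    have := mul_le_mul_of_nonneg_right hE (mul_nonneg p0 n2)
    linarith
  have m5 : E * ψ * (A + A') ≤ 2 * C * (E * ψ) := by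
    have := mul_le_mul_of_nonneg_left (add_le_add hA hA') eψ
    linarith
  have m6 : E * (ψ' * (p + r - (r + q))) ≤ κ * (w * W) := by
    have e : E * (ψ' * (p + r - (r + q))) = κ * (E * (ψ' * (A - A'))) := by rw [hp, hq]; ring
    rw [e]
    refine mul_le_mul_of_nonneg_left ?_ k0
    calc E * (ψ' * (A - A')) ≤ E * (|ψ'| * |A - A'|) :=
          mul_le_mul_of_nonneg_left ((le_abs_self _).trans (abs_mul _ _).le) E0
      _ = E * |ψ'| * |A - A'| := by ring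
      _ ≤ χ * w * (|A| + |A'|) := mul_le_mul a2 d (abs_nonneg _) (mul_nonneg h0 w0)
      _ = _ := by rw [hW]; ring
  have m7 : -(E * ψ * (A + A')) ≤ W := by
    have := (mul_le_mul_of_nonneg_left (neg_le_abs (A + A')) eψ).trans
      (mul_le_mul (a1.trans cψ) d' (abs_nonneg _) h0)
    linarith
  have m7' := mul_le_mul_of_nonneg_left m7 k0
  have m8 := mul_le_mul_of_nonneg_right a1 n1
  have c3 : 4 * (E * ψ) ≤ E * ψ * (p + r + (r + q)) + χ * ψ * (p - r - (r - q)) + 2 * κ * W := by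
    have : E * ψ * (p + r + (r + q)) = 4 * (E * ψ) + 2 * (κ * (E * ψ * (A + A'))) -
        E * ψ * (p - r - (r - q)) := by rw [hp, hq]; ring
    linarith
  have l0 : 0 ≤ C + 1 := by linarith
  have c4 := mul_le_mul_of_nonneg_left c3 l0
  have c5 := mul_le_mul_of_nonneg_left c2 l0
  have c6 := mul_le_mul_of_nonneg_left c1 (show 0 ≤ 2 * (C + 1) * u + κ * (3 * (C + 1) + w) by
    positivity)
  have c7 := mul_nonneg C0 eψ
  linarith

end Bisa

open Bisa in
theorem bisS (hC : CalD) (hM : MesD) : BisS := by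
  intro n t ht R C₀
  obtain ⟨k, K, hk, K0, -, k1, k2, k3⟩ := prof1 ht R
  obtain ⟨c, c0, hc⟩ := prof2
  set C := max C₀ 0 with hCd
  have C0 : 0 ≤ C := le_max_right _ _
  obtain ⟨E, hE, E1⟩ := prof3 (l := C + 1) (by linarith) R
  refine ⟨exp ((C + 1) * R) * (2 * (C + 1) * c * (8 * K) +
    (2 * (C + 1) * c + 3 * (C + 1) * t + c) * (4 * C + 2 * (8 * K))), by positivity, ?_⟩
  intro G Y _ _ _ _ _ _ T ax N z R' κ δ a a' hP κ0 δ0 δt
  obtain ⟨cal, eqi⟩ := hC n G Y T ax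
  have mes := hM n G Y T ax
  obtain ⟨Ψ, ψ, hΨ, hψ, P1⟩ := hc δ δ0
  obtain ⟨sa, sa'⟩ := hP.sm
  obtain ⟨ia, ia'⟩ := hP.iv
  have sf := cal.s_sub a a' sa sa'
  have se := ax.s_add a a' sa sa'
  have cp : ∀ {Φ : ℝ → ℝ} {f : Y → ℝ}, ContDiff ℝ ∞ Φ → T.S f → T.S fun y => Φ (f y) :=
    fun h hf => ax.s_comp _ _ hf fun _ => h.contDiffAt
  have gp : ∀ {Φ : ℝ → ℝ} {f g : Y → ℝ} (y : Y), ContDiff ℝ ∞ Φ → T.S f → T.S g →
      T.Γ (fun z => Φ (f z)) g y = deriv Φ (f y) * T.Γ f g y :=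
    fun y h hf hg => ax.Γ_comp _ _ _ y hf hg h.contDiffAt
  let χ : Y → ℝ := fun y => k (a y) * k (a' y)
  have sχ : T.S χ := ax.s_mul _ _ (cp hk sa) (cp hk sa')
  have gχ : ∀ u y, T.S u → T.Γ χ u y = k (a y) * (deriv k (a' y) * T.Γ a' u y) +
      k (a' y) * (deriv k (a y) * T.Γ a u y) := fun u y hu => by
    rw [ax.Γ_mul _ _ _ y (cp hk sa) (cp hk sa') hu, gp y hk sa hu, gp y hk sa' hu]
  let g2 : Y → ℝ := fun y => χ y * Ψ (a y - a' y)
  have s2 : T.S g2 := ax.s_mul _ _ sχ (cp hΨ sf)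
  have e2 : ∀ y, T.Γ g2 a' y = χ y * (ψ (a y - a' y) * (T.Γ a a' y - T.Γ a' a' y)) +
      Ψ (a y - a' y) * T.Γ χ a' y := fun y => by
    rw [ax.Γ_mul _ _ _ y sχ (cp hΨ sf) sa', gp y hΨ sf sa', (P1 _).1, (cal.sub _ _ _ y sa sa' sa').2]
  let g1 : Y → ℝ := fun y => E (a y + a' y) * ψ (a y - a' y)
  have s1 : T.S g1 := ax.s_mul _ _ (cp hE se) (cp hψ sf)
  have ae : ∀ u y, T.S u → T.Γ u (fun y => a y + a' y) y = T.Γ a u y + T.Γ a' u y :=
    fun u y hu => by rw [ax.Γ_comm, ax.Γ_add _ _ _ y sa sa' hu]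
  have af : ∀ u y, T.S u → T.Γ u (fun y => a y - a' y) y = T.Γ a u y - T.Γ a' u y :=
    fun u y hu => by rw [ax.Γ_comm, (cal.sub _ _ _ y sa sa' hu).2]
  have ee : ∀ y, T.Γ (fun y => a y + a' y) (fun y => a y + a' y) y =
      T.Γ a a y + T.Γ a a' y + (T.Γ a a' y + T.Γ a' a' y) := fun y => by
    rw [ax.Γ_add _ _ _ y sa sa' se, ae _ _ sa, ae _ _ sa', ax.Γ_comm a' a]
  have ff : ∀ y, T.Γ (fun y => a y - a' y) (fun y => a y - a' y) y =
      T.Γ a a y - T.Γ a a' y - (T.Γ a a' y - T.Γ a' a' y) := fun y => by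
    rw [(cal.sub _ _ _ y sa sa' sf).2, af _ _ sa, af _ _ sa', ax.Γ_comm a' a]
  have e1 : ∀ y, T.Γ g1 (fun y => a y + a' y) y = E (a y + a' y) * (deriv ψ (a y - a' y) *
      (T.Γ a a y + T.Γ a a' y - (T.Γ a a' y + T.Γ a' a' y))) + ψ (a y - a' y) *
      (deriv E (a y + a' y) * (T.Γ a a y + T.Γ a a' y + (T.Γ a a' y + T.Γ a' a' y))) := fun y => by
    rw [ax.Γ_mul _ _ _ y (cp hE se) (cp hψ sf) se, gp y hE se se, gp y hψ sf se, ee,
      (cal.sub _ _ _ y sa sa' se).2, ae _ _ sa, ae _ _ sa', ax.Γ_comm a' a]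
  -- points where everything vanishes
  have van : ∀ y, (a y < t ∨ R + 3 < a y) ∨ a' y < t → χ y = 0 ∧ (∀ u, T.S u → T.Γ χ u y = 0) ∧
      g1 y = 0 ∧ T.Γ g1 (fun y => a y + a' y) y = 0 := fun y h => by
    obtain ⟨n1, n2, n3⟩ := hP.nn y
    have h1 : χ y = 0 ∧ ∀ u, T.S u → T.Γ χ u y = 0 := by
      rcases h with h | h
      · exact ⟨mul_eq_zero_of_left (k2 _ h).1 _, fun u hu => by
          rw [gχ u y hu, (k2 _ h).1, (k2 _ h).2]; ring⟩
      · exact ⟨mul_eq_zero_of_right _ (k2 _ (Or.inl h)).1, fun u hu => by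
          rw [gχ u y hu, (k2 _ (Or.inl h)).1, (k2 _ (Or.inl h)).2]; ring⟩
    refine ⟨h1.1, h1.2, ?_⟩
    have h2 : 2 * δ < |a y - a' y| ∨ R + 1 < a y + a' y := by
      rcases h with (h | h) | h
      · exact Or.inl (lt_abs.2 (Or.inr (by linarith)))
      · exact Or.inr (by linarith)
      · exact Or.inl (lt_abs.2 (Or.inl (by linarith)))
    rcases h2 with h2 | h2
    · obtain ⟨b1, b2⟩ := (P1 _).2.2.2.2.2.2 h2
      exact ⟨mul_eq_zero_of_right _ b1, by rw [e1, b1, b2]; ring⟩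
    · obtain ⟨b1, b2⟩ := (E1 _).2.2.2.1 h2
      exact ⟨mul_eq_zero_of_left b1 _, by rw [e1, b1, b2]; ring⟩
  have out : ∀ y ∉ Nh N z R', (a y < t ∨ R + 3 < a y) ∨ a' y < t := fun y hy =>
    Or.inl (Or.inr (not_le.1 fun h => hy (hP.supp y h)))
  have ibp : ∀ g u, T.S g → T.S u → Iv N g → Iv N u → (∀ y ∉ Nh N z R', g y = 0 ∧ T.Γ g u y = 0) →
      Integrable (fun y => g y * T.L u y + T.Γ g u y) (T.μ N) ∧
        ∫ y, (g y * T.L u y + T.Γ g u y) ∂T.μ N = 0 := fun g u sg su ig iu h =>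
    ⟨(mes.int N z R' (fun y => g y * T.L u y + T.Γ g u y) (((ax.s_cont _ sg).mul (ax.s_cont _ (ax.s_L _ su))).add
      (ax.s_cont _ (ax.s_Γ _ _ sg su))) fun γ hγ y => by
        simp only [ig γ hγ y, eqi.L N u su iu γ hγ y, eqi.Γ N g u sg su ig iu γ hγ y]).2
      fun y hy => by rw [(h y hy).1, (h y hy).2, zero_mul, add_zero],
      ax.ibp N z R' u g su sg iu ig fun y hy => (h y hy).1⟩
  have iχ : Iv N χ := fun γ hγ y => by simp only [χ, ia γ hγ y, ia' γ hγ y]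
  obtain ⟨i0, j0⟩ := ibp χ a sχ sa iχ ia fun y hy => ⟨(van y (out y hy)).1, (van y (out y hy)).2.1 _ sa⟩
  obtain ⟨i0', j0'⟩ := ibp χ a' sχ sa' iχ ia' fun y hy =>
    ⟨(van y (out y hy)).1, (van y (out y hy)).2.1 _ sa'⟩
  obtain ⟨i2, j2⟩ := ibp g2 a' s2 sa' (fun γ hγ y => by simp only [g2, χ, ia γ hγ y, ia' γ hγ y]) ia'
    fun y hy => ⟨mul_eq_zero_of_left (van y (out y hy)).1 _, by
      rw [e2, (van y (out y hy)).1, (van y (out y hy)).2.1 _ sa']; ring⟩
  obtain ⟨i1, j1⟩ := ibp g1 _ s1 se (fun γ hγ y => by simp only [g1, ia γ hγ y, ia' γ hγ y])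
    (fun γ hγ y => by simp only [ia γ hγ y, ia' γ hγ y]) fun y hy => (van y (out y hy)).2.2
  set β := 2 * (C + 1) * (c * δ) + κ * (3 * (C + 1) + c / δ) with hβ
  set D := 2 * (C + 1) * (c * δ) * (8 * K) + β * (4 * C + 2 * (8 * K)) with hD
  have β0 : 0 ≤ β := by positivity
  have D0 : 0 ≤ D := by positivity
  set A := {y | |a y - a' y| ≤ δ ∧ a y + a' y ≤ R} with hA
  have ca := ax.s_cont _ sa
  have ca' := ax.s_cont _ sa'
  have mA : MeasurableSet A := ((isClosed_le (ca.sub ca').abs continuous_const).inter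
    (isClosed_le (ca.add ca') continuous_const)).measurableSet
  have mB : MeasurableSet (Nh N z R') := (eqi.nb N z R').1.measurableSet
  have AB : A ⊆ Nh N z R' := fun y hy => hP.supp y (by linarith [hy.2, (hP.nn y).2.1])
  have fB := mes.fin N z R'
  have fA : T.μ N A < ⊤ := (measure_mono AB).trans_lt fB
  have key : ∀ y, g1 y ≤ -(g1 y * T.L (fun y => a y + a' y) y + T.Γ g1 (fun y => a y + a' y) y) -
      2 * (C + 1) * (g2 y * T.L a' y + T.Γ g2 a' y) -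
      β * ((χ y * T.L a y + T.Γ χ a y) + (χ y * T.L a' y + T.Γ χ a' y)) +
      (Nh N z R').indicator (fun _ => D) y := fun y => by
    by_cases h : (a y < t ∨ R + 3 < a y) ∨ a' y < t
    · obtain ⟨v1, v2, v3, v4⟩ := van y h
      have v5 : g2 y = 0 := mul_eq_zero_of_left v1 _
      rw [v3, v4, e2, v5, v1, v2 _ sa, v2 _ sa']
      have : 0 ≤ (Nh N z R').indicator (fun _ => D) y := indicator_nonneg (fun _ _ => D0) y
      linarith
    simp only [not_or, not_lt] at h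
    obtain ⟨⟨h1, h2⟩, h3⟩ := h
    obtain ⟨n1, n2, n3⟩ := hP.nn y
    obtain ⟨q1, q2, q3⟩ := hP.eik y h1
    obtain ⟨r1, r2, r3⟩ := hP.eik' y h3
    rw [indicator_of_mem (hP.supp y h2), ax.L_add _ _ y sa sa', e1, e2]
    have χ0 : 0 ≤ χ y := mul_nonneg (k1 _).1 (k1 _).1
    have b4 : ∀ u v, T.S u → T.S v → T.Γ u u y ≤ 4 → T.Γ v v y ≤ 4 → |T.Γ u v y| ≤ 4 :=
      fun u v hu hv e e' => by
        have := (cal.cs u v y hu hv).1.trans (mul_le_mul e e' (ax.Γ_nn _ _) (by norm_num))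
        exact abs_le_of_sq_le_sq' (by linarith) (by norm_num) |> abs_le.2
    have b8 : ∀ u, T.S u → T.Γ u u y ≤ 4 → |T.Γ χ u y| ≤ 8 * K := fun u hu e => by
      have b : ∀ s s' v, T.S v → T.Γ v v y ≤ 4 → |k s * (deriv k s' * T.Γ v u y)| ≤ 1 * (K * 4) :=
        fun s s' v hv e' => by
          rw [abs_mul, abs_mul, abs_of_nonneg (k1 s).1]
          exact mul_le_mul (k1 s).2.1 (mul_le_mul (k1 s').2.2 (b4 v u hv hu e' e) (abs_nonneg _) K0)
            (by positivity) zero_le_one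
      rw [gχ u y hu]
      exact (abs_add_le _ _).trans (by linarith [b (a y) (a' y) a' sa' r1, b (a' y) (a y) a sa q1])
    obtain ⟨-, P2, P3, P4, P5, -, P7⟩ := P1 (a y - a' y)
    obtain ⟨E2, E3, E4, E5, -⟩ := E1 (a y + a' y)
    have cd : 0 ≤ c / δ := by positivity
    have w : E (a y + a' y) * ψ (a y - a' y) ≤ χ y * ψ (a y - a' y) ∧
        E (a y + a' y) * |deriv ψ (a y - a' y)| ≤ χ y * (c / δ) := by
      by_cases u1 : 2 * δ < |a y - a' y|
      · rw [(P7 u1).1, (P7 u1).2, abs_zero, mul_zero, mul_zero]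
        exact ⟨le_rfl, mul_nonneg χ0 cd⟩
      by_cases u2 : R + 1 < a y + a' y
      · rw [(E5 u2).1, zero_mul, zero_mul]
        exact ⟨mul_nonneg χ0 P3, mul_nonneg χ0 cd⟩
      obtain ⟨u3, u4⟩ := abs_le.1 (not_lt.1 u1)
      have u5 : χ y = 1 := by
        simp only [χ, k3 (a y) (by linarith) (by linarith), k3 (a' y) (by linarith) (by linarith),
          mul_one]
      rw [u5]
      exact ⟨mul_le_mul_of_nonneg_right (E4 (by linarith)) P3,
        mul_le_mul (E4 (by linarith)) P5 (abs_nonneg _) zero_le_one⟩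
    exact pt χ0 (mul_le_one₀ (k1 _).2.1 (k1 _).1 (k1 _).2.1) P2 P3 P4 E2 E3 w.1 w.2
      (q2.trans (le_max_left _ _)) (r2.trans (le_max_left _ _)) C0 q3 r3 (ff y ▸ ax.Γ_nn _ y)
      (ee y ▸ ax.Γ_nn _ y) (b8 a sa q1) (b8 a' sa' r1) κ0 cd
  have iB : Integrable ((Nh N z R').indicator fun _ => D) (T.μ N) :=
    (integrable_indicator_iff mB).2 (integrableOn_const fB.ne)
  have iF := (i1.neg.sub (i2.const_mul (2 * (C + 1)))).sub ((i0.add i0').const_mul β)
  have main := integral_mono (f := A.indicator fun _ => exp (-(C + 1) * R))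
    ((integrable_indicator_iff mA).2 (integrableOn_const fA.ne)) (iF.add iB) fun y => by
      refine le_trans ?_ (key y)
      by_cases hy : y ∈ A
      · rw [indicator_of_mem hy]
        simp only [g1, (P1 _).2.2.2.2.2.1 hy.1, mul_one]
        exact (E1 _).2.2.2.2 hy.2
      · rw [indicator_of_notMem hy]
        exact mul_nonneg (E1 _).1 (P1 _).2.2.1
  rw [integral_add' iF iB, integral_sub' (i1.neg.sub (i2.const_mul _)) ((i0.add i0').const_mul β),
    integral_sub' i1.neg (i2.const_mul _), integral_neg', integral_const_mul, integral_const_mul,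
    integral_add' i0 i0', j0, j0', j1, j2, integral_indicator_const _ mA,
    integral_indicator_const _ mB, smul_eq_mul, smul_eq_mul] at main
  have m0 : 0 ≤ (T.μ N).real (Nh N z R') := measureReal_nonneg
  have kd : 0 ≤ κ / δ := by positivity
  have hκ : κ ≤ t * (κ / δ) := by
    rw [← mul_div_assoc, le_div_iff₀ δ0]
    nlinarith
  have hβ' : β ≤ (2 * (C + 1) * c + 3 * (C + 1) * t + c) * (δ + κ / δ) := by
    have e : κ * (c / δ) = c * (κ / δ) := by ring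
    have := mul_le_mul_of_nonneg_left hκ (show 0 ≤ 3 * (C + 1) by positivity)
    have : 0 ≤ 2 * (C + 1) * c * (κ / δ) := by positivity
    have : 0 ≤ (3 * (C + 1) * t + c) * δ := by positivity
    rw [hβ]
    nlinarith
  have hD' : D ≤ (2 * (C + 1) * c * (8 * K) + (2 * (C + 1) * c + 3 * (C + 1) * t + c) *
      (4 * C + 2 * (8 * K))) * (δ + κ / δ) := by
    have := mul_le_mul_of_nonneg_right hβ' (show 0 ≤ 4 * C + 2 * (8 * K) by positivity)
    have : 0 ≤ 2 * (C + 1) * c * (8 * K) * (κ / δ) := by positivity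
    rw [hD]
    nlinarith
  have ex : exp ((C + 1) * R) * exp (-(C + 1) * R) = 1 := by
    rw [← exp_add, ← add_mul, add_neg_cancel, zero_mul, exp_zero]
  have h1 := mul_le_mul_of_nonneg_left main (exp_pos ((C + 1) * R)).le
  have h2 := mul_le_mul_of_nonneg_left (mul_le_mul_of_nonneg_left hD' m0)
    (exp_pos ((C + 1) * R)).le
  calc (T.μ N).real A = exp ((C + 1) * R) * ((T.μ N).real A * exp (-(C + 1) * R)) := by
        rw [mul_left_comm, ex, mul_one]
    _ ≤ _ := by linarith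

end Pool.Agent.Lib.MP_813db1_ag.NS
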