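import Pool.Agent.Lib.MP_813db1_ag.NS.Dif

/-! The calculus of an abstract diffusion. -/

namespace Pool.Agent.Lib.MP_813db1_ag.NS

open MeasureTheory Filter Topology Set Metric
open scoped ContDiff

namespace CalDa

variable {G Y : Type} [Group G] [MulAction G Y] [MeasurableSpace Y] [MetricSpace Y] {T : Dif Y}
  {n : ℕ} (h : T.Ax G n)

include h

lemma const (a : ℝ) (k : Y → ℝ) (y : Y) (hk : T.S k) :
    T.L (fun _ => a) y = 0 ∧ T.Γ (fun _ => a) k y = 0 := by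
  have h1 := h.L_comp (fun _ => a) k y hk contDiffAt_const
  have h2 := h.Γ_comp (fun _ => a) k k y hk hk contDiffAt_const
  simp only [deriv_const', zero_mul, add_zero] at h1 h2
  exact ⟨h1, h2⟩

lemma s_smul (a : ℝ) (f : Y → ℝ) (hf : T.S f) : T.S fun y => a * f y :=
  h.s_mul _ _ (h.s_const a) hf

lemma smul (a : ℝ) (f k : Y → ℝ) (y : Y) (hf : T.S f) (hk : T.S k) :
    T.L (fun z => a * f z) y = a * T.L f y ∧ T.Γ (fun z => a * f z) k y = a * T.Γ f k y := by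
  constructor
  · rw [h.L_mul _ _ y (h.s_const a) hf, (const h a f y hf).1, (const h a f y hf).2]
    ring
  · rw [h.Γ_mul _ _ _ y (h.s_const a) hf hk, (const h a k y hk).2]
    ring

omit h in
lemma sub_eq (f g : Y → ℝ) : (fun z => f z - g z) = fun z => f z + -1 * g z :=
  funext fun z => by ring

lemma s_sub (f g : Y → ℝ) (hf : T.S f) (hg : T.S g) : T.S fun y => f y - g y := by
  rw [sub_eq]
  exact h.s_add _ _ hf (s_smul h _ _ hg)

lemma sub (f g k : Y → ℝ) (y : Y) (hf : T.S f) (hg : T.S g) (hk : T.S k) :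
    T.L (fun z => f z - g z) y = T.L f y - T.L g y ∧
      T.Γ (fun z => f z - g z) k y = T.Γ f k y - T.Γ g k y := by
  rw [sub_eq, h.L_add _ _ y hf (s_smul h _ _ hg), h.Γ_add _ _ _ y hf (s_smul h _ _ hg) hk,
    (smul h _ g k y hg hk).1, (smul h _ g k y hg hk).2]
  constructor <;> ring

lemma s_sum (J : Type) (Z : Finset J) (f : J → Y → ℝ) (hf : ∀ j ∈ Z, T.S (f j)) :
    T.S (fun y => ∑ j ∈ Z, f j y) ∧ ∀ y, T.L (fun y => ∑ j ∈ Z, f j y) y = ∑ j ∈ Z, T.L (f j) y ∧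
      ∀ k, T.S k → T.Γ (fun y => ∑ j ∈ Z, f j y) k y = ∑ j ∈ Z, T.Γ (f j) k y := by
  classical
  induction Z using Finset.induction_on with
  | empty =>
    simp only [Finset.sum_empty]
    exact ⟨h.s_const 0, fun y => ⟨(const h 0 _ y (h.s_const 0)).1, fun k hk => (const h 0 k y hk).2⟩⟩
  | insert a Z ha ih =>
    obtain ⟨h1, h2⟩ := ih fun j hj => hf j (Finset.mem_insert_of_mem hj)
    have h3 := hf a (Finset.mem_insert_self a Z)
    simp only [Finset.sum_insert ha]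
    exact ⟨h.s_add _ _ h3 h1, fun y => ⟨by rw [h.L_add _ _ y h3 h1, (h2 y).1],
      fun k hk => by rw [h.Γ_add _ _ _ y h3 h1 hk, (h2 y).2 k hk]⟩⟩

lemma cs (f g : Y → ℝ) (y : Y) (hf : T.S f) (hg : T.S g) :
    T.Γ f g y ^ 2 ≤ T.Γ f f y * T.Γ g g y := by
  have h1 : ∀ t : ℝ, 0 ≤ T.Γ g g y * (t * t) + 2 * T.Γ f g y * t + T.Γ f f y := fun t => by
    have h2 := s_smul h t g hg
    have h3 := h.s_add _ _ hf h2
    have h4 := h.Γ_nn (fun z => f z + t * g z) y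
    rw [h.Γ_add _ _ _ y hf h2 h3, (smul h t g _ y hg h3).2, h.Γ_comm f, h.Γ_comm g,
      h.Γ_add _ _ _ y hf h2 hf, h.Γ_add _ _ _ y hf h2 hg, (smul h t g _ y hg hf).2,
      (smul h t g _ y hg hg).2, h.Γ_comm g f] at h4
    linarith
  have h2 := discrim_le_zero h1
  rw [discrim] at h2
  linarith

lemma loc (f g : Y → ℝ) (y : Y) (hf : T.S f) (hg : T.S g) (e : f =ᶠ[𝓝 y] g) :
    T.L f y = T.L g y ∧ ∀ k, T.S k → T.Γ f k y = T.Γ g k y := by
  have key : ∀ f g : Y → ℝ, T.S f → T.S g → f =ᶠ[𝓝 y] g →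
      T.L f y ≤ T.L g y ∧ ∀ k, T.S k → T.Γ f k y = T.Γ g k y := fun f g hf hg e => by
    obtain ⟨h1, h2⟩ := h.max _ y (s_sub h f g hf hg) (e.mono fun z hz => by
      show f z - g z ≤ f y - g y
      rw [hz, e.eq_of_nhds, sub_self, sub_self])
    rw [(sub h f g f y hf hg hf).1] at h1
    exact ⟨by linarith, fun k hk => sub_eq_zero.1 ((sub h f g k y hf hg hk).2.symm.trans (h2 k hk))⟩
  exact ⟨(key f g hf hg e).1.antisymm (key g f hg hf e.symm).1, (key f g hf hg e).2⟩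

lemma log (κ : ℝ) (v : Y → ℝ) (y : Y) (hv : T.S v) (h0 : ∀ z, 0 < v z) :
    T.S (fun z => -κ * Real.log (v z)) ∧
    (v y - κ ^ 2 * T.L v y = 0 → T.Γ (fun z => -κ * Real.log (v z))
      (fun z => -κ * Real.log (v z)) y = 1 + κ * T.L (fun z => -κ * Real.log (v z)) y) := by
  have c : ∀ z, ContDiffAt ℝ ∞ (fun t => -κ * Real.log t) (v z) := fun z =>
    contDiffAt_const.mul (Real.contDiffAt_log.2 (h0 z).ne')
  have d : deriv (fun t => -κ * Real.log t) = fun t => -κ * t⁻¹ := funext fun t => by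
    rw [deriv_const_mul_field, Real.deriv_log]
  have d' : deriv (fun t : ℝ => -κ * t⁻¹) (v y) = -κ * -(v y ^ 2)⁻¹ := by
    rw [deriv_const_mul_field, deriv_inv]
  have s := h.s_comp _ v hv c
  refine ⟨s, fun e => ?_⟩
  rw [h.Γ_comp _ v _ y hv s (c y), h.Γ_comm v, h.Γ_comp _ v _ y hv hv (c y),
    h.L_comp _ v y hv (c y), d, d']
  have := (h0 y).ne'
  field_simp
  linear_combination -(v y) * e

end CalDa

open CalDa in
theorem calD : CalD := by
  intro n G Y _ _ _ _ _ _ T h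
  refine ⟨⟨s_smul h, s_sub h, s_sum h, const h, smul h, sub h, fun f g y hf hg =>
    ⟨cs h f g y hf hg, ?_⟩, loc h, log h⟩, fun N f hf e g hg y => ?_,
    fun N f k hf hk e e' g hg y => ?_, fun N x r => ⟨?_, fun g hg y => ⟨?_, ?_⟩⟩⟩
  · rw [← Real.sqrt_mul (h.Γ_nn f y)]
    exact Real.abs_le_sqrt (cs h f g y hf hg)
  · rw [← h.L_smul g f y hf, funext (e g hg)]
  · rw [← h.Γ_smul g f k y hf hk, funext (e g hg), funext (e' g hg)]
  · refine Metric.isOpen_iff.2 ?_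
    rintro y ⟨g, hg, e⟩
    refine ⟨r - dist x (g • y), sub_pos.2 e, fun z hz => ⟨g, hg, ?_⟩⟩
    have h1 := dist_triangle x (g • y) (g • z)
    rw [h.iso, dist_comm y] at h1
    have h2 := mem_ball.1 hz
    linarith
  · rintro ⟨g', hg', e⟩
    exact ⟨g' * g, N.mul_mem hg' hg, by rwa [mul_smul]⟩
  · rintro ⟨g', hg', e⟩
    exact ⟨g' * g⁻¹, N.mul_mem hg' (N.inv_mem hg), by rwa [mul_smul, inv_smul_smul]⟩

end Pool.Agent.Lib.MP_813db1_ag.NS
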