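import Pool.Agent.Lib.MP_813db1_ag.NS.Dif

/-! The gradient estimate of Cheng and Yau for an abstract diffusion. -/

namespace Pool.Agent.Lib.MP_813db1_ag.NS

open Filter Topology Set Metric

namespace CyA

theorem arith (n Q : ℝ) (hn : 1 ≤ n) (hQ : 0 < Q) : ∃ C ≥ (1 : ℝ), ∀ κ φ w l g γ : ℝ, 0 < κ →
    κ ≤ 1 → 0 ≤ φ → φ ≤ 1 → κ ≤ φ ^ 2 * w →
    Q * φ / (2 * w) * l - 3 / 4 * Q * φ / w ^ 2 * g ≤ n + 1 + Q →
    (Q * φ / (2 * w)) ^ 2 * g ≤ 3 * Q → (w / κ) ^ 2 / n + 2 * (γ / κ) - (w + 1) ≤ l →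
    γ ^ 2 ≤ g * (w + 1) → φ ^ 2 * w ≤ C * κ := by
  obtain ⟨A, hA⟩ : ∃ A, A = (2 * (n + 1 + Q) + 18) / Q := ⟨_, rfl⟩
  obtain ⟨B, hB⟩ : ∃ B, B = 12 / Q * (n * (A + 2) + 1 + 2 * n) := ⟨_, rfl⟩
  have hA0 : 0 ≤ A := by rw [hA]; positivity
  have hB0 : 0 ≤ B := by rw [hB]; positivity
  have hn0 : 0 < n := by linarith
  refine ⟨n * (A + 2 + 2 * (B + 1)) + 1, le_add_of_nonneg_left (by positivity),
    fun κ φ w l g γ k0 k1 p0 p1 hM h1 h2 hb hcs => ?_⟩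
  have hM0 := k0.trans_le hM
  have hw : 0 < w := pos_of_mul_pos_right hM0 (sq_nonneg φ)
  have p2 : φ ^ 2 ≤ 1 := pow_le_one₀ p0 p1
  have a2 : Q * (φ ^ 2 * g) ≤ 12 * w ^ 2 := by
    rw [div_pow, div_mul_eq_mul_div, div_le_iff₀ (by positivity)] at h2
    exact le_of_mul_le_mul_left (by nlinarith) hQ
  have a1 : φ ^ 2 * l ≤ A * w := by
    have e : Q * φ / (2 * w) * l - 3 / 4 * Q * φ / w ^ 2 * g
        = (2 * Q * φ * l * w - 3 * Q * φ * g) / (4 * w ^ 2) := by field_simp; ring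
    rw [e, div_le_iff₀ (by positivity)] at h1
    have h3 := mul_le_mul_of_nonneg_left h1 p0
    have h4 : φ * ((n + 1 + Q) * (4 * w ^ 2)) ≤ (n + 1 + Q) * (4 * w ^ 2) :=
      mul_le_of_le_one_left (by positivity) p1
    rw [hA, div_mul_eq_mul_div, le_div_iff₀ hQ]
    exact le_of_mul_le_mul_left (by nlinarith) hw
  have a3 : w ^ 2 ≤ n * κ ^ 2 * (l + w + 1) + 2 * n * κ * |γ| := by
    have e : (w / κ) ^ 2 / n + 2 * (γ / κ) = (w ^ 2 + 2 * n * κ * γ) / (n * κ ^ 2) := by field_simp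
    rw [sub_le_iff_le_add, e, div_le_iff₀ (by positivity)] at hb
    have := mul_le_mul_of_nonneg_left (neg_abs_le γ) (show 0 ≤ 2 * n * κ by positivity)
    nlinarith
  obtain ⟨c, hc⟩ : ∃ c, c = φ ^ 2 * |γ| / w := ⟨_, rfl⟩
  have c0 : 0 ≤ c := by rw [hc]; positivity
  have c1 : c * w = φ ^ 2 * |γ| := by rw [hc]; field_simp
  have c2 : Q * c ^ 2 ≤ 12 * (φ ^ 2 * w + 1) := by
    refine le_of_mul_le_mul_left ?_ (pow_pos hw 2)
    have h3 := mul_le_mul_of_nonneg_left hcs (show 0 ≤ Q * φ ^ 2 * φ ^ 2 by positivity)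
    have h4 := mul_le_mul_of_nonneg_left a2 (show 0 ≤ φ ^ 2 * (w + 1) by positivity)
    have h5 : w ^ 2 * (Q * c ^ 2) = Q * φ ^ 2 * φ ^ 2 * γ ^ 2 := by
      rw [← sq_abs γ]
      linear_combination Q * (c * w + φ ^ 2 * |γ|) * c1
    have h6 := mul_le_mul_of_nonneg_left p2 (sq_nonneg w)
    nlinarith
  generalize hm : φ ^ 2 * w = M at *
  have c3 : M ≤ n * κ * (A + 2 + 2 * c) := by
    refine le_of_mul_le_mul_left ?_ hM0
    have h3 := mul_le_mul_of_nonneg_left a3 (show 0 ≤ φ ^ 2 * φ ^ 2 by positivity)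
    have h4 : φ ^ 2 * φ ^ 2 * (l + w + 1) ≤ A * M + M + 1 := by
      have h5 := mul_le_mul_of_nonneg_left a1 (sq_nonneg φ)
      have h6 := mul_le_mul_of_nonneg_left p2 hM0.le
      have h7 := mul_le_one₀ p2 (sq_nonneg φ) p2
      rw [← hm] at h6 ⊢
      nlinarith
    have h5 : κ * (A * M + M + 1) ≤ M * (A + 2) := by
      have := mul_le_mul_of_nonneg_right k1 (show 0 ≤ A * M + M by positivity)
      nlinarith
    have h6 := mul_le_mul_of_nonneg_left h4 (show 0 ≤ n * κ ^ 2 by positivity)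
    have h7 := mul_le_mul_of_nonneg_left h5 (show 0 ≤ n * κ by positivity)
    have h8 : φ ^ 2 * φ ^ 2 * |γ| = c * M := by rw [← hm]; linear_combination -φ ^ 2 * c1
    have h9 : φ ^ 2 * φ ^ 2 * w ^ 2 = M * M := by rw [← hm]; ring
    have h10 : φ ^ 2 * φ ^ 2 * (2 * n * κ * |γ|) = 2 * n * κ * (c * M) := by rw [← h8]; ring
    nlinarith
  have c4 : c ≤ B + 1 := by
    by_contra! h
    have h3 : n * κ * (A + 2 + 2 * c) ≤ n * (A + 2 + 2 * c) := by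
      rw [mul_right_comm]
      exact mul_le_of_le_one_right (by positivity) k1
    have h4 : Q * B = 12 * (n * (A + 2) + 1 + 2 * n) := by rw [hB]; field_simp
    have h5 : 1 ≤ c := by linarith
    have h6 := mul_le_mul_of_nonneg_left h5 (show 0 ≤ n * (A + 2) + 1 by positivity)
    have h7 := mul_lt_mul_of_pos_left (show B < c by linarith) (show 0 < Q * c by positivity)
    nlinarith
  have := mul_le_mul_of_nonneg_left c4 (show 0 ≤ n * κ by positivity)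
  nlinarith

theorem der (Q m : ℝ) {w : ℝ} (hw : 0 < w) :
    ContDiffAt ℝ 2 (fun t : ℝ => Q * (1 - m * t ^ (-1 / 2 : ℝ))) w ∧
    deriv (fun t : ℝ => Q * (1 - m * t ^ (-1 / 2 : ℝ))) w = Q * (m / √w) / (2 * w) ∧
    deriv (deriv fun t : ℝ => Q * (1 - m * t ^ (-1 / 2 : ℝ))) w
      = -(3 / 4 * Q * (m / √w) / w ^ 2) := by
  have h1 : ∀ t : ℝ, 0 < t → deriv (fun t : ℝ => Q * (1 - m * t ^ (-1 / 2 : ℝ))) t
      = Q * m / 2 * t ^ (-1 / 2 - 1 : ℝ) := fun t ht => by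
    rw [((((Real.hasDerivAt_rpow_const (Or.inl ht.ne')).const_mul m).const_sub 1).const_mul Q).deriv]
    ring
  have h2 : w ^ (-1 / 2 : ℝ) = (√w)⁻¹ := by
    rw [Real.sqrt_eq_rpow, ← Real.rpow_neg hw.le, neg_div]
  refine ⟨contDiffAt_const.mul (contDiffAt_const.sub
    (contDiffAt_const.mul (Real.contDiffAt_rpow_const_of_ne hw.ne'))), ?_, ?_⟩
  · rw [h1 w hw, Real.rpow_sub_one hw.ne', h2]
    ring
  · rw [EventuallyEq.deriv_eq ((lt_mem_nhds hw).mono h1),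
      ((Real.hasDerivAt_rpow_const (Or.inl hw.ne')).const_mul _).deriv, Real.rpow_sub_one hw.ne',
      Real.rpow_sub_one hw.ne', h2]
    ring

theorem lsc {Y : Type} [TopologicalSpace Y] {ρ s : Y → ℝ} (h : LowerSemicontinuous ρ)
    (hs : Continuous s) (h0 : ∀ y, 0 ≤ s y) (Q : ℝ) :
    LowerSemicontinuous fun y => (ρ y - Q) * s y := fun x c hc => by
  have h1 : ∀ᶠ t in 𝓝[<] ρ x, c < (t - Q) * s x :=
    (continuousAt_const.eventually_lt (show ContinuousAt (fun t => (t - Q) * s x) (ρ x) by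
      fun_prop) hc).filter_mono nhdsWithin_le_nhds
  obtain ⟨t, t1, t2⟩ := (h1.and self_mem_nhdsWithin).exists
  filter_upwards [h x t t2, continuousAt_const.eventually_lt
    (show ContinuousAt (fun z => (t - Q) * s z) x by fun_prop) t1] with z z1 z2
  exact z2.trans_le (mul_le_mul_of_nonneg_right (by linarith) (h0 z))

end CyA

open CyA in
theorem cyS (hC : CalD) : CyS := by
  intro n r hr
  rcases Nat.eq_zero_or_pos n with rfl | hn
  · exact ⟨0, le_rfl, fun _ _ _ _ _ _ _ _ T hT => absurd hT.n1 (by decide)⟩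
  have hR : 0 < r / 3 := by positivity
  have hQ : 0 < (r / 3) ^ 2 := by positivity
  obtain ⟨C, hC1, hA⟩ := arith n _ (by exact_mod_cast hn) hQ
  refine ⟨C, by linarith, fun G Y _ _ _ _ _ _ T hT κ a y k0 k1 ha he => ?_⟩
  have hc := (hC n G Y T hT).1
  obtain ⟨ρ, hρ⟩ := hT.bar y (r / 3) 1 _ hR hQ
  have hlo : ∀ z, ρ z < (r / 3) ^ 2 → dist y z ≤ 2 * (r / 3) := fun z hz =>
    (hρ.lo z hz).trans (by gcongr; exact Real.sqrt_le_iff.2 ⟨hR.le, hz.le⟩)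
  generalize hq : (r / 3) ^ 2 = Q at hQ hA hlo
  have hm : ∀ z, 0 ≤ ρ z ∧ ρ z ≤ Q := hq ▸ hρ.mem
  obtain ⟨W, hW⟩ : ∃ W : Y → ℝ, W = fun z => T.Γ a a z - 1 := ⟨_, rfl⟩
  have sΓ := hT.s_Γ a a ha ha
  have sW : T.S W := hW ▸ hc.s_sub _ _ sΓ (hT.s_const 1)
  have cW := hT.s_cont W sW
  obtain ⟨x, -, hx⟩ := ((lsc hρ.lsc cW.sqrt (fun z => Real.sqrt_nonneg _)
    Q).lowerSemicontinuousOn _).exists_isMinOn
    (nonempty_closedBall.2 (show 0 ≤ 2 * (r / 3) by positivity)) (isCompact_closedBall y _)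
  obtain ⟨φ, hφ⟩ : ∃ φ, φ = (Q - ρ x) / Q := ⟨_, rfl⟩
  have p0 : 0 ≤ φ := hφ ▸ div_nonneg (sub_nonneg.2 (hm x).2) hQ.le
  have p1 : φ ≤ 1 := hφ ▸ (div_le_one hQ).2 (sub_le_self _ (hm x).1)
  have p2 : Q * φ = Q - ρ x := by rw [hφ]; field_simp
  have hmax : ∀ z, (Q - ρ z) * √(W z) ≤ Q * (φ * √(W x)) := fun z => by
    rcases (hm z).2.eq_or_lt with h | h
    · rw [h, sub_self, zero_mul]; positivity
    · have : (ρ x - Q) * √(W x) ≤ (ρ z - Q) * √(W z) := hx (mem_closedBall'.2 (hlo z h))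
      rw [← mul_assoc, p2]
      linarith
  have hy : W y ≤ φ ^ 2 * √(W x) ^ 2 := by
    have h := hmax y
    rw [hρ.zero, sub_zero, mul_le_mul_iff_right₀ hQ] at h
    rw [← mul_pow]
    exact (Real.sqrt_le_left (by positivity)).1 h
  suffices h : φ ^ 2 * √(W x) ^ 2 ≤ C * κ by
    have : W y = T.Γ a a y - 1 := by rw [hW]
    linarith
  rcases lt_or_ge (φ ^ 2 * √(W x) ^ 2) κ with h | h
  · exact h.le.trans (le_mul_of_one_le_left k0.le hC1)
  have hw : 0 < W x := Real.sqrt_pos.1 (by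
    refine (Real.sqrt_nonneg _).lt_of_ne fun h0 => ?_
    rw [← h0] at h
    simp at h
    linarith)
  rw [Real.sq_sqrt hw.le] at h ⊢
  have p3 : ρ x < Q := (hm x).2.lt_of_ne fun h0 => by
    rw [hφ, h0] at h
    simp at h
    linarith
  have hs := Real.sqrt_pos.2 hw
  obtain ⟨d0, d1, d2⟩ := der Q (φ * √(W x)) hw
  rw [mul_div_cancel_right₀ _ hs.ne'] at d1 d2
  have e1 : ∀ t : ℝ, 0 < t → t ^ (-1 / 2 : ℝ) = (√t)⁻¹ := fun t ht => by
    rw [Real.sqrt_eq_rpow, ← Real.rpow_neg ht.le, neg_div]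
  obtain ⟨v1, -, v2⟩ := hρ.vis W _ x sW d0
    (by rw [e1 _ hw, mul_inv_cancel_right₀ hs.ne', mul_sub, p2]; ring) (hq ▸ p3) (by
      filter_upwards [continuousAt_const.eventually_lt cW.continuousAt hw] with z hz
      have := (le_div_iff₀ (Real.sqrt_pos.2 hz)).2 (hmax z)
      rw [e1 _ hz, mul_sub, ← mul_assoc, ← div_eq_mul_inv]
      linarith)
  rw [d1] at v1 v2
  rw [d2] at v1
  have hb : ball y r ∈ 𝓝 x := isOpen_ball.mem_nhds (mem_ball'.2 (by linarith [hlo x p3]))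
  have hL : T.L a =ᶠ[𝓝 x] fun z => κ⁻¹ * W z := by
    filter_upwards [hb] with z hz
    simp only [hW, he z hz]
    field_simp
    ring
  have b1 := hT.be a x ha
  have b2 : T.L W x = T.L (T.Γ a a) x := by
    rw [hW, (hc.sub _ _ a x sΓ (hT.s_const 1) ha).1, (hc.const 1 a x ha).1, sub_zero]
  have b3 : T.Γ a a x = W x + 1 := by rw [hW]; ring
  rw [← b2, hT.Γ_comm a (T.L a), (hc.loc _ _ x (hT.s_L a ha) (hc.s_smul _ _ sW) hL).2 a ha,
    (hc.smul _ W a x sW ha).2, hL.eq_of_nhds, b3, inv_mul_eq_div, inv_mul_eq_div] at b1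
  exact hA κ φ (W x) (T.L W x) (T.Γ W W x) (T.Γ W a x) k0 k1 p0 p1 h (by linarith [(hm x).2])
    (by linarith [(hm x).2]) b1 (b3 ▸ (hc.cs W a x sW ha).1)

end Pool.Agent.Lib.MP_813db1_ag.NS
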