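import Pool.Agent.Lib.MP_813db1_ag.NS.Dif

/-! The lower bound for supersolutions and the Lipschitz bound. -/

namespace Pool.Agent.Lib.MP_813db1_ag.NS

open Filter Topology Set Metric

variable {Y : Type} [MeasurableSpace Y] [MetricSpace Y] [ProperSpace Y] {T : Dif Y} {n : ℕ} {x : Y}
  {R Λ η : ℝ} {ρ : Y → ℝ}

omit [ProperSpace Y] in
theorem Dif.Rho.dist_lt (h : T.Rho n x R Λ η ρ) (hR : 0 < R) {z : Y} (hz : ρ z < R ^ 2) :
    dist x z < 2 * R :=
  (h.lo z hz).trans_lt (by have := (Real.sqrt_lt' hR).2 hz; linarith)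

theorem Dif.Rho.exists_min (h : T.Rho n x R Λ η ρ) (hR : 0 < R) {F : Y → ℝ}
    (hF : LowerSemicontinuous F) (h0 : ∀ z, ρ z = R ^ 2 → 0 ≤ F z) {y : Y} (hy : F y < 0) :
    ∃ w, ρ w < R ^ 2 ∧ F w < 0 ∧ ∀ z, F w ≤ F z := by
  have k : ∀ z, F z < 0 → ρ z < R ^ 2 := fun z hz =>
    (h.mem z).2.lt_of_ne fun e => (h0 z e).not_gt hz
  have m : ∀ z, F z < 0 → z ∈ closedBall x (2 * R) := fun z hz =>
    mem_closedBall'.2 (h.dist_lt hR (k z hz)).le
  obtain ⟨w, -, hw⟩ := (hF.lowerSemicontinuousOn _).exists_isMinOn ⟨y, m y hy⟩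
    (isCompact_closedBall x (2 * R))
  have l : F w < 0 := (hw (m y hy)).trans_lt hy
  exact ⟨w, k w l, l, fun z => (lt_or_ge (F z) 0).elim (fun a => hw (m z a)) l.le.trans⟩

theorem hopfS (_ : CalD) : HopfS := by
  intro n G Y _ _ _ _ _ _ T hT κ s Λ A t v x y hκ hs ht a1 a2 hv h1 h2 h3
  have q : 0 ≤ 16 * (n + 1 : ℝ) / s ^ 2 := by positivity
  have A0 : 0 < A := by linarith
  have p0 : 0 < 64 * Λ ^ 2 + 1 := by positivity
  have hR := Real.sqrt_pos.2 p0
  obtain ⟨ρ, h⟩ := hT.bar x _ Λ 1 hR one_pos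
  have e := Real.sq_sqrt p0.le
  set R := √(64 * Λ ^ 2 + 1)
  have key : 0 ≤ v y + -t * Real.exp (-A * ρ y) + t * Real.exp (-A * R ^ 2) := by
    by_contra hc
    have c1 : Continuous fun r : ℝ => -t * Real.exp (-A * r) := by fun_prop
    have c2 : Monotone fun r : ℝ => -t * Real.exp (-A * r) := fun a b l =>
      mul_le_mul_of_nonpos_left (Real.exp_le_exp.2 (by nlinarith)) (by linarith)
    obtain ⟨w, w1, w2, w3⟩ := h.exists_min hR
      (F := fun z => v z + -t * Real.exp (-A * ρ z) + t * Real.exp (-A * R ^ 2))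
      (((hT.s_cont v hv).lowerSemicontinuous.add (c1.comp_lowerSemicontinuous h.lsc c2)).add
        lowerSemicontinuous_const) (fun z e => by rw [e]; linarith [(h1 z).1]) (not_le.1 hc)
    have x0 := Real.exp_pos (-A * R ^ 2)
    have x1 := Real.exp_pos (-A * ρ w)
    have x2 : Real.exp (-A * ρ w) ≤ 1 := Real.exp_le_one_iff.2 (by nlinarith [(h.mem w).1])
    have v0 := (h1 w).1
    have t0 : 0 < t := ht.lt_of_ne fun e => by subst e; linarith
    have d : s ≤ dist x w := not_lt.1 fun l => by nlinarith [h2 w (mem_ball'.2 l)]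
    have r0 : s ^ 2 / 4 ≤ ρ w := by
      have := d.trans (h.lo w w1)
      nlinarith [Real.sq_sqrt (h.mem w).1, Real.sqrt_nonneg (ρ w)]
    obtain ⟨m, hm⟩ : ∃ m, m = t * Real.exp (-A * ρ w) - v w := ⟨_, rfl⟩
    have m0 : 0 < m := by nlinarith
    have E0 : 0 < v w + m := by linarith
    have D : ∀ u, 0 < u + m → HasDerivAt (fun u => A⁻¹ * (Real.log t - Real.log (u + m)))
        (-A⁻¹ * (u + m)⁻¹) u := fun u hu => by
      simpa using ((((hasDerivAt_id' u).add_const m).log hu.ne').const_sub (Real.log t)).const_mul A⁻¹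
    have D1 : deriv (fun u => A⁻¹ * (Real.log t - Real.log (u + m))) =ᶠ[𝓝 (v w)]
        fun u => -A⁻¹ * (u + m)⁻¹ :=
      ((continuous_id.add continuous_const).continuousAt.eventually (lt_mem_nhds E0)).mono
        fun u hu => (D u hu).deriv
    have D2 : HasDerivAt (fun u => -A⁻¹ * (u + m)⁻¹) (A⁻¹ * (v w + m)⁻¹ ^ 2) (v w) := by
      refine ((((hasDerivAt_id' (v w)).add_const m).inv E0.ne').const_mul (-A⁻¹)).congr_deriv ?_
      field_simp
    have L : ∀ z, Real.log (t * Real.exp (-A * ρ z)) = Real.log t - A * ρ z := fun z => by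
      rw [Real.log_mul t0.ne' (Real.exp_pos _).ne', Real.log_exp]; ring
    obtain ⟨b1, b2, -⟩ := h.vis v (fun u => A⁻¹ * (Real.log t - Real.log (u + m))) w hv
      (contDiffAt_const.mul (contDiffAt_const.sub
        ((contDiffAt_id.add contDiffAt_const).log E0.ne')))
      (by rw [show v w + m = t * Real.exp (-A * ρ w) by linarith, L]; field_simp; ring) w1
      (.of_forall fun z => by
        have := Real.log_le_log (mul_pos t0 (Real.exp_pos (-A * ρ z)))
          (show _ ≤ v z + m by linarith [w3 z])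
        rw [L] at this
        rw [inv_mul_le_iff₀ A0]
        linarith)
    rw [D1.deriv_eq, D2.deriv, (D _ E0).deriv] at b1
    rw [(D _ E0).deriv] at b2
    set E := v w + m
    have s2 : 0 < s ^ 2 := by positivity
    have f1 : (n + 1 : ℝ) ≤ 16 * (n + 1) / s ^ 2 * (ρ w / 4) := by
      rw [div_mul_eq_mul_div, le_div_iff₀ s2]; nlinarith [(Nat.cast_nonneg n : (0 : ℝ) ≤ n)]
    have f2 : A * (ρ w / 2) ≤ A⁻¹ * E⁻¹ ^ 2 * T.Γ v v w :=
      (mul_le_mul_of_nonneg_left b2 A0.le).trans_eq (by field_simp)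
    have f3 : A * (s ^ 2 / 16) ≤ A⁻¹ * E⁻¹ * T.L v w := by
      linarith [mul_le_mul_of_nonneg_left r0 A0.le, mul_le_mul_of_nonneg_right a2 (h.mem w).1]
    have f4 : 4 ≤ A * (κ * s) := (div_le_iff₀ (by positivity)).1 a1
    have f5 : A * E * (A * (s ^ 2 / 16)) ≤ T.L v w :=
      (mul_le_mul_of_nonneg_left f3 (by positivity)).trans_eq (by field_simp)
    have f6 : 16 ≤ (A * (κ * s)) ^ 2 := by nlinarith
    have f7 := mul_le_mul_of_nonneg_left f5 (sq_nonneg κ)
    have f8 : v w < E := lt_add_of_pos_right _ m0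
    have f9 := mul_le_mul_of_nonneg_left f6 E0.le
    linarith [(h1 w).2]
  have u1 : Real.exp (-(64 * A * Λ ^ 2)) ≤ Real.exp (-A * ρ y) :=
    Real.exp_le_exp.2 (by nlinarith [h.up y h3])
  have u2 : Real.exp (-A * R ^ 2) * Real.exp A = Real.exp (-(64 * A * Λ ^ 2)) := by
    rw [← Real.exp_add, e]; congr 1; ring
  have u3 : Real.exp (-A * R ^ 2) * 2 ≤ Real.exp (-(64 * A * Λ ^ 2)) :=
    u2 ▸ mul_le_mul_of_nonneg_left (by linarith [Real.add_one_le_exp A]) (Real.exp_pos _).le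
  nlinarith

theorem lip_up {G : Type} [Group G] [MulAction G Y] (hT : T.Ax G n) {u : Y → ℝ} {y : Y} {r A : ℝ}
    (hu : T.S u) (hA : 0 ≤ A) (hd : dist x y < r) (hΓ : ∀ z ∈ ball x (33 * r), T.Γ u u z ≤ A ^ 2) :
    u y - u x ≤ 50 * A * r := by
  have r0 : 0 < r := dist_nonneg.trans_lt hd
  have hR : 0 < 16 * r := by linarith
  obtain ⟨ρ, h⟩ := hT.bar x _ r 1 hR one_pos
  have cu := hT.s_cont u hu
  refine le_of_forall_pos_le_add fun ε hε => ?_
  obtain ⟨κ, hκ⟩ : ∃ κ, κ = 3 * A + ε / (16 * r) := ⟨_, rfl⟩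
  have k1 : 3 * A < κ := by have : 0 < ε / (16 * r) := by positivity
                            linarith
  have k0 : 0 < κ := by linarith
  obtain ⟨e, he⟩ : ∃ e : ℝ → ℝ, e = fun a => Real.exp ((u x - a) / (κ * (16 * r))) := ⟨_, rfl⟩
  have e0 : ∀ a, 0 < e a := fun a => he ▸ Real.exp_pos _
  have ce : ContDiff ℝ 2 e := by subst he; fun_prop
  have key : 0 ≤ √(ρ y) + (16 * r * e (u y) - 16 * r) := by
    by_contra hc
    obtain ⟨w, w1, w2, w3⟩ := h.exists_min hR
      (F := fun z => √(ρ z) + (16 * r * e (u z) - 16 * r))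
      ((Real.continuous_sqrt.comp_lowerSemicontinuous h.lsc fun _ _ => Real.sqrt_le_sqrt).add
        (Continuous.lowerSemicontinuous (by have := ce.continuous; fun_prop)))
      (fun z e1 => by rw [e1, Real.sqrt_sq hR.le]; nlinarith [e0 (u z)]) (not_le.1 hc)
    have p0 : 0 < √(ρ w) := (Real.sqrt_nonneg _).lt_of_ne fun e1 => by
      have := h.lo w w1
      rw [← e1, mul_zero, dist_le_zero] at this
      subst this
      simp [he, ← e1] at w2
    have D : HasDerivAt e (e (u w) * -(κ * (16 * r))⁻¹) (u w) := by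
      subst he
      simpa [neg_div] using (((hasDerivAt_id' (u w)).const_sub (u x)).div_const
        (κ * (16 * r))).exp
    have D1 : HasDerivAt (fun a => (√(ρ w) + 16 * r * (e (u w) - e a)) ^ 2)
        (2 * √(ρ w) * (e (u w) / κ)) (u w) := by
      refine ((((D.const_sub _).const_mul _).const_add _).fun_pow 2).congr_deriv ?_
      field_simp
      simp
      ring
    obtain ⟨-, b, -⟩ := h.vis u (fun a => (√(ρ w) + 16 * r * (e (u w) - e a)) ^ 2) w hu
      (ContDiff.contDiffAt (by fun_prop)) (by simp [Real.sq_sqrt (h.mem w).1]) w1 (by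
        have c : Continuous fun z => √(ρ w) + 16 * r * (e (u w) - e (u z)) := by
          have := ce.continuous; fun_prop
        filter_upwards [c.continuousAt.eventually (lt_mem_nhds (a := 0) (by linarith))]
          with z hz
        rw [← Real.sq_sqrt (h.mem z).1]
        exact pow_le_pow_left₀ hz.le (by linarith [w3 z]) 2)
    rw [D1.deriv] at b
    have g := hΓ w (mem_ball'.2 (by linarith [h.dist_lt hR w1]))
    have e1 : e (u w) ≤ 1 := by nlinarith
    have e2 : (e (u w) / κ) ^ 2 * T.Γ u u w ≤ (1 / κ) ^ 2 * A ^ 2 :=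
      mul_le_mul (pow_le_pow_left₀ (div_pos (e0 _) k0).le (by gcongr) 2) g (hT.Γ_nn _ _)
        (sq_nonneg _)
    have e3 : (1 / κ) ^ 2 * A ^ 2 < 1 / 8 := by
      rw [div_pow, div_mul_eq_mul_div, div_lt_iff₀ (by positivity)]; nlinarith
    have e4 := Real.sq_sqrt (h.mem w).1
    have e5 := Real.sqrt_pos.1 p0
    rw [mul_pow, mul_pow, e4] at b
    nlinarith
  have u1 : √(ρ y) ≤ 8 * r := Real.sqrt_le_iff.2 ⟨by linarith, by linarith [h.up y hd]⟩
  have u2 : 1 / 2 ≤ e (u y) := by nlinarith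
  have u3 : e (u y) * Real.exp ((u y - u x) / (κ * (16 * r))) = 1 := by
    rw [he, ← Real.exp_add, ← add_div]; simp
  have u4 := Real.add_one_le_exp ((u y - u x) / (κ * (16 * r)))
  have u5 : (u y - u x) / (κ * (16 * r)) ≤ 1 := by
    nlinarith [Real.exp_pos ((u y - u x) / (κ * (16 * r)))]
  rw [div_le_one (by positivity), hκ, add_mul, div_mul_cancel₀ _ hR.ne'] at u5
  nlinarith

theorem lipD (hC : CalD) : LipD := by
  intro n G Y _ _ _ _ _ _ T hT u x y r A hu hA hd hΓ
  have c := (hC n G Y T hT).1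
  have s := c.s_smul (-1) u hu
  have h := lip_up hT s hA hd fun z hz => by
    rw [(c.smul _ _ _ z hu s).2, hT.Γ_comm, (c.smul _ _ _ z hu hu).2]
    linarith [hΓ z hz]
  exact abs_le.2 ⟨by linarith, lip_up hT hu hA hd hΓ⟩

end Pool.Agent.Lib.MP_813db1_ag.NS
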