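import Pool.Agent.Lib.MP_813db1_ag.NS.Dif

/-! The measures on the quotients. -/

namespace Pool.Agent.Lib.MP_813db1_ag.NS

open Pool.Agent.Lib.MP_813db1_ag.AS
open MeasureTheory Filter Topology Set Metric
open scoped ContDiff ENNReal

noncomputable section

namespace MesAux

variable {G Y : Type} [Group G] [MulAction G Y] [MeasurableSpace Y] [MetricSpace Y]
  [BorelSpace Y] {T : Dif Y} {n : ℕ}

theorem meas_smul (hT : T.Ax G n) (g : G) : Measurable fun y : Y => g • y :=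
  (Isometry.of_dist_eq (hT.iso g)).continuous.measurable

theorem key (hT : T.Ax G n) (N : Subgroup G) {A : Set Y} (hA : MeasurableSet A) :
    T.μ N A = ∑' c : G ⧸ N, T.ν (T.F₀ ∩ {y | c.out⁻¹ • y ∈ A}) := by
  have := hT.cnt
  have : Countable (G ⧸ N) := (QuotientGroup.mk_surjective (s := N)).countable
  have h1 : A ∩ {y | ∃ c : G ⧸ N, c.out • y ∈ T.F₀} =
      ⋃ c : G ⧸ N, (fun y => c.out • y) ⁻¹' (T.F₀ ∩ {y | c.out⁻¹ • y ∈ A}) := by
    ext y
    simp only [mem_inter_iff, mem_ofPred_eq, mem_iUnion, mem_preimage, inv_smul_smul]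
    constructor
    · rintro ⟨h, c, hc⟩
      exact ⟨c, hc, h⟩
    · rintro ⟨c, hc, h⟩
      exact ⟨h, c, hc⟩
  have hm : ∀ c : G ⧸ N, MeasurableSet (T.F₀ ∩ {y | c.out⁻¹ • y ∈ A}) := fun c =>
    hT.fd_meas.inter (meas_smul hT _ hA)
  rw [Dif.μ, Measure.restrict_apply hA, h1, measure_iUnion]
  · exact tsum_congr fun c => hT.ν_inv _ _ (hm c)
  · intro c c' hcc
    refine Set.disjoint_left.2 fun y hy hy' => hcc ?_
    have := (hT.fd_uniq y).unique hy.1 hy'.1
    rw [← c.out_eq, ← c'.out_eq, this]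
  · exact fun c => meas_smul hT _ (hm c)

theorem low (hT : T.Ax G n) (N : Subgroup G) (A E : Set Y) (hA : MeasurableSet A)
    (hI : Iv N (· ∈ A)) (hE : E ⊆ T.F₀) (h : ∀ e ∈ E, ∃ g : G, g • e ∈ A) :
    T.ν E ≤ T.μ N A := by
  have := hT.cnt
  have : Countable (G ⧸ N) := (QuotientGroup.mk_surjective (s := N)).countable
  rw [key hT N hA]
  refine le_trans (measure_mono fun e he => ?_) (measure_iUnion_le _)
  obtain ⟨g, hg⟩ := h e he
  obtain ⟨k, hk⟩ := QuotientGroup.mk_out_eq_mul N g⁻¹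
  refine mem_iUnion.2 ⟨(g⁻¹ : G), hE he, ?_⟩
  have := hI (k : G)⁻¹ (N.inv_mem k.2) (g • e)
  simp only [mem_ofPred_eq, hk, mul_inv_rev, inv_inv, mul_smul]
  exact (Iff.of_eq this).2 hg

theorem up (hT : T.Ax G n) (N : Subgroup G) (A : Set Y) (Q : ℕ) (hA : MeasurableSet A)
    (h : ∀ y ∈ T.F₀, ∀ Z : Finset G, (∀ g ∈ Z, g • y ∈ A) →
      (∀ g ∈ Z, ∀ g' ∈ Z, g * g'⁻¹ ∈ N → g = g') → Z.card ≤ Q) :
    T.μ N A ≤ Q * T.ν T.F₀ := by
  classical
  have := hT.cnt
  have : Countable (G ⧸ N) := (QuotientGroup.mk_surjective (s := N)).countable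
  have hm : ∀ c : G ⧸ N, MeasurableSet {y : Y | c.out⁻¹ • y ∈ A} := fun c => meas_smul hT _ hA
  have h1 : ∀ c : G ⧸ N, T.ν (T.F₀ ∩ {y | c.out⁻¹ • y ∈ A}) =
      ∫⁻ y in T.F₀, {y : Y | c.out⁻¹ • y ∈ A}.indicator 1 y ∂T.ν := fun c => by
    rw [lintegral_indicator_one (hm c), Measure.restrict_apply (hm c), inter_comm]
  rw [key hT N hA]
  simp_rw [h1]
  rw [← lintegral_tsum fun c => ((measurable_one.indicator (hm c)).aemeasurable),
    ← setLIntegral_const]
  refine setLIntegral_mono' hT.fd_meas fun y hy => ?_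
  rw [ENNReal.tsum_eq_iSup_sum]
  refine iSup_le fun W => ?_
  have hinj : Function.Injective fun c : G ⧸ N => c.out⁻¹ := fun c c' hc => by
    have : c.out = c'.out := inv_injective hc
    rw [← c.out_eq, ← c'.out_eq, this]
  have h2 := h y hy ((W.filter fun c => c.out⁻¹ • y ∈ A).image fun c => c.out⁻¹)
    (fun g hg => by
      obtain ⟨c, hc, rfl⟩ := Finset.mem_image.1 hg
      exact (Finset.mem_filter.1 hc).2)
    (fun g hg g' hg' hN => by
      obtain ⟨c, -, rfl⟩ := Finset.mem_image.1 hg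
      obtain ⟨c', -, rfl⟩ := Finset.mem_image.1 hg'
      rw [inv_inv] at hN
      have : c = c' := by
        rw [← c.out_eq, ← c'.out_eq]
        exact QuotientGroup.eq.2 hN
      rw [this])
  rw [Finset.card_image_of_injective _ hinj] at h2
  have h3 : ∑ c ∈ W, {y : Y | c.out⁻¹ • y ∈ A}.indicator (1 : Y → ℝ≥0∞) y =
      ((W.filter fun c => c.out⁻¹ • y ∈ A).card : ℝ≥0∞) := by
    rw [Finset.card_filter]
    push_cast
    refine Finset.sum_congr rfl fun c _ => ?_
    by_cases hc : c.out⁻¹ • y ∈ A <;> simp [indicator, hc]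
  rw [h3]
  exact_mod_cast h2

theorem fin (hT : T.Ax G n) (hE : T.Eqi G) (N : Subgroup G) (x : Y) (r : ℝ) :
    T.μ N (Nh N x r) < ⊤ := by
  classical
  obtain ⟨M, hM⟩ := hT.fd_bd.subset_ball x
  have hf := hT.fin x (r + M)
  refine lt_of_le_of_lt (up hT N _ hf.toFinset.card (hE.nb N x r).1.measurableSet ?_)
    (ENNReal.mul_lt_top (ENNReal.natCast_lt_top _) hT.fd_vol.2)
  intro y hy Z hZ hsep
  have hc : ∀ g : G, ∃ k ∈ N, g ∈ Z → dist x (k • g • y) < r := fun g => by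
    by_cases hg : g ∈ Z
    · obtain ⟨k, hk, hd⟩ := hZ g hg
      exact ⟨k, hk, fun _ => hd⟩
    · exact ⟨1, N.one_mem, fun h => absurd h hg⟩
  choose k hkN hk using hc
  refine Finset.card_le_card_of_injOn (fun g => k g * g) (fun g hg => ?_) (fun g hg g' hg' h => ?_)
  · have h1 := hk g hg
    have h2 : dist y x < M := hM hy
    have h3 := hT.iso (k g * g) y x
    have h4 := dist_triangle x ((k g * g) • y) ((k g * g) • x)
    rw [← mul_smul] at h1
    simp only [Finite.coe_toFinset, mem_ofPred_eq]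
    linarith
  · refine hsep g hg g' hg' ?_
    have h1 : k g * g = k g' * g' := h
    have h2 : g * g'⁻¹ = (k g)⁻¹ * k g' := by
      rw [eq_inv_mul_iff_mul_eq, ← mul_assoc, h1, mul_inv_cancel_right]
    rw [h2]
    exact N.mul_mem (N.inv_mem (hkN g)) (hkN g')

theorem int [ProperSpace Y] (hT : T.Ax G n) (hE : T.Eqi G) (N : Subgroup G) (x : Y) (r : ℝ)
    (f : Y → ℝ) (hf : Continuous f) (hI : Iv N f) : IntegrableOn f (Nh N x r) (T.μ N) := by
  obtain ⟨M, hM⟩ := (isCompact_closedBall x r).exists_bound_of_continuousOn hf.continuousOn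
  refine Measure.integrableOn_of_bounded (M := M) (fin hT hE N x r).ne hf.aestronglyMeasurable ?_
  refine (ae_restrict_iff' (hE.nb N x r).1.measurableSet).2 (Eventually.of_forall ?_)
  rintro y ⟨g, hg, hd⟩
  rw [← hI g hg y]
  exact hM _ (by rw [mem_closedBall, dist_comm]; exact hd.le)

end MesAux

theorem mesD (hC : CalD) : MesD := fun n G Y _ _ _ _ _ _ T hT => by
  have hE := (hC n G Y T hT).2
  exact ⟨MesAux.fin hT hE,
    fun N x r f hf hI => ⟨MesAux.int hT hE N x r f hf hI, fun h0 =>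
      (MesAux.int hT hE N x r f hf hI).integrable_of_forall_notMem_eq_zero h0⟩,
    MesAux.low hT, fun N A Q hA _ h => MesAux.up hT N A Q hA fun y _ => h y⟩

end

end Pool.Agent.Lib.MP_813db1_ag.NS
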