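import Pool.Agent.Lib.MP_813db1_ag.NS.Dif

/-! The maximum principle and the decay of subsolutions. -/

namespace Pool.Agent.Lib.MP_813db1_ag.NS

open Filter Topology Set Metric

namespace MpA

variable {G Y : Type} [Group G] [MulAction G Y] [MeasurableSpace Y] [MetricSpace Y] [ProperSpace Y]
  {T : Dif Y} {n : ℕ}

theorem half (h : T.Ax G n) {τ A : ℝ} {v : Y → ℝ} {y : Y} (h0 : 0 < τ) (h1 : τ ≤ 1 / 2)
    (hA : 0 ≤ A) (hv : T.S v)
    (H : ∀ z ∈ ball y (8 * (n + 1) * √τ), v z ≤ A ∧ v z - τ * T.L v z ≤ 0) : v y ≤ A / 2 := by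
  have n0 : (0 : ℝ) ≤ n := n.cast_nonneg
  have s0 : 0 < √τ := Real.sqrt_pos.2 h0
  rcases hA.eq_or_lt with rfl | hA
  · simpa using (H y (mem_ball_self (by positivity))).1
  by_contra hc
  rw [not_le] at hc
  obtain ⟨k, k0, hk⟩ : ∃ k, 0 < k ∧ k * A = 4 * (n + 1) * τ :=
    ⟨4 * (n + 1) * τ / A, by positivity, div_mul_cancel₀ _ hA.ne'⟩
  obtain ⟨ρ, hρ⟩ := h.bar y √(2 * (n + 1) * τ) 1 1 (Real.sqrt_pos.2 (by positivity)) one_pos
  have l : LowerSemicontinuous fun z => ρ z + -k * v z :=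
    hρ.lsc.add (continuous_const.mul (h.s_cont v hv)).lowerSemicontinuous
  have y1 : y ∈ closedBall y (4 * (n + 1) * √τ) := mem_closedBall_self (by positivity)
  obtain ⟨z, hz, hm⟩ := (l.lowerSemicontinuousOn _).exists_isMinOn ⟨y, y1⟩
    (isCompact_closedBall y (4 * (n + 1) * √τ))
  obtain ⟨z1, z2⟩ := H z (closedBall_subset_ball (by nlinarith) hz)
  have m1 : ρ z + -k * v z ≤ ρ y + -k * v y := hm y1
  rw [hρ.zero] at m1
  have m2 : ρ z < 2 * (n + 1) * τ := by nlinarith
  have m3 : ρ z < √(2 * (n + 1) * τ) ^ 2 := by rwa [Real.sq_sqrt (by positivity)]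
  have m4 : dist z y < 4 * (n + 1) * √τ := by
    have : √(ρ z) < 2 * (n + 1) * √τ := by
      rw [Real.sqrt_lt' (by positivity), mul_pow, Real.sq_sqrt h0.le]
      nlinarith [mul_nonneg n0 h0.le, mul_nonneg n0 (mul_nonneg n0 h0.le)]
    rw [dist_comm]
    linarith [hρ.lo z m3]
  have d : deriv (fun t : ℝ => k * t + (ρ z + -k * v z)) = fun _ => k := funext fun t => by
    simp
  have m5 := (hρ.vis v (fun t => k * t + (ρ z + -k * v z)) z hv (by fun_prop) (by ring) m3
    (by
      filter_upwards [closedBall_mem_nhds_of_mem m4] with w hw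
      have : ρ z + -k * v z ≤ ρ w + -k * v w := hm hw
      linarith)).1
  rw [d, deriv_const, zero_mul, add_zero] at m5
  have m6 : k * T.L v z ≤ 2 * (n + 1) := by nlinarith
  have m7 : k * v z ≤ k * (A / 2) := by nlinarith
  nlinarith [(hρ.mem z).1]

end MpA

theorem mpS (_hC : CalD) : MpS := by
  refine fun n => ⟨8 * (n + 1), by positivity, fun G Y _ _ _ _ _ _ T h =>
    ⟨fun τ A v y => MpA.half h, fun τ A v h0 h1 hv hA H y => ?_,
      fun τ A v y k h0 h1 hA hv hb H => ?_⟩⟩
  · have : Nonempty Y := ⟨y⟩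
    have b : BddAbove (range v) := ⟨A, forall_mem_range.2 hA⟩
    by_contra hc
    have h2 := le_ciSup b y
    have h3 : iSup v ≤ iSup v / 2 := ciSup_le fun z =>
      MpA.half h h0 h1 (by linarith) hv fun w _ => ⟨le_ciSup b w, H w⟩
    linarith
  · induction k generalizing y with
    | zero => simpa using hb y
    | succ k ih =>
      have c0 : 0 ≤ 8 * (n + 1) * √τ := by positivity
      rw [pow_succ, ← div_div]
      refine MpA.half h h0 h1 (by positivity) hv fun z hz => ⟨ih z fun w hw => H w ?_, H z ?_⟩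
      · rw [mem_ball] at *
        push_cast
        linarith [dist_triangle w z y]
      · refine ball_subset_ball ?_ hz
        push_cast
        nlinarith [mul_nonneg (k.cast_nonneg (α := ℝ)) c0]

end Pool.Agent.Lib.MP_813db1_ag.NS
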