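import Pool.Agent.Lib.MP_813db1_ag.NS.Dif

/-! The propagation theorem from the bisector lemma. -/

namespace Pool.Agent.Lib.MP_813db1_ag.NS

open Pool.Agent.Lib.MP_813db1_ag.AS
open MeasureTheory Set Metric

namespace Prp

variable {G Y : Type} [Group G] [MulAction G Y] [PseudoMetricSpace Y]

theorem mem_Hs (iso : ∀ (g : G) (x y : Y), dist (g • x) (g • y) = dist x y) {u u' : G} {x t : Y}
    {r : ℝ} (h : u⁻¹ • x ∈ ball t (r / 2)) (h' : u'⁻¹ • x ∈ ball t (r / 2)) :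
    u * u'⁻¹ ∈ Hs G x r := by
  refine Subgroup.subset_closure (show dist x ((u * u'⁻¹) • x) < r from ?_)
  rw [← iso u⁻¹, ← mul_smul, inv_mul_cancel_left]
  linarith [dist_triangle_right (u⁻¹ • x) (u'⁻¹ • x) t, mem_ball.1 h, mem_ball.1 h']

theorem count (iso : ∀ (g : G) (x y : Y), dist (g • x) (g • y) = dist x y) {x z y : Y}
    {r R L : ℝ} (hz : dist x z ≤ L) {T : Finset Y}
    (hT : ball y (R + L) ⊆ ⋃ t ∈ T, ball t (r / 2)) (Z : Finset G)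
    (h : ∀ g ∈ Z, g • y ∈ Nh (Hs G x r ⊓ Hs G z r) z R)
    (h' : ∀ g ∈ Z, ∀ g' ∈ Z, g * g'⁻¹ ∈ Hs G x r ⊓ Hs G z r → g = g') :
    Z.card ≤ T.card * T.card := by
  choose! w h1 h2 using h
  rw [← Finset.card_product]
  refine Finset.card_le_card_of_forall_subsingleton (fun g (p : Y × Y) =>
    (w g * g)⁻¹ • x ∈ ball p.1 (r / 2) ∧ (w g * g)⁻¹ • z ∈ ball p.2 (r / 2)) (fun g hg => ?_)
    fun p _ g hg g' hg' => h' g hg.1 g' hg'.1 ?_
  · have a : dist ((w g * g)⁻¹ • z) y < R := by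
      rw [← iso (w g * g), smul_inv_smul, mul_smul]
      exact h2 g hg
    have b := dist_triangle ((w g * g)⁻¹ • x) ((w g * g)⁻¹ • z) y
    rw [iso] at b
    obtain ⟨s, s1, s2⟩ := mem_iUnion₂.1 (hT (show (w g * g)⁻¹ • x ∈ _ from
      mem_ball.2 (by linarith)))
    obtain ⟨t, t1, t2⟩ := mem_iUnion₂.1 (hT (show (w g * g)⁻¹ • z ∈ _ from
      mem_ball.2 (by linarith [dist_nonneg (x := x) (y := z)])))
    exact ⟨(s, t), Finset.mem_product.2 ⟨s1, t1⟩, s2, t2⟩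
  · have : w g * g * (w g' * g')⁻¹ ∈ Hs G x r ⊓ Hs G z r :=
      ⟨mem_Hs iso hg.2.1 hg'.2.1, mem_Hs iso hg.2.2 hg'.2.2⟩
    convert mul_mem (mul_mem (inv_mem (h1 g hg.1)) this) (h1 g' hg'.1) using 1
    group

end Prp

theorem propS (hC : CalD) (hM : MesD) (hB : BisS) (hV : VdS) (hA : AnS) (hS : SgS) (hG : GeoS) :
    PropS := by
  intro n m C D r θ r0 r1 θ0
  obtain ⟨s, s0, sr, t, t0, C₁, hA⟩ := hA n r r0
  obtain ⟨R, hS⟩ := hS n m C D r s s0 sr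
  obtain ⟨R', κ₁, k1, hA⟩ := hA R
  obtain ⟨C', c0, hB⟩ := hB n t t0 R C₁
  obtain ⟨Q, hQ⟩ := hG.chain C m (R' + (2 * D + 1)) (r / 2) (by positivity)
  obtain ⟨δ, δ0, δt, δθ⟩ : ∃ δ > (0 : ℝ), δ ≤ t / 2 ∧ C' * (δ + δ) * (Q * Q : ℕ) < θ := by
    refine ⟨min (t / 2) (θ / (2 * (C' * (Q * Q : ℕ)) + 1)), by positivity, min_le_left _ _, ?_⟩
    have := (le_div_iff₀ (by positivity)).1 (min_le_right (t / 2) (θ / (2 * (C' * (Q * Q : ℕ)) + 1)))
    have : 0 < min (t / 2) (θ / (2 * (C' * (Q * Q : ℕ)) + 1)) := by positivity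
    linarith
  obtain ⟨κ₂, k2, hS⟩ := hS (δ / 2) (by positivity)
  refine ⟨min (δ / 400) (s / 2), by positivity, (min_le_right _ _).trans (by linarith), ?_⟩
  intro G Y _ _ _ _ _ _ T ax geo x z E hz hE hθ he
  by_contra c
  obtain ⟨κ₃, k3, hV⟩ := hV n G Y T ax (Hs G x r) z r s s0 (by linarith)
  obtain ⟨κ, κ0, a0, a1, a2, a3⟩ : ∃ κ > (0 : ℝ), κ ≤ δ * δ ∧ κ ≤ κ₁ ∧ κ ≤ κ₂ ∧ κ ≤ κ₃ :=
    ⟨min (δ * δ) (min κ₁ (min κ₂ κ₃)), by positivity, by simp⟩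
  obtain ⟨h, h₀, v, v₀, hv⟩ := hV κ κ0 a3
  obtain ⟨b1, b2, b3, b4⟩ := hA G Y T ax _ z κ h h₀ v v₀ κ0 a1 hv c
  have M := hM n G Y T ax
  obtain ⟨n1, n2⟩ := (hC n G Y T ax).2.nb (Hs G x r ⊓ Hs G z r) z R'
  have e1 := hB G Y T ax _ z R' κ δ _ _ b3 κ0.le δ0 δt
  have c1 := ax.s_cont _ b3.sm.1
  have c2 := ax.s_cont _ b3.sm.2
  have e2 := M.low (Hs G x r ⊓ Hs G z r) _ E (((isClosed_le (c1.sub c2).abs
    (continuous_const (y := δ))).inter (isClosed_le (c1.add c2)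
      (continuous_const (y := R)))).measurableSet) (fun g hg y => by
        have p := b3.iv.1 g hg y
        have q := b3.iv.2 g hg y
        simp only [mem_inter_iff, mem_ofPred_eq, Pi.sub_apply, Pi.add_apply] at p q ⊢
        rw [p, q]) hE fun e he' => by
      obtain ⟨g, g1, g2⟩ := he e he'
      obtain ⟨g', -, g3, g4⟩ := hS G Y T ax geo _ z (g • e) _ κ h h₀ v v₀ κ0 a2 hv c b1 b2 b4
        (by linarith [dist_triangle_left (g • e) z x]) (by positivity) (min_le_right _ _)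
        ((min_le_right _ _).trans (by linarith)) g2
      rw [← mul_smul] at g3 g4
      exact ⟨_, g3.trans (by linarith [min_le_left (δ / 400) (s / 2)]), g4⟩
  have e3 := M.up _ _ (Q * Q) n1.measurableSet (fun g hg y => propext (n2 g hg y))
    fun y Z z1 z2 => by
      obtain ⟨U, u1, u2⟩ := hQ G Y _ _ geo le_rfl y
      exact (Prp.count ax.iso hz u2 Z z1 z2).trans (Nat.mul_le_mul u1 u1)
  have e4 := ENNReal.toReal_mono (ne_top_of_le_ne_top (M.fin _ z R').ne (measure_mono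
    fun y hy => b3.supp y (by linarith [(b3.nn y).2.1, show _ + _ ≤ R from hy.2]))) e2
  have e5 := ENNReal.toReal_mono (ENNReal.mul_ne_top (ENNReal.natCast_ne_top _) ax.fd_vol.2.ne) e3
  rw [ENNReal.toReal_mul, ENNReal.toReal_natCast] at e5
  have e6 : 0 < T.ν.real T.F₀ := ENNReal.toReal_pos ax.fd_vol.1.ne' ax.fd_vol.2.ne
  have e7 : κ / δ ≤ δ := (div_le_iff₀ δ0).2 a0
  have e8 := (hθ.trans (e4.trans e1)).trans (mul_le_mul (mul_le_mul_of_nonneg_left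
    (add_le_add_right e7 δ) c0) e5 measureReal_nonneg (by positivity))
  rw [← mul_assoc] at e8
  exact (mul_lt_mul_of_pos_right δθ e6).not_ge e8

end Pool.Agent.Lib.MP_813db1_ag.NS
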