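import Pool.Agent.Lib.MP_813db1_ag.NS.Dif

/-! Every connected orbit meets the bisector. -/

namespace Pool.Agent.Lib.MP_813db1_ag.NS

open Pool.Agent.Lib.MP_813db1_ag.AS
open MeasureTheory Filter Topology Set Metric

namespace Sg

theorem half {κ R p : ℝ} (h0 : 0 < κ) (h1 : κ ≤ 1) (h : Real.exp (-(R / κ)) / 8 ≤ p) :
    -κ * Real.log p ≤ R + 7 := by
  have a := Real.log_le_log (by positivity) h
  have b := Real.log_le_sub_one_of_pos (show (0 : ℝ) < 8 by norm_num)
  have c := Real.log_nonneg (show (1 : ℝ) ≤ 8 by norm_num)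
  rw [Real.log_div (by positivity) (by norm_num), Real.log_exp] at a
  have d : κ * (R / κ) = R := by field_simp
  nlinarith

theorem sum_le {κ R p V B : ℝ} (h0 : 0 < κ) (h1 : κ ≤ 1) (h : Real.exp (-(R / κ)) / 4 ≤ V)
    (hB : |-κ * Real.log p - -κ * Real.log (V - p)| ≤ B) :
    -κ * Real.log p + -κ * Real.log (V - p) ≤ 2 * R + 14 + B := by
  have := abs_le.1 hB
  rcases le_total (V / 2) p with a | a
  · linarith [half h0 h1 (show Real.exp (-(R / κ)) / 8 ≤ p by linarith)]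
  · linarith [half h0 h1 (show Real.exp (-(R / κ)) / 8 ≤ V - p by linarith)]

variable {G Y : Type} [Group G] [MulAction G Y] [MetricSpace Y]

theorem near (iso : ∀ (g : G) (x y : Y), dist (g • x) (g • y) = dist x y) {N : Subgroup G} {x z : Y}
    {r r' : ℝ} (hN : Hs G x r' = N) (hr : r' ≤ r / 3) {g : G} (hg : g ∈ N)
    (h : dist x (g • z) < r / 3) : N ≤ Hs G z r := by
  have key : ∀ k ∈ Hs G x r', g⁻¹ * k * g ∈ Hs G z r := fun k hk => by
    induction hk using Subgroup.closure_induction with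
    | mem u hu =>
      refine Subgroup.subset_closure (show dist z _ < r from ?_)
      have a : dist x (u • x) < r' := hu
      have b := dist_triangle4 (g • z) x (u • x) (u • g • z)
      rw [iso, dist_comm (g • z) x] at b
      rw [← iso g, smul_smul, ← mul_assoc, mul_inv_cancel_left, mul_smul]
      linarith
    | one => simp
    | mul a b _ _ p q => simpa [mul_assoc] using mul_mem p q
    | inv a _ p => simpa [mul_assoc] using inv_mem p
  intro k hk
  simpa [mul_assoc] using key (g * k * g⁻¹) (hN ▸ mul_mem (mul_mem hg hk) (inv_mem hg))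

theorem sign (iso : ∀ (g : G) (x y : Y), dist (g • x) (g • y) = dist x y) {N : Subgroup G} {x : Y}
    {r' B : ℝ} (hN : Hs G x r' = N) (hB : 0 ≤ B) {f : Y → ℝ}
    (hf : ∀ g ∈ N, ∀ y, dist (g • x) y < r' → |f y - f (g • x)| ≤ B) {g g' : G} (hg : g ∈ N)
    (hg' : g' ∈ N) (h : f (g • x) ≤ 0) (h' : 0 ≤ f (g' • x)) : ∃ k ∈ N, |f (k • x)| ≤ B := by
  by_contra! H
  have step : ∀ k ∈ N, ∀ u : G, dist x (u • x) < r' → f (k • x) ≤ 0 → f ((k * u) • x) < 0 := by
    intro k hk u hu a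
    have b := abs_le.1 (hf k hk ((k * u) • x) (by rwa [mul_smul, iso]))
    have c := H k hk
    rw [abs_of_nonpos a] at c
    linarith
  have key : ∀ k ∈ Hs G x r', f ((g * k) • x) ≤ 0 := fun k hk => by
    induction hk using Subgroup.closure_induction_right with
    | one => simpa using h
    | mul_right a ha u hu p =>
      exact mul_assoc g a u ▸ (step _ (mul_mem hg (hN ▸ ha)) u hu p).le
    | mul_inv_cancel a ha u hu p =>
      refine mul_assoc g a u⁻¹ ▸ (step _ (mul_mem hg (hN ▸ ha)) u⁻¹ ?_ p).le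
      rw [← iso u, smul_inv_smul, dist_comm]
      exact hu
  have a := key (g⁻¹ * g') (hN ▸ mul_mem (inv_mem hg) hg')
  rw [mul_inv_cancel_left] at a
  have b := H g' hg'
  rw [abs_of_nonneg h'] at b
  linarith

theorem fle {κ p V : ℝ} (h0 : 0 < κ) (h : p < V) (h' : V / 2 ≤ p) :
    -κ * Real.log p - -κ * Real.log (V - p) ≤ 0 := by
  have := Real.log_le_log (show 0 < V - p by linarith) (show V - p ≤ p by linarith)
  nlinarith

theorem fge {κ p V : ℝ} (h0 : 0 < κ) (h : 0 < p) (h' : p ≤ V / 2) :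
    0 ≤ -κ * Real.log p - -κ * Real.log (V - p) := by
  have := Real.log_le_log h (show p ≤ V - p by linarith)
  nlinarith

theorem fup {κ p V M : ℝ} (h0 : 0 < κ) (h : 0 < p) (hV : p < V) (h' : V ≤ M * p) :
    -κ * Real.log p - -κ * Real.log (V - p) ≤ κ * M := by
  have hM : 0 < M := by nlinarith
  have a := Real.log_le_log (show 0 < V - p by linarith) (show V - p ≤ M * p by linarith)
  have b := Real.log_le_sub_one_of_pos hM
  rw [Real.log_mul hM.ne' h.ne'] at a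
  nlinarith

theorem pw (u : ℝ) : 1 / (2 : ℝ) ^ (2 * ⌈u⌉₊ + 3) ≤ Real.exp (-u) / 8 := by
  have a : Real.exp u ≤ 4 ^ ⌈u⌉₊ := by
    refine (Real.exp_le_exp.2 (Nat.le_ceil u)).trans ?_
    rw [← mul_one (⌈u⌉₊ : ℝ), Real.exp_nat_mul]
    exact pow_le_pow_left₀ (Real.exp_pos _).le (by linarith [Real.exp_one_lt_d9]) _
  rw [pow_add, pow_mul, Real.exp_neg, inv_eq_one_div, div_div]
  refine one_div_le_one_div_of_le (by positivity) ?_
  norm_num
  exact a

variable [MeasurableSpace Y] {T : Dif Y} {n : ℕ} {N N' : Subgroup G} {z x : Y} {r s κ c : ℝ}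
  {h h₀ v v₀ : Y → ℝ}

theorem low (ax : T.Ax G n) (cal : T.Cal) (mp : T.Mp c) (hop : T.Hopf n)
    (V : T.Vd N N' z s κ h h₀ v v₀) (hs : 0 < s) (k0 : 0 < κ) (k1 : κ ≤ 1 / 2) (k2 : c * κ ≤ s)
    (k3 : 4 + 16 * ((n : ℝ) + 1) / s ^ 2 ≤ 4 / (κ * s)) {Λ : ℝ} (hx : dist x z < Λ) :
    Real.exp (-(256 * Λ ^ 2 / s / κ)) / 4 ≤ v₀ x := by
  have s0 := V.sm.2.2.2
  have a : ∀ y ∈ ball z s, 1 / 2 ≤ v₀ y := fun y hy => by
    have := mp.half (κ ^ 2) 1 (fun y => 1 - v₀ y) y (by positivity) (by nlinarith) zero_le_one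
      (cal.s_sub _ _ (ax.s_const 1) s0) fun w hw => by
        rw [Real.sqrt_sq k0.le] at hw
        have b := V.one w ⟨1, one_mem _, by
          rw [one_smul, dist_comm]
          linarith [dist_triangle w y z, mem_ball.1 hw, mem_ball.1 hy]⟩
        obtain ⟨⟨_, c1, _⟩, c3, c4, _⟩ := V.mem w
        rw [(cal.sub _ _ _ w (ax.s_const 1) s0 s0).1, (cal.const 1 _ w s0).1]
        exact ⟨by linarith, by linarith [(V.eq w).2]⟩
    linarith
  have b := hop κ s Λ (4 / (κ * s)) (1 / 2) v₀ z x k0 hs (by norm_num) le_rfl k3 s0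
    (fun w => by
      obtain ⟨⟨c0, c1, _⟩, c3, c4, _⟩ := V.mem w
      exact ⟨by linarith, by linarith [(V.eq w).2]⟩) a (by rwa [dist_comm])
  have e : 64 * (4 / (κ * s)) * Λ ^ 2 = 256 * Λ ^ 2 / s / κ := by field_simp; ring
  rw [e] at b
  linarith

theorem some (ax : T.Ax G n) (cal : T.Cal) (mp : T.Mp c) (hc : 0 < c)
    (V : T.Vd N (N ⊓ Hs G z r) z s κ h h₀ v v₀) (k0 : 0 < κ) (k1 : κ ≤ 1 / 2) {R : ℝ} (hR : 0 ≤ R)
    (hx : Real.exp (-(R / κ)) / 4 ≤ v₀ x) {Z : Finset Y} {Q : ℕ} (hQ : Z.card ≤ Q)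
    (hZ : ball x ((2 * R + 5) * c + 3 * s) ⊆ ⋃ t ∈ Z, ball t (r / 2)) :
    ∃ g ∈ N, v₀ x ≤ 2 * (Q + 1) * v (g • x) := by
  by_contra! H
  have ex : ∀ t : Y, ∃ g ∈ N, (∃ k ∈ N, k⁻¹ • z ∈ ball t (r / 2)) → g⁻¹ • z ∈ ball t (r / 2) := by
    intro t
    by_cases e : ∃ k ∈ N, k⁻¹ • z ∈ ball t (r / 2)
    · obtain ⟨k, hk, a⟩ := e
      exact ⟨k, hk, fun _ => a⟩
    · exact ⟨1, one_mem _, fun a => absurd a e⟩
  choose g gN hg using ex
  obtain ⟨-, -, s1, s0⟩ := V.sm
  obtain ⟨s2, s3⟩ := cal.s_sum Y Z (fun t y => v (g t • y)) fun t _ => ax.s_smul _ _ s1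
  have a := mp.dec (κ ^ 2) 1 (fun y => v₀ y - ∑ t ∈ Z, v (g t • y)) x (2 * ⌈R / κ⌉₊ + 3)
    (by positivity) (by nlinarith) zero_le_one (cal.s_sub _ _ s0 s2)
    (fun y => by
      have := Finset.sum_nonneg fun t (_ : t ∈ Z) => (V.mem (g t • y)).2.1
      linarith [(V.mem y).2.2.2])
    fun y hy => by
      have b : dist y x < (2 * R + 5) * c := by
        refine (mem_ball.1 hy).trans_le ?_
        have b1 := (Nat.ceil_lt_add_one (div_nonneg hR k0.le)).le
        have b2 : κ * (R / κ) = R := by field_simp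
        rw [Real.sqrt_sq k0.le]
        push_cast
        have b3 : (2 * (⌈R / κ⌉₊ : ℝ) + 3) * κ ≤ 2 * R + 5 := by nlinarith
        nlinarith
      have e : ∑ t ∈ Z, v (g t • y) - κ ^ 2 * ∑ t ∈ Z, T.L (fun y => v (g t • y)) y =
          ∑ t ∈ Z, h (g t • y) := by
        rw [Finset.mul_sum, ← Finset.sum_sub_distrib]
        exact Finset.sum_congr rfl fun t _ => by rw [ax.L_smul _ _ _ s1, (V.eq _).1]
      have f : h₀ y ≤ ∑ t ∈ Z, h (g t • y) := by
        by_cases q : y ∈ Nh N z (3 * s)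
        · obtain ⟨k, hk, q⟩ := q
          have q1 : k⁻¹ • z ∈ ball x ((2 * R + 5) * c + 3 * s) := by
            have := dist_triangle (k⁻¹ • z) y x
            rw [← ax.iso k _ y, smul_inv_smul] at this
            exact mem_ball.2 (by linarith)
          obtain ⟨t, ht, q2⟩ := mem_iUnion₂.1 (hZ q1)
          have q3 := hg t ⟨k, hk, q2⟩
          have q4 : k * (g t)⁻¹ ∈ Hs G z r := by
            refine Subgroup.subset_closure (show dist z _ < r from ?_)
            rw [← ax.iso k⁻¹, mul_smul, inv_smul_smul]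
            linarith [dist_triangle_right (k⁻¹ • z) ((g t)⁻¹ • z) t, mem_ball.1 q2, mem_ball.1 q3]
          rw [← V.iv.2.1 _ (gN t) y, ← V.same _ ⟨_, ⟨N.mul_mem hk (N.inv_mem (gN t)), q4⟩, by
            rwa [mul_smul, inv_smul_smul]⟩]
          exact Finset.single_le_sum (f := fun t => h (g t • y)) (fun t _ => (V.mem _).1.1) ht
        · rw [V.zero₀ y q]
          exact Finset.sum_nonneg fun t _ => (V.mem _).1.1
      rw [(cal.sub _ _ _ y s0 s2 s0).1, (s3 y).1]
      linarith [(V.eq y).2]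
  have b := pw (R / κ)
  have d : ∑ t ∈ Z, 2 * ((Q : ℝ) + 1) * v (g t • x) ≤ Z.card • v₀ x :=
    Finset.sum_le_card_nsmul _ _ _ fun t _ => (H _ (gN t)).le
  rw [← Finset.mul_sum, nsmul_eq_mul] at d
  have e : (Z.card : ℝ) ≤ Q := by exact_mod_cast hQ
  have p : 0 < v₀ x := lt_of_lt_of_le (by positivity) hx
  have q : (0 : ℝ) ≤ Q := by positivity
  nlinarith

end Sg

open Sg in
theorem sgS (hC : CalD) (hM : MpS) (hH : HopfS) (hL : LipD) (hG : GeoS) : SgS := by
  intro n m C D r s hs hr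
  obtain ⟨c, hc, hM⟩ := hM n
  obtain ⟨R, hR⟩ : ∃ R, R = 256 * (2 * D + 3) ^ 2 / s := ⟨_, rfl⟩
  have R0 : 0 ≤ R := by rw [hR]; positivity
  obtain ⟨Q, hQ⟩ := hG.chain C m ((2 * R + 5) * c + 3 * s) (r / 2) (by linarith)
  refine ⟨2 * R + 215, fun η hη => ⟨min (min (1 / 2) (s / c))
    (min (4 / (s * (4 + 16 * ((n : ℝ) + 1) / s ^ 2))) (min η 1 / (2 * (Q + 1)))), by positivity, ?_⟩⟩
  intro G Y _ _ _ _ _ _ T ax geo N z x r' κ h h₀ v v₀ k0 k1 V hN pos sw hΓ hx r0 r1 r2 hxN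
  simp only [le_min_iff] at k1
  obtain ⟨⟨k1, k2⟩, k3, k4⟩ := k1
  obtain ⟨cal, -⟩ := hC n G Y T ax
  have mp := hM G Y T ax
  have lo := low ax cal mp (hH n G Y T ax) V hs k0 k1 (by rwa [le_div_iff₀' hc] at k2)
    (by
      rw [le_div_iff₀ (by positivity)] at k3 ⊢
      linarith) hx
  rw [← hR] at lo
  have iv : ∀ g ∈ N, v₀ (g • x) = v₀ x := fun g hg => V.iv.2.2.2 g hg x
  have fin : ∀ g ∈ N, ∀ B ≤ (201 : ℝ), B ≤ 200 * r' + η →
      |-κ * Real.log (v (g • x)) - -κ * Real.log (v₀ (g • x) - v (g • x))| ≤ B → ∃ g ∈ N,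
      |-κ * Real.log (v (g • x)) - -κ * Real.log (v₀ (g • x) - v (g • x))| ≤ 200 * r' + η ∧
      -κ * Real.log (v (g • x)) + -κ * Real.log (v₀ (g • x) - v (g • x)) ≤ 2 * R + 215 :=
    fun g hg B b1 b2 b3 => ⟨g, hg, b3.trans b2, by
      linarith [sum_le k0 (by linarith) (lo.trans_eq (iv g hg).symm) b3]⟩
  by_cases H : ∃ g ∈ N, v₀ x / 2 ≤ v (g • x)
  · obtain ⟨g, hg, H⟩ := H
    obtain ⟨g', hg', a⟩ := SetLike.not_le_iff_exists.1 hN
    have s1 := V.sm.2.2.1
    have sf := cal.s_sub _ _ (cal.log κ v x s1 fun y => (pos y).1).1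
      (cal.log κ _ x (cal.s_sub _ _ V.sm.2.2.2 s1) fun y => sub_pos.2 (pos y).2).1
    obtain ⟨k, hk, b⟩ := sign ax.iso hxN (show 0 ≤ 200 * r' by positivity)
      (f := fun y => -κ * Real.log (v y) - -κ * Real.log (v₀ y - v y))
      (fun k hk y hy => by
        have := hL n G Y T ax _ (k • x) y r' 4 sf (by norm_num) hy fun w hw => by
          refine (hΓ w fun ⟨u, hu, e⟩ => hN ?_).trans (by norm_num)
          refine near ax.iso hxN (by linarith) (mul_mem (inv_mem hk) (inv_mem hu)) ?_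
          have := dist_triangle_left (k • x) (u⁻¹ • z) w
          rw [← ax.iso u w (u⁻¹ • z), smul_inv_smul, dist_comm _ z] at this
          rw [← ax.iso k, mul_smul, smul_inv_smul]
          linarith [mem_ball.1 hw]
        linarith)
      hg (mul_mem hg' hg) (fle k0 (pos _).2 (by rwa [iv g hg]))
      (fge k0 (pos _).1 (by
        have := sw g' hg' a (g • x)
        rw [iv _ (mul_mem hg' hg), mul_smul]
        rw [iv g hg] at this
        linarith))
    exact fin k hk _ (by linarith) (by linarith) b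
  · push Not at H
    obtain ⟨Z, z1, z2⟩ := hQ G Y _ D geo le_rfl x
    obtain ⟨g, hg, a⟩ := Sg.some ax cal mp hc V k0 k1 R0 lo z1 z2
    have b := fge (V := v₀ (g • x)) k0 (pos (g • x)).1 (by rw [iv g hg]; exact (H g hg).le)
    have d := fup k0 (pos (g • x)).1 (pos _).2 ((iv g hg).trans_le a)
    rw [le_div_iff₀ (by positivity)] at k4
    refine fin g hg (min η 1) (by linarith [min_le_right η 1]) (by linarith [min_le_left η 1]) ?_
    rw [abs_of_nonneg b]
    exact d.trans k4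

end Pool.Agent.Lib.MP_813db1_ag.NS
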