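import Pool.Agent.Lib.MP_813db1_ag.NS.Glu
import Pool.Agent.Lib.MP_813db1_ag.NS.Prop
import Pool.Agent.Lib.MP_813db1_ag.NS.CalD
import Pool.Agent.Lib.MP_813db1_ag.NS.MesD
import Pool.Agent.Lib.MP_813db1_ag.NS.Bis
import Pool.Agent.Lib.MP_813db1_ag.NS.An
import Pool.Agent.Lib.MP_813db1_ag.NS.Sg
import Pool.Agent.Lib.MP_813db1_ag.NS.Mp
import Pool.Agent.Lib.MP_813db1_ag.NS.Hopf
import Pool.Agent.Lib.MP_813db1_ag.NS.Cy

/-! The propagation theorem and the glue statement without hypotheses. -/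

namespace Pool.Agent.Lib.MP_813db1_ag.NS

open Pool.Agent.Lib.MP_813db1_ag.AS

theorem propAll : PropS :=
  propS calD (mesD calD) (bisS calD (mesD calD)) (vdS calD (mpS calD))
    (anS calD (mpS calD) (hopfS calD) (cyS calD))
    (sgS calD (mpS calD) (hopfS calD) (lipD calD) geoS) geoS

theorem gluAll : GluS := gluS propAll

end Pool.Agent.Lib.MP_813db1_ag.NS
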