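import Pool.Agent.Lib.MP_813db1_ag.NS.Main
import Pool.Agent.Lib.MP_813db1_ag.NS.Bg
import Pool.Agent.Lib.MP_813db1_ag.NS.GluA
import Pool.Agent.Lib.MP_813db1_ag.AS.EssOf

/-! The normal Margulis subgroup from non-collapsing. -/

namespace Pool.Agent.Lib.MP_813db1_ag.NS

open Pool.Agent.Lib.MP_813db1_ag.AS

theorem nsOf (h : NcS) : NsS := nsS gluAll bgS h essS

end Pool.Agent.Lib.MP_813db1_ag.NS
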