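import Pool.Agent.Lib.MP_813db1_ag.NS.Bs
import Pool.Agent.Lib.MP_813db1_ag.AN.Flat

/-! The pointwise inequality of Bochner for real functions. -/

namespace Pool.Agent.Lib.MP_813db1_ag.NS

open Pool.Agent.Lib.MP_813db1_ag.HS Pool.Agent.Lib.MP_813db1_ag.HS.Green
open Complex Matrix Filter Topology Set
open scoped ComplexOrder ContDiff

namespace BeL

variable {ι : Type} [Fintype ι] [DecidableEq ι] {H : V ι → Mat ι} {F : V ι → ℂ} {z : V ι}
  {O : Set (V ι)}

omit [DecidableEq ι] in
theorem alg (K B : Mat ι) (dB dH : ι → Mat ι) (U : V ι) (hB : ∀ m i k, dB m i k = dB i m k)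
    (hH : ∀ m p q, dH m p q = dH p m q) :
    ∑ m, ∑ k, (∑ i, (dB m i k * U i + B i k * ((B * K) m i - (U ᵥ* (dH m * K)) i))) * K k m =
      ∑ i, U i * trace (dB i * K + B * -(K * dH i * K)) + trace (B * K * (B * K)) := by
  have e1 : ∑ m, ∑ k, ∑ i, dB m i k * U i * K k m = ∑ i, U i * trace (dB i * K) := by
    simp only [trace, diag, mul_apply, Finset.mul_sum]
    rw [Finset.sum_comm_cycle]
    exact Finset.sum_congr rfl fun i _ => Finset.sum_congr rfl fun m _ =>
      Finset.sum_congr rfl fun k _ => by rw [hB]; ring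
  have e2 : ∀ E : ι → ι → ℂ, ∑ m, ∑ k, ∑ i, B i k * E m i * K k m =
      ∑ i, ∑ m, (B * K) i m * E m i := fun E => by
    simp only [mul_apply, Finset.sum_mul]
    rw [Finset.sum_comm_cycle]
    exact Finset.sum_congr rfl fun i _ => Finset.sum_congr rfl fun m _ =>
      Finset.sum_congr rfl fun k _ => by ring
  have e3 : ∑ i, ∑ m, (B * K) i m * (U ᵥ* (dH m * K)) i =
      ∑ p, U p * trace (B * K * (dH p * K)) := by
    have : ∀ m p i, (dH m * K) p i = (dH p * K) m i := fun m p i => by
      simp only [mul_apply, hH m p]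
    simp only [vecMul, dotProduct, trace, diag, mul_apply (M := B * K), Finset.mul_sum]
    rw [Finset.sum_comm_cycle]
    exact Finset.sum_congr rfl fun p _ => Finset.sum_congr rfl fun i _ =>
      Finset.sum_congr rfl fun m _ => by rw [this]; ring
  simp only [Finset.sum_mul, add_mul, Finset.sum_add_distrib]
  rw [e1, e2 fun m i => (B * K) m i - (U ᵥ* (dH m * K)) i]
  simp only [mul_sub, Finset.sum_sub_distrib, e3, trace_add, trace_neg, mul_add,
    mul_neg, Finset.sum_add_distrib, Finset.sum_neg_distrib, Matrix.mul_assoc]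
  have e4 : trace (B * (K * (B * K))) = ∑ i, ∑ m, (B * K) i m * (B * K) m i := by
    rw [← Matrix.mul_assoc]
    rfl
  rw [e4]
  ring

theorem sq {A B : Mat ι} (hA : A.PosDef) (hB : B.IsHermitian) :
    trm A B ^ 2 / Fintype.card ι ≤ (trace (B * A⁻¹ * (B * A⁻¹))).re := by
  have hu : IsUnit A.det := hA.det_pos.ne'.isUnit
  set c : ℝ := trm A B / Fintype.card ι with hc
  have h1 : (B - (c : ℂ) • A)ᴴ = B - (c : ℂ) • A := by
    rw [conjTranspose_sub, conjTranspose_smul, hB.eq, hA.1.eq, RCLike.star_def, conj_ofReal]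
  have h2 := mat.trm_nonneg ι A _ hA
    (hA.inv.posSemidef.mul_mul_conjTranspose_same (B - (c : ℂ) • A))
  have h3 : (B - (c : ℂ) • A) * A⁻¹ = B * A⁻¹ - (c : ℂ) • 1 := by
    rw [Matrix.sub_mul, Matrix.smul_mul, mul_nonsing_inv _ hu]
  rw [h1, trm, Matrix.mul_assoc, h3] at h2
  simp only [Matrix.sub_mul, Matrix.mul_sub, Matrix.smul_mul, Matrix.mul_smul, Matrix.one_mul,
    Matrix.mul_one, trace_sub, trace_smul, trace_one, smul_eq_mul, sub_re, re_ofReal_mul,
    natCast_re] at h2
  change 0 ≤ _ - c * trm A B - c * (trm A B - _) at h2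
  rcases eq_or_ne (Fintype.card ι : ℝ) 0 with h | h
  · rw [h, _root_.div_zero] at hc ⊢
    simpa [hc] using h2
  · have : c * Fintype.card ι = trm A B := div_mul_cancel₀ _ h
    have e : trm A B ^ 2 / Fintype.card ι = c * trm A B := by rw [hc]; ring
    rw [this, sub_self, mul_zero] at h2
    linarith

theorem low (h : (H z).det ≠ 0) : shp H F z ᵥ* H z = fun l => dzb F l z := by
  have k : shp H F z = (fun p => dzb F p z) ᵥ* (H z)⁻¹ :=
    funext fun i => Finset.sum_congr rfl fun j _ => mul_comm _ _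
  rw [k, vecMul_vecMul, nonsing_inv_mul _ h.isUnit, vecMul_one]

theorem dz_shp (hH : KOn H O) (hF : ∀ w ∈ O, ContDiffAt ℝ ∞ F w) (hz : z ∈ O) (m i : ι) :
    dz (fun w => shp H F w i) m z =
      (levi F z * (H z)⁻¹) m i - (shp H F z ᵥ* (dM H m z * (H z)⁻¹)) i := by
  have h0 := det_ne (hH.2 z hz)
  have hi := (hH.1.1.df hz).inv h0
  have d := fun j => differentiableAt_dzb ((hF z hz).of_le (by norm_cast)) j
  have k : shp H F z = (fun p => dzb F p z) ᵥ* (H z)⁻¹ :=
    funext fun i => Finset.sum_congr rfl fun j _ => mul_comm _ _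
  have e : ∀ j, dz (fun w => (H w)⁻¹ j i) m z = -((H z)⁻¹ * (dM H m z * (H z)⁻¹)) j i := fun j => by
    rw [← Matrix.mul_assoc]
    exact congrFun₂ (dM_inv (hH.1.1.df hz) h0 m) j i
  rw [k, vecMul_vecMul]
  simp only [shp]
  rw [dz_sum _ fun j _ => (hi j i).fun_mul (d j), mul_apply (M := levi F z), vecMul, dotProduct,
    ← Finset.sum_sub_distrib]
  refine Finset.sum_congr rfl fun j _ => ?_
  rw [dz_mul (hi j i) (d j), e, levi_apply]
  ring

/-- the vector field of the second order term. -/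
noncomputable def wf (H : V ι → Mat ι) (F : V ι → ℂ) (w : V ι) : V ι :=
  BK.dm (shp H F) w *ᵥ star (shp H F w)

theorem vf_one : BK.vf 1 H F = wf H F := by
  funext w
  simp [BK.vf, wf, ex]

theorem dzb_P (hO : IsOpen O) (hH : KOn H O) (hF : ∀ w ∈ O, ContDiffAt ℝ ∞ F w)
    (hr : ∀ w, star (F w) = F w) (hz : z ∈ O) (k : ι) :
    dzb (fun w => ∑ i, dz F i w * shp H F w i) k z =
      ∑ i, levi F z i k * shp H F z i + ∑ l, H z l k * wf H F z l := by
  have h2 : ContDiffAt ℝ 2 F z := (hF z hz).of_le (by norm_cast)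
  have d1 := fun i => differentiableAt_dz h2 i
  have d2 := fun i => (BK.cd_U hH hF hz i).differentiableAt two_ne_zero
  have e1 : (fun i => dz F i z) = H z *ᵥ star (shp H F z) := by
    funext i
    have := congrArg star (congrFun (low (F := F) (det_ne (hH.2 z hz))) i)
    rw [dzb_real (Eventually.of_forall hr), star_star] at this
    rw [← this, vecMul, dotProduct, star_sum]
    exact Finset.sum_congr rfl fun l _ => by rw [star_mul, (hH.2 z hz).1.apply]; rfl
  have e2 : (BK.dm (shp H F) z)ᵀ *ᵥ (fun i => dz F i z) = (H z)ᵀ *ᵥ wf H F z := by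
    rw [e1, mulVec_mulVec, ← BK.sym hO hH hF hz, transpose_mul, transpose_transpose, wf,
      mulVec_mulVec]
  rw [dzb_sum _ fun i _ => (d1 i).fun_mul (d2 i)]
  simp only [fun i => dzb_mul (d1 i) (d2 i) k, Finset.sum_add_distrib, ← dz_dzb_comm h2]
  congr 1
  exact (Finset.sum_congr rfl fun i _ => mul_comm _ _).trans (congrFun e2 k)

theorem div_wf (hO : IsOpen O) (hH : KOn H O) (hF : ∀ w ∈ O, ContDiffAt ℝ ∞ F w) (hz : z ∈ O) :
    ∑ l, dz (lg H) l z * wf H F z l + ∑ j, dz (fun w => wf H F w j) j z = nD H (shp H F) z +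
      ∑ i, star (shp H F z i) * dzb (lapL H F) i z + ipV (ric H z) (shp H F z) (shp H F z) := by
  have hp := hH.2 z hz
  have e0 := BK.div_vf AY.curvS' 0 hO hH hF hz
  have d0 : DifferentiableAt ℝ (lapL H F) z :=
    (CdM.tr (CdM.mul (fun i j => contDiffAt_levi_top (hF z hz) i j)
      ((hH.1.1.cd hz).inv (det_ne hp)))).differentiableAt (by simp)
  have d2 := fun j => differentiableAt_dz (BK.cd_lg hH hz) j
  have d3 := fun j => (BK.cd_U hH hF hz j).differentiableAt two_ne_zero
  have e1 : boxL 1 H F = fun w => lapL H F w - ∑ j, dz (lg H) j w * shp H F w j := by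
    funext w
    simp only [boxL, shp, Finset.mul_sum, Nat.cast_one, one_mul]
    congr 1
    exact Finset.sum_congr rfl fun i _ => Finset.sum_congr rfl fun j _ => by ring
  have e2 : ∀ i, dzb (boxL 1 H F) i z = dzb (lapL H F) i z -
      ∑ j, (levi (lg H) z j i * shp H F z j + dz (lg H) j z * BK.dm (shp H F) z j i) := fun i => by
    rw [e1, dzb_sub d0 (DifferentiableAt.fun_sum fun j _ => (d2 j).fun_mul (d3 j)),
      dzb_sum _ fun j _ => (d2 j).fun_mul (d3 j)]
    simp only [fun j => dzb_mul (d2 j) (d3 j) i, ← dz_dzb_comm (BK.cd_lg hH hz)]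
    rfl
  rw [zero_add, vf_one, ipV_shp hp.1 (det_ne hp), star_sum] at e0
  simp only [star_mul', star_star, e2, ex, Nat.cast_one, sub_self, zero_mul, exp_zero, one_mul,
    Nat.cast_zero, add_zero, mul_sub, Finset.sum_sub_distrib] at e0
  have e3 : ∑ i, star (shp H F z i) * ∑ j, (levi (lg H) z j i * shp H F z j +
      dz (lg H) j z * BK.dm (shp H F) z j i) =
      ∑ l, dz (lg H) l z * wf H F z l - ipV (ric H z) (shp H F z) (shp H F z) := by
    simp only [ipV, wf, mulVec, dotProduct, Finset.mul_sum, ← Finset.sum_sub_distrib]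
    rw [Finset.sum_comm]
    refine Finset.sum_congr rfl fun j _ => Finset.sum_congr rfl fun i _ => ?_
    rw [show ric H z j i = -levi (lg H) z j i from rfl, Pi.star_apply]
    ring
  rw [e0, e3]
  ring

theorem key (hO : IsOpen O) (hH : KOn H O) (hF : ∀ w ∈ O, ContDiffAt ℝ ∞ F w)
    (hr : ∀ w, star (F w) = F w) (hz : z ∈ O) :
    lapL H (fun w => ∑ i, dz F i w * shp H F w i) z = nD H (shp H F) z +
      ∑ i, star (shp H F z i) * dzb (lapL H F) i z + ipV (ric H z) (shp H F z) (shp H F z) +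
      (∑ i, shp H F z i * dz (lapL H F) i z +
        trace (levi F z * (H z)⁻¹ * (levi F z * (H z)⁻¹))) := by
  have hp := hH.2 z hz
  have h0 := det_ne hp
  have d1 : DfM (levi F) z := fun i j =>
    (contDiffAt_levi_top (hF z hz) i j).differentiableAt (by simp)
  have d2 := hH.1.1.df hz
  have d3 := fun j => (BK.cd_U hH hF hz j).differentiableAt two_ne_zero
  have d4 : ∀ j, DifferentiableAt ℝ (fun w => wf H F w j) z := fun j =>
    vf_one (H := H) (F := F) ▸ (BK.cd_vf 1 hH hF hz j).differentiableAt one_ne_zero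
  have e1 : ∀ m k, levi (fun w => ∑ i, dz F i w * shp H F w i) z m k =
      ∑ i, (dM (levi F) m z i k * shp H F z i + levi F z i k *
        ((levi F z * (H z)⁻¹) m i - (shp H F z ᵥ* (dM H m z * (H z)⁻¹)) i)) +
      ∑ l, (dM H l z m k * wf H F z l + H z l k * dz (fun w => wf H F w l) m z) := fun m k => by
    rw [levi_apply, dz_congr (g := fun w => ∑ i, levi F w i k * shp H F w i +
        ∑ l, H w l k * wf H F w l) ((hO.eventually_mem hz).mono fun w hw =>
          dzb_P hO hH hF hr hw k),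
      dz_add (DifferentiableAt.fun_sum fun i _ => (d1 i k).fun_mul (d3 i))
        (DifferentiableAt.fun_sum fun i _ => (d2 i k).fun_mul (d4 i)),
      dz_sum _ fun i _ => (d1 i k).fun_mul (d3 i), dz_sum _ fun i _ => (d2 i k).fun_mul (d4 i)]
    simp only [fun i => dz_mul (d1 i k) (d3 i) m, fun i => dz_mul (d2 i k) (d4 i) m,
      dz_shp hH hF hz, dM_apply, fun l => hH.1.2.2 z hz l k m]
  have e2 : ∀ i, dz (lapL H F) i z = trace (dM (levi F) i z * (H z)⁻¹ +
      levi F z * -((H z)⁻¹ * dM H i z * (H z)⁻¹)) := fun i => by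
    rw [← dM_inv d2 h0, ← dM_mul d1 (d2.inv h0)]
    exact dz_trace (d1.mul (d2.inv h0)) i
  have e3 : ∑ m, ∑ k, (∑ l, (dM H l z m k * wf H F z l +
      H z l k * dz (fun w => wf H F w l) m z)) * (H z)⁻¹ k m =
      ∑ l, dz (lg H) l z * wf H F z l + ∑ j, dz (fun w => wf H F w j) j z := by
    simp only [Finset.sum_mul, add_mul, Finset.sum_add_distrib]
    congr 1
    · rw [Finset.sum_comm_cycle]
      refine Finset.sum_congr rfl fun l _ => ?_
      rw [dz_lg d2 ((hO.eventually_mem hz).mono fun w hw => hH.1.2.1 w hw) h0]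
      simp only [trace, diag, mul_apply, Finset.sum_mul]
      exact Finset.sum_congr rfl fun m _ => Finset.sum_congr rfl fun k _ => by ring
    · refine Finset.sum_congr rfl fun m _ => ?_
      have := congrFun (congrArg ((fun l => dz (fun w => wf H F w l) m z) ᵥ* ·)
        (mul_nonsing_inv _ h0.isUnit)) m
      simp only [vecMul_one] at this
      rw [← this, Finset.sum_comm]
      simp only [vecMul, dotProduct, mul_apply, Finset.mul_sum]
      exact Finset.sum_congr rfl fun l _ => Finset.sum_congr rfl fun k _ => by ring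
  simp only [e2]
  rw [← div_wf hO hH hF hz, ← e3, ← alg _ _ (fun m => dM (levi F) m z) (fun m => dM H m z) _
    (fun m i k => dz_dz_comm (contDiffAt_dzb (hF z hz) (by norm_cast) k) m i)
    fun m p q => hH.1.2.2 z hz p q m, add_comm, lapL]
  simp only [trace, diag, mul_apply (M := levi _ z) (N := (H z)⁻¹) , e1, add_mul,
    Finset.sum_add_distrib]

end BeL

theorem beL : BeL := by
  intro ι _ _ H O u hO hH hu z hz hR
  have hF : ∀ w ∈ O, ContDiffAt ℝ ∞ (fun w => (u w : ℂ)) w :=
    fun w hw => contDiffAt_ofReal.2 (hu w hw)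
  have hr : ∀ w, star (u w : ℂ) = u w := fun w => conj_ofReal _
  have hL : ∀ w ∈ O, (levi (fun w => (u w : ℂ)) w).IsHermitian :=
    fun w hw => levi_herm_ofReal ((hF w hw).of_le (by norm_cast))
  have hp := hH.2 z hz
  set F : V ι → ℂ := fun w => (u w : ℂ) with hFd
  have hb : ∀ k w, dzb F k w = star (dz F k w) := fun k w => dzb_ofReal u k w
  have e0 : ∀ w ∈ O, ∀ d : V ι, grL (H w) (fun i => dz F i w) d =
      ∑ j, star (shp H F w j) * star (d j) := fun w hw d => by
    rw [grL, Finset.sum_comm]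
    refine Finset.sum_congr rfl fun j _ => ?_
    rw [shp, star_sum, Finset.sum_mul]
    refine Finset.sum_congr rfl fun i _ => ?_
    rw [star_mul', (hH.2 w hw).1.inv.apply j i, hb, star_star]
  have e1 : ∀ w ∈ O, grL (H w) (fun i => dz F i w) (fun i => dz F i w) =
      ∑ i, dz F i w * shp H F w i := fun w _ => by
    simp only [grL, shp, Finset.mul_sum, hb]
    exact Finset.sum_congr rfl fun i _ => Finset.sum_congr rfl fun j _ => by ring
  have e2 : (fun w => ((grL (H w) (fun i => dz F i w) (fun i => dz F i w)).re : ℂ)) =ᶠ[𝓝 z]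
      fun w => ∑ i, dz F i w * shp H F w i := by
    filter_upwards [hO.mem_nhds hz] with w hw
    rw [← e1 w hw]
    refine conj_eq_iff_re.1 ?_
    conv_rhs => rw [e0 w hw]
    rw [e1 w hw, map_sum]
    exact Finset.sum_congr rfl fun i _ => star_mul _ _
  have e3 : (fun w => ((lapL H F w).re : ℂ)) =ᶠ[𝓝 z] lapL H F := by
    filter_upwards [hO.mem_nhds hz] with w hw
    exact (mat.real ι _ _ (hH.2 w hw).1 (hL w hw)).1.symm
  have e4 : ∀ i, dzb (lapL H F) i z = star (dz (lapL H F) i z) :=
    dzb_real (e3.mono fun w hw => by rw [← hw]; exact conj_ofReal _)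
  have e5 : ∑ i, shp H F z i * dz (lapL H F) i z =
      star (∑ j, star (shp H F z j) * star (dz (lapL H F) j z)) := by
    simp only [star_sum, star_mul', star_star]
  have e6 : nV (ric H z + H z) (shp H F z) = (ipV (ric H z) (shp H F z) (shp H F z)).re +
      (∑ i, dz F i z * shp H F z i).re := by
    have : ipV (H z) (shp H F z) (shp H F z) = ∑ i, dz F i z * shp H F z i := by
      rw [ipV_shp hp.1 (det_ne hp)]
      simp only [hb, star_star, mul_comm]
    rw [← this, ← add_re, nV]
    simp only [ipV, Matrix.add_apply, add_mul, Finset.sum_add_distrib]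
  have n1 := mat.nv_mono ι _ (shp H F z) hR
  have n2 := AN.Flat.nD_nonneg hp (shp H F)
  have n3 := BeL.sq hp (hL z hz)
  rw [lapL, lapL, levi_congr e2, ← lapL, ← lapL, BeL.key hO hH hF hr hz, e1 z hz, e0 z hz, e5]
  simp only [dz_congr e3, e4, add_re, ofReal_re, RCLike.star_def, conj_re] at e6 ⊢
  change trm (H z) (levi F z) ^ 2 / _ + _ - _ ≤ _
  linarith

end Pool.Agent.Lib.MP_813db1_ag.NS
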