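import Pool.Agent.Lib.MP_813db1_ag.NS.Bs
import Pool.Agent.Lib.MP_813db1_ag.HS.AYAll

/-! The inequality of Bochner on a manifold. -/

namespace Pool.Agent.Lib.MP_813db1_ag.NS

open Pool.Agent.Lib.MP_813db1_ag.HS
open Complex Matrix Filter Topology Set
open scoped ComplexOrder ContDiff

theorem beS (h : BeL) : BeS := by
  intro ι Y _ _ _ N g hg hr u y hu
  have ha := AY.repA' ι Y N
  have hb := AY.repB' ι Y N
  have he := N.ch_mem y
  have hz := (N.ch y).map_source (N.mem y)
  have e0 := ha.repF_self g y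
  have ev := (N.ch y).open_target.eventually_mem hz
  have e1 : (fun w => ((lapL (N.repF g (N.ch y)) (fn u (N.ch y)) w).re : ℂ)) =ᶠ[𝓝 (N.ch y y)]
      fn (N.lap g u) (N.ch y) := ev.mono fun w hw => by
    have := hb.lap_rep g u _ he _ ((N.ch y).map_target hw) (by
      rw [(N.ch y).right_inv hw]
      exact (hu _ he w hw).of_le (WithTop.coe_le_coe.2 (le_top : (2 : ℕ∞) ≤ ⊤)))
    rw [(N.ch y).right_inv hw] at this
    exact congrArg ofReal this
  have e2 : (fun w => ((grL (N.repF g (N.ch y) w) (fun i => dz (fn u (N.ch y)) i w)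
      (fun i => dz (fn u (N.ch y)) i w)).re : ℂ)) =ᶠ[𝓝 (N.ch y y)]
      fn (N.grad g u u) (N.ch y) := ev.mono fun w hw => by
    have d : DifferentiableAt ℝ (fn u (N.ch y)) (N.ch y ((N.ch y).symm w)) := by
      rw [(N.ch y).right_inv hw]
      exact (hu _ he w hw).differentiableAt (by simp)
    have := hb.grad_rep g u u _ he _ ((N.ch y).map_target hw) d d
    rw [(N.ch y).right_inv hw] at this
    exact congrArg (fun c : ℂ => (c.re : ℂ)) this
  have k := h ι (N.repF g (N.ch y)) (N.ch y).target (fun w => u ((N.ch y).symm w))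
    (N.ch y).open_target (hg _ he)
    (fun w hw => (reCLM.contDiff.contDiffAt).comp w (hu _ he w hw)) _ hz (by rw [e0]; exact hr y)
  change (lapL _ (fn u (N.ch y)) _).re ^ 2 / _ + 2 * (grL _ (N.dfn u y) fun i => dz (fun w =>
    ((lapL (N.repF g (N.ch y)) (fn u (N.ch y)) w).re : ℂ)) i _).re -
    (grL _ (N.dfn u y) (N.dfn u y)).re ≤ (trace (levi (fun w => ((grL (N.repF g (N.ch y) w)
      (fun i => dz (fn u (N.ch y)) i w) (fun i => dz (fn u (N.ch y)) i w)).re : ℂ)) _ * _)).re at k
  simp only [levi_congr e2, dz_congr e1] at k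
  rw [lapL, e0] at k
  exact k

end Pool.Agent.Lib.MP_813db1_ag.NS
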