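import Pool.Agent.Lib.MP_813db1_ag.NS.Bs
import Pool.Agent.Lib.MP_813db1_ag.HS.AYAll

/-! The formula of Green on a quotient of the covering space. -/

namespace Pool.Agent.Lib.MP_813db1_ag.NS

open Pool.Agent.Lib.MP_813db1_ag.HS Pool.Agent.Lib.MP_813db1_ag.AS Pool.Agent.Lib.MP_813db1_ag.AN
open MeasureTheory Complex Matrix Filter Topology Set Metric
open scoped ComplexOrder ContDiff

noncomputable section

namespace Grn

variable {ι X Y : Type} [Fintype ι] [DecidableEq ι] [TopologicalSpace X] [TopologicalSpace Y]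

theorem two_le : (2 : WithTop ℕ∞) ≤ ∞ := WithTop.coe_le_coe.2 (le_top : (2 : ℕ∞) ≤ ⊤)

omit [DecidableEq ι] in
theorem fn_ev {e : Ch ι Y} {u v : Y → ℝ} {y : Y} (hy : y ∈ e.source) (h : u =ᶠ[𝓝 y] v) :
    fn u e =ᶠ[𝓝 (e y)] fn v e := by
  have h1 : Tendsto e.symm (𝓝 (e y)) (𝓝 y) := by
    have := e.continuousAt_symm (e.map_source hy)
    rwa [ContinuousAt, e.left_inv hy] at this
  filter_upwards [h1.eventually h] with z hz
  simp only [fn, hz]

theorem lap_ev (N : Atl ι Y) (g : Y → Mat ι) {u v : Y → ℝ} {y : Y} (h : u =ᶠ[𝓝 y] v) :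
    N.lap g u y = N.lap g v y := by
  rw [Atl.lap, Atl.lap, Atl.ddc, Atl.ddc, levi_congr (fn_ev (N.mem y) h)]

theorem dfn_ev (N : Atl ι Y) {u v : Y → ℝ} {y : Y} (h : u =ᶠ[𝓝 y] v) : N.dfn u y = N.dfn v y :=
  funext fun i => dz_congr (fn_ev (N.mem y) h) i

/-- the integrand. -/
def ph (N : Atl ι Y) (g : Y → Mat ι) (u F : Y → ℝ) (y : Y) : ℝ :=
  F y * N.lap g u y + N.grad g u F y

theorem ph_ev (N : Atl ι Y) (g : Y → Mat ι) {u v : Y → ℝ} (F : Y → ℝ) {y : Y}
    (h : u =ᶠ[𝓝 y] v) : ph N g u F y = ph N g v F y := by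
  rw [ph, ph, lap_ev N g h, Atl.grad, Atl.grad, dfn_ev N h]

theorem ph_zero (N : Atl ι Y) (g : Y → Mat ι) (u : Y → ℝ) {F : Y → ℝ} {y : Y}
    (h : F =ᶠ[𝓝 y] fun _ => 0) : ph N g u F y = 0 := by
  have h1 : N.dfn (fun _ => (0 : ℝ)) y = 0 := funext fun i => dz_const _ i _
  rw [ph, Atl.grad, dfn_ev N h, h.self_of_nhds, h1]
  simp [grL]

theorem ph_sum (N : Atl ι Y) (g : Y → Mat ι) (u : Y → ℝ) {κ : Type} [Fintype κ] (F : κ → Y → ℝ)
    (h : ∀ b, N.Ck ∞ (F b)) (y : Y) :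
    ph N g u (fun y => ∑ b, F b y) y = ∑ b, ph N g u (F b) y := by
  have h1 : ∀ i, N.dfn (fun y => ∑ b, F b y) y i = ∑ b, N.dfn (F b) y i := fun i => by
    have e : fn (fun y => ∑ b, F b y) (N.ch y) = fun w => ∑ b, fn (F b) (N.ch y) w := by
      funext w
      simp [fn]
    rw [Atl.dfn, e]
    exact dz_sum _ (fun b _ => (h b _ (N.ch_mem y) _
      ((N.ch y).map_source (N.mem y))).differentiableAt (by simp)) i
  simp only [ph, Finset.sum_add_distrib, Finset.sum_mul, Atl.grad, grL, h1, star_sum,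
    Finset.mul_sum, ← re_sum]
  congr 2
  symm
  rw [Finset.sum_comm]
  exact Finset.sum_congr rfl fun i _ => Finset.sum_comm

variable {M : Atl ι X} {H : X → Mat ι} {p : Y → X} {N : Atl ι Y} {g : Y → Mat ι} {S : St N g}
  (l : Lk M H p S)

theorem ball_of {b : Fin S.n} {x : X} (hx : x ∈ (l.e b).source) : l.e b x ∈ ball (0 : V ι) 4 :=
  l.tgt b ▸ (l.e b).map_source hx

include l in
theorem ck_p (hc : ∀ y, ∃ k, y ∈ (S.c k).source) {χ : X → ℝ} (h : M.Ck ∞ χ) :
    N.Ck ∞ fun y => χ (p y) := by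
  refine (AY.repA' ι Y N).ck_loc ⊤ _ fun y => ?_
  obtain ⟨k, hk⟩ := hc y
  have hz : S.c k y ∈ ball (0 : V ι) 4 := S.tgt k ▸ (S.c k).map_source hk
  refine ⟨_, S.mem k, hk, (h _ (l.mem (S.ty k)) _ ((l.tgt _).symm ▸ hz)).congr_of_eventuallyEq ?_⟩
  filter_upwards [isOpen_ball.mem_nhds hz] with z hz
  simp only [fn, l.pr k z hz]

open Classical in
/-- a function on the sheet `k`, transported to the base. -/
def lf (k : S.κ) (f : Y → ℝ) (x : X) : ℝ :=
  if x ∈ (l.e (S.ty k)).source then f ((S.c k).symm (l.e (S.ty k) x)) else 0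

theorem fn_lf (k : S.κ) (f : Y → ℝ) {z : V ι} (hz : z ∈ ball (0 : V ι) 4) :
    fn (lf l k f) (l.e (S.ty k)) =ᶠ[𝓝 z] fn f (S.c k) := by
  filter_upwards [isOpen_ball.mem_nhds hz] with w hw
  have hw' : w ∈ (l.e (S.ty k)).target := (l.tgt _).symm ▸ hw
  simp only [fn, lf, if_pos ((l.e _).map_target hw'), (l.e _).right_inv hw']

theorem p_symm (k : S.κ) {x : X} (hx : x ∈ (l.e (S.ty k)).source) :
    p ((S.c k).symm (l.e (S.ty k) x)) = x := by
  rw [l.pr k _ (ball_of l hx), (l.e _).left_inv hx]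

theorem lf_zero (k : S.κ) {f : Y → ℝ} {K : Set X} (hK : IsClosed K) (h0 : ∀ y, p y ∉ K → f y = 0)
    {x : X} (hx : x ∉ K) : lf l k f =ᶠ[𝓝 x] fun _ => 0 := by
  filter_upwards [hK.isOpen_compl.mem_nhds hx] with x' hx'
  rw [lf]
  split_ifs with h
  · exact h0 _ (by rwa [p_symm l k h])
  · rfl

theorem ck_lf (k : S.κ) {f : Y → ℝ} (hf : N.Ck ∞ f) {K : Set X} (hK : IsClosed K)
    (hs : K ⊆ (l.e (S.ty k)).source) (h0 : ∀ y, p y ∉ K → f y = 0) : M.Ck ∞ (lf l k f) := by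
  refine (AY.repA' ι X M).ck_loc ⊤ _ fun x => ?_
  by_cases hx : x ∈ K
  · have hz := ball_of l (hs hx)
    exact ⟨_, l.mem _, hs hx,
      (hf _ (S.mem k) _ ((S.tgt k).symm ▸ hz)).congr_of_eventuallyEq (fn_lf l k f hz)⟩
  · exact ⟨_, M.ch_mem x, M.mem x,
      (contDiffAt_const (c := ((0 : ℝ) : ℂ))).congr_of_eventuallyEq
        (fn_ev (M.mem x) (lf_zero l k hK h0 hx))⟩

theorem ph_lf (k : S.κ) {u F : Y → ℝ} (hu : N.Ck ∞ u) (hF : N.Ck ∞ F) {x : X}
    (hx : x ∈ (l.e (S.ty k)).source) :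
    ph M H (lf l k u) (lf l k F) x = ph N g u F ((S.c k).symm (l.e (S.ty k) x)) := by
  have hz := ball_of l hx
  have hz' : l.e (S.ty k) x ∈ (S.c k).target := (S.tgt k).symm ▸ hz
  have hy := (S.c k).map_target hz'
  have e1 := (S.c k).right_inv hz'
  have u1 := hu _ (S.mem k) _ hz'
  have f1 := hF _ (S.mem k) _ hz'
  have u2 := u1.congr_of_eventuallyEq (fn_lf l k u hz)
  have f2 := f1.congr_of_eventuallyEq (fn_lf l k F hz)
  have a1 := (AY.repB' ι X M).lap_rep H _ _ (l.mem _) x hx (u2.of_le two_le)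
  have a2 := (AY.repB' ι Y N).lap_rep g u _ (S.mem k) _ hy
    (by rw [e1]; exact u1.of_le two_le)
  have b1 := (AY.repB' ι X M).grad_rep H _ _ _ (l.mem _) x hx (u2.differentiableAt (by simp))
    (f2.differentiableAt (by simp))
  have b2 := (AY.repB' ι Y N).grad_rep g u F _ (S.mem k) _ hy
    (by rw [e1]; exact u1.differentiableAt (by simp))
    (by rw [e1]; exact f1.differentiableAt (by simp))
  rw [e1] at a2 b2
  rw [lapL, levi_congr (fn_lf l k u hz), l.rep _ _ hz] at a1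
  rw [lapL, S.rep_g _ _ hz] at a2
  simp only [dz_congr (fn_lf l k u hz), dz_congr (fn_lf l k F hz), l.rep _ _ hz] at b1
  rw [S.rep_g _ _ hz] at b2
  rw [ph, ph, ← a1, ← a2, Atl.grad, Atl.grad, ← b1, ← b2, lf, if_pos hx]

end Grn

namespace Grn

variable {ι X Y G : Type} [Fintype ι] [DecidableEq ι] [TopologicalSpace X] [PseudoMetricSpace Y]
  [Group G] [MulAction G Y] {N : Atl ι Y} {g : Y → Mat ι} {P : Subgroup G} {u F : Y → ℝ}

theorem ph_inv (he : Eqv N g G) (hu : N.Ck ∞ u) (hF : N.Ck ∞ F)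
    (iu : ∀ n ∈ P, ∀ y, u (n • y) = u y) (iF : ∀ n ∈ P, ∀ y, F (n • y) = F y) :
    ∀ n ∈ P, ∀ y, ph N g u F (n • y) = ph N g u F y := fun n hn y => by
  rw [ph, ph, ← he.lap n u y hu, ← he.grad n u F y hu hF, funext (iu n hn), funext (iF n hn),
    iF n hn]

theorem ph_supp (hp : Prp G Y) (u : Y → ℝ) {z : Y} {R : ℝ} (h : ∀ y, F y ≠ 0 → y ∈ Nb P z R) :
    ∀ y, ph N g u F y ≠ 0 → y ∈ Nb P z (R + 1) := fun y hy => by
  by_contra hc
  refine hy (ph_zero N g u ?_)
  filter_upwards [ball_mem_nhds y one_pos] with y' hy'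
  by_contra h0
  obtain ⟨n, hn, hd⟩ := h y' h0
  refine hc ⟨n, hn, ?_⟩
  have h1 := dist_triangle z (n • y') (n • y)
  rw [hp.iso] at h1
  have h2 : dist y' y < 1 := hy'
  linarith

theorem one [T2Space X] [CompactSpace X] [MeasurableSpace X] [BorelSpace X] {M : Atl ι X}
    {H : X → Mat ι} {μ : Measure X} {p : Y → X} {s : X → Y} {S : St N g} (l : Lk M H p S)
    (hp : IsQuotientCoveringMap p G) (hs : ∀ x, p (s x) = x) (hc : ∀ y, ∃ k, y ∈ (S.c k).source)
    (hK : M.IsK H) (hμ : M.IsVol H μ) (hu : N.Ck ∞ u) (hF : N.Ck ∞ F) (b : Fin S.n) {K : Set X}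
    (k1 : IsClosed K) (k2 : K ⊆ (l.e b).source ∩ l.e b ⁻¹' ball 0 3)
    (h0 : ∀ y, p y ∉ K → F y = 0) (T : Finset S.κ) (hT : ∀ k ∈ T, S.ty k = b)
    (hfs : ∀ w ∈ ball (0 : V ι) 3,
      fs s P (ph N g u F) ((l.e b).symm w) = ∑ k ∈ T, ph N g u F ((S.c k).symm w)) :
    Integrable (fs s P (ph N g u F)) μ ∧ ∫ x, fs s P (ph N g u F) x ∂μ = 0 := by
  have hpc : Continuous p := hp.toIsQuotientMap.continuous
  have := (((AY.volS' ι X M H hK).2 μ hμ)).fin
  obtain ⟨χ, c1, c2⟩ := pou AY.repA' AY.repB' ι X M Bool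
    (fun i => cond i (l.e b).source Kᶜ)
    (fun i => by cases i; exacts [k1.isOpen_compl, (l.e b).open_source]) (fun x => by
      by_cases hx : x ∈ K
      exacts [⟨true, (k2 hx).1⟩, ⟨false, hx⟩])
  have c3 : ∀ x ∈ K, χ true =ᶠ[𝓝 x] fun _ => 1 := fun x hx => by
    have h1 : x ∉ tsupport (χ false) := fun h => (c1 false).2.2 h hx
    filter_upwards [notMem_tsupport_iff_eventuallyEq.1 h1] with x' hx'
    have := c2 x'
    rw [Fintype.sum_bool, hx'] at this
    simpa using this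
  have hu' : N.Ck ∞ fun y => χ true (p y) * u y :=
    ((AY.repB' ι Y N).ck_add ⊤ _ _ (ck_p l hc (c1 true).1) hu).2
  have key : ∀ k ∈ T, Continuous (ph M H (lf l k fun y => χ true (p y) * u y) (lf l k F)) ∧
      ∫ x, ph M H (lf l k fun y => χ true (p y) * u y) (lf l k F) x ∂μ = 0 := fun k hk => by
    have a1 := ck_lf l k hu' (isClosed_tsupport (χ true)) (by rw [hT k hk]; exact (c1 true).2.2)
      fun y hy => by rw [image_eq_zero_of_notMem_tsupport hy, zero_mul]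
    have a2 := ck_lf l k hF k1 (by rw [hT k hk]; exact fun x hx => (k2 hx).1) h0
    obtain ⟨g1, g2, g3⟩ := AY.greenS.real ι X M H H μ _ _ hK hK hμ
      (fun e he z hz => (a1 e he z hz).of_le two_le)
      (fun e he z hz => (a2 e he z hz).of_le (by exact_mod_cast le_top))
    refine ⟨(((AY.repA' ι X M).cont _ fun e he z hz => (a2 e he z hz).of_le (by simp)).mul
      g1).add g2, Eq.trans (integral_congr_ae (Eventually.of_forall fun x => ?_)) g3⟩
    have d1 := (((AY.repA' ι X M).isK_iff H).1 hK).2 x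
    have d2 : (H x).det.re ≠ 0 := (Complex.pos_iff.1 d1.det_pos).1.ne'
    simp only [rat, div_self d2, mul_one, ph]
  have e : fs s P (ph N g u F) =
      fun x => ∑ k ∈ T, ph M H (lf l k fun y => χ true (p y) * u y) (lf l k F) x := by
    funext x
    by_cases hx : x ∈ K
    · have h1 := hfs _ (k2 hx).2
      rw [(l.e b).left_inv (k2 hx).1] at h1
      rw [h1]
      refine Finset.sum_congr rfl fun k hk => ?_
      obtain rfl := hT k hk
      rw [ph_lf l k hu' hF (k2 hx).1]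
      refine ph_ev N g F ?_
      have h2 : Tendsto p (𝓝 ((S.c k).symm (l.e (S.ty k) x))) (𝓝 x) := by
        have := hpc.continuousAt (x := (S.c k).symm (l.e (S.ty k) x))
        rwa [ContinuousAt, p_symm l k (k2 hx).1] at this
      filter_upwards [h2.eventually (c3 x hx)] with y hy
      rw [hy, one_mul]
    · rw [Finset.sum_eq_zero fun k _ => ph_zero M H _ (lf_zero l k k1 h0 hx), fs]
      refine finsum_eq_zero_of_forall_eq_zero fun q => ph_zero N g u ?_
      have h2 : p ((Quotient.out q)⁻¹ • s x) ∈ Kᶜ := by rwa [hp.map_smul, hs]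
      filter_upwards [(k1.isOpen_compl.preimage hpc).mem_nhds h2] with y hy
      exact h0 y hy
  have hi : ∀ k ∈ T, Integrable (ph M H (lf l k fun y => χ true (p y) * u y) (lf l k F)) μ :=
    fun k hk => (key k hk).1.integrable_of_hasCompactSupport (HasCompactSupport.of_compactSpace _)
  rw [e]
  exact ⟨integrable_finsetSum _ hi, by
    rw [integral_finsetSum _ hi]
    exact Finset.sum_eq_zero fun k hk => (key k hk).2⟩

end Grn

open Grn

theorem grnS (h : FibS) : GrnS := by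
  intro ι X Y G _ _ _ _ _ _ _ _ _ _ M H μ p s N g S l hp hs hP hA hE hK hμ P F u hF hu hc iu
  obtain ⟨z, R, hR⟩ := hc.supp
  obtain ⟨r, -, r1, hr⟩ := hA.rad
  obtain ⟨f1, f2⟩ := h ι X Y G M H p s N g S l hp hs hP hA P z (R + 1)
  have hcov : ∀ y, ∃ k, y ∈ (S.c k).source := fun y => (hr y).imp fun k hk => hk.1
  obtain ⟨χ, c1, c2⟩ := pou AY.repA' AY.repB' ι X M (Fin S.n)
    (fun b => (l.e b).source ∩ l.e b ⁻¹' ball 0 3)
    (fun b => (l.e b).isOpen_inter_preimage isOpen_ball) (fun x => by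
      obtain ⟨k, k1, k2⟩ := hr (s x)
      have hz : S.c k (s x) ∈ ball (0 : V ι) 4 := S.tgt k ▸ (S.c k).map_source k1
      have hz' : S.c k (s x) ∈ (l.e (S.ty k)).target := (l.tgt _).symm ▸ hz
      have e := l.pr k _ hz
      rw [(S.c k).left_inv k1, hs] at e
      refine ⟨S.ty k, e ▸ (l.e _).map_target hz', ?_⟩
      rw [mem_preimage, e, (l.e _).right_inv hz', mem_ball_zero_iff]
      linarith)
  have hFb : ∀ b, N.Ck ∞ fun y => χ b (p y) * F y := fun b =>
    ((AY.repB' ι Y N).ck_add ⊤ _ _ (ck_p l hcov (c1 b).1) hF).2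
  have iFb : ∀ b, ∀ n ∈ P, ∀ y, χ b (p (n • y)) * F (n • y) = χ b (p y) * F y :=
    fun b n hn y => by rw [hp.map_smul, hc.inv n hn]
  have sFb : ∀ b y, ph N g u (fun y => χ b (p y) * F y) y ≠ 0 → y ∈ Nb P z (R + 1) := fun b =>
    ph_supp hP u fun y hy => hR y (right_ne_zero_of_mul hy)
  have key : ∀ b, Integrable (fs s P (ph N g u fun y => χ b (p y) * F y)) μ ∧
      ∫ x, fs s P (ph N g u fun y => χ b (p y) * F y) x ∂μ = 0 := fun b => by
    obtain ⟨T, t1, t2⟩ := f2 b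
    exact one l hp hs hcov hK hμ hu (hFb b) b (isClosed_tsupport (χ b)) (c1 b).2.2
      (fun y hy => by rw [image_eq_zero_of_notMem_tsupport hy, zero_mul]) T t1
      (t2 _ (ph_inv hE hu (hFb b) iu (iFb b)) (sFb b))
  have e1 : F = fun y => ∑ b, χ b (p y) * F y := by
    funext y
    rw [← Finset.sum_mul, c2, one_mul]
  have e2 : fs s P (ph N g u F) = fun x => ∑ b, fs s P (ph N g u fun y => χ b (p y) * F y) x := by
    funext x
    rw [fs, funext fun q => congrArg (fun F => ph N g u F _) e1]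
    simp only [ph_sum N g u _ hFb]
    exact finsum_sum_comm _ _ fun b _ => (f1 x).subset fun q hq => sFb b _ hq
  change ∫ x, fs s P (ph N g u F) x ∂μ = 0
  rw [e2, integral_finsetSum _ fun b _ => (key b).1]
  exact Finset.sum_eq_zero fun b _ => (key b).2

end

end Pool.Agent.Lib.MP_813db1_ag.NS
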