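import Pool.Agent.Lib.MP_813db1_ag.NS.BarU
import Pool.Agent.Lib.MP_813db1_ag.NS.Grn

/-! The barrier on the covering space. -/

namespace Pool.Agent.Lib.MP_813db1_ag.NS

open Pool.Agent.Lib.MP_813db1_ag.HS Pool.Agent.Lib.MP_813db1_ag.AS Pool.Agent.Lib.MP_813db1_ag.AN
open Pool.Agent.Lib.MP_bbd4b9_ag Pool.Agent.Lib.MP_bbd4b9_ag.LC
open Complex Matrix Filter Topology Set Metric
open scoped ContDiff ComplexOrder

namespace BrrA

variable {ι X Y : Type} [Fintype ι] [DecidableEq ι]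

theorem touch {H : Mat ι} (hH : H.PosDef) {W β : V ι → ℝ} {Φ : ℝ → ℝ} {z : V ι}
    (hW : ContDiffAt ℝ 2 W z) (hβ : ContDiffAt ℝ 2 β z) (hΦ : ContDiffAt ℝ 2 Φ (W z))
    (e : Φ (W z) = β z) (le : ∀ᶠ w in 𝓝 z, Φ (W w) ≤ β w) :
    deriv Φ (W z) * trm H (levi (fun w => (W w : ℂ)) z) + deriv (deriv Φ) (W z) *
      (grL H (fun i => dz (fun w => (W w : ℂ)) i z) fun i => dz (fun w => (W w : ℂ)) i z).re ≤
      trm H (levi (fun w => (β w : ℂ)) z) ∧ deriv Φ (W z) ^ 2 *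
      (grL H (fun i => dz (fun w => (W w : ℂ)) i z) fun i => dz (fun w => (W w : ℂ)) i z).re =
      (grL H (fun i => dz (fun w => (β w : ℂ)) i z) fun i => dz (fun w => (β w : ℂ)) i z).re := by
  have c1 : ContDiffAt ℝ 2 (fun w => Φ (W w)) z := hΦ.comp z hW
  have hm : IsLocalMax (fun w => Φ (W w) - β w) z := le.mono fun w hw => by
    simp only [e, sub_self]
    linarith
  have e1 : (fun w => ((Φ (W w) - β w : ℝ) : ℂ)) = fun w => (Φ (W w) : ℂ) - (β w : ℂ) :=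
    funext fun w => ofReal_sub _ _
  have c2 := contDiffAt_ofReal.2 c1
  have c3 := contDiffAt_ofReal.2 hβ
  constructor
  · have h1 := mat.trm_nonneg ι H _ hH (maxS.loc ι _ z (c1.sub hβ) hm)
    rw [e1, levi_sub c2 c3, AF.All.dc.br3 ι W Φ z hW hΦ, Apr.trm_neg, Apr.trm_sub, Apr.trm_add,
      Apr.trm_smul, Apr.trm_smul, (AF.All.dc.tr1 ι H _).1] at h1
    linarith
  · have h1 : ∀ i, dz (fun w => (β w : ℂ)) i z = (deriv Φ (W z) : ℝ) * dz (fun w => (W w : ℂ)) i z := by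
      intro i
      have h2 := AF.All.dc.min (V ι) (fun w => -(Φ (W w) - β w)) z (Pi.single i 1) hm.neg
      rw [AF.All.dc.br1 ι _ z _ ((c1.sub hβ).neg.differentiableAt two_ne_zero),
        Finset.sum_eq_single i (fun j _ hj => by simp [hj]) (by simp)] at h2
      have e2 : (fun w => ((-(Φ (W w) - β w) : ℝ) : ℂ)) = fun w => (β w : ℂ) - (Φ (W w) : ℂ) :=
        funext fun w => by push_cast; ring
      rw [e2, dz_sub (c3.differentiableAt two_ne_zero) (c2.differentiableAt two_ne_zero),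
        dz_real_comp (hΦ.differentiableAt two_ne_zero).hasDerivAt
          (hW.differentiableAt two_ne_zero)] at h2
      simpa [sub_eq_zero] using h2
    simp only [h1]
    rw [← re_ofReal_mul]
    congr 1
    simp only [grL, star_mul', RCLike.star_def, conj_ofReal, Finset.mul_sum]
    push_cast
    exact Finset.sum_congr rfl fun i _ => Finset.sum_congr rfl fun j _ => by ring

variable [TopologicalSpace X] [TopologicalSpace Y] {M : Atl ι X} {H : X → Mat ι} {p : Y → X}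
  {N : Atl ι Y} {g : Y → Mat ι} {S : St N g} (l : Lk M H p S)

include l in
/-- a local section, in the preferred chart of the base. -/
theorem sec (y : Y) : ∃ σ : V ι → Y, Tendsto σ (𝓝 (M.ch (p y) (p y))) (𝓝 y) ∧
    σ (M.ch (p y) (p y)) = y ∧ (∀ᶠ z in 𝓝 (M.ch (p y) (p y)), p (σ z) = (M.ch (p y)).symm z) ∧
    ∀ u, N.Ck ∞ u → ContDiffAt ℝ 2 (fun z => u (σ z)) (M.ch (p y) (p y)) ∧
      trm (H (p y)) (levi (fun z => (u (σ z) : ℂ)) (M.ch (p y) (p y))) = N.lap g u y ∧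
      (grL (H (p y)) (fun i => dz (fun z => (u (σ z) : ℂ)) i (M.ch (p y) (p y)))
        fun i => dz (fun z => (u (σ z) : ℂ)) i (M.ch (p y) (p y))).re = N.grad g u u y := by
  obtain ⟨k, hy⟩ : ∃ k, y ∈ (S.c k).source := ⟨S.ch y, S.ch_eq y ▸ N.mem y⟩
  have hz' := (S.c k).map_source hy
  have hz : S.c k y ∈ ball (0 : V ι) 4 := S.tgt k ▸ hz'
  have ht : S.c k y ∈ (l.e (S.ty k)).target := (l.tgt _).symm ▸ hz
  have e0 : p y = (l.e (S.ty k)).symm (S.c k y) := by rw [← l.pr k _ hz, (S.c k).left_inv hy]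
  have hx : p y ∈ (l.e (S.ty k)).source := e0 ▸ (l.e _).map_target ht
  have e1 : l.e (S.ty k) (p y) = S.c k y := by rw [e0, (l.e _).right_inv ht]
  have an := M.hol _ (M.ch_mem (p y)) _ (l.mem (S.ty k)) _ (M.mem _) hx
  have e2 : (l.e (S.ty k) ∘ (M.ch (p y)).symm) (M.ch (p y) (p y)) = S.c k y := by
    rw [Function.comp_apply, (M.ch _).left_inv (M.mem _), e1]
  have t1 : Tendsto (M.ch (p y)).symm (𝓝 (M.ch (p y) (p y))) (𝓝 (p y)) := by
    have := (M.ch (p y)).continuousAt_symm ((M.ch (p y)).map_source (M.mem _))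
    rwa [ContinuousAt, (M.ch _).left_inv (M.mem _)] at this
  have ev : ∀ᶠ z in 𝓝 (M.ch (p y) (p y)), (M.ch (p y)).symm z ∈ (l.e (S.ty k)).source :=
    t1.eventually ((l.e (S.ty k)).open_source.mem_nhds hx)
  refine ⟨fun z => (S.c k).symm (l.e (S.ty k) ((M.ch (p y)).symm z)), ?_, ?_,
    ev.mono fun z hz => Grn.p_symm l k hz, fun u hu => ?_⟩
  · have t2 := an.continuousAt
    rw [ContinuousAt, e2] at t2
    have t3 := (S.c k).continuousAt_symm hz'
    rw [ContinuousAt, (S.c k).left_inv hy] at t3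
    exact t3.comp t2
  · exact (congrArg (S.c k).symm e2).trans ((S.c k).left_inv hy)
  have u1 := hu _ (S.mem k) _ hz'
  have u2 : ContDiffAt ℝ ∞ (fn (Grn.lf l k u) (l.e (S.ty k))) (l.e (S.ty k) (p y)) :=
    e1 ▸ u1.congr_of_eventuallyEq (Grn.fn_lf l k u hz)
  have e3 : (fun z => (u ((S.c k).symm (l.e (S.ty k) ((M.ch (p y)).symm z))) : ℂ)) =ᶠ[𝓝
      (M.ch (p y) (p y))] fn (Grn.lf l k u) (M.ch (p y)) :=
    ev.mono fun z hz => by simp only [fn, Grn.lf, if_pos hz]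
  have a1 := (AY.repB' ι X M).lap_rep H _ _ (l.mem _) _ hx (u2.of_le Grn.two_le)
  have a2 := (AY.repB' ι Y N).lap_rep g u _ (S.mem k) _ hy (u1.of_le Grn.two_le)
  have b1 := (AY.repB' ι X M).grad_rep H _ _ _ (l.mem _) _ hx (u2.differentiableAt (by simp))
    (u2.differentiableAt (by simp))
  have b2 := (AY.repB' ι Y N).grad_rep g u u _ (S.mem k) _ hy (u1.differentiableAt (by simp))
    (u1.differentiableAt (by simp))
  rw [e1] at a1 b1
  rw [lapL, levi_congr (Grn.fn_lf l k u hz), l.rep _ _ hz] at a1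
  rw [lapL, S.rep_g _ _ hz] at a2
  simp only [dz_congr (Grn.fn_lf l k u hz), l.rep _ _ hz] at b1
  rw [S.rep_g _ _ hz] at b2
  refine ⟨contDiffAt_ofReal.1 ?_, ?_, ?_⟩
  · exact ContDiffAt.comp (g := fn u (S.c k)) (f := l.e (S.ty k) ∘ (M.ch (p y)).symm) _
      (e2 ▸ u1.of_le Grn.two_le) ((an.contDiffAt (n := 2)).restrict_scalars ℝ)
  · rw [levi_congr e3, ← a2, a1]
    rfl
  · simp only [dz_congr e3]
    rw [Atl.grad, ← b2, b1]
    rfl

end BrrA

theorem brrS : BrrS := by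
  intro ι X Y G _ _ _ _ _ _ _ _ M H c a δ p γ _ N g S B l hd y₀ R L η hR hη
  have c0 := Bar.c_nonneg B.cost
  have pc := B.cov.continuous
  obtain ⟨δ', δpos, hδ⟩ := (AF.All.cost ι X M H).2 c B.cost (Coh2 a) fun y => by
    obtain ⟨W', hW', h2⟩ := B.coh y
    have h3 : ∀ᶠ p in 𝓝 y, W' ∈ 𝓝 p := eventually_mem_nhds_iff.2 hW'
    filter_upwards [continuousAt_fst.eventually h3, continuousAt_snd.eventually h3] with q h4 h5
    exact ⟨W', h4, h5, h2⟩
  obtain ⟨k, kB, k0, kδ, kle, kge⟩ := ((barU ι X M H c R η B.isK B.cost hη).and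
    ((eventually_gt_atTop 0).and (((tendsto_natCast_atTop_atTop (R := ℝ)).eventually_ge_atTop
      (R ^ 2 / δ')).and ((B.dm.le (R ^ 2)).and (B.dm.ge L))))).exists
  have kp : (0 : ℝ) < k := by exact_mod_cast k0
  obtain ⟨m1, m2, m3, m4, -, m6⟩ := LC.minS X G c a k (p y₀) R B.cost.cont c0 k0
    fun s _ hs i hi => hδ _ _ (by
      have h1 : c (s i) (s (i + 1)) ≤ act c k s :=
        Finset.single_le_sum (f := fun i => c (s i) (s (i + 1))) (fun j _ => c0 _ _)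
          (Finset.mem_range.2 hi)
      exact le_of_mul_le_mul_left (((mul_le_mul_of_nonneg_left h1 kp.le).trans hs).trans
        ((div_le_iff₀ δpos).1 kδ)) kp)
  refine ⟨fun y => rho c a k (p y₀) R (p y) ((γ y₀)⁻¹ * γ y), ?_, fun y => m1 _ _,
    fun y t ht => ?_, fun y hy => ?_, fun y hy => ?_, fun u Φ y hu hΦ hy e le => ?_⟩
  · have h1 := m2 (fun _ => p y₀) rfl
    have h2 : a (p y₀) (p y₀) = 1 := by
      obtain ⟨W, hW, h⟩ := B.coh (p y₀)
      have := mem_of_mem_nhds hW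
      exact mul_eq_left.1 (h _ this _ this _ this)
    have h3 : ∀ j, lab a (fun _ => p y₀) j = 1 := fun j => by
      induction j with
      | zero => rfl
      | succ j ih => rw [lab, ih, h2, one_mul]
    rw [h3] at h1
    simp only [act, B.cost.zero, Finset.sum_const_zero, mul_zero] at h1
    rw [inv_mul_cancel]
    exact le_antisymm h1 (m1 _ _).1
  · filter_upwards [pc.continuousAt.eventually (m6 (p y) _ t ht), B.loc y] with z h1 h2
    rwa [h2, ← mul_assoc]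
  · obtain ⟨s, s0, sk, sl, se, -⟩ := m4 _ _ hy
    have h1 := kle s (γ y₀) (se.trans_le hy.le)
    rwa [s0, sk, sl, mul_inv_cancel_left, se, ← hd] at h1
  · obtain ⟨s, s0, sk, sl, se⟩ := kge _ _ _ _ (hd y₀ y ▸ hy)
    have h1 := (m2 s s0).trans se
    rwa [sk, eq_inv_mul_of_mul_eq sl] at h1
  · obtain ⟨s, s0, sk, sl, se, sm⟩ := m4 _ _ hy
    obtain ⟨Z, Zt, Z0, Zs, Fc, F1, F2, F3⟩ := kB s (se.trans_le hy.le) (fun i _ => B.ric _) sm
    obtain ⟨σ, σt, σ0, σp, σu⟩ := BrrA.sec l y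
    obtain ⟨u1, u2, u3⟩ := σu u hu
    rw [sk] at Zt Z0 Zs Fc F1 F2 F3
    have h1 := BrrA.touch ((((AY.repA' ι X M).isK_iff H).1 B.isK).2 (p y)) u1 Fc (Φ := Φ)
      (by rwa [σ0]) (by rw [σ0, Zs, se, e]) (by
        filter_upwards [σt.eventually le, σp, σt.eventually (B.loc y),
          Zt.eventually (m3 s s0 (se.trans_le hy.le))] with z h1 h2 h3 h4
        refine h1.trans ?_
        have h5 := m2 (Z z) ((Z0 z).1.trans s0)
        rwa [h4 ((Z0 z).1.trans s0), sl, sk, (Z0 z).2, ← h2, mul_assoc, ← h3] at h5)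
    rw [u2, u3, σ0] at h1
    rw [se] at F1 F2 F3
    exact ⟨h1.1.trans F1, h1.2 ▸ F2, h1.2 ▸ F3⟩

end Pool.Agent.Lib.MP_813db1_ag.NS
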