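import Pool.Agent.Lib.MP_813db1_ag.NS.Bs
import Pool.Agent.Lib.MP_813db1_ag.HS.RepA

/-! Invariant bump functions, and uniform Hoelder bounds for invariant functions. -/

namespace Pool.Agent.Lib.MP_813db1_ag.NS

open Pool.Agent.Lib.MP_813db1_ag.HS Pool.Agent.Lib.MP_813db1_ag.AS Pool.Agent.Lib.MP_813db1_ag.AN
open MeasureTheory Complex Matrix Filter Topology Set Metric
open scoped ComplexOrder ContDiff

namespace Bump

variable {ι Y : Type} [Fintype ι] [MetricSpace Y] (N : Atl ι Y)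

theorem ck_near {u : Y → ℝ} (h : ∀ x, ∃ v, N.Ck ∞ v ∧ u =ᶠ[𝓝 x] v) : N.Ck ∞ u := by
  intro e he z hz
  obtain ⟨v, hv, h1⟩ := h (e.symm z)
  refine (hv e he z hz).congr_of_eventuallyEq ?_
  filter_upwards [(e.continuousAt_symm hz).eventually h1] with w hw
  simp only [fn, hw]

theorem ck_sum {κ : Type} (T : Finset κ) {u : κ → Y → ℝ} (h : ∀ k ∈ T, N.Ck ∞ (u k)) :
    N.Ck ∞ fun y => ∑ k ∈ T, u k y := by
  intro e he z hz
  have e1 : fn (fun y => ∑ k ∈ T, u k y) e = fun w => ∑ k ∈ T, fn (u k) e w := by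
    funext w
    simp only [fn, ofReal_sum]
  rw [e1]
  exact ContDiffAt.sum fun k hk => h k hk e he z hz

theorem ck_comp {u : Y → ℝ} {Φ : ℝ → ℝ} (hΦ : ContDiff ℝ ∞ Φ) (h : N.Ck ∞ u) :
    N.Ck ∞ fun y => Φ (u y) := by
  intro e he z hz
  have e1 : fn (fun y => Φ (u y)) e = fun w => ofRealCLM (Φ (reCLM (fn u e w))) := by
    funext w
    simp only [fn, ofRealCLM_apply, reCLM_apply, ofReal_re]
  rw [e1]
  exact ofRealCLM.contDiff.contDiffAt.comp z
    (hΦ.contDiffAt.comp z (reCLM.contDiff.contDiffAt.comp z (h e he z hz)))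

/-- a bump at a point. -/
theorem pt {O : Set Y} (hO : IsOpen O) {x : Y} (hx : x ∈ O) : ∃ β : Y → ℝ, N.Ck ∞ β ∧
    (∀ y, 0 ≤ β y) ∧ (∀ᶠ y in 𝓝 x, 1 ≤ β y) ∧ ∀ y, β y ≠ 0 → y ∈ O := by
  classical
  have he := N.ch_mem x
  have hs := N.mem x
  generalize N.ch x = e at he hs
  obtain ⟨ε, hε, hb⟩ := Metric.nhds_basis_closedBall.mem_iff.1
    ((e.isOpen_inter_preimage_symm hO).mem_nhds
      (show e x ∈ _ from ⟨e.map_source hs, by rwa [mem_preimage, e.left_inv hs]⟩))
  let φ : ContDiffBump (e x) := ⟨ε / 2, ε, by linarith, by linarith⟩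
  have hK : IsCompact (e.symm '' closedBall (e x) ε) :=
    (isCompact_closedBall _ _).image_of_continuousOn
      (e.continuousOn_symm.mono fun w hw => (hb hw).1)
  have hz : ∀ y, (if y ∈ e.source then φ (e y) else 0) ≠ 0 → y ∈ e.symm '' closedBall (e x) ε := by
    intro y hy
    by_cases h : y ∈ e.source
    · rw [if_pos h] at hy
      have h1 : e y ∈ Function.support φ := hy
      rw [φ.support_eq] at h1
      exact ⟨e y, ball_subset_closedBall h1, e.left_inv h⟩
    · exact absurd (if_neg h) hy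
  refine ⟨fun y => if y ∈ e.source then φ (e y) else 0, RepA.ck_loc N _ _ fun y => ?_,
    fun y => ?_, ?_, fun y hy => ?_⟩
  · by_cases h : y ∈ e.source
    · refine ⟨e, he, h, (ofRealCLM.contDiff.comp φ.contDiff).contDiffAt.congr_of_eventuallyEq ?_⟩
      filter_upwards [e.open_target.mem_nhds (e.map_source h)] with w hw
      simp only [fn, if_pos (e.map_target hw), e.right_inv hw, Function.comp_apply, ofRealCLM_apply]
    · have h1 : y ∉ e.symm '' closedBall (e x) ε := by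
        rintro ⟨w, hw, rfl⟩
        exact h (e.map_target (hb hw).1)
      refine ⟨N.ch y, N.ch_mem y, N.mem y,
        (contDiffAt_const (c := (0 : ℂ))).congr_of_eventuallyEq ?_⟩
      have h2 := (N.ch y).continuousAt_symm ((N.ch y).map_source (N.mem y))
      rw [ContinuousAt, (N.ch y).left_inv (N.mem y)] at h2
      filter_upwards [h2.eventually (hK.isClosed.isOpen_compl.mem_nhds h1)] with w hw
      have h3 := mt (hz _) hw
      rw [not_not] at h3
      simp only [fn, h3, ofReal_zero]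
  · dsimp only
    split_ifs
    exacts [φ.nonneg, le_rfl]
  · filter_upwards [e.open_source.mem_nhds hs, (e.continuousAt hs).eventually
      (closedBall_mem_nhds (e x) (half_pos hε))] with y h1 h2
    rw [if_pos h1, φ.one_of_mem_closedBall h2]
  · obtain ⟨w, hw, rfl⟩ := hz y hy
    exact (hb hw).2

/-- a bump for a compact set. -/
theorem cp {O K : Set Y} (hO : IsOpen O) (hK : IsCompact K) (h : K ⊆ O) : ∃ β : Y → ℝ,
    N.Ck ∞ β ∧ (∀ y, 0 ≤ β y) ∧ (∀ y ∈ K, 1 ≤ β y) ∧ ∀ y, β y ≠ 0 → y ∈ O := by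
  choose β h1 h2 h3 h4 using fun x : K => pt N hO (h x.2)
  obtain ⟨T, hT⟩ := hK.elim_nhds_subcover' (fun x hx => {y | 1 ≤ β ⟨x, hx⟩ y})
    fun x hx => h3 ⟨x, hx⟩
  refine ⟨fun y => ∑ x ∈ T, β x y, ck_sum N T fun x _ => h1 x,
    fun y => Finset.sum_nonneg fun x _ => h2 x y, fun y hy => ?_, fun y hy => ?_⟩
  · obtain ⟨x, hx, h5⟩ := mem_iUnion₂.1 (hT hy)
    exact le_trans h5 (Finset.single_le_sum (f := fun x => β x y) (fun x _ => h2 x y) hx)
  · obtain ⟨x, -, hx⟩ := Finset.exists_ne_zero_of_sum_ne_zero hy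
    exact h4 x y hx

variable {G : Type} [Group G] [MulAction G Y]

theorem fin (hp : Prp G Y) (P : Subgroup G) (z y : Y) (R : ℝ) :
    {n : P | dist z ((n : G) • y) < R}.Finite := by
  refine ((hp.fin y (dist y z + R)).preimage Subtype.val_injective.injOn).subset fun n hn => ?_
  have h1 := dist_triangle y z ((n : G) • y)
  have h2 : dist z ((n : G) • y) < R := hn
  change dist y ((n : G) • y) < _
  linarith

theorem bump (hp : Prp G Y) (hc : ∀ (γ : G) u, N.Ck ∞ u → N.Ck ∞ fun y => u (γ • y)) :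
    Bump N G := by
  intro P z r hr
  obtain ⟨β, h1, h2, h3, h4⟩ := cp N (isOpen_ball (x := z) (ε := 2 * r)) (hp.cpt z r)
    (closedBall_subset_ball (by linarith))
  have h5 : ∀ y, β y ≠ 0 → dist z y < 2 * r := fun y hy => mem_ball'.1 (h4 y hy)
  refine ⟨fun y => Real.smoothTransition (∑ᶠ n : P, β ((n : G) • y)),
    ck_comp N Real.smoothTransition.contDiff (ck_near N fun x => ?_), fun m hm y => ?_,
    fun y => ⟨Real.smoothTransition.nonneg _, Real.smoothTransition.le_one _⟩, ?_, fun y hy => ?_⟩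
  · refine ⟨_, ck_sum N (fin hp P z x (2 * r + 1)).toFinset fun n _ => hc n β h1, ?_⟩
    filter_upwards [ball_mem_nhds x one_pos] with y hy
    refine finsum_eq_sum_of_support_subset_of_finite _ (fun n hn => ?_) _
    have h6 := h5 _ hn
    have h7 := dist_triangle z ((n : G) • y) ((n : G) • x)
    rw [hp.iso] at h7
    have h8 : dist y x < 1 := hy
    change dist z ((n : G) • x) < _
    linarith
  · refine congrArg Real.smoothTransition ?_
    rw [← finsum_comp_equiv (Equiv.mulRight (⟨m, hm⟩ : P)) (f := fun n : P => β ((n : G) • y))]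
    exact finsum_congr fun n => by
      simp only [Equiv.coe_mulRight, Subgroup.coe_mul, mul_smul]
  · rintro y ⟨n, hn, hy⟩
    refine Real.smoothTransition.one_of_one_le ((h3 _ (mem_closedBall'.2 hy.le)).trans ?_)
    exact single_le_finsum (⟨n, hn⟩ : P) (f := fun n : P => β ((n : G) • y))
      ((fin hp P z y (2 * r)).subset fun n hn => h5 _ hn) fun n => h2 _
  · by_contra h
    refine hy ?_
    dsimp only
    rw [finsum_eq_zero_of_forall_eq_zero fun n : P => by_contra fun hn =>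
      h ⟨n, n.2, h5 _ hn⟩, Real.smoothTransition.zero]

theorem hol {f : V ι → ℂ} (hf : ∀ z ∈ ball (0 : V ι) 4, ContDiffAt ℝ ∞ f z) {R : ℝ} (hR : R < 4) :
    ∃ B, 0 ≤ B ∧ ∀ B' ≥ B, HolT 1 B' f (ball 0 R) := by
  have hs : closedBall (0 : V ι) R ⊆ ball 0 4 := closedBall_subset_ball hR
  have hK := isCompact_closedBall (0 : V ι) R
  obtain ⟨C, hC⟩ := hK.exists_bound_of_continuousOn
    fun z hz => (hf z (hs hz)).continuousAt.continuousWithinAt
  obtain ⟨L, hL⟩ := LocallyLipschitzOn.exists_lipschitzOnWith_of_compact hK (f := f) fun z hz => by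
    obtain ⟨L, t, ht, h⟩ := ((hf z (hs hz)).of_le (m := 1) (by simp)).exists_lipschitzOnWith
    exact ⟨L, t, mem_nhdsWithin_of_mem_nhds ht, h⟩
  refine ⟨|C| + 3 * L, by positivity, fun B hB => ⟨fun z hz => ?_, fun z hz w hw => ?_⟩⟩
  · have h1 := hC z (ball_subset_closedBall hz)
    have h2 := le_abs_self C
    have h3 := L.2
    change (0 : ℝ) ≤ L at h3
    linarith
  · have h1 := hL.norm_sub_le (ball_subset_closedBall hz) (ball_subset_closedBall hw)
    have h2 : ‖z - w‖ ≤ 9 := by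
      have h3 := norm_sub_le z w
      rw [mem_ball_zero_iff] at hz hw
      linarith
    have h3 : √‖z - w‖ ≤ 3 := Real.sqrt_le_iff.2 ⟨by norm_num, by linarith⟩
    have h4 := Real.mul_self_sqrt (norm_nonneg (z - w))
    have h5 := Real.sqrt_nonneg ‖z - w‖
    have h6 : (0 : ℝ) ≤ L := L.2
    have h7 := abs_nonneg C
    calc ‖f z - f w‖ ≤ L * (√‖z - w‖ * √‖z - w‖) := by rwa [h4]
      _ ≤ L * (3 * √‖z - w‖) := by gcongr
      _ = 3 * L * √‖z - w‖ := by ring
      _ ≤ B * √‖z - w‖ := mul_le_mul_of_nonneg_right (by linarith) h5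

end Bump

theorem bumpS : BumpS := by
  intro ι Y G _ _ _ _ _ N g S hp ha hq
  refine ⟨Bump.bump N hp hq.ck, fun P f R hR hf hc => ?_⟩
  obtain ⟨z, R0, hs⟩ := hc.supp
  choose B hB hH using fun l => Bump.hol (f := fn f (S.c l))
    (fun w hw => hf _ (S.mem l) w (by rwa [S.tgt])) hR
  have hT := S.fin _ (hp.cpt z R0) R hR
  have h0 : 0 ≤ ∑ l ∈ hT.toFinset, B l := Finset.sum_nonneg fun l _ => hB l
  have h4 : ball (0 : V ι) R ⊆ ball 0 4 := ball_subset_ball hR.le
  refine ⟨∑ l ∈ hT.toFinset, B l, fun k => ?_⟩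
  by_cases h : ∃ w ∈ ball (0 : V ι) R, f ((S.c k).symm w) ≠ 0
  · obtain ⟨w, hw, h1⟩ := h
    obtain ⟨n, hn, h2⟩ := hs _ h1
    obtain ⟨l, -, hl⟩ := ha.mv n k
    have h3 : w ∈ (S.c l).target := by
      rw [S.tgt]
      exact h4 hw
    have h5 : l ∈ hT.toFinset := hT.mem_toFinset.2 ⟨(S.c l).symm w,
      mem_closedBall'.2 (hl w (h4 hw) ▸ h2.le), (S.c l).map_target h3, by
        rw [(S.c l).right_inv h3]
        exact (mem_ball_zero_iff.1 hw).le⟩
    have h6 := hH l _ (Finset.single_le_sum (fun l _ => hB l) h5)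
    have h7 : ∀ v ∈ ball (0 : V ι) R, (f ((S.c k).symm v) : ℂ) = fn f (S.c l) v := fun v hv => by
      rw [fn, ← hl v (h4 hv), hc.inv n hn]
    exact ⟨fun v hv => by
      dsimp only
      rw [h7 v hv]
      exact h6.1 v hv, fun v hv v' hv' => by
      dsimp only
      rw [h7 v hv, h7 v' hv']
      exact h6.2 v hv v' hv'⟩
  · have h1 : ∀ v ∈ ball (0 : V ι) R, f ((S.c k).symm v) = 0 :=
      fun v hv => by_contra fun h2 => h ⟨v, hv, h2⟩
    exact ⟨fun v hv => by
      dsimp only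
      rw [h1 v hv, ofReal_zero, norm_zero, mul_zero]
      exact h0, fun v hv v' hv' => by
      dsimp only
      rw [h1 v hv, h1 v' hv', sub_self, norm_zero]
      positivity⟩

end Pool.Agent.Lib.MP_813db1_ag.NS
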