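import Pool.Agent.Lib.MP_813db1_ag.NS.Bs2
import Pool.Agent.Lib.MP_813db1_ag.NS.Bump

/-! Invariant bump functions with a thin collar. -/

namespace Pool.Agent.Lib.MP_813db1_ag.NS

open Pool.Agent.Lib.MP_813db1_ag.HS Pool.Agent.Lib.MP_813db1_ag.AN
open Filter Topology Set Metric
open scoped ContDiff

theorem bump2 : Bump2 := by
  intro ι Y G _ _ _ _ _ N g S hp _ hq P z r η hη
  obtain ⟨β, h1, h2, h3, h4⟩ := Bump.cp N (isOpen_ball (x := z) (ε := r + η)) (hp.cpt z r)
    (closedBall_subset_ball (by linarith))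
  have h5 : ∀ y, β y ≠ 0 → dist z y < r + η := fun y hy => mem_ball'.1 (h4 y hy)
  refine ⟨fun y => Real.smoothTransition (∑ᶠ n : P, β ((n : G) • y)),
    Bump.ck_comp N Real.smoothTransition.contDiff (Bump.ck_near N fun x => ?_), fun m hm y => ?_,
    fun y => ⟨Real.smoothTransition.nonneg _, Real.smoothTransition.le_one _⟩, ?_, fun y hy => ?_⟩
  · refine ⟨_, Bump.ck_sum N (Bump.fin hp P z x (r + η + 1)).toFinset
      fun n _ => hq.ck n β h1, ?_⟩
    filter_upwards [ball_mem_nhds x one_pos] with y hy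
    refine finsum_eq_sum_of_support_subset_of_finite _ (fun n hn => ?_) _
    have h6 := h5 _ hn
    have h7 := dist_triangle z ((n : G) • y) ((n : G) • x)
    rw [hp.iso] at h7
    have h8 : dist y x < 1 := hy
    change dist z ((n : G) • x) < _
    linarith
  · refine congrArg Real.smoothTransition ?_
    rw [← finsum_comp_equiv (Equiv.mulRight (⟨m, hm⟩ : P)) (f := fun n : P => β ((n : G) • y))]
    exact finsum_congr fun n => by
      simp only [Equiv.coe_mulRight, Subgroup.coe_mul, mul_smul]
  · rintro y ⟨n, hn, hy⟩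
    refine Real.smoothTransition.one_of_one_le ((h3 _ (mem_closedBall'.2 hy.le)).trans ?_)
    exact single_le_finsum (⟨n, hn⟩ : P) (f := fun n : P => β ((n : G) • y))
      ((Bump.fin hp P z y (r + η)).subset fun n hn => h5 _ hn) fun n => h2 _
  · dsimp only
    rw [finsum_eq_zero_of_forall_eq_zero fun n : P => by_contra fun hn =>
      hy ⟨n, n.2, h5 _ hn⟩, Real.smoothTransition.zero]

end Pool.Agent.Lib.MP_813db1_ag.NS
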