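import Pool.Agent.Lib.MP_813db1_ag.NS.Bs2
import Pool.Agent.Lib.MP_813db1_ag.HS.RepA
import Pool.Agent.Lib.MP_813db1_ag.HS.RepB
import Pool.Agent.Lib.MP_813db1_ag.HS.Curv
import Pool.Agent.Lib.MP_813db1_ag.HS.Mat
import Pool.Agent.Lib.MP_813db1_ag.HS.Max

/-! The rules of calculus on a Kaehler manifold. -/

namespace Pool.Agent.Lib.MP_813db1_ag.NS

open Pool.Agent.Lib.MP_813db1_ag.HS
open Complex Matrix Filter Topology Set
open scoped ComplexOrder ContDiff

namespace CalY

variable {ι Y : Type} [Fintype ι] [DecidableEq ι] [TopologicalSpace Y] {N : Atl ι Y}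

theorem two_le : (2 : WithTop ℕ∞) ≤ ∞ := WithTop.coe_le_coe.2 (le_top : (2 : ℕ∞) ≤ ⊤)

omit [DecidableEq ι] in
theorem le {k : WithTop ℕ∞} {u : Y → ℝ} (h : N.Ck ∞ u) (hk : k ≤ ∞) : N.Ck k u :=
  fun e he z hz => (h e he z hz).of_le hk

omit [DecidableEq ι] in
theorem df {u : Y → ℝ} (h : N.Ck ∞ u) (y : Y) : DifferentiableAt ℝ (fn u (N.ch y)) (N.ch y y) :=
  (RepB2.ck_at h y).differentiableAt (by simp)

omit [DecidableEq ι] in
theorem tend (N : Atl ι Y) (y : Y) : Tendsto (N.ch y).symm (𝓝 (N.ch y y)) (𝓝 y) := by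
  have h := (N.ch y).continuousAt_symm (RepB2.ch_mem N y)
  rwa [ContinuousAt, RepB2.ch_inv] at h

omit [DecidableEq ι] in
theorem ev {u v : Y → ℝ} {y : Y} (h : u =ᶠ[𝓝 y] v) :
    fn u (N.ch y) =ᶠ[𝓝 (N.ch y y)] fn v (N.ch y) :=
  ((tend N y).eventually h).mono fun z hz => by simp only [fn, hz]

theorem grL_comm {H : Mat ι} (h : H.IsHermitian) (a b : V ι) : grL H a b = star (grL H b a) := by
  rw [grL, grL, Finset.sum_comm]
  simp only [star_sum, star_mul', star_star]
  refine Finset.sum_congr rfl fun i _ => Finset.sum_congr rfl fun j _ => ?_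
  rw [h.inv.apply i j]
  ring

theorem grL_lin (H : Mat ι) (s t : ℝ) (a a' b : V ι) :
    (grL H (fun i => s * a i + t * a' i) b).re = s * (grL H a b).re + t * (grL H a' b).re := by
  have e : grL H (fun i => s * a i + t * a' i) b = s * grL H a b + t * grL H a' b := by
    simp only [grL, Finset.mul_sum, ← Finset.sum_add_distrib]
    exact Finset.sum_congr rfl fun i _ => Finset.sum_congr rfl fun j _ => by ring
  rw [e, add_re, re_ofReal_mul, re_ofReal_mul]

omit [DecidableEq ι] in
theorem fn_add (u v : Y → ℝ) (e : Ch ι Y) :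
    fn (fun y => u y + v y) e = fun w => fn u e w + fn v e w :=
  funext fun _ => ofReal_add _ _

omit [DecidableEq ι] in
theorem fn_mul (u v : Y → ℝ) (e : Ch ι Y) :
    fn (fun y => u y * v y) e = fun w => fn u e w * fn v e w :=
  funext fun _ => ofReal_mul _ _

omit [DecidableEq ι] in
theorem fn_at (u : Y → ℝ) (y : Y) : fn u (N.ch y) (N.ch y y) = u y := by
  rw [fn, RepB2.ch_inv]

theorem comm (g : Y → Mat ι) (u v : Y → ℝ) (y : Y) (h : (g y).IsHermitian) :
    N.grad g u v y = N.grad g v u y := by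
  rw [Atl.grad, Atl.grad, grL_comm h]
  exact conj_re _

theorem lap_mul (g : Y → Mat ι) {u v : Y → ℝ} (y : Y) (h : (g y).IsHermitian) (hu : N.Ck ∞ u)
    (hv : N.Ck ∞ v) : N.lap g (fun z => u z * v z) y =
      u y * N.lap g v y + v y * N.lap g u y + 2 * N.grad g u v y := by
  have e : ∀ i j, N.ddc (fun z => u z * v z) y i j = u y * N.ddc v y i j + v y * N.ddc u y i j +
      N.dfn u y i * star (N.dfn v y j) + N.dfn v y i * star (N.dfn u y j) := fun i j => by
    have e1 : dzb (fn u (N.ch y)) j (N.ch y y) = star (N.dfn u y j) := dzb_ofReal _ _ _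
    have e2 : dzb (fn v (N.ch y)) j (N.ch y y) = star (N.dfn v y j) := dzb_ofReal _ _ _
    rw [Atl.ddc, fn_mul, levi_mul (RepB2.ck_at (le hu two_le) y) (RepB2.ck_at (le hv two_le) y),
      e1, e2, fn_at, fn_at]
    simp only [Atl.ddc, Atl.dfn]
    ring
  have e2 : trace (N.ddc (fun z => u z * v z) y * (g y)⁻¹) =
      u y * trace (N.ddc v y * (g y)⁻¹) + v y * trace (N.ddc u y * (g y)⁻¹) +
        grL (g y) (N.dfn u y) (N.dfn v y) + grL (g y) (N.dfn v y) (N.dfn u y) := by
    simp only [trace, diag, mul_apply, e, grL, Finset.mul_sum, ← Finset.sum_add_distrib]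
    exact Finset.sum_congr rfl fun i _ => Finset.sum_congr rfl fun j _ => by ring
  have e3 := comm (N := N) g u v y h
  simp only [Atl.lap, trm, Atl.grad, e2, add_re, re_ofReal_mul] at e3 ⊢
  linarith

theorem max (g : Y → Mat ι) {u : Y → ℝ} {y : Y} (h : (g y).PosDef) (hu : N.Ck ∞ u)
    (hm : IsLocalMax u y) : N.lap g u y ≤ 0 ∧ ∀ v, N.grad g u v y = 0 := by
  have h1 : IsLocalMax (fun w => u ((N.ch y).symm w)) (N.ch y y) := by
    refine ((tend N y).eventually hm).mono fun w hw => ?_
    simpa only [RepB2.ch_inv] using hw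
  have h2 := contDiffAt_ofReal.1 (RepB2.ck_at (le hu two_le) y)
  refine ⟨?_, fun v => ?_⟩
  · have h3 := mat.trm_nonneg ι _ _ h (maxS.loc ι _ _ h2 h1)
    rw [trm, Matrix.neg_mul, trace_neg, neg_re] at h3
    exact neg_nonneg.1 h3
  · have h3 : fderiv ℝ (fn u (N.ch y)) (N.ch y y) = 0 := by
      have h4 := ofRealCLM.hasFDerivAt.comp (N.ch y y)
        (h2.differentiableAt two_ne_zero).hasFDerivAt
      rw [h1.fderiv_eq_zero, ContinuousLinearMap.comp_zero] at h4
      exact h4.fderiv
    have h4 : N.dfn u y = 0 := funext fun i => by simp [Atl.dfn, dz, h3]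
    simp [Atl.grad, grL, h4]

end CalY

theorem calY : CalY := by
  intro ι Y _ _ _ N g hK
  have ha := repA mat ι Y N
  have hb := repB (repA mat) (curvS mat) mat maxS ι Y N
  have hp := ((ha.isK_iff g).1 hK).2
  exact
    { s_add := fun f k hf hk => (hb.ck_add ⊤ f k hf hk).1
      s_mul := fun f k hf hk => (hb.ck_add ⊤ f k hf hk).2
      s_const := fun a e _ z _ => contDiffAt_const (c := (a : ℂ))
      s_comp := fun Φ f hf h => hb.ck_comp ⊤ f Φ hf h
      s_L := fun f hf => (hb.ck_lap g f f hK hf hf).1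
      s_Γ := fun f k hf hk => (hb.ck_lap g f k hK hf hk).2
      s_cont := fun f hf => ha.cont f (CalY.le hf bot_le)
      Γ_comm := fun f k y => CalY.comm g f k y (hp y).1
      Γ_nn := fun f y => hb.grad_nonneg g f y (hp y)
      Γ_add := fun f f' k y hf hf' _ => by
        have e : N.dfn (fun z => f z + f' z) y =
            fun i => (1 : ℝ) * N.dfn f y i + (1 : ℝ) * N.dfn f' y i := funext fun i => by
          rw [Atl.dfn, CalY.fn_add, dz_add (CalY.df hf y) (CalY.df hf' y)]
          simp only [Atl.dfn, ofReal_one, one_mul]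
        rw [Atl.grad, e, CalY.grL_lin, one_mul, one_mul]
        rfl
      Γ_mul := fun f f' k y hf hf' _ => by
        have e : N.dfn (fun z => f z * f' z) y =
            fun i => f y * N.dfn f' y i + f' y * N.dfn f y i := funext fun i => by
          rw [Atl.dfn, CalY.fn_mul, dz_mul (CalY.df hf y) (CalY.df hf' y), CalY.fn_at, CalY.fn_at]
          simp only [Atl.dfn]
          ring
        rw [Atl.grad, e, CalY.grL_lin]
        rfl
      Γ_comp := fun Φ f k y hf _ h => by
        have e : N.dfn (fun z => Φ (f z)) y =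
            fun i => deriv Φ (f y) * N.dfn f y i + (0 : ℝ) * N.dfn f y i := by
          rw [hb.dfn_comp f Φ y (CalY.le hf (by simp)) (h.differentiableAt (by simp))]
          funext i
          simp
        rw [Atl.grad, e, CalY.grL_lin, zero_mul, add_zero]
        rfl
      L_add := fun f k y hf hk => by
        have e := hb.ddc_add f k (CalY.le hf CalY.two_le) (CalY.le hk CalY.two_le) 1 y
        simp only [one_mul, ofReal_one, one_smul] at e
        simp only [Atl.lap, trm, e, Matrix.add_mul, trace_add, add_re]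
      L_mul := fun f k y hf hk => CalY.lap_mul g y (hp y).1 hf hk
      L_comp := fun Φ f y hf h =>
        hb.lap_comp g f Φ y (CalY.le hf CalY.two_le) (h.of_le CalY.two_le)
      max := fun f y hf h => ⟨(CalY.max g (hp y) hf h).1, fun k _ => (CalY.max g (hp y) hf h).2 k⟩
      L_loc := fun f k y h => by
        rw [Atl.lap, Atl.lap, Atl.ddc, Atl.ddc, levi_congr (CalY.ev h)]
      Γ_loc := fun f f' k y h => by
        have e : N.dfn f y = N.dfn f' y := funext fun i => dz_congr (CalY.ev h) i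
        rw [Atl.grad, Atl.grad, e] }

end Pool.Agent.Lib.MP_813db1_ag.NS
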