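import Pool.Agent.Lib.MP_813db1_ag.NS.Bs
import Pool.Agent.Lib.MP_813db1_ag.HS.Ext

/-! Extension by zero on the covering space, with bounds that do not depend on the sheet. -/

namespace Pool.Agent.Lib.MP_813db1_ag.NS

open Pool.Agent.Lib.MP_813db1_ag.HS Pool.Agent.Lib.MP_813db1_ag.AN
open Filter Topology Set Metric

namespace Ext

variable {ι X Y : Type} [Fintype ι] [DecidableEq ι] [TopologicalSpace X] [TopologicalSpace Y]
  {M : Atl ι X} {H : X → Mat ι} {p : Y → X} {N : Atl ι Y} {g : Y → Mat ι} {S : St N g}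
  {b : Fin S.n} {K : Set (V ι)} {w : S.κ → V ι → ℂ}

theorem val {k : S.κ} (hk : S.ty k = b) {y : Y} (hy : y ∈ (S.c k).source) :
    exT S b w y = w k (S.c k y) := by
  have h : ∃ k, S.ty k = b ∧ y ∈ (S.c k).source := ⟨k, hk, hy⟩
  rw [exT, dif_pos h, S.dis _ k y (h.choose_spec.1.trans hk.symm) h.choose_spec.2 hy]

theorem pr (L : Lk M H p S) {k : S.κ} (hk : S.ty k = b) {y : Y} (hy : y ∈ (S.c k).source) :
    S.c k y ∈ (L.e b).target ∧ p y = (L.e b).symm (S.c k y) := by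
  have h : S.c k y ∈ ball (0 : V ι) 4 := S.tgt k ▸ (S.c k).map_source hy
  have := L.pr k _ h
  rw [(S.c k).left_inv hy, hk] at this
  exact ⟨L.tgt b ▸ h, this⟩

theorem zero (L : Lk M H p S) (hw : ∀ k, ∀ z ∉ K, w k z = 0) {y : Y}
    (hy : p y ∉ (L.e b).symm '' K) : exT S b w y = 0 := by
  by_cases h : ∃ k, S.ty k = b ∧ y ∈ (S.c k).source
  · obtain ⟨k, h1, h2⟩ := h
    rw [val h1 h2]
    exact hw k _ fun c => hy ⟨_, c, (pr L h1 h2).2.symm⟩
  · rw [exT, dif_neg h]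

/-- one sheet serves on a connected set. -/
theorem one (L : Lk M H p S) (l : S.κ) {U : Set (V ι)} (hU : IsPreconnected U) (h4 : U ⊆ ball 0 4)
    (h : ∀ z ∈ U, (L.e (S.ty l)).symm z ∈ (L.e b).source) {z0 : V ι} (h0 : z0 ∈ U) :
    ∃ k, ∀ z ∈ U, exT S b w ((S.c l).symm z) = w k ((L.e b ∘ (L.e (S.ty l)).symm) z) := by
  have on := fun z hz => L.on b ((S.c l).symm z) (by rw [L.pr l z (h4 hz)]; exact h z hz)
  obtain ⟨k, k1, k2⟩ := on z0 h0
  have s := (hU.image _ ((S.c l).continuousOn_symm.mono (S.tgt l ▸ h4))).subset_left_of_subset_union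
    (u := (S.c k).source) (v := ⋃ j ∈ {j | S.ty j = b ∧ j ≠ k}, (S.c j).source)
    (S.c k).open_source (isOpen_biUnion fun j _ => (S.c j).open_source)
    (disjoint_left.2 fun y h1 h2 => by
      obtain ⟨j, j1, j2⟩ := mem_iUnion₂.1 h2
      exact j1.2 (S.dis j k y (j1.1.trans k1.symm) j2 h1))
    (by
      rintro _ ⟨z, hz, rfl⟩
      obtain ⟨j, j1, j2⟩ := on z hz
      by_cases e : j = k
      · exact Or.inl (e ▸ j2)
      · exact Or.inr (mem_iUnion₂.2 ⟨j, ⟨j1, e⟩, j2⟩))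
    ⟨_, mem_image_of_mem _ h0, k2⟩
  refine ⟨k, fun z hz => ?_⟩
  have m := s (mem_image_of_mem _ hz)
  obtain ⟨a1, a2⟩ := pr L k1 m
  rw [val k1 m, Function.comp, ← L.pr l z (h4 hz), a2, (L.e b).right_inv a1]

variable (S b K) in
/-- the bounds on the set `U` of all sheets of type `a` with the constant `c`. -/
def Q (a : Fin S.n) (U : Set (V ι)) (c : ℝ) : Prop :=
  ∀ w : S.κ → V ι → ℂ, (∀ k, ∀ z ∉ K, w k z = 0) → ∀ l, S.ty l = a →
    (∀ t ≥ (1 : ℝ), ∀ B, (∀ k, HolT t B (w k) univ) →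
      HolT t (c * B) (fun z => exT S b w ((S.c l).symm z)) U) ∧
    ∀ B, (∀ k, Hol2 B (w k) univ) → Hol2 (c * B) (fun z => exT S b w ((S.c l).symm z)) U

theorem Q.mono {a : Fin S.n} {U U' : Set (V ι)} {c c' : ℝ} (h : Q S b K a U c) (hU : U' ⊆ U)
    (hc : c ≤ c') : Q S b K a U' c' := fun w hw l hl =>
  ⟨fun t ht B hB => (((h w hw l hl).1 t ht B hB).subset hU).mono
      (mul_le_mul_of_nonneg_right hc ((hB l).nonneg (by linarith) (mem_univ 0))),
    fun B hB => (((h w hw l hl).2 B hB).subset hU).mono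
      (mul_le_mul_of_nonneg_right hc ((hB l).nonneg (mem_univ 0)))⟩

theorem loc (L : Lk M H p S) (hK : K ⊆ (L.e b).target) (hc : IsClosed ((L.e b).symm '' K))
    (a : Fin S.n) {z0 : V ι} (h4 : z0 ∈ ball (0 : V ι) 4) : ∃ ρ > 0, ∃ c, Q S b K a (ball z0 ρ) c := by
  have hz : z0 ∈ (L.e a).target := L.tgt a ▸ h4
  have hx := (L.e a).map_target hz
  have ct : Tendsto (L.e a).symm (𝓝 z0) (𝓝 ((L.e a).symm z0)) := (L.e a).continuousAt_symm hz
  by_cases h : (L.e a).symm z0 ∈ (L.e b).source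
  · have h1 : ContDiffAt ℝ 3 (L.e b ∘ (L.e a).symm) z0 := by
      have := M.hol _ (L.mem a) _ (L.mem b) _ hx h
      rw [(L.e a).right_inv hz] at this
      exact this.contDiffAt.restrict_scalars ℝ
    obtain ⟨ρ, hρ, hb⟩ := nhds_basis_closedBall.eventually_iff.1 ((h1.eventually (by simp)).and
      ((ct.eventually ((L.e b).open_source.mem_nhds h)).and (isOpen_ball.mem_nhds h4)))
    obtain ⟨C1, c1, l1, k1⟩ := hol2_comp (isCompact_closedBall z0 ρ) (convex_closedBall z0 ρ)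
      fun z hz => (hb hz).1
    refine ⟨ρ, hρ, C1, fun w _ l hl => ?_⟩
    subst hl
    obtain ⟨k, hk⟩ := one (w := w) L l (convex_ball z0 ρ).isPreconnected
      (fun z hz => (hb (ball_subset_closedBall hz)).2.2)
      (fun z hz => (hb (ball_subset_closedBall hz)).2.1) (mem_ball_self hρ)
    exact ⟨fun t ht B hB => (((hB k).comp (by linarith) c1 (mapsTo_univ _ _) l1).subset
      ball_subset_closedBall).congr hk,
      fun B hB => ((k1 _ B (hB k)).subset ball_subset_closedBall).congr isOpen_ball hk⟩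
  · have h1 : (L.e a).symm z0 ∈ ((L.e b).symm '' K)ᶜ := by
      rintro ⟨k, hk, h'⟩
      exact h (h' ▸ (L.e b).map_target (hK hk))
    obtain ⟨ρ, hρ, hb⟩ := Metric.eventually_nhds_iff_ball.1
      ((ct.eventually (hc.isOpen_compl.mem_nhds h1)).and (isOpen_ball.mem_nhds h4))
    refine ⟨ρ, hρ, 0, fun w hw l hl => ?_⟩
    have hr : ∀ z ∈ ball z0 ρ, exT S b w ((S.c l).symm z) = 0 := fun z hz =>
      zero L hw (by rw [L.pr l z (hb z hz).2, hl]; exact (hb z hz).1)
    exact ⟨fun t _ B _ => (HolT.zero (by simp)).congr hr,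
      fun B _ => (Hol2.const 0 (by simp)).congr isOpen_ball hr⟩

end Ext

open Ext in
theorem extY : ExtS := by
  intro ι X Y _ _ _ _ _ _ _ M H p N g S r hp L hr b K hK hK4
  have hKe : K ⊆ (L.e b).target := L.tgt b ▸ hK4
  have hc : IsClosed ((L.e b).symm '' K) :=
    (hK.image_of_continuousOn ((L.e b).continuousOn_symm.mono hKe)).isClosed
  have h1 : ∀ a, ∃ c, Q S b K a (ball 0 (2 * r)) c := fun a => by
    obtain ⟨δ, hδ, c, -, h⟩ := HS.Ext.unif (isCompact_closedBall (0 : V ι) (2 * r))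
      (Q S b K a) (fun _ _ _ _ => Q.mono) fun z hz => loc L hKe hc a
        (closedBall_subset_ball (by linarith [hr.2.1]) hz)
    refine ⟨(1 + 2 / √δ) * c, fun w hw l hl => ⟨fun t ht B hB => ?_, fun B hB => ?_⟩⟩
    · rw [mul_assoc]
      exact HS.Ext.glueT ht hδ fun z hz => (h z (ball_subset_closedBall hz) w hw l hl).1 t ht B hB
    · rw [mul_assoc]
      exact HS.Ext.glue2 hδ fun z hz => (h z (ball_subset_closedBall hz) w hw l hl).2 B hB
  choose c hc' using h1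
  obtain ⟨c0, h0⟩ := Finite.exists_le c
  have h2 : ∀ a, Q S b K a (ball 0 (2 * r)) (max c0 0) := fun a =>
    (hc' a).mono Subset.rfl ((h0 a).trans (le_max_left _ _))
  refine ⟨max c0 0, le_max_right _ _, fun w hw => ⟨fun k hk y hy => val hk hy, fun y hy => ?_,
    fun t ht B hB l => (h2 _ w hw l rfl).1 t ht B hB, fun B hB l => (h2 _ w hw l rfl).2 B hB⟩⟩
  have h3 : p y ∈ ((L.e b).symm '' K)ᶜ := by
    rintro ⟨z, hz, e⟩
    obtain ⟨k, k1, k2⟩ := L.on b y (e ▸ (L.e b).map_target (hKe hz))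
    exact hy k k1 k2
  filter_upwards [hp.continuousAt.eventually (hc.isOpen_compl.mem_nhds h3)] with x hx
  exact zero L hw hx

end Pool.Agent.Lib.MP_813db1_ag.NS
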