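import Pool.Agent.Lib.MP_813db1_ag.NS.Bs

/-! Fibre sums over a chart are finite sums over sheets. -/

namespace Pool.Agent.Lib.MP_813db1_ag.NS

open Pool.Agent.Lib.MP_813db1_ag.HS Pool.Agent.Lib.MP_813db1_ag.AS Pool.Agent.Lib.MP_813db1_ag.AN
open Set Metric

namespace Fib

variable {Y G : Type} [Group G] [MulAction G Y] {P : Subgroup G}

theorem out_mk {F : Y → ℝ} (hF : ∀ n ∈ P, ∀ y, F (n • y) = F y) (γ : G) (y : Y) :
    F ((Quotient.out (γ : G ⧸ P))⁻¹ • y) = F (γ⁻¹ • y) := by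
  obtain ⟨n, hn⟩ := QuotientGroup.mk_out_eq_mul P γ
  rw [hn, mul_inv_rev, mul_smul, hF _ (inv_mem n.2)]

theorem reindex {F : Y → ℝ} (hF : ∀ n ∈ P, ∀ y, F (n • y) = F y) (h : G) (y : Y) :
    ∑ᶠ q : G ⧸ P, F ((Quotient.out q)⁻¹ • h • y) = ∑ᶠ q : G ⧸ P, F ((Quotient.out q)⁻¹ • y) := by
  rw [← finsum_comp_equiv (MulAction.toPerm h⁻¹ : G ⧸ P ≃ G ⧸ P)
    (f := fun q : G ⧸ P => F ((Quotient.out q)⁻¹ • y))]
  refine finsum_congr fun q => ?_
  have : (MulAction.toPerm h⁻¹ : G ⧸ P ≃ G ⧸ P) q = ((h⁻¹ * Quotient.out q : G) : G ⧸ P) :=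
    (MulAction.Quotient.mk_smul_out P h⁻¹ q).symm
  rw [this, out_mk hF, mul_inv_rev, inv_inv, mul_smul]

variable [PseudoMetricSpace Y]

theorem fin (h : Prp G Y) (P : Subgroup G) (z y₀ : Y) (R D : ℝ) :
    {q : G ⧸ P | ∃ y, dist y y₀ ≤ D ∧ (Quotient.out q)⁻¹ • y ∈ Nb P z R}.Finite := by
  refine ((h.fin y₀ (dist y₀ z + R + D)).image fun γ => ((γ⁻¹ : G) : G ⧸ P)).subset ?_
  rintro q ⟨y, hy, n, hn, hd⟩
  refine ⟨n * (Quotient.out q)⁻¹, ?_, ?_⟩
  · have h1 := dist_triangle4 y₀ z ((n * (Quotient.out q)⁻¹) • y) ((n * (Quotient.out q)⁻¹) • y₀)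
    rw [h.iso] at h1
    rw [← mul_smul] at hd
    exact h1.trans_lt (by linarith)
  · change (((n * (Quotient.out q)⁻¹)⁻¹ : G) : G ⧸ P) = q
    rw [mul_inv_rev, inv_inv, QuotientGroup.mk_mul_of_mem _ (inv_mem hn)]
    exact QuotientGroup.out_eq' q

end Fib

open Fib in
theorem fibS : FibS := by
  intro ι X Y G _ _ _ _ _ _ M H p s N g S l hc hs hp ha P z R
  classical
  refine ⟨fun x => (fin hp P z (s x) R 0).subset fun q hq => ⟨s x, (dist_self _).le, hq⟩,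
    fun b => ?_⟩
  obtain ⟨k, rfl⟩ := S.onto b
  have h34 : closedBall (0 : V ι) 3 ⊆ ball 0 4 := closedBall_subset_ball (by norm_num)
  obtain ⟨D, hD⟩ := ((isCompact_closedBall (0 : V ι) 3).image_of_continuousOn
    ((S.c k).continuousOn_symm.mono (S.tgt k ▸ h34))).isBounded.subset_closedBall z
  choose κ hκ using fun q : G ⧸ P => ha.mv (Quotient.out q)⁻¹ k
  have hi : Function.Injective κ := fun q q' e => by
    have h0 : (0 : V ι) ∈ ball (0 : V ι) 4 := mem_ball_self (by norm_num)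
    have h1 := ((hκ q).2 0 h0).trans (e ▸ ((hκ q').2 0 h0).symm)
    obtain ⟨U, hU, h2⟩ := hc.disjoint ((S.c k).symm 0)
    have h3 := h2 (Quotient.out q' * (Quotient.out q)⁻¹) ⟨_, ⟨_, mem_of_mem_nhds hU, by
      simp only [mul_smul, h1, smul_inv_smul]⟩, mem_of_mem_nhds hU⟩
    exact Quotient.out_injective (mul_inv_eq_one.1 h3).symm
  refine ⟨(fin hp P z z R D).toFinset.image κ, fun j hj => ?_, fun F hF hR w hw => ?_⟩
  · obtain ⟨q, -, rfl⟩ := Finset.mem_image.1 hj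
    exact (hκ q).1
  · have h4 := h34 (ball_subset_closedBall hw)
    obtain ⟨h, hh⟩ := hc.apply_eq_iff_mem_orbit.1 ((hs _).trans (l.pr k w h4).symm)
    rw [Finset.sum_image fun _ _ _ _ e => hi e, fs, ← hh, reindex hF,
      finsum_eq_sum_of_support_subset (s := (fin hp P z z R D).toFinset) _ fun q hq => by
        rw [Finite.coe_toFinset]
        exact ⟨_, hD ⟨w, ball_subset_closedBall hw, rfl⟩, hR _ hq⟩]
    exact Finset.sum_congr rfl fun q _ => by rw [(hκ q).2 w h4]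

end Pool.Agent.Lib.MP_813db1_ag.NS
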