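import Pool.Agent.Lib.MP_813db1_ag.NS.Bs
import Pool.Agent.Lib.MP_813db1_ag.HS.AYAll

/-! The global parametrix on the covering space. -/

namespace Pool.Agent.Lib.MP_813db1_ag.NS

open Pool.Agent.Lib.MP_813db1_ag.HS Pool.Agent.Lib.MP_813db1_ag.AN
open Complex Matrix Filter Topology Set Metric
open scoped ComplexOrder ContDiff

namespace Par

variable {ι Y : Type} [Fintype ι] [DecidableEq ι] [TopologicalSpace Y] {N : Atl ι Y}
  {g : Y → Mat ι} {S : St N g}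

omit [DecidableEq ι] in
theorem unif {κ : Type} [Fintype κ] (G : κ → V ι → Mat ι) (h : ∀ b, SmM (G b) (ball 0 5)) :
    ∃ L ≥ (0 : ℝ), ∀ b, HolM L (G b) (ball 0 2) := by
  have k : ∀ q : κ × ι × ι, ∃ M ≥ (1 : ℝ), Hol M (fun z => G q.1 z q.2.1 q.2.2) (closedBall 0 2) :=
    fun q => hol_of_c1 (isCompact_closedBall _ _) (convex_closedBall _ _) fun z hz =>
      (h q.1 z (closedBall_subset_ball (by norm_num) hz) _ _).of_le (by simp)
  choose M M1 M2 using k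
  have M0 : ∀ q ∈ Finset.univ, 0 ≤ M q := fun q _ => zero_le_one.trans (M1 q)
  exact ⟨∑ q, M q, Finset.sum_nonneg M0, fun b i j => ((M2 (b, i, j)).subset
    ball_subset_closedBall).mono (Finset.single_le_sum M0 (Finset.mem_univ _))⟩

/-- one ellipticity constant for all sheets. -/
theorem ell (S : St N g) : ∃ L ≥ (0 : ℝ), ∀ b, HolM L (S.H b) (ball 0 2) ∧
    HolM L (fun z => (S.H b z)⁻¹) (ball 0 2) := by
  obtain ⟨A, A0, hA⟩ := unif S.H fun b => (S.kon b).1.1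
  obtain ⟨B, -, hB⟩ := unif (fun b z => (S.H b z)⁻¹) fun b =>
    (S.kon b).1.1.inv fun z hz => ((S.kon b).2 z hz).det_pos.ne'
  exact ⟨max A B, A0.trans (le_max_left _ _), fun b => ⟨fun i j => (hA b i j).mono (le_max_left _ _),
    fun i j => (hB b i j).mono (le_max_right _ _)⟩⟩

theorem ex_pos {b : Fin S.n} {k : S.κ} {y : Y} (hk : S.ty k = b) (hy : y ∈ (S.c k).source)
    (w : S.κ → V ι → ℂ) : exT S b w y = w k (S.c k y) := by
  have h : ∃ k, S.ty k = b ∧ y ∈ (S.c k).source := ⟨k, hk, hy⟩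
  rw [exT, dif_pos h, S.dis _ k y (h.choose_spec.1.trans hk.symm) h.choose_spec.2 hy]

theorem ex_neg {b : Fin S.n} {y : Y} (h : ¬∃ k, S.ty k = b ∧ y ∈ (S.c k).source)
    (w : S.κ → V ι → ℂ) : exT S b w y = 0 := dif_neg h

/-- the operator on a sheet. -/
theorem box_sh {k : S.κ} {y : Y} (hy : y ∈ (S.c k).source) {σ : Y → ℂ} {w : V ι → ℂ}
    (hw : ContDiffAt ℝ 2 w (S.c k y)) (e : ∀ x ∈ (S.c k).source, σ x = w (S.c k x)) :
    N.box 0 g σ y = boxL 0 (S.H (S.ty k)) w (S.c k y) := by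
  have h1 : N.rep 0 σ (S.c k) =ᶠ[𝓝 (S.c k y)] w := by
    filter_upwards [(S.c k).open_target.mem_nhds ((S.c k).map_source hy)] with z hz
    simp only [rep_fun, e _ ((S.c k).map_target hz), (S.c k).right_inv hz]
  have h2 := (AY.repB' ι Y N).box_rep 0 g σ S.kg _ (S.mem k) y hy (hw.congr_of_eventuallyEq h1)
  rw [boxL_congr h1, rep_fun] at h2
  simp only [(S.c k).left_inv hy] at h2
  rw [h2]
  simp only [boxL, lapL, Nat.cast_zero, zero_mul,
    S.rep_g k _ (S.tgt k ▸ (S.c k).map_source hy)]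

/-- the local identities, extended by zero. -/
theorem box_ex {b : Fin S.n} {w F E : S.κ → V ι → ℂ} {c : ℂ} (hw : ∀ k z, ContDiffAt ℝ 2 (w k) z)
    (h2 : ∀ y, (∀ k, S.ty k = b → y ∉ (S.c k).source) → ∀ᶠ x in 𝓝 y, exT S b w x = 0)
    (h3 : ∀ k z, c * w k z - boxL 0 (S.H b) (w k) z = F k z - E k z) (y : Y) :
    c * exT S b w y - N.box 0 g (exT S b w) y = exT S b F y - exT S b E y := by
  by_cases h : ∃ k, S.ty k = b ∧ y ∈ (S.c k).source
  · obtain ⟨k, hk, hy⟩ := h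
    rw [box_sh hy (hw k _) fun x hx => ex_pos hk hx w, ex_pos hk hy, ex_pos hk hy, ex_pos hk hy, hk,
      h3]
  · rw [box_congr (τ := fun _ => 0) (h2 y fun k hk hy => h ⟨k, hk, hy⟩), box_zero', ex_neg h,
      ex_neg h, ex_neg h]
    simp

theorem cks {r B : ℝ} {σ : Y → ℂ} (hr : Rad S r) (h : S2 S (2 * r) B σ) : N.CkS 2 0 σ :=
  (AY.repA' ι Y N).ckS_loc 2 0 σ fun y => by
    obtain ⟨k, h1, h2⟩ := hr.2.2 y
    refine ⟨S.c k, S.mem k, h1, ?_⟩
    rw [rep_fun]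
    exact (h k).1 _ (mem_ball_zero_iff.2 (by linarith [hr.1]))

end Par

open Par in
theorem parS : ParS := by
  intro ι Y _ _ _ N g S r hr he hp
  obtain ⟨L, L0, hL⟩ := ell S
  obtain ⟨ρ0, h0, t0, ht0, hl⟩ := locS AY.pertS ι L
  obtain ⟨T, ρ, c, r0, r1, hc, hT, hp⟩ := hp ρ0 h0
  have s2 : ball (0 : V ι) (2 * r) ⊆ ball 0 2 := ball_subset_ball (by linarith [hr.2.1])
  have h1 := fun q : Fin S.n × V ι => hl q.2 ρ r0 r1
  choose C1 C0 h1 using h1
  have h2 := fun (q : Fin S.n × V ι) (hq : q ∈ T) => he q.1 _ (isCompact_closedBall q.2 ρ)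
    (((hT q hq).trans s2).trans (ball_subset_ball (by norm_num)))
  choose! K0 K1 h2 using h2
  refine ⟨t0, ht0, ∑ q ∈ T, K0 q * (C1 q * c),
    Finset.sum_nonneg fun q hq => mul_nonneg (K1 q hq) (mul_nonneg (C0 q) hc),
    fun t ht f B hB0 hf => ?_⟩
  have t1 : 1 ≤ t := ht0.trans ht
  obtain ⟨F, F1, F2, F3⟩ := hp t B f t1 hB0 hf
  have h3 := fun (q : Fin S.n × V ι) (k : S.κ) (hq : q ∈ T) =>
    h1 q 0 (S.H q.1) _ ((hT q hq).trans s2)
      (fun z hz => (S.kon q.1).2 z (ball_subset_ball (by norm_num) hz)) (hL q.1).1 (hL q.1).2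
      (fun i => (Hol.const 0 (by simpa using L0)).congr fun z _ => by simp)
      t ht (F q k) _ (F1 q hq k) (F2 q k)
  choose! w E w1 E1 w0 hw using h3
  have k0 := fun q hq => h2 q hq (w q) fun k z hz => (w0 q k hq z hz).1
  have k1 : ∀ q ∈ T, S2 S (2 * r) (K0 q * (C1 q * (c * B))) (exT S q.1 (w q)) :=
    fun q hq => (k0 q hq).2.2.2 _ fun k => w1 q k hq
  have k2 : ∀ q ∈ T, ST S (2 * r) t (K0 q * (C1 q * (c * B) / t ^ 2)) (exT S q.1 (E q)) :=
    fun q hq => (h2 q hq (E q) fun k z hz => (w0 q k hq z hz).2).2.2.1 t t1 _ fun k => E1 q k hq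
  refine ⟨fun y => ∑ q ∈ T, exT S q.1 (w q) y, fun y => ∑ q ∈ T, exT S q.1 (E q) y,
    fun k => (Hol2.sum T fun q hq => k1 q hq k).mono (le_of_eq ?_),
    fun k => (HolT.sum T (by linarith) fun q hq => k2 q hq k).mono (le_of_eq ?_), fun y => ?_⟩
  · rw [Finset.sum_mul]
    exact Finset.sum_congr rfl fun q _ => by ring
  · rw [Finset.sum_mul, Finset.sum_div]
    exact Finset.sum_congr rfl fun q _ => by ring
  · rw [(box_sum T fun q hq => cks hr (k1 q hq)).2, ← F3, Finset.mul_sum, ← Finset.sum_sub_distrib,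
      ← Finset.sum_sub_distrib]
    exact Finset.sum_congr rfl fun q hq => box_ex (fun k z => (w1 q k hq).1 z trivial)
      (k0 q hq).2.1 (fun k => hw q k hq) y

end Pool.Agent.Lib.MP_813db1_ag.NS
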