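import Pool.Agent.Lib.MP_813db1_ag.NS.Bs
import Pool.Agent.Lib.MP_813db1_ag.HS.LinE

/-! Decomposition of a function on the covering space into pieces with small support. -/

namespace Pool.Agent.Lib.MP_813db1_ag.NS

open Pool.Agent.Lib.MP_813db1_ag.HS Pool.Agent.Lib.MP_813db1_ag.AN
open Complex Matrix Filter Topology Set Metric
open scoped ComplexOrder ContDiff

namespace PartA

variable {ι Y : Type} [Fintype ι] [DecidableEq ι] [TopologicalSpace Y] {N : Atl ι Y}
  {g : Y → Mat ι} (S : St N g)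

theorem exT_pos {b : Fin S.n} {k : S.κ} {y : Y} (hk : S.ty k = b) (hy : y ∈ (S.c k).source)
    (w : S.κ → V ι → ℂ) : exT S b w y = w k (S.c k y) := by
  have h : ∃ k, S.ty k = b ∧ y ∈ (S.c k).source := ⟨k, hk, hy⟩
  rw [exT, dif_pos h, S.dis _ k y (h.choose_spec.1.trans hk.symm) h.choose_spec.2 hy]

theorem exT_neg {b : Fin S.n} {y : Y} (h : ¬ ∃ k, S.ty k = b ∧ y ∈ (S.c k).source)
    (w : S.κ → V ι → ℂ) : exT S b w y = 0 := dif_neg h

end PartA

open PartA in
theorem partS : PartS := by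
  intro ι Y _ _ _ N g S r ⟨r0, r1, hr⟩ he ρ0 h0
  let ρ : ℝ := min ρ0 (r / 2)
  have hρ : 0 < ρ := lt_min h0 (half_pos r0)
  obtain ⟨s, s1, s2, s3⟩ : ∃ s ⊆ closedBall (0 : V ι) r, s.Finite ∧
      closedBall (0 : V ι) r ⊆ ⋃ x ∈ s, ball x (ρ / 4) :=
    finite_cover_balls_of_compact (isCompact_closedBall _ _) (by linarith)
  let T : Finset (Fin S.n × V ι) := Finset.univ ×ˢ s2.toFinset
  have hT : ∀ q ∈ T, closedBall q.2 ρ ⊆ ball 0 (2 * r) := by
    intro q hq
    have h1 : q.2 ∈ s := by simpa [T] using hq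
    have h2 := mem_closedBall.1 (s1 h1)
    have h3 : ρ ≤ r / 2 := min_le_right _ _
    exact closedBall_subset_ball' (by linarith)
  let β : ∀ p : V ι, ContDiffBump p := fun p => ⟨ρ / 4, ρ / 2, by linarith, by linarith⟩
  let φ : V ι → V ι → ℂ := fun p z => ((β p z : ℝ) : ℂ)
  have φ0 : ∀ p, ∀ z ∉ closedBall p (ρ / 2), φ p z = 0 := by
    intro p z hz
    have : β p z = 0 := (β p).zero_of_le_dist (le_of_lt (not_le.1 fun h => hz (mem_closedBall.2 h)))
    simp [φ, this]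
  have φ1 : ∀ p, ∀ z ∉ closedBall p ρ, φ p z = 0 := fun p z hz =>
    φ0 p z fun h => hz (closedBall_subset_closedBall (by linarith) h)
  have hL : ∀ p, ∃ L ≥ (1 : ℝ), Hol L (φ p) univ := fun p =>
    hol_of_supp (ofRealCLM.contDiff.comp (β p).contDiff)
      ((β p).hasCompactSupport.comp_left (g := fun r : ℝ => (r : ℂ)) ofReal_zero)
  choose L L1 L2 using hL
  have L0 : ∀ q ∈ T, 0 ≤ L q.2 := fun q _ => zero_le_one.trans (L1 _)
  let A : Y → ℂ := fun y => ∑ q ∈ T, exT S q.1 (fun _ => φ q.2) y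
  obtain ⟨BS, hS⟩ : ∃ B, ST S (2 * r) 1 B A := by
    have : ∀ q ∈ T, ∃ D, ST S (2 * r) 1 D (exT S q.1 fun _ => φ q.2) := by
      intro q hq
      obtain ⟨K0, -, hK⟩ := he q.1 _ (isCompact_closedBall q.2 ρ)
        ((hT q hq).trans (ball_subset_ball (by linarith)))
      exact ⟨_, (hK (fun _ => φ q.2) fun _ => φ1 q.2).2.2.1 1 le_rfl _ fun _ => hol_iff.1 (L2 q.2)⟩
    choose! D hD using this
    exact ⟨_, fun k => HolT.sum T zero_le_one fun q hq => hD q hq k⟩
  have S1 : ∀ y, 1 ≤ ‖A y‖ := by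
    intro y
    obtain ⟨k, x1, x2⟩ := hr y
    obtain ⟨z, z1, z2⟩ := mem_iUnion₂.1 (s3 (mem_closedBall_zero_iff.2 x2.le))
    have hp : (S.ty k, z) ∈ T := by simpa [T] using z1
    refine le_trans ?_ (re_le_norm _)
    rw [re_sum]
    refine le_trans ?_ (Finset.single_le_sum (fun q _ => ?_) hp)
    · have : β z (S.c k y) = 1 := (β z).one_of_mem_closedBall (ball_subset_closedBall z2)
      rw [exT_pos S rfl x1]
      simp [φ, this]
    · by_cases hx : ∃ k, S.ty k = q.1 ∧ y ∈ (S.c k).source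
      · obtain ⟨l, l1, l2⟩ := hx
        rw [exT_pos S l1 l2]
        simpa [φ] using (β q.2).nonneg
      · rw [exT_neg S hx]
        simp
  have hI : ∀ k, Hol (max BS 1) (fun z => (A ((S.c k).symm z))⁻¹) (ball 0 (2 * r)) :=
    fun k => LinE.hol_inv (hol_iff.2 (hS k)) fun z _ => S1 _
  have hs := Finset.sum_nonneg L0
  refine ⟨T, ρ, 4 * (∑ q ∈ T, L q.2) * max BS 1, hρ, min_le_left _ _, by positivity, hT,
    fun t B f ht hB hf => ⟨fun q k z => φ q.2 z * ((A ((S.c k).symm z))⁻¹ * f ((S.c k).symm z)),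
      fun q hq k => ?_, fun q k z hz => by simp only [φ0 q.2 z hz, zero_mul], fun y => ?_⟩⟩
  · exact (((hf k).mul ht (hI k)).mul' ht ((L2 q.2).mono (Finset.single_le_sum L0 hq))
      (by positivity) fun z _ hz => φ1 q.2 z fun h => hz (hT q hq h)).mono (le_of_eq (by ring))
  · have hx : A y ≠ 0 := norm_pos_iff.1 (by linarith [S1 y])
    have : ∀ q ∈ T, exT S q.1 (fun k z => φ q.2 z * ((A ((S.c k).symm z))⁻¹ *
        f ((S.c k).symm z))) y = exT S q.1 (fun _ => φ q.2) y * ((A y)⁻¹ * f y) := by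
      intro q _
      by_cases hp : ∃ k, S.ty k = q.1 ∧ y ∈ (S.c k).source
      · obtain ⟨l, l1, l2⟩ := hp
        rw [exT_pos S l1 l2, exT_pos S l1 l2, (S.c l).left_inv l2]
      · rw [exT_neg S hp, exT_neg S hp, zero_mul]
    rw [Finset.sum_congr rfl this, ← Finset.sum_mul]
    exact mul_inv_cancel_left₀ hx _

end Pool.Agent.Lib.MP_813db1_ag.NS
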