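import Pool.Agent.Lib.MP_813db1_ag.NS.Bs
import Pool.Agent.Lib.MP_813db1_ag.HS.AYAll

/-! The resolvent on bounded functions of a covering space. -/

namespace Pool.Agent.Lib.MP_813db1_ag.NS

open Pool.Agent.Lib.MP_813db1_ag.HS Pool.Agent.Lib.MP_813db1_ag.AN
open Complex Matrix Filter Topology Set Metric
open scoped ContDiff ComplexOrder

namespace Res

variable {ι Y : Type} [Fintype ι] [DecidableEq ι] [TopologicalSpace Y] {N : Atl ι Y}
  {g : Y → Mat ι} {S : St N g} {r R t B B' : ℝ} {σ τ : Y → ℂ}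

theorem st_mono (h : ST S R t B σ) (hB : B ≤ B') : ST S R t B' σ := fun k => (h k).mono hB

theorem s2_mono (h : S2 S R B σ) (hB : B ≤ B') : S2 S R B' σ := fun k => (h k).mono hB

theorem st_congr (h : ST S R t B σ) (e : ∀ x, τ x = σ x) : ST S R t B τ := funext e ▸ h

theorem s2_congr (h : S2 S R B σ) (e : ∀ x, τ x = σ x) : S2 S R B τ := funext e ▸ h

theorem s2_add (h : S2 S R B σ) (h' : S2 S R B' τ) : S2 S R (B + B') fun x => σ x + τ x :=
  fun k => (h k).add (h' k)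

theorem s2_zero (hB : 0 ≤ B) : S2 S R B fun _ => 0 :=
  fun _ => Hol2.const 0 (by simpa using hB)

theorem pt (hr : Rad S r) (y : Y) :
    ∃ k, y ∈ (S.c k).source ∧ S.c k y ∈ ball (0 : V ι) (2 * r) := by
  obtain ⟨k, h1, h2⟩ := hr.2.2 y
  exact ⟨k, h1, mem_ball_zero_iff.2 (by linarith [hr.1])⟩

theorem sub4 (hr : Rad S r) : ball (0 : V ι) (2 * r) ⊆ ball 0 4 :=
  ball_subset_ball (by linarith [hr.2.1])

theorem bd (hr : Rad S r) (h : ∀ k, Hol B (fun z => σ ((S.c k).symm z)) (ball 0 (2 * r)))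
    (y : Y) : ‖σ y‖ ≤ B := by
  obtain ⟨k, h1, h2⟩ := pt hr y
  simpa only [(S.c k).left_inv h1] using (h k).1 _ h2

theorem s2_bd (hr : Rad S r) (h : S2 S (2 * r) B σ) (y : Y) : ‖σ y‖ ≤ B :=
  bd hr (fun k => (h k).2.1) y

theorem s2_ck (hr : Rad S r) (h : S2 S (2 * r) B σ) : N.CkS 2 0 σ :=
  (AY.repA' ι Y N).ckS_loc 2 0 σ fun y => by
    obtain ⟨k, h1, h2⟩ := pt hr y
    exact ⟨S.c k, S.mem k, h1, rep_fun (M := N) σ _ ▸ (h k).1 _ h2⟩

theorem box_at {k : S.κ} {y : Y} (hy : y ∈ (S.c k).source)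
    (h : ContDiffAt ℝ 2 (fun z => σ ((S.c k).symm z)) (S.c k y)) :
    N.box 0 g σ y = boxL 0 (N.repF g (S.c k)) (fun z => σ ((S.c k).symm z)) (S.c k y) := by
  have e := (AY.repB' ι Y N).box_rep 0 g σ S.kg _ (S.mem k) y hy (rep_fun (M := N) σ _ ▸ h)
  rw [rep_fun, rep_fun] at e
  simpa only [(S.c k).left_inv hy] using e

theorem box_bd (hr : Rad S r) (y : Y) :
    ∃ c ≥ (0 : ℝ), ∀ σ B, S2 S (2 * r) B σ → ‖N.box 0 g σ y‖ ≤ c * B := by
  obtain ⟨k, h1, h2⟩ := pt hr y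
  obtain ⟨c, hc, q⟩ := boxL_bound 0 (N.repF g (S.c k)) (S.c k y)
  refine ⟨c, hc, fun σ B hσ => ?_⟩
  rw [box_at h1 ((hσ k).1 _ h2)]
  exact q _ B ((hσ k).1 _ h2) ((hσ k).2.2.1.1 _ h2) ((hσ k).2.2.2.1 _ h2)

/-- successive approximation. -/
theorem iter (hr : Rad S r) (Φ : (Y → ℂ) → Y → ℂ) {K B0 : ℝ} (ht : 1 ≤ t) (hK : 0 ≤ K)
    (hB : 0 ≤ B0) (h0 : ST S (2 * r) t B0 (Φ fun _ => 0))
    (hstep : ∀ v B, 0 ≤ B → S2 S (2 * r) (2 * K * B0) v → ST S (2 * r) t B (Φ v) →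
      ∃ w, S2 S (2 * r) (K * B) w ∧ ST S (2 * r) t (B / 2) (Φ fun x => v x + w x))
    (hcont : ∀ v x, S2 S (2 * r) (2 * K * B0) v → ∃ c : ℝ, ∀ v' δ, S2 S (2 * r) (2 * K * B0) v' →
      S2 S (2 * r) δ (fun y => v y - v' y) → ‖Φ v x - Φ v' x‖ ≤ c * δ) :
    ∃ v, S2 S (2 * r) (2 * K * B0) v ∧ ∀ x, Φ v x = 0 := by
  have hKB := mul_nonneg hK hB
  have hp : ∀ k : ℕ, (0 : ℝ) < (1 / 2) ^ k := fun k => by positivity
  let P : ℕ → (Y → ℂ) → Prop := fun k v =>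
    S2 S (2 * r) (2 * K * B0 * (1 - (1 / 2) ^ k)) v ∧ ST S (2 * r) t (B0 * (1 / 2) ^ k) (Φ v)
  have big : ∀ k v, P k v → S2 S (2 * r) (2 * K * B0) v := fun k v h =>
    s2_mono h.1 (by nlinarith [mul_nonneg hKB (hp k).le])
  have step : ∀ k v, P k v → ∃ v', P (k + 1) v' ∧
      S2 S (2 * r) (K * B0 * (1 / 2) ^ k) fun x => v' x - v x := fun k v h => by
    obtain ⟨w, w1, w2⟩ := hstep v _ (mul_nonneg hB (hp k).le) (big k v h) h.2
    exact ⟨fun x => v x + w x, ⟨s2_mono (s2_add h.1 w1) (le_of_eq (by ring)),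
      st_mono w2 (le_of_eq (by ring))⟩,
      s2_mono (s2_congr w1 fun x => by ring) (le_of_eq (by ring))⟩
  have p0 : P 0 fun _ => 0 := ⟨s2_zero (by simp), by simpa using h0⟩
  choose! nx hn1 hn2 using step
  let A : ℕ → Y → ℂ := fun k => Nat.rec (fun _ => 0) nx k
  have hS : ∀ k, P k (A k) := fun k => by
    induction k with
    | zero => exact p0
    | succ k ih => exact hn1 k _ ih
  have hd : ∀ k n, S2 S (2 * r) (2 * K * B0 * ((1 / 2) ^ k - (1 / 2) ^ (k + n)))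
      fun x => A (k + n) x - A k x := fun k n => by
    induction n with
    | zero => exact s2_congr (s2_zero (by simp)) fun x => sub_self _
    | succ n ih =>
      exact s2_mono (s2_congr (s2_add ih (hn2 (k + n) _ (hS (k + n)))) fun x => by
        change nx (k + n) (A (k + n)) x - A k x = _
        ring) (le_of_eq (by ring))
  have hd' : ∀ k j, k ≤ j → S2 S (2 * r) (2 * K * B0 * (1 / 2) ^ k) fun x => A j x - A k x :=
    fun k j h => by
      obtain ⟨n, rfl⟩ := Nat.exists_eq_add_of_le h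
      exact s2_mono (hd k n) (by nlinarith [mul_nonneg hKB (hp (k + n)).le])
  have lim : ∀ c : ℝ, Tendsto (fun k : ℕ => c * (1 / 2 : ℝ) ^ k) atTop (𝓝 0) := fun c => by
    simpa using (tendsto_pow_atTop_nhds_zero_of_lt_one (r := (1 / 2 : ℝ)) (by norm_num)
      (by norm_num)).const_mul c
  have ca : ∀ x, ∃ y, Tendsto (fun k => A k x) atTop (𝓝 y) := fun x => by
    refine cauchySeq_tendsto_of_complete (cauchySeq_of_le_tendsto_0'
      (fun k => (2 * K * B0) * (1 / 2 : ℝ) ^ k) (fun k j h => ?_) (lim _))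
    rw [dist_comm, dist_eq_norm]
    exact s2_bd hr (hd' k j h) x
  choose G hG using ca
  have key : ∀ k, S2 S (2 * r) (2 * K * B0 * (1 / 2) ^ k) fun x => G x - A k x := fun k b =>
    (cau.lim ι _ (fun k z => A k ((S.c b).symm z)) (fun z => G ((S.c b).symm z)) _ isOpen_ball
      (lim _) (fun k => (big k _ (hS k) b).1) (fun k j h => hd' k j h b) fun z _ => hG _).2 k
  have hG2 : S2 S (2 * r) (2 * K * B0) G :=
    s2_mono (s2_congr (key 0) fun x => (sub_zero _).symm) (by simp)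
  refine ⟨G, hG2, fun x => norm_le_zero_iff.1 ?_⟩
  obtain ⟨c, k1⟩ := hcont G x hG2
  refine ge_of_tendsto' (lim (c * (2 * K * B0) + B0)) fun k => ?_
  have a1 := k1 _ _ (big k _ (hS k)) (key k)
  have a2 := bd hr (fun b => ((hS k).2 b).hol ht) x
  have a3 := norm_add_le (Φ G x - Φ (A k) x) (Φ (A k) x)
  rw [sub_add_cancel] at a3
  linarith

/-- solvability in the Hoelder class. -/
theorem solve (hr : Rad S r) (hp : ParY S r) : ∃ t0 ≥ (1 : ℝ), ∀ t ≥ t0, ∃ K ≥ (0 : ℝ), ∀ f B,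
    0 ≤ B → ST S (2 * r) 1 B f → ∃ v, S2 S (2 * r) (K * B) v ∧
      ∀ y, (t : ℂ) ^ 4 * v y - N.box 0 g v y = f y := by
  obtain ⟨t0, ht0, D, hD, hp⟩ := hp
  refine ⟨max t0 (2 * D), ht0.trans (le_max_left _ _), fun t ht => ?_⟩
  have tt : t0 ≤ t := (le_max_left _ _).trans ht
  have tD : 2 * D ≤ t := (le_max_right _ _).trans ht
  have t1 : 1 ≤ t := ht0.trans tt
  refine ⟨2 * D * t, by positivity, fun f B hB hf => ?_⟩
  have f1 : ST S (2 * r) t (t * B) f := fun k => (hol_iff.2 (hf k)).holT t1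
  obtain ⟨v, v1, v2⟩ := iter hr (fun v x => f x - ((t : ℂ) ^ 4 * v x - N.box 0 g v x)) t1 hD
    (by positivity) (st_congr f1 fun x => by simp [box_zero'])
    (fun v B' h0 hv hΦ => by
      obtain ⟨w, E, w1, E1, hw⟩ := hp t tt _ B' h0 hΦ
      refine ⟨w, w1, st_congr (st_mono E1 ?_) fun x => ?_⟩
      · rw [div_le_div_iff₀ (by positivity) two_pos]
        have : 2 * D ≤ t ^ 2 := by nlinarith
        nlinarith
      · rw [box_add (s2_ck hr hv) (s2_ck hr w1)]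
        linear_combination -hw x)
    (fun v x hv => by
      obtain ⟨c, -, h2⟩ := box_bd hr x
      refine ⟨c + t ^ 4, fun v' δ hv' hd => ?_⟩
      have e : f x - ((t : ℂ) ^ 4 * v x - N.box 0 g v x) -
          (f x - ((t : ℂ) ^ 4 * v' x - N.box 0 g v' x)) =
          N.box 0 g (fun y => v y - v' y) x - (t : ℂ) ^ 4 * (v x - v' x) := by
        rw [box_sub (s2_ck hr hv) (s2_ck hr hv')]
        ring
      have a2 := h2 _ _ hd
      have a5 := mul_le_mul_of_nonneg_left (s2_bd hr hd x) (by positivity : 0 ≤ t ^ 4)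
      change ‖_ - _‖ ≤ _
      rw [e]
      refine (norm_sub_le _ _).trans ?_
      rw [norm_mul, norm_pow, Complex.norm_real, Real.norm_of_nonneg (by linarith)]
      linarith)
  exact ⟨v, s2_mono v1 (le_of_eq (by ring)), fun x => (sub_eq_zero.1 (v2 x)).symm⟩

/-- smoothness of the solutions. -/
theorem smooth (hr : Rad S r) {c : ℂ} {v f : Y → ℂ} (hv : S2 S (2 * r) B v)
    (e : ∀ x, c * v x - N.box 0 g v x = f x) (hf : N.CkS ∞ 0 f) : N.CkS ∞ 0 v := by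
  refine (AY.repA' ι Y N).ckS_loc ⊤ 0 v fun x => ?_
  obtain ⟨b, h1, h2⟩ := pt hr x
  have s : ball (0 : V ι) (2 * r) ⊆ (S.c b).target := (sub4 hr).trans (S.tgt b).ge
  obtain ⟨⟨k1, k2, k3⟩, k4⟩ := S.kg _ (S.mem b)
  refine ⟨S.c b, S.mem b, h1, ?_⟩
  rw [rep_fun]
  refine regB AY.dqS hk AY.curvS' ι (ball 0 (2 * r)) 0 c (N.repF g (S.c b)) _
    (N.rep 0 f (S.c b)) isOpen_ball ⟨⟨fun z hz => k1 z (s hz), fun z hz => k2 z (s hz),
      fun z hz => k3 z (s hz)⟩, fun z hz => k4 z (s hz)⟩ (fun z hz => hf _ (S.mem b) z (s hz))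
    ((hk.two ι _ _ isOpen_ball).2 fun z hz => ?_) (fun z hz => ?_) _ h2
  · obtain ⟨ρ, h3, h4⟩ := Metric.isOpen_iff.1 isOpen_ball z hz
    exact ⟨ρ, h3, B, (hv b).subset h4⟩
  · obtain ⟨y, hy, rfl⟩ : ∃ y ∈ (S.c b).source, S.c b y = z :=
      ⟨_, (S.c b).map_target (s hz), (S.c b).right_inv (s hz)⟩
    rw [← box_at hy ((hv b).1 _ hz), rep_fun, (S.c b).left_inv hy, e]
    exact congrArg f ((S.c b).left_inv hy).symm

theorem ck_of {k : WithTop ℕ∞} (A : ℂ →L[ℝ] ℝ) (h : N.CkS k 0 σ) : N.Ck k fun y => A (σ y) :=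
  fun e he z hz => (ofRealCLM.comp A).contDiff.contDiffAt.comp z (rep_fun (M := N) σ e ▸ h e he z hz)

theorem cks_of {k : WithTop ℕ∞} {u : Y → ℝ} (h : N.Ck k u) : N.CkS k 0 fun y => (u y : ℂ) :=
  fun e he z hz => rep_real (M := N) u e ▸ h e he z hz

theorem box_re (hK : N.IsK g) (h : N.CkS 2 0 σ) (y : Y) :
    (N.box 0 g σ y).re = N.lap g (fun x => (σ x).re) y := by
  have h1 : N.Ck 2 fun x => (σ x).re := ck_of reCLM h
  have h2 : N.Ck 2 fun x => (σ x).im := ck_of imCLM h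
  have hy := (((AY.repA' ι Y N).isK_iff g).1 hK).2 y
  have e : N.box 0 g σ y =
      N.box 0 g (fun x => ((σ x).re : ℂ) + I * ((σ x).im : ℂ)) y := by
    congr 1
    funext x
    rw [mul_comm, re_add_im]
  rw [e, box_add (cks_of h1) (ckS_cmul I (cks_of h2)), box_cmul I (cks_of h2),
    (AY.repB' ι Y N).box_zero g _ y h1 hy.1, (AY.repB' ι Y N).box_zero g _ y h2 hy.1]
  simp

/-- the resolvent, with the second order bound. -/
theorem strong (hr : Rad S r) (hp : ParY S r) : ∃ l0 ≥ (1 : ℝ), ∀ lam ≥ l0, ∃ K ≥ (0 : ℝ),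
    ∀ (f : Y → ℝ) (B : ℝ), N.Ck ∞ f → ST S (2 * r) 1 B (fun y => (f y : ℂ)) → 0 ≤ B →
      ∃ v : Y → ℝ, N.Ck ∞ v ∧ S2 S (2 * r) (K * B) (fun y => (v y : ℂ)) ∧
        ∀ y, lam * v y - N.lap g v y = f y := by
  obtain ⟨t0, ht0, hs⟩ := solve hr hp
  refine ⟨t0 ^ 4, one_le_pow₀ ht0, fun lam hl => ?_⟩
  have l0 : 0 ≤ lam := le_trans (by positivity) hl
  have e4 : √(√lam) ^ 4 = lam := by
    rw [show (4 : ℕ) = 2 * 2 from rfl, pow_mul, Real.sq_sqrt (Real.sqrt_nonneg _), Real.sq_sqrt l0]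
  have tt : t0 ≤ √(√lam) :=
    le_of_pow_le_pow_left₀ (n := 4) (by norm_num) (Real.sqrt_nonneg _) (e4.symm ▸ hl)
  obtain ⟨K, hK, hs⟩ := hs _ tt
  refine ⟨K, hK, fun f B hf hB h0 => ?_⟩
  obtain ⟨v, v1, v2⟩ := hs _ B h0 hB
  refine ⟨fun y => (v y).re, ck_of reCLM (smooth hr v1 v2 (cks_of hf)), fun k => (v1 k).re,
    fun y => ?_⟩
  have e := congrArg re (v2 y)
  rw [← ofReal_pow, e4, sub_re, re_ofReal_mul, box_re S.kg (s2_ck hr v1), ofReal_re] at e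
  exact e

end Res

theorem resY : ResS := by
  intro ι Y _ _ _ N g S r hr hp
  obtain ⟨l0, -, hs⟩ := Res.strong hr hp
  refine ⟨l0, fun lam hl f B hf hB => ?_⟩
  obtain ⟨K, -, hs⟩ := hs lam hl
  obtain ⟨v, v1, v2, v3⟩ := hs f _ hf (Res.st_mono hB (le_max_left B 0)) (le_max_right _ _)
  exact ⟨v, v1, ⟨_, fun y => by simpa using Res.s2_bd hr v2 y⟩, v3⟩

end Pool.Agent.Lib.MP_813db1_ag.NS
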