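import Pool.Agent.Lib.MP_813db1_ag.NS.Bs2
import Pool.Agent.Lib.MP_813db1_ag.NS.Brr
import Pool.Agent.Lib.MP_813db1_ag.NS.Fib
import Pool.Agent.Lib.MP_813db1_ag.NS.BeL
import Pool.Agent.Lib.MP_813db1_ag.NS.BeS
import Pool.Agent.Lib.MP_813db1_ag.NS.Ext
import Pool.Agent.Lib.MP_813db1_ag.NS.Part
import Pool.Agent.Lib.MP_813db1_ag.NS.Par
import Pool.Agent.Lib.MP_813db1_ag.NS.Res
import Pool.Agent.Lib.MP_813db1_ag.NS.Bump2
import Pool.Agent.Lib.MP_813db1_ag.NS.Act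
import Pool.Agent.Lib.MP_813db1_ag.NS.CalY

/-! The covering space satisfies the rules of the abstract diffusion. -/

namespace Pool.Agent.Lib.MP_813db1_ag.NS

open Pool.Agent.Lib.MP_813db1_ag.HS Pool.Agent.Lib.MP_813db1_ag.AS Pool.Agent.Lib.MP_813db1_ag.AN
open Pool.Agent.Lib.MP_bbd4b9_ag Pool.Agent.Lib.MP_bbd4b9_ag.LC
open MeasureTheory Filter Topology Set Metric
open scoped ContDiff ComplexOrder

theorem axS {ι X Y G : Type} [Fintype ι] [DecidableEq ι]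
    [Nonempty ι] [TopologicalSpace X] [T2Space X] [CompactSpace X] [Nonempty X]
    [MeasurableSpace X] [BorelSpace X] [MetricSpace Y] [MeasurableSpace Y] [Group G]
    [MulAction G Y] {M : Atl ι X} {H : X → Mat ι} {c : X → X → ℝ} {a : X → X → G} {δ : ℝ}
    {p : Y → X} {γ : Y → G} [PseudoMetricSpace (Tot X G)] {N : Atl ι Y} {g : Y → Mat ι}
    {S : St N g} (B : Bx M H c a δ p γ) (l : Lk M H p S)
    (hd : ∀ y y', dist y y' = dist (Tot.mk (p y) (γ y)) (Tot.mk (p y') (γ y'))) (P : Prp G Y)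
    {μ : Measure X} (hμ : M.IsVol H μ) {s : X → Y} {ν : Measure Y} {F₀ : Set Y}
    (m : Msr G μ p s ν F₀) :
    (⟨N.Ck ∞, N.lap g, N.grad g, ν, F₀⟩ : Dif Y).Ax G (Fintype.card ι) := by
  obtain ⟨A, E, ri⟩ := actS ι X Y G M H p N g S B.cov B.isK l
  have C := calY ι Y N g S.kg
  have V := (AY.volS' ι X M H B.isK).2 μ hμ
  have cc : ∀ (Q : Subgroup G) (x : Y) r (f : Y → ℝ), Continuous f → Iv Q f → (∀ y ∉ Nh Q x r, f y = 0) →
      Cc Q f := fun Q x r f h1 h2 h3 => ⟨h1, h2, x, r, fun y hy => by_contra fun h => hy (h3 y h)⟩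
  refine ⟨Fintype.card_pos, m.cnt, P.iso, P.fin, C.s_add, C.s_mul, C.s_const, C.s_comp, C.s_L,
    C.s_Γ, E.ck, C.s_cont, C.Γ_comm, C.Γ_nn, C.Γ_add, C.Γ_mul, C.Γ_comp, E.grad, C.L_add, C.L_mul,
    C.L_comp, E.lap, C.max, beS beL ι Y N g S.kg (ri B.ric), ?_, bump2 ι Y G N g S P A E,
    fun x R Λ η hR hη => ?_, m.inv, m.meas, m.uniq, m.bd, ?_, fun Q x r f k hf hk jf jk h0 => ?_⟩
  · obtain ⟨r, hr⟩ := A.rad
    have e1 := extY ι X Y M H p N g S r B.cov.continuous l hr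
    obtain ⟨l0, h1⟩ := resY ι Y N g S r hr (parS ι Y N g S r hr e1 (partS ι Y N g S r hr e1))
    refine ⟨(max l0 1)⁻¹, by positivity, fun τ t0 t1 Q x R f hf jf h0 => ?_⟩
    have hf' : N.Ck ∞ fun y => τ⁻¹ * f y := C.s_mul _ _ (C.s_const _) hf
    obtain ⟨B', hB'⟩ := (bumpS ι Y G N g S P A E).2 Q _ (2 * r) (by linarith [hr.2.1]) hf'
      (cc Q x R _ (C.s_cont _ hf') (fun n hn y => by rw [jf n hn]) fun y hy => by
        rw [h0 y hy, mul_zero])
    obtain ⟨v, v1, v2, v3⟩ := h1 τ⁻¹ ((le_max_left _ _).trans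
      ((le_inv_comm₀ t0 (by positivity)).1 t1)) _ B' hf' hB'
    refine ⟨v, v1, v2, fun y => ?_⟩
    have := congrArg (τ * ·) (v3 y)
    simpa only [mul_sub, mul_inv_cancel_left₀ t0.ne'] using this
  · obtain ⟨ρ, h⟩ := brrS ι X Y G M H c a δ p γ N g S B l hd x R Λ η hR hη
    exact ⟨ρ, h.zero, h.mem, h.lsc, h.le, h.ge, fun u Φ y h1 h2 h3 h4 h5 =>
      h.test u Φ y h1 h2 h4 h3 h5⟩
  · have := V.fin
    have := V.pos
    rw [m.vol]
    exact ⟨isOpen_univ.measure_pos μ univ_nonempty, measure_lt_top _ _⟩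
  · have h1 := grnS fibS ι X Y G M H μ p s N g S l B.cov m.sec P A E B.isK hμ Q k f hk hf
      (cc Q x r k (C.s_cont _ hk) jk h0) jf
    rw [← m.int Q _ (cc Q x (r + 1) _ ?_ (fun n hn y => ?_) fun y hy => ?_)] at h1
    · simp only [C.Γ_comm f k] at h1
      exact h1
    · exact C.s_cont _ (C.s_add _ _ (C.s_mul _ _ hk (C.s_L _ hf)) (C.s_Γ _ _ hf hk))
    · rw [jk n hn, ← E.lap n f y hf, ← E.grad n f k y hf hk]
      simp only [jf n hn, jk n hn]
    · have e : k =ᶠ[𝓝 y] fun _ => 0 := by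
        filter_upwards [ball_mem_nhds y one_pos] with z hz
        refine h0 z fun ⟨n, hn, h⟩ => hy ⟨n, hn, ?_⟩
        have h2 := dist_triangle x (n • z) (n • y)
        rw [P.iso] at h2
        linarith [mem_ball.1 hz]
      exact Grn.ph_zero N g f e

end Pool.Agent.Lib.MP_813db1_ag.NS
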