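import Pool.Agent.Lib.MP_813db1_ag.NS.Bs
import Pool.Agent.Lib.MP_813db1_ag.AS.MetAll

/-! Barriers with both bounds for the gradient. -/

namespace Pool.Agent.Lib.MP_813db1_ag.NS

open Pool.Agent.Lib.MP_813db1_ag.HS Pool.Agent.Lib.MP_bbd4b9_ag Pool.Agent.Lib.MP_bbd4b9_ag.LC
open Complex Matrix Filter Topology Set Metric
open scoped ContDiff ComplexOrder

namespace BarUp

variable {ι : Type} [Fintype ι] [DecidableEq ι]

theorem dual (hd : DcS) {H : Mat ι} (hH : H.PosDef) (a : V ι) {B : ℝ} (hB : 0 ≤ B)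
    (h : ∀ ξ, ‖∑ i, a i * ξ i‖ ^ 2 ≤ B * nV H ξ) : (grL H a a).re ≤ B := by
  let ξ : V ι := fun i => ∑ j, H⁻¹ j i * star (a j)
  have e1 : ∑ i, a i * ξ i = grL H a a := by
    simp only [ξ, grL, Finset.mul_sum]
    exact Finset.sum_congr rfl fun i _ => Finset.sum_congr rfl fun j _ => by ring
  have e2 : ∀ j, ∑ i, H i j * ξ i = star (a j) := fun j => by
    have e : H⁻¹ * H = 1 := nonsing_inv_mul _ ((isUnit_iff_isUnit_det _).1 hH.isUnit)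
    calc ∑ i, H i j * ξ i = ∑ l, (H⁻¹ * H) l j * star (a l) := by
          simp only [ξ, Finset.mul_sum, Matrix.mul_apply, Finset.sum_mul]
          rw [Finset.sum_comm]
          exact Finset.sum_congr rfl fun i _ => Finset.sum_congr rfl fun j _ => by ring
      _ = _ := by simp [e, Matrix.one_apply]
  have e3 : ipV H ξ ξ = star (grL H a a) := by
    rw [← e1, ipV, Finset.sum_comm, star_sum]
    refine Finset.sum_congr rfl fun j _ => ?_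
    rw [← Finset.sum_mul, e2, star_mul']
  have e4 : nV H ξ = (grL H a a).re := by rw [nV, e3]; simp
  have h1 := h ξ
  rw [e1, e4] at h1
  have G0 := Var.gr_nonneg hd hH a
  have h2 := pow_le_pow_left₀ G0 (re_le_norm (grL H a a)) 2
  generalize (grL H a a).re = x at *
  by_contra hc
  nlinarith

theorem varU (hd : DcS) (Λ R η : ℝ) (hΛ : 0 ≤ Λ) (hη : 0 < η) : ∀ᶠ k : ℕ in atTop,
    ∀ (d : ℕ → ℝ) (H ρ Q S : ℕ → Mat ι) (f : ℕ → V ι × V ι → ℝ) (q : ℕ → V ι × V ι)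
      (v : ℕ → V ι), (∀ i, 0 ≤ d i) → k * ∑ i ∈ Finset.range k, d i ^ 2 ≤ R ^ 2 →
      (∀ i ≤ k, (H i).PosDef) →
      (∀ i < k, One Λ (d i) (H i) (H (i + 1)) (ρ i) (f i) (q i) (v i) (Q i) (S i)) →
      ∀ a : V ι, (∀ ζ : ℕ → V ι, ζ 0 = 0 →
        ∑ i, a i * ζ k i = k * ∑ i ∈ Finset.range k, D1 (f i) (q i) (ζ i, ζ (i + 1))) →
      (grL (H k) a a).re ≤ 2 * (k * ∑ i ∈ Finset.range k, d i ^ 2) + η := by
  have hδ : Tendsto (fun k : ℕ => |R| / √(k : ℝ)) atTop (𝓝 0) :=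
    tendsto_const_nhds.div_atTop (Real.tendsto_sqrt_atTop.comp tendsto_natCast_atTop_atTop)
  have ev : ∀ f g : ℝ → ℝ, Continuous f → Continuous g → f 0 < g 0 →
      ∀ᶠ k : ℕ in atTop, f (|R| / √(k : ℝ)) < g (|R| / √(k : ℝ)) := fun f g hf hg h =>
    hδ.eventually (hf.continuousAt.eventually_lt hg.continuousAt h)
  filter_upwards [eventually_gt_atTop 0,
    ev (fun δ => Λ * δ ^ 2) (fun _ => 1 / 2) (by fun_prop) (by fun_prop) (by norm_num),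
    ev (fun δ => (1 + 2 * (Λ * δ ^ 2)) ^ 2 * (3 / 2 * (1 + 2 * (Λ * δ)) ^ 2)) (fun _ => 2)
      (by fun_prop) (by fun_prop) (by norm_num),
    ev (fun δ => (1 + 2 * (Λ * δ ^ 2)) ^ 2 * (3 * (Λ * δ * R ^ 2) ^ 2)) (fun _ => η)
      (by fun_prop) (by fun_prop) (by simpa using hη)] with k k0 c1 c2 c3
  have kp : (0 : ℝ) < k := by exact_mod_cast k0
  have hδ2 : k * (|R| / √(k : ℝ)) ^ 2 = R ^ 2 := by
    rw [div_pow, Real.sq_sqrt kp.le, sq_abs, mul_div_cancel₀ _ kp.ne']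
  have δ0 : 0 ≤ |R| / √(k : ℝ) := by positivity
  generalize |R| / √(k : ℝ) = δ at c1 c2 c3 hδ2 δ0
  intro d H ρ Q S f q v d0 hE hH ho a ha
  have s1 : ∑ i ∈ Finset.range k, d i ^ 2 ≤ δ ^ 2 :=
    le_of_mul_le_mul_left (hE.trans hδ2.ge) kp
  have s0 : 0 ≤ ∑ i ∈ Finset.range k, d i ^ 2 := Finset.sum_nonneg fun _ _ => sq_nonneg _
  have d1 : ∀ i < k, d i ≤ δ := fun i hi =>
    (pow_le_pow_iff_left₀ (d0 i) δ0 two_ne_zero).1 ((Finset.single_le_sum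
      (f := fun i => d i ^ 2) (fun _ _ => sq_nonneg _) (Finset.mem_range.2 hi)).trans s1)
  have u0 : ∀ i, 0 ≤ Λ * d i ^ 2 := fun i => by positivity
  have us : ∑ i ∈ Finset.range k, Λ * d i ^ 2 ≤ Λ * δ ^ 2 := by
    rw [← Finset.mul_sum]
    exact mul_le_mul_of_nonneg_left s1 hΛ
  have d3 : ∀ i < k, Λ * d i ^ 3 ≤ Λ * δ * d i ^ 2 := fun i hi => by
    rw [pow_succ' (d i) 2, mul_assoc]
    exact mul_le_mul_of_nonneg_left (mul_le_mul_of_nonneg_right (d1 i hi) (sq_nonneg _)) hΛ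
  have l0 : 0 ≤ Λ * δ := mul_nonneg hΛ δ0
  have l2 : 0 ≤ Λ * δ ^ 2 := by positivity
  have hv : ∀ i < k, √(nV (H i) (v i)) ≤ (1 + Λ * δ) * d i := fun i hi => by
    refine Real.sqrt_le_iff.2 ⟨mul_nonneg (by linarith) (d0 i), ?_⟩
    have := mul_nonneg (sq_nonneg (d i)) (mul_nonneg l0 (show 0 ≤ 1 + Λ * δ by linarith))
    linarith [(abs_le.1 (ho i hi).len).2, d3 i hi]
  obtain ⟨F, F1, F2⟩ := Var.exF Q k
  have m1 : (∑ j ∈ Finset.range k, d j) ^ 2 ≤ k * ∑ j ∈ Finset.range k, d j ^ 2 := by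
    simpa using sq_sum_le_card_mul_sum_sq (s := Finset.range k) (f := d)
  refine dual hd (hH k le_rfl) a (by positivity) fun ξ => ?_
  have n0 := Var.nV_nonneg hd (hH k le_rfl).posSemidef ξ
  obtain ⟨κ, hκ⟩ : ∃ κ, κ = (1 + 2 * (Λ * δ ^ 2)) * √(nV (H k) ξ) := ⟨_, rfl⟩
  have κ0 : 0 ≤ κ := by rw [hκ]; positivity
  have κ2 : κ ^ 2 = (1 + 2 * (Λ * δ ^ 2)) ^ 2 * nV (H k) ξ := by rw [hκ, mul_pow, Real.sq_sqrt n0]
  have hF : ∀ i ≤ k, ∀ t : ℝ, 0 ≤ t → √(nV (H i) ((t : ℂ) • F i *ᵥ ξ)) ≤ t * κ := by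
    intro i hi t ht
    have h1 := Var.down (a := fun i => nV (H i) (F i *ᵥ ξ)) u0 us c1.le
      (Var.nV_nonneg hd (hH k le_rfl).posSemidef _) (fun i hi => by
        rw [F2 i hi, ← mulVec_mulVec]
        exact (ho i hi).uni _) i hi
    simp only [F1, one_mulVec] at h1
    refine Real.sqrt_le_iff.2 ⟨by positivity, ?_⟩
    rw [Var.nV_smul, mul_pow, κ2]
    refine mul_le_mul_of_nonneg_left ?_ (sq_nonneg t)
    have := mul_nonneg n0 (mul_nonneg l2 (show 0 ≤ 1 + 2 * (Λ * δ ^ 2) by linarith))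
    linarith [(abs_le.1 h1).2]
  have h1 := ha (fun i => (((i : ℝ) / k : ℝ) : ℂ) • F i *ᵥ ξ) (by simp)
  have e0 : (((k : ℝ) / k : ℝ) : ℂ) • F k *ᵥ ξ = ξ := by simp [F1, k0.ne']
  rw [e0] at h1
  have hi : ∀ i ∈ Finset.range k, ‖(k : ℂ) * D1 (f i) (q i) ((((i : ℝ) / k : ℝ) : ℂ) • F i *ᵥ ξ,
      ((((i + 1 : ℕ) : ℝ) / k : ℝ) : ℂ) • F (i + 1) *ᵥ ξ)‖ ≤
      κ * ((1 + 2 * (Λ * δ)) * d i + Λ * δ * (k * d i ^ 2)) := by
    intro i hi
    have hi := Finset.mem_range.1 hi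
    have h2 := (ho i hi).d1 ((((i : ℝ) / k : ℝ) : ℂ) • F i *ᵥ ξ)
      (((((i + 1 : ℕ) : ℝ) / k : ℝ) : ℂ) • F (i + 1) *ᵥ ξ)
    have e : Q i *ᵥ (((((i + 1 : ℕ) : ℝ) / k : ℝ) : ℂ) • F (i + 1) *ᵥ ξ) -
        (((i : ℝ) / k : ℝ) : ℂ) • F i *ᵥ ξ = ((1 / k : ℝ) : ℂ) • F i *ᵥ ξ := by
      rw [mulVec_smul, mulVec_mulVec, ← F2 i hi, ← sub_smul]
      congr 1
      push_cast
      ring
    rw [e] at h2
    have t1 : (((i + 1 : ℕ) : ℝ) / k : ℝ) ≤ 1 := by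
      rw [div_le_one kp]
      exact_mod_cast hi
    have a1 := (hF (i + 1) hi (((i + 1 : ℕ) : ℝ) / k) (by positivity)).trans
      (mul_le_of_le_one_left κ0 t1)
    have a2 := hF i hi.le (1 / k) (by positivity)
    have a3 := (hd.tri ι (H i) (((1 / k : ℝ) : ℂ) • F i *ᵥ ξ) (v i) 0
      (hH i hi.le).posSemidef).2.2.1.trans
      (mul_le_mul a2 (hv i hi) (Real.sqrt_nonneg _) (by positivity))
    have a4 := norm_le_norm_add_norm_sub' (D1 (f i) (q i) ((((i : ℝ) / k : ℝ) : ℂ) • F i *ᵥ ξ,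
      ((((i + 1 : ℕ) : ℝ) / k : ℝ) : ℂ) • F (i + 1) *ᵥ ξ))
      (ipV (H i) (((1 / k : ℝ) : ℂ) • F i *ᵥ ξ) (v i))
    have a5 := mul_le_mul (d3 i hi) a1 (Real.sqrt_nonneg _) (by positivity)
    have a6 : Λ * d i ^ 2 ≤ Λ * δ * d i := by
      rw [sq, mul_assoc]
      exact mul_le_mul_of_nonneg_left (mul_le_mul_of_nonneg_right (d1 i hi) (d0 i)) hΛ
    have a7 := mul_le_mul a6 a2 (Real.sqrt_nonneg _) (mul_nonneg l0 (d0 i))
    rw [norm_mul, Complex.norm_natCast]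
    refine (mul_le_mul_of_nonneg_left (show _ ≤ 1 / k * κ * ((1 + Λ * δ) * d i) +
      (Λ * δ * d i ^ 2 * κ + Λ * δ * d i * (1 / k * κ)) by linarith) kp.le).trans_eq ?_
    field_simp
    ring
  have h2 := norm_sum_le_of_le _ hi
  rw [← Finset.mul_sum, ← h1, ← Finset.mul_sum, Finset.sum_add_distrib, ← Finset.mul_sum,
    ← Finset.mul_sum, ← Finset.mul_sum] at h2
  have m0 : 0 ≤ ∑ j ∈ Finset.range k, d j := Finset.sum_nonneg fun j _ => d0 j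
  have E0 : 0 ≤ k * ∑ j ∈ Finset.range k, d j ^ 2 := mul_nonneg kp.le s0
  generalize k * ∑ j ∈ Finset.range k, d j ^ 2 = E at *
  generalize ∑ j ∈ Finset.range k, d j = x at *
  have h3 := pow_le_pow_left₀ (norm_nonneg _) (h2.trans (mul_le_mul_of_nonneg_left
    (add_le_add le_rfl (mul_le_mul_of_nonneg_left hE l0)) κ0)) 2
  refine h3.trans ?_
  rw [mul_pow, κ2, mul_right_comm]
  refine mul_le_mul_of_nonneg_right ?_ n0
  have h4 : ((1 + 2 * (Λ * δ)) * x + Λ * δ * R ^ 2) ^ 2 ≤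
      3 / 2 * (1 + 2 * (Λ * δ)) ^ 2 * E + 3 * (Λ * δ * R ^ 2) ^ 2 := by
    have := mul_le_mul_of_nonneg_left m1 (sq_nonneg (1 + 2 * (Λ * δ)))
    nlinarith [sq_nonneg ((1 + 2 * (Λ * δ)) * x - 2 * (Λ * δ * R ^ 2))]
  have h5 := mul_le_mul_of_nonneg_left h4 (sq_nonneg (1 + 2 * (Λ * δ ^ 2)))
  have h6 := mul_le_mul_of_nonneg_right c2.le E0
  linarith

end BarUp

open Bar AF.All in
theorem barU : BarU := by
  have hD := dc
  intro ι X _ _ _ _ _ M h c R η hK hc hη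
  obtain ⟨Λ, hΛ, δ, hδ, hst⟩ := LC.stepS (LC.locS LC.vanS LC.modS AY.curvS') dc cost AY.repA'
    AY.repB' mat ι X M h c hK hc
  have hpd : ∀ x, (h x).PosDef := (((AY.repA' ι X M).isK_iff h).1 hK).2
  have hev : ∀ᶠ k : ℕ in atTop, R ^ 2 / δ ≤ (k : ℝ) :=
    tendsto_natCast_atTop_atTop.eventually_ge_atTop _
  filter_upwards [LC.varS dc ι Λ R 1 (1 / 2) hΛ zero_le_one (by norm_num), hev,
    eventually_ge_atTop 1, BarUp.varU (ι := ι) hD Λ R η hΛ hη] with k hk hkδ hk1 hU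
  intro s hs hric hm
  have hk0 : (0 : ℝ) < k := by exact_mod_cast hk1
  have hsm : ∀ i < k, c (s i) (s (i + 1)) ≤ δ := by
    intro i hi
    have h1 : c (s i) (s (i + 1)) ≤ act c k s :=
      Finset.single_le_sum (f := fun i => c (s i) (s (i + 1))) (fun j _ => c_nonneg hc _ _)
        (Finset.mem_range.2 hi)
    have h2 : R ^ 2 ≤ k * δ := (div_le_iff₀ hδ).1 hkδ
    have h3 : (k : ℝ) * c (s i) (s (i + 1)) ≤ k * δ :=
      ((mul_le_mul_of_nonneg_left h1 hk0.le).trans hs).trans h2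
    exact le_of_mul_le_mul_left h3 hk0
  have hex : ∀ i, ∃ v Q S, i < k → One Λ (√(c (s i) (s (i + 1)))) (h (s i)) (h (s (i + 1)))
      (M.ricF h (s i)) (fn2 c (M.ch (s i)) (M.ch (s (i + 1))))
      (M.ch (s i) (s i), M.ch (s (i + 1)) (s (i + 1))) v Q S := by
    intro i
    by_cases hi : i < k
    · obtain ⟨v, Q, S, h1⟩ := hst _ _ (hsm i hi)
      exact ⟨v, Q, S, fun _ => h1⟩
    · exact ⟨0, 0, 0, fun h1 => absurd h1 hi⟩
  choose v Q S hone using hex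
  have hsum : ∑ i ∈ Finset.range k, √(c (s i) (s (i + 1))) ^ 2 = act c k s :=
    Finset.sum_congr rfl fun i _ => Real.sq_sqrt (c_nonneg hc _ _)
  obtain ⟨T, hT0, hTk, hT2, hT1⟩ := hk (fun i => √(c (s i) (s (i + 1)))) (fun i => h (s i))
    (fun i => M.ricF h (s i)) Q S (fun i => fn2 c (M.ch (s i)) (M.ch (s (i + 1))))
    (fun i => (M.ch (s i) (s i), M.ch (s (i + 1)) (s (i + 1)))) v (fun _ => Real.sqrt_nonneg _)
    (by rw [hsum]; exact hs) (fun i _ => hpd _)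
    (fun i hi => ⟨by simpa using hric i hi, hone i hi⟩)
  have hT3 := hU (fun i => √(c (s i) (s (i + 1)))) (fun i => h (s i))
    (fun i => M.ricF h (s i)) Q S (fun i => fn2 c (M.ch (s i)) (M.ch (s (i + 1))))
    (fun i => (M.ch (s i) (s i), M.ch (s (i + 1)) (s (i + 1)))) v (fun _ => Real.sqrt_nonneg _)
    (by rw [hsum]; exact hs) (fun i _ => hpd _) hone
  rw [hsum] at hT2 hT1 hT3
  let L : ℕ → V ι →L[ℂ] V ι := fun i => LinearMap.toContinuousLinearMap (Matrix.mulVecLin (T i))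
  have hL : ∀ i w, L i w = T i *ᵥ w := fun i w => rfl
  obtain ⟨hsmo, hcal⟩ := fam_calc hD M h c hc k s L (M.ch (s k) (s k))
  have key : ∀ ζ : ℕ → V ι, ζ 0 = 0 → ∑ i, dz (fun z => ((k * act c k
      (fam M k s L (M.ch (s k) (s k)) z) : ℝ) : ℂ)) i (M.ch (s k) (s k)) * ζ k i =
      k * ∑ i ∈ Finset.range k, D1 (fn2 c (M.ch (s i)) (M.ch (s (i + 1))))
        (M.ch (s i) (s i), M.ch (s (i + 1)) (s (i + 1))) (ζ i, ζ (i + 1)) := fun ζ hζ => by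
    rw [← hD.br1 ι _ _ (ζ k) (hsmo.differentiableAt (by norm_num)), (hcal (ζ k)).1]
    have h1 := crit hD M h c hc k s hm (fun i => ζ i - T i *ᵥ ζ k)
      (by simp only [hζ, hT0, Matrix.zero_mulVec, sub_self])
      (by simp only [hTk, Matrix.one_mulVec, sub_self])
    rw [← zero_add ((k : ℂ) * _), ← h1, ← mul_add, ← Finset.sum_add_distrib]
    congr 1
    refine Finset.sum_congr rfl fun i _ => ?_
    rw [← (hD.lin (V ι × V ι) _ _ _ _ 1).1]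
    congr 1
    simp only [hL, Prod.mk_add_mk, sub_add_cancel]
  refine ⟨fam M k s L (M.ch (s k) (s k)), fam_tendsto M k s L _, fun z => ⟨?_, ?_⟩,
    fam_base M k s L _, hsmo, ?_, ?_, hT3 _ key⟩
  · exact fam_zero M k s L _ z 0 (by rw [hL, hT0, Matrix.zero_mulVec])
  · simp only [fam, le_refl, if_true, hL, hTk, Matrix.one_mulVec, add_sub_cancel]
  · refine (hT2 _ (hD.br2 ι _ _ 0 hsmo).2 fun ξ => ?_).trans (by linarith)
    rw [← (hD.br2 ι _ _ ξ hsmo).1, (hcal ξ).2]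
    rfl
  · linarith [hT1 _ key]

end Pool.Agent.Lib.MP_813db1_ag.NS
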