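import Pool.Agent.Lib.MP_813db1_ag.NS.Top
import Pool.Agent.Lib.MP_813db1_ag.AN.Stmt

/-! The base layer: analysis on the covering space. Definitions and statements. -/

namespace Pool.Agent.Lib.MP_813db1_ag.NS

open Pool.Agent.Lib.MP_813db1_ag.HS Pool.Agent.Lib.MP_813db1_ag.AS Pool.Agent.Lib.MP_813db1_ag.AN
open Pool.Agent.Lib.MP_bbd4b9_ag.LC
open MeasureTheory Complex Matrix Filter Topology Set Metric
open scoped ComplexOrder ContDiff

noncomputable section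

variable {ι X Y G : Type} [Fintype ι] [DecidableEq ι]

section Sheets

variable [TopologicalSpace Y] {N : Atl ι Y} {g : Y → Mat ι} (S : St N g)

/-- weighted Hoelder bound on all sheets. -/
def ST (R t B : ℝ) (σ : Y → ℂ) : Prop := ∀ k, HolT t B (fun z => σ ((S.c k).symm z)) (ball 0 R)

/-- second order Hoelder bound on all sheets. -/
def S2 (R B : ℝ) (σ : Y → ℂ) : Prop := ∀ k, Hol2 B (fun z => σ ((S.c k).symm z)) (ball 0 R)

/-- the sheets of radius `r < 1` cover. -/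
def Rad (r : ℝ) : Prop := 0 < r ∧ r < 1 ∧ ∀ y, ∃ k, y ∈ (S.c k).source ∧ ‖S.c k y‖ < r

open Classical in
/-- the function with coefficient `w k` on each sheet `k` of type `b`, extended by zero. -/
def exT (b : Fin S.n) (w : S.κ → V ι → ℂ) (y : Y) : ℂ :=
  if h : ∃ k, S.ty k = b ∧ y ∈ (S.c k).source then w h.choose (S.c h.choose y) else 0

/-- the group permutes the sheets of each type transitively. -/
structure Act (G : Type) [Group G] [MulAction G Y] : Prop where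
  mv : ∀ (γ : G) k, ∃ l, S.ty l = S.ty k ∧
    ∀ z ∈ ball (0 : V ι) 4, γ • (S.c k).symm z = (S.c l).symm z
  tr : ∀ k l, S.ty k = S.ty l → ∃ γ : G,
    ∀ z ∈ ball (0 : V ι) 4, γ • (S.c k).symm z = (S.c l).symm z
  rad : ∃ r, Rad S r

/-- uniform bounds for the extension by zero. -/
def ExtY (r : ℝ) : Prop := ∀ (b : Fin S.n) (K : Set (V ι)), IsCompact K → K ⊆ ball 0 4 →
  ∃ K0 ≥ (0 : ℝ), ∀ w : S.κ → V ι → ℂ, (∀ k, ∀ z ∉ K, w k z = 0) →
    (∀ k, S.ty k = b → ∀ y ∈ (S.c k).source, exT S b w y = w k (S.c k y)) ∧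
    (∀ y, (∀ k, S.ty k = b → y ∉ (S.c k).source) → ∀ᶠ x in 𝓝 y, exT S b w x = 0) ∧
    (∀ t ≥ (1 : ℝ), ∀ B, (∀ k, HolT t B (w k) univ) → ST S (2 * r) t (K0 * B) (exT S b w)) ∧
    ∀ B, (∀ k, Hol2 B (w k) univ) → S2 S (2 * r) (K0 * B) (exT S b w)

/-- decomposition into pieces with small support. -/
def PartY (r : ℝ) : Prop := ∀ ρ0 > (0 : ℝ), ∃ (T : Finset (Fin S.n × V ι)) (ρ c : ℝ), 0 < ρ ∧
  ρ ≤ ρ0 ∧ 0 ≤ c ∧ (∀ q ∈ T, closedBall q.2 ρ ⊆ ball 0 (2 * r)) ∧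
  ∀ (t B : ℝ) (f : Y → ℂ), 1 ≤ t → 0 ≤ B → ST S (2 * r) t B f →
    ∃ F : Fin S.n × V ι → S.κ → V ι → ℂ, (∀ q ∈ T, ∀ k, HolT t (c * B) (F q k) univ) ∧
      (∀ q k, ∀ z ∉ closedBall q.2 (ρ / 2), F q k z = 0) ∧
      ∀ y, ∑ q ∈ T, exT S q.1 (F q) y = f y

/-- the global parametrix. -/
def ParY (r : ℝ) : Prop := ∃ t0 ≥ (1 : ℝ), ∃ D ≥ (0 : ℝ), ∀ t ≥ t0, ∀ f B, 0 ≤ B →
  ST S (2 * r) t B f → ∃ w E, S2 S (2 * r) (D * B) w ∧ ST S (2 * r) t (D * B / t ^ 2) E ∧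
    ∀ y, (t : ℂ) ^ 4 * w y - N.box 0 g w y = f y - E y

/-- the resolvent on bounded functions. -/
def ResY (r : ℝ) : Prop := ∃ l0 : ℝ, ∀ lam ≥ l0, ∀ (f : Y → ℝ) (B : ℝ), N.Ck ∞ f →
  ST S (2 * r) 1 B (fun y => (f y : ℂ)) → ∃ v : Y → ℝ, N.Ck ∞ v ∧ (∃ B', ∀ y, |v y| ≤ B') ∧
    ∀ y, lam * v y - N.lap g v y = f y

end Sheets

/-- the group preserves the calculus. -/
structure Eqv [TopologicalSpace Y] (N : Atl ι Y) (g : Y → Mat ι) (G : Type) [Group G]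
    [MulAction G Y] : Prop where
  ck : ∀ (γ : G) u, N.Ck ∞ u → N.Ck ∞ fun y => u (γ • y)
  lap : ∀ (γ : G) u y, N.Ck ∞ u → N.lap g (fun x => u (γ • x)) y = N.lap g u (γ • y)
  grad : ∀ (γ : G) u v y, N.Ck ∞ u → N.Ck ∞ v →
    N.grad g (fun x => u (γ • x)) (fun x => v (γ • x)) y = N.grad g u v (γ • y)

/-- the inequality of Bochner. -/
def BeY [TopologicalSpace Y] (N : Atl ι Y) (g : Y → Mat ι) : Prop := ∀ u y, N.Ck ∞ u →
  N.lap g u y ^ 2 / Fintype.card ι + 2 * N.grad g u (N.lap g u) y - N.grad g u u y ≤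
    N.lap g (N.grad g u u) y

/-- a substitute for the squared distance from `y₀`, with its properties for test functions. -/
structure Brr [PseudoMetricSpace Y] (N : Atl ι Y) (g : Y → Mat ι) (y₀ : Y) (R L η : ℝ)
    (ρ : Y → ℝ) : Prop where
  zero : ρ y₀ = 0
  mem : ∀ y, 0 ≤ ρ y ∧ ρ y ≤ R ^ 2
  lsc : LowerSemicontinuous ρ
  le : ∀ y, ρ y < R ^ 2 → dist y₀ y ≤ 2 * √(ρ y)
  ge : ∀ y, dist y₀ y < L → ρ y ≤ 64 * L ^ 2
  test : ∀ (u : Y → ℝ) (Φ : ℝ → ℝ) (y : Y), N.Ck ∞ u → ContDiffAt ℝ 2 Φ (u y) → ρ y < R ^ 2 →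
    Φ (u y) = ρ y → (∀ᶠ x in 𝓝 y, Φ (u x) ≤ ρ x) →
    deriv Φ (u y) * N.lap g u y + deriv (deriv Φ) (u y) * N.grad g u u y ≤
      Fintype.card ι + 1 + ρ y ∧ ρ y / 2 ≤ deriv Φ (u y) ^ 2 * N.grad g u u y ∧
      deriv Φ (u y) ^ 2 * N.grad g u u y ≤ 2 * ρ y + η

section Quot

variable [PseudoMetricSpace Y] [Group G] [MulAction G Y]

/-- the `R`-neighbourhood of the orbit `P z`. -/
def Nb (P : Subgroup G) (z : Y) (R : ℝ) : Set Y := {y | ∃ n ∈ P, dist z (n • y) < R}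

/-- continuous invariant functions that vanish far from an orbit. -/
structure Cc (P : Subgroup G) (F : Y → ℝ) : Prop where
  cont : Continuous F
  inv : ∀ n ∈ P, ∀ y, F (n • y) = F y
  supp : ∃ z R, ∀ y, F y ≠ 0 → y ∈ Nb P z R

/-- the sum over the orbits of `P` in the fibre over `x`. -/
def fs (s : X → Y) (P : Subgroup G) (F : Y → ℝ) (x : X) : ℝ :=
  ∑ᶠ q : G ⧸ P, F ((Quotient.out q)⁻¹ • s x)

/-- the integral over the quotient by `P`. -/
def IP [MeasurableSpace X] (μ : Measure X) (s : X → Y) (P : Subgroup G) (F : Y → ℝ) : ℝ :=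
  ∫ x, fs s P F x ∂μ

/-- the elementary properties of the integral over a quotient. -/
structure IgA [MeasurableSpace X] (μ : Measure X) (p : Y → X) (P : Subgroup G)
    (J : (Y → ℝ) → ℝ) : Prop where
  add : ∀ F F', Cc P F → Cc P F' → J (fun y => F y + F' y) = J F + J F'
  smul : ∀ (c : ℝ) F, Cc P F → J (fun y => c * F y) = c * J F
  mono : ∀ F F', Cc P F → Cc P F' → (∀ y, F y ≤ F' y) → J F ≤ J F'
  low : ∀ F (E : Set X), Cc P F → (∀ y, 0 ≤ F y) → (∀ x ∈ E, ∃ y, p y = x ∧ 1 ≤ F y) →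
    μ.real E ≤ J F
  up : ∀ F (Q : ℕ), Cc P F → (∀ y, F y ≤ 1) → (∀ (y : Y) (T : Finset G),
    (∀ γ ∈ T, F (γ • y) ≠ 0) → (∀ γ ∈ T, ∀ γ' ∈ T, γ * γ'⁻¹ ∈ P → γ = γ') → T.card ≤ Q) →
    J F ≤ Q * μ.real univ

/-- the formula of Green on a quotient. -/
def IgG (N : Atl ι Y) (g : Y → Mat ι) (P : Subgroup G) (J : (Y → ℝ) → ℝ) : Prop :=
  ∀ F u, N.Ck ∞ F → N.Ck ∞ u → Cc P F → (∀ n ∈ P, ∀ y, u (n • y) = u y) →
    J (fun y => F y * N.lap g u y + N.grad g u F y) = 0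

/-- invariant bump functions. -/
def Bump (N : Atl ι Y) (G : Type) [Group G] [MulAction G Y] : Prop :=
  ∀ (P : Subgroup G) (z : Y) (r : ℝ), 0 < r → ∃ b : Y → ℝ, N.Ck ∞ b ∧
    (∀ n ∈ P, ∀ y, b (n • y) = b y) ∧ (∀ y, 0 ≤ b y ∧ b y ≤ 1) ∧ (∀ y ∈ Nb P z r, b y = 1) ∧
    ∀ y, b y ≠ 0 → y ∈ Nb P z (2 * r)

/-- a proper isometric action. -/
structure Prp (G Y : Type) [PseudoMetricSpace Y] [Group G] [MulAction G Y] : Prop where
  iso : ∀ (γ : G) (y y' : Y), dist (γ • y) (γ • y') = dist y y'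
  cpt : ∀ (y : Y) (R : ℝ), IsCompact (closedBall y R)
  fin : ∀ (y : Y) (R : ℝ), {γ : G | dist y (γ • y) < R}.Finite

end Quot

/-- the data on the base. -/
structure Bx [TopologicalSpace X] [TopologicalSpace Y] [Group G] [MulAction G Y] (M : Atl ι X)
    (H : X → Mat ι) (c : X → X → ℝ) (a : X → X → G) (δ : ℝ) (p : Y → X) (γ : Y → G)
    [PseudoMetricSpace (Tot X G)] : Prop where
  isK : M.IsK H
  ric : ∀ x, (M.ricF H x + H x).PosSemidef
  cost : Cost M H c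
  coh : ∀ x, Coh a x
  lm : LM c a δ
  dm : DM c a δ
  fin : ∀ (y : Tot X G) (R : ℝ), ∃ T : Finset (Tot X G), ball y R ⊆ ⋃ t ∈ T, ball t (δ / 4)
  cov : IsQuotientCoveringMap p G
  bij : Function.Bijective fun y => (p y, γ y)
  eqv : ∀ (g : G) y, γ (g • y) = g * γ y
  loc : ∀ y0, ∀ᶠ y in 𝓝 y0, γ y = γ y0 * a (p y0) (p y)

end

/-! ### statements -/

/-- barriers, with both bounds for the gradient. -/
def BarU : Prop := ∀ (ι X : Type) [Fintype ι] [DecidableEq ι] [TopologicalSpace X] [T2Space X]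
  [CompactSpace X] (M : Atl ι X) (h : X → Mat ι) (c : X → X → ℝ) (R η : ℝ), M.IsK h →
  Cost M h c → 0 < η → ∀ᶠ k : ℕ in atTop, ∀ s : ℕ → X, k * act c k s ≤ R ^ 2 →
    (∀ i < k, (M.ricF h (s i) + h (s i)).PosSemidef) →
    (∀ᶠ s' in 𝓝 s, s' 0 = s 0 → s' k = s k → act c k s ≤ act c k s') →
    ∃ Y : V ι → ℕ → X, Tendsto Y (𝓝 (M.ch (s k) (s k))) (𝓝 s) ∧
      (∀ z, Y z 0 = s 0 ∧ Y z k = (M.ch (s k)).symm z) ∧ Y (M.ch (s k) (s k)) = s ∧
      ContDiffAt ℝ 2 (fun z => k * act c k (Y z)) (M.ch (s k) (s k)) ∧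
      trm (h (s k)) (levi (fun z => ((k * act c k (Y z) : ℝ) : ℂ)) (M.ch (s k) (s k))) ≤
        Fintype.card ι + 1 + k * act c k s ∧
      k * act c k s / 2 ≤ (grL (h (s k))
        (fun i => dz (fun z => ((k * act c k (Y z) : ℝ) : ℂ)) i (M.ch (s k) (s k)))
        (fun i => dz (fun z => ((k * act c k (Y z) : ℝ) : ℂ)) i (M.ch (s k) (s k)))).re ∧
      (grL (h (s k))
        (fun i => dz (fun z => ((k * act c k (Y z) : ℝ) : ℂ)) i (M.ch (s k) (s k)))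
        (fun i => dz (fun z => ((k * act c k (Y z) : ℝ) : ℂ)) i (M.ch (s k) (s k)))).re ≤
        2 * (k * act c k s) + η

/-- the metric on the covering space. -/
def MetY : Prop := ∀ (ι X Y G : Type) [Fintype ι] [DecidableEq ι] [TopologicalSpace X] [T2Space X]
  [CompactSpace X] [τ : TopologicalSpace Y] [Group G] [MulAction G Y] (M : Atl ι X)
  (H : X → Mat ι) (c : X → X → ℝ) (a : X → X → G) (δ : ℝ) (p : Y → X) (γ : Y → G)
  [PseudoMetricSpace (Tot X G)], Bx M H c a δ p γ → ∃ m : MetricSpace Y,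
    m.toPseudoMetricSpace.toUniformSpace.toTopologicalSpace = τ ∧
    (∀ y y', @dist Y m.toDist y y' = dist (Tot.mk (p y) (γ y)) (Tot.mk (p y') (γ y'))) ∧
    @Prp G Y m.toPseudoMetricSpace _ _

/-- the action on the sheets. -/
def ActS : Prop := ∀ (ι X Y G : Type) [Fintype ι] [DecidableEq ι] [TopologicalSpace X] [T2Space X]
  [CompactSpace X] [TopologicalSpace Y] [Group G] [MulAction G Y] (M : Atl ι X) (H : X → Mat ι)
  (p : Y → X) (N : Atl ι Y) (g : Y → Mat ι) (S : St N g), IsQuotientCoveringMap p G → M.IsK H →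
  Lk M H p S → Act S G ∧ Eqv N g G ∧
    ((∀ x, (M.ricF H x + H x).PosSemidef) → ∀ y, (N.ricF g y + g y).PosSemidef)

/-- the barrier on the covering space. -/
def BrrS : Prop := ∀ (ι X Y G : Type) [Fintype ι] [DecidableEq ι] [TopologicalSpace X] [T2Space X]
  [CompactSpace X] [PseudoMetricSpace Y] [Group G] [MulAction G Y] (M : Atl ι X) (H : X → Mat ι)
  (c : X → X → ℝ) (a : X → X → G) (δ : ℝ) (p : Y → X) (γ : Y → G) [PseudoMetricSpace (Tot X G)]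
  (N : Atl ι Y) (g : Y → Mat ι) (S : St N g), Bx M H c a δ p γ → Lk M H p S →
  (∀ y y', dist y y' = dist (Tot.mk (p y) (γ y)) (Tot.mk (p y') (γ y'))) →
  ∀ (y₀ : Y) (R L η : ℝ), 0 < R → 0 < η → ∃ ρ, Brr N g y₀ R L η ρ

/-- the inequality of Bochner in a chart. -/
def BeL : Prop := ∀ (ι : Type) [Fintype ι] [DecidableEq ι] (H : V ι → Mat ι) (U : Set (V ι))
  (u : V ι → ℝ), IsOpen U → KOn H U → (∀ z ∈ U, ContDiffAt ℝ ∞ u z) → ∀ z ∈ U,
  (ric H z + H z).PosSemidef →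
  (lapL H (fun w => (u w : ℂ)) z).re ^ 2 / Fintype.card ι +
    2 * (grL (H z) (fun i => dz (fun w => (u w : ℂ)) i z)
      (fun i => dz (fun w => ((lapL H (fun x => (u x : ℂ)) w).re : ℂ)) i z)).re -
    (grL (H z) (fun i => dz (fun w => (u w : ℂ)) i z) (fun i => dz (fun w => (u w : ℂ)) i z)).re ≤
  (lapL H (fun w => ((grL (H w) (fun i => dz (fun x => (u x : ℂ)) i w)
    (fun i => dz (fun x => (u x : ℂ)) i w)).re : ℂ)) z).re

/-- the inequality of Bochner. -/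
def BeS : Prop := ∀ (ι Y : Type) [Fintype ι] [DecidableEq ι] [TopologicalSpace Y] (N : Atl ι Y)
  (g : Y → Mat ι), N.IsK g → (∀ y, (N.ricF g y + g y).PosSemidef) → BeY N g

/-- extension by zero. -/
def ExtS : Prop := ∀ (ι X Y : Type) [Fintype ι] [DecidableEq ι] [TopologicalSpace X] [T2Space X]
  [CompactSpace X] [TopologicalSpace Y] [T2Space Y] (M : Atl ι X) (H : X → Mat ι) (p : Y → X)
  (N : Atl ι Y) (g : Y → Mat ι) (S : St N g) (r : ℝ), Continuous p → Lk M H p S → Rad S r →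
  ExtY S r

/-- decomposition. -/
def PartS : Prop := ∀ (ι Y : Type) [Fintype ι] [DecidableEq ι] [TopologicalSpace Y]
  (N : Atl ι Y) (g : Y → Mat ι) (S : St N g) (r : ℝ), Rad S r → ExtY S r → PartY S r

/-- the parametrix. -/
def ParS : Prop := ∀ (ι Y : Type) [Fintype ι] [DecidableEq ι] [TopologicalSpace Y]
  (N : Atl ι Y) (g : Y → Mat ι) (S : St N g) (r : ℝ), Rad S r → ExtY S r → PartY S r → ParY S r

/-- the resolvent. -/
def ResS : Prop := ∀ (ι Y : Type) [Fintype ι] [DecidableEq ι] [TopologicalSpace Y]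
  (N : Atl ι Y) (g : Y → Mat ι) (S : St N g) (r : ℝ), Rad S r → ParY S r → ResY S r

/-- bump functions, and uniform Hoelder bounds for invariant functions. -/
def BumpS : Prop := ∀ (ι Y G : Type) [Fintype ι] [DecidableEq ι] [MetricSpace Y] [Group G]
  [MulAction G Y] (N : Atl ι Y) (g : Y → Mat ι) (S : St N g), Prp G Y → Act S G → Eqv N g G →
  Bump N G ∧ ∀ (P : Subgroup G) (f : Y → ℝ) (R : ℝ), R < 4 → N.Ck ∞ f → Cc P f →
    ∃ B, ST S R 1 B fun y => (f y : ℂ)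

/-- fibre sums over a chart are finite sums over sheets. -/
def FibS : Prop := ∀ (ι X Y G : Type) [Fintype ι] [DecidableEq ι] [TopologicalSpace X]
  [PseudoMetricSpace Y] [Group G] [MulAction G Y] (M : Atl ι X) (H : X → Mat ι) (p : Y → X)
  (s : X → Y) (N : Atl ι Y) (g : Y → Mat ι) (S : St N g) (l : Lk M H p S),
  IsQuotientCoveringMap p G → (∀ x, p (s x) = x) → Prp G Y → Act S G →
  ∀ (P : Subgroup G) (z : Y) (R : ℝ), (∀ x, {q : G ⧸ P | (Quotient.out q)⁻¹ • s x ∈ Nb P z R}.Finite) ∧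
    ∀ b : Fin S.n, ∃ T : Finset S.κ, (∀ k ∈ T, S.ty k = b) ∧ ∀ F : Y → ℝ,
      (∀ n ∈ P, ∀ y, F (n • y) = F y) → (∀ y, F y ≠ 0 → y ∈ Nb P z R) →
      ∀ w ∈ ball (0 : V ι) 3, fs s P F ((l.e b).symm w) = ∑ k ∈ T, F ((S.c k).symm w)

/-- the integral over a quotient. -/
def IgS : Prop := ∀ (ι X Y G : Type) [Fintype ι] [DecidableEq ι] [TopologicalSpace X] [T2Space X]
  [CompactSpace X] [MeasurableSpace X] [BorelSpace X] [PseudoMetricSpace Y] [Group G]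
  [MulAction G Y] (M : Atl ι X) (H : X → Mat ι) (μ : Measure X) (p : Y → X) (s : X → Y)
  (N : Atl ι Y) (g : Y → Mat ι) (S : St N g), Lk M H p S → IsQuotientCoveringMap p G →
  (∀ x, p (s x) = x) → Prp G Y → Act S G → IsFiniteMeasure μ →
  ∀ P : Subgroup G, IgA μ p P (IP μ s P)

/-- the formula of Green. -/
def GrnS : Prop := ∀ (ι X Y G : Type) [Fintype ι] [DecidableEq ι] [TopologicalSpace X] [T2Space X]
  [CompactSpace X] [MeasurableSpace X] [BorelSpace X] [PseudoMetricSpace Y] [Group G]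
  [MulAction G Y] (M : Atl ι X) (H : X → Mat ι) (μ : Measure X) (p : Y → X) (s : X → Y)
  (N : Atl ι Y) (g : Y → Mat ι) (S : St N g), Lk M H p S → IsQuotientCoveringMap p G →
  (∀ x, p (s x) = x) → Prp G Y → Act S G → Eqv N g G → M.IsK H → M.IsVol H μ →
  ∀ P : Subgroup G, IgG N g P (IP μ s P)

end Pool.Agent.Lib.MP_813db1_ag.NS
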