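import Pool.Agent.Lib.MP_813db1_ag.AS.StmtG

/-! An abstract diffusion with barriers on a space with a group action, and the statements of the
steps of the propagation theorem. -/

namespace Pool.Agent.Lib.MP_813db1_ag.NS

open Pool.Agent.Lib.MP_813db1_ag.AS
open MeasureTheory Filter Topology Set Metric
open scoped ContDiff ENNReal

noncomputable section

/-- smooth functions, the Laplacian, the gradient product, the volume, a fundamental domain. -/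
structure Dif (Y : Type) [MeasurableSpace Y] where
  S : (Y → ℝ) → Prop
  L : (Y → ℝ) → Y → ℝ
  Γ : (Y → ℝ) → (Y → ℝ) → Y → ℝ
  ν : Measure Y
  F₀ : Set Y

section

variable {G Y : Type} [Group G] [MulAction G Y]

/-- invariant functions. -/
def Iv {α : Type} (N : Subgroup G) (f : Y → α) : Prop := ∀ g ∈ N, ∀ y, f (g • y) = f y

/-- neighbourhoods of orbits. -/
def Nh [PseudoMetricSpace Y] (N : Subgroup G) (x : Y) (r : ℝ) : Set Y :=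
  {y | ∃ g ∈ N, dist x (g • y) < r}

variable [MeasurableSpace Y] (T : Dif Y)

/-- the volume on the quotient by `N`. -/
def Dif.μ (N : Subgroup G) : Measure Y := T.ν.restrict {y | ∃ c : G ⧸ N, c.out • y ∈ T.F₀}

variable [MetricSpace Y]

/-- a substitute for the squared distance from `x`. -/
structure Dif.Rho (n : ℕ) (x : Y) (R Λ η : ℝ) (ρ : Y → ℝ) : Prop where
  zero : ρ x = 0
  mem : ∀ y, 0 ≤ ρ y ∧ ρ y ≤ R ^ 2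
  lsc : LowerSemicontinuous ρ
  lo : ∀ y, ρ y < R ^ 2 → dist x y ≤ 2 * √(ρ y)
  up : ∀ y, dist x y < Λ → ρ y ≤ 64 * Λ ^ 2
  vis : ∀ (u : Y → ℝ) (Φ : ℝ → ℝ) (y : Y), T.S u → ContDiffAt ℝ 2 Φ (u y) → Φ (u y) = ρ y →
    ρ y < R ^ 2 → (∀ᶠ z in 𝓝 y, Φ (u z) ≤ ρ z) →
    deriv Φ (u y) * T.L u y + deriv (deriv Φ) (u y) * T.Γ u u y ≤ n + 1 + ρ y ∧
      ρ y / 2 ≤ deriv Φ (u y) ^ 2 * T.Γ u u y ∧ deriv Φ (u y) ^ 2 * T.Γ u u y ≤ 2 * ρ y + η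

/-- the rules. -/
structure Dif.Ax (G : Type) [Group G] [MulAction G Y] (n : ℕ) : Prop where
  n1 : 1 ≤ n
  cnt : Countable G
  iso : ∀ (g : G) (x y : Y), dist (g • x) (g • y) = dist x y
  fin : ∀ (x : Y) (R : ℝ), {g : G | dist x (g • x) < R}.Finite
  s_add : ∀ f g, T.S f → T.S g → T.S fun y => f y + g y
  s_mul : ∀ f g, T.S f → T.S g → T.S fun y => f y * g y
  s_const : ∀ a : ℝ, T.S fun _ => a
  s_comp : ∀ (Φ : ℝ → ℝ) f, T.S f → (∀ y, ContDiffAt ℝ ∞ Φ (f y)) → T.S fun y => Φ (f y)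
  s_L : ∀ f, T.S f → T.S (T.L f)
  s_Γ : ∀ f g, T.S f → T.S g → T.S (T.Γ f g)
  s_smul : ∀ (g : G) f, T.S f → T.S fun y => f (g • y)
  s_cont : ∀ f, T.S f → Continuous f
  Γ_comm : ∀ f g y, T.Γ f g y = T.Γ g f y
  Γ_nn : ∀ f y, 0 ≤ T.Γ f f y
  Γ_add : ∀ f g k y, T.S f → T.S g → T.S k →
    T.Γ (fun z => f z + g z) k y = T.Γ f k y + T.Γ g k y
  Γ_mul : ∀ f g k y, T.S f → T.S g → T.S k →
    T.Γ (fun z => f z * g z) k y = f y * T.Γ g k y + g y * T.Γ f k y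
  Γ_comp : ∀ (Φ : ℝ → ℝ) f k y, T.S f → T.S k → ContDiffAt ℝ ∞ Φ (f y) →
    T.Γ (fun z => Φ (f z)) k y = deriv Φ (f y) * T.Γ f k y
  Γ_smul : ∀ (g : G) f k y, T.S f → T.S k →
    T.Γ (fun z => f (g • z)) (fun z => k (g • z)) y = T.Γ f k (g • y)
  L_add : ∀ f g y, T.S f → T.S g → T.L (fun z => f z + g z) y = T.L f y + T.L g y
  L_mul : ∀ f g y, T.S f → T.S g →
    T.L (fun z => f z * g z) y = f y * T.L g y + g y * T.L f y + 2 * T.Γ f g y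
  L_comp : ∀ (Φ : ℝ → ℝ) f y, T.S f → ContDiffAt ℝ ∞ Φ (f y) →
    T.L (fun z => Φ (f z)) y = deriv Φ (f y) * T.L f y + deriv (deriv Φ) (f y) * T.Γ f f y
  L_smul : ∀ (g : G) f y, T.S f → T.L (fun z => f (g • z)) y = T.L f (g • y)
  max : ∀ f y, T.S f → IsLocalMax f y → T.L f y ≤ 0 ∧ ∀ g, T.S g → T.Γ f g y = 0
  be : ∀ f y, T.S f →
    T.L f y ^ 2 / n + 2 * T.Γ f (T.L f) y - T.Γ f f y ≤ T.L (T.Γ f f) y
  res : ∃ τ₀ > (0 : ℝ), ∀ τ, 0 < τ → τ ≤ τ₀ → ∀ (N : Subgroup G) x r f, T.S f → Iv N f →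
    (∀ y ∉ Nh N x r, f y = 0) →
    ∃ v, T.S v ∧ (∃ A, ∀ y, |v y| ≤ A) ∧ ∀ y, v y - τ * T.L v y = f y
  bump : ∀ (N : Subgroup G) x r η, 0 < η → ∃ f, T.S f ∧ Iv N f ∧ (∀ y, 0 ≤ f y ∧ f y ≤ 1) ∧
    (∀ y ∈ Nh N x r, f y = 1) ∧ ∀ y ∉ Nh N x (r + η), f y = 0
  bar : ∀ (x : Y) (R Λ η : ℝ), 0 < R → 0 < η → ∃ ρ, T.Rho n x R Λ η ρ
  ν_inv : ∀ (g : G) (A : Set Y), MeasurableSet A → T.ν ((fun y => g • y) ⁻¹' A) = T.ν A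
  fd_meas : MeasurableSet T.F₀
  fd_uniq : ∀ y : Y, ∃! g : G, g • y ∈ T.F₀
  fd_bd : Bornology.IsBounded T.F₀
  fd_vol : 0 < T.ν T.F₀ ∧ T.ν T.F₀ < ⊤
  ibp : ∀ (N : Subgroup G) x r f g, T.S f → T.S g → Iv N f → Iv N g → (∀ y ∉ Nh N x r, g y = 0) →
    ∫ y, (g y * T.L f y + T.Γ g f y) ∂T.μ N = 0

/-- the resolvents of bump functions on an orbit and on one of its clusters. -/
structure Dif.Vd (N N' : Subgroup G) (z : Y) (s κ : ℝ) (h h₀ v v₀ : Y → ℝ) : Prop where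
  sm : T.S h ∧ T.S h₀ ∧ T.S v ∧ T.S v₀
  iv : Iv N' h ∧ Iv N h₀ ∧ Iv N' v ∧ Iv N v₀
  mem : ∀ y, (0 ≤ h y ∧ h y ≤ h₀ y ∧ h₀ y ≤ 1) ∧ 0 ≤ v y ∧ v y ≤ v₀ y ∧ v₀ y ≤ 1
  one : ∀ y ∈ Nh N' z (2 * s), h y = 1
  zero : ∀ y ∉ Nh N' z (3 * s), h y = 0
  same : ∀ y ∈ Nh N' z (3 * s), h y = h₀ y
  zero₀ : ∀ y ∉ Nh N z (3 * s), h₀ y = 0
  eq : ∀ y, v y - κ ^ 2 * T.L v y = h y ∧ v₀ y - κ ^ 2 * T.L v₀ y = h₀ y

/-- two approximate distance functions from separated sets. -/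
structure Dif.Pr (N : Subgroup G) (z : Y) (t R R' C κ : ℝ) (a a' : Y → ℝ) : Prop where
  sm : T.S a ∧ T.S a'
  iv : Iv N a ∧ Iv N a'
  nn : ∀ y, 0 ≤ a y ∧ 0 ≤ a' y ∧ 8 * t ≤ a y + a' y
  eik : ∀ y, t ≤ a y → T.Γ a a y ≤ 4 ∧ T.L a y ≤ C ∧ T.Γ a a y = 1 + κ * T.L a y
  eik' : ∀ y, t ≤ a' y → T.Γ a' a' y ≤ 4 ∧ T.L a' y ≤ C ∧ T.Γ a' a' y = 1 + κ * T.L a' y
  supp : ∀ y, a y ≤ R + 3 → y ∈ Nh N z R'

/-- calculus. -/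
structure Dif.Cal : Prop where
  s_smul : ∀ (a : ℝ) f, T.S f → T.S fun y => a * f y
  s_sub : ∀ f g, T.S f → T.S g → T.S fun y => f y - g y
  s_sum : ∀ (J : Type) (Z : Finset J) (f : J → Y → ℝ), (∀ j ∈ Z, T.S (f j)) →
    T.S (fun y => ∑ j ∈ Z, f j y) ∧ ∀ y, T.L (fun y => ∑ j ∈ Z, f j y) y = ∑ j ∈ Z, T.L (f j) y ∧
      ∀ k, T.S k → T.Γ (fun y => ∑ j ∈ Z, f j y) k y = ∑ j ∈ Z, T.Γ (f j) k y
  const : ∀ (a : ℝ) k y, T.S k → T.L (fun _ => a) y = 0 ∧ T.Γ (fun _ => a) k y = 0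
  smul : ∀ (a : ℝ) f k y, T.S f → T.S k →
    T.L (fun z => a * f z) y = a * T.L f y ∧ T.Γ (fun z => a * f z) k y = a * T.Γ f k y
  sub : ∀ f g k y, T.S f → T.S g → T.S k → T.L (fun z => f z - g z) y = T.L f y - T.L g y ∧
    T.Γ (fun z => f z - g z) k y = T.Γ f k y - T.Γ g k y
  cs : ∀ f g y, T.S f → T.S g → T.Γ f g y ^ 2 ≤ T.Γ f f y * T.Γ g g y ∧
    |T.Γ f g y| ≤ √(T.Γ f f y) * √(T.Γ g g y)
  loc : ∀ f g y, T.S f → T.S g → f =ᶠ[𝓝 y] g →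
    T.L f y = T.L g y ∧ ∀ k, T.S k → T.Γ f k y = T.Γ g k y
  log : ∀ (κ : ℝ) v y, T.S v → (∀ z, 0 < v z) → T.S (fun z => -κ * Real.log (v z)) ∧
    (v y - κ ^ 2 * T.L v y = 0 → T.Γ (fun z => -κ * Real.log (v z))
      (fun z => -κ * Real.log (v z)) y = 1 + κ * T.L (fun z => -κ * Real.log (v z)) y)

/-- invariance of derivatives. -/
structure Dif.Eqi (G : Type) [Group G] [MulAction G Y] : Prop where
  L : ∀ (N : Subgroup G) f, T.S f → Iv N f → Iv N (T.L f)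
  Γ : ∀ (N : Subgroup G) f g, T.S f → T.S g → Iv N f → Iv N g → Iv N (T.Γ f g)
  nb : ∀ (N : Subgroup G) (x : Y) r, IsOpen (Nh N x r) ∧ ∀ g ∈ N, ∀ y, g • y ∈ Nh N x r ↔ y ∈ Nh N x r

/-- the maximum principle and the decay of subsolutions. -/
structure Dif.Mp (c : ℝ) : Prop where
  half : ∀ τ A v y, 0 < τ → τ ≤ 1 / 2 → 0 ≤ A → T.S v →
    (∀ z ∈ ball y (c * √τ), v z ≤ A ∧ v z - τ * T.L v z ≤ 0) → v y ≤ A / 2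
  mp : ∀ τ A v, 0 < τ → τ ≤ 1 / 2 → T.S v → (∀ y, v y ≤ A) → (∀ y, v y - τ * T.L v y ≤ 0) →
    ∀ y, v y ≤ 0
  dec : ∀ τ A v y (k : ℕ), 0 < τ → τ ≤ 1 / 2 → 0 ≤ A → T.S v → (∀ z, v z ≤ A) →
    (∀ z ∈ ball y (k * (c * √τ)), v z - τ * T.L v z ≤ 0) → v y ≤ A / 2 ^ k

/-- the lower bound for supersolutions. -/
def Dif.Hopf (n : ℕ) : Prop := ∀ (κ s Λ A t : ℝ) v (x y : Y), 0 < κ → 0 < s → 0 ≤ t →
  4 / (κ * s) ≤ A → 4 + 16 * (n + 1) / s ^ 2 ≤ A → T.S v →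
  (∀ z, 0 ≤ v z ∧ 0 ≤ v z - κ ^ 2 * T.L v z) → (∀ z ∈ ball x s, t ≤ v z) → dist x y < Λ →
  t * Real.exp (-(64 * A * Λ ^ 2)) / 2 ≤ v y

/-- gradient bounds give Lipschitz bounds. -/
def Dif.Lip : Prop := ∀ u (x y : Y) (r A : ℝ), T.S u → 0 ≤ A → dist x y < r →
  (∀ z ∈ ball x (33 * r), T.Γ u u z ≤ A ^ 2) → |u y - u x| ≤ 50 * A * r

/-- the gradient estimate of Cheng and Yau. -/
def Dif.Cy (r C : ℝ) : Prop := ∀ (κ : ℝ) a (y : Y), 0 < κ → κ ≤ 1 → T.S a →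
  (∀ z ∈ ball y r, T.Γ a a z = 1 + κ * T.L a z) → T.Γ a a y ≤ 1 + C * κ

/-- the measures on the quotients. -/
structure Dif.Mes (G : Type) [Group G] [MulAction G Y] : Prop where
  fin : ∀ (N : Subgroup G) (x : Y) r, T.μ N (Nh N x r) < ⊤
  int : ∀ (N : Subgroup G) (x : Y) r (f : Y → ℝ), Continuous f → Iv N f →
    IntegrableOn f (Nh N x r) (T.μ N) ∧ ((∀ y ∉ Nh N x r, f y = 0) → Integrable f (T.μ N))
  low : ∀ (N : Subgroup G) (A E : Set Y), MeasurableSet A → Iv N (· ∈ A) → E ⊆ T.F₀ →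
    (∀ e ∈ E, ∃ g : G, g • e ∈ A) → T.ν E ≤ T.μ N A
  up : ∀ (N : Subgroup G) (A : Set Y) (Q : ℕ), MeasurableSet A → Iv N (· ∈ A) →
    (∀ (y : Y) (Z : Finset G), (∀ g ∈ Z, g • y ∈ A) →
      (∀ g ∈ Z, ∀ g' ∈ Z, g * g'⁻¹ ∈ N → g = g') → Z.card ≤ Q) → T.μ N A ≤ Q * T.ν T.F₀

/-- the bisector lemma. -/
def Dif.Bis (G : Type) [Group G] [MulAction G Y] (t R C C' : ℝ) : Prop :=
  ∀ (N : Subgroup G) (z : Y) (R' κ δ : ℝ) a a', T.Pr N z t R R' C κ a a' → 0 ≤ κ → 0 < δ →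
    δ ≤ t / 2 → (T.μ N).real {y | |a y - a' y| ≤ δ ∧ a y + a' y ≤ R} ≤
      C' * (δ + κ / δ) * (T.μ N).real (Nh N z R')

end

end

/-- a statement for all diffusions of dimension `n`. -/
def AllD (n : ℕ) (P : ∀ (G Y : Type) [Group G] [MulAction G Y] [MeasurableSpace Y] [MetricSpace Y],
    Dif Y → Prop) : Prop :=
  ∀ (G Y : Type) [Group G] [MulAction G Y] [MeasurableSpace Y] [MetricSpace Y] [ProperSpace Y]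
    [BorelSpace Y] (T : Dif Y), T.Ax G n → P G Y T

def CalD : Prop := ∀ n, AllD n fun G _ _ _ _ _ T => T.Cal ∧ T.Eqi G

def MpS : Prop := ∀ n, ∃ c > (0 : ℝ), AllD n fun _ _ _ _ _ _ T => T.Mp c

def HopfS : Prop := ∀ n, AllD n fun _ _ _ _ _ _ T => T.Hopf n

def LipD : Prop := ∀ n, AllD n fun _ _ _ _ _ _ T => T.Lip

def CyS : Prop := ∀ n, ∀ r > (0 : ℝ), ∃ C ≥ (0 : ℝ), AllD n fun _ _ _ _ _ _ T => T.Cy r C

def MesD : Prop := ∀ n, AllD n fun G _ _ _ _ _ T => T.Mes G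

def BisS : Prop := ∀ n, ∀ t > (0 : ℝ), ∀ R C : ℝ, ∃ C' ≥ (0 : ℝ),
  AllD n fun G _ _ _ _ _ T => T.Bis G t R C C'

/-- the data exist. -/
def VdS : Prop := ∀ n, AllD n fun G Y _ _ _ _ T => ∀ (N : Subgroup G) (z : Y) (r s : ℝ), 0 < s →
  8 * s ≤ r → ∃ κ₀ > (0 : ℝ), ∀ κ, 0 < κ → κ ≤ κ₀ →
    ∃ h h₀ v v₀, T.Vd N (N ⊓ Hs G z r) z s κ h h₀ v v₀

/-- the analytic estimates. -/
def AnS : Prop := ∀ n, ∀ r > (0 : ℝ), ∃ s > (0 : ℝ), 100 * s ≤ r ∧ ∃ t > (0 : ℝ), ∃ C : ℝ,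
  ∀ R : ℝ, ∃ R' : ℝ, ∃ κ₀ > (0 : ℝ), AllD n fun G Y _ _ _ _ T => ∀ (N : Subgroup G) (z : Y) κ h h₀ v v₀,
    0 < κ → κ ≤ κ₀ → T.Vd N (N ⊓ Hs G z r) z s κ h h₀ v v₀ → ¬ N ≤ Hs G z r →
    (∀ y, 0 < v y ∧ v y < v₀ y) ∧
    (∀ g ∈ N, g ∉ Hs G z r → ∀ y, v (g • y) ≤ v₀ y - v y) ∧
    T.Pr (N ⊓ Hs G z r) z t R R' C κ (fun y => -κ * Real.log (v y))
      (fun y => -κ * Real.log (v₀ y - v y)) ∧
    ∀ y ∉ Nh N z (4 * s), T.Γ (fun y => -κ * Real.log (v y) - -κ * Real.log (v₀ y - v y))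
      (fun y => -κ * Real.log (v y) - -κ * Real.log (v₀ y - v y)) y ≤ 16

/-- every connected orbit meets the bisector. -/
def SgS : Prop := ∀ (n m : ℕ) (C D r s : ℝ), 0 < s → 100 * s ≤ r → ∃ R : ℝ, ∀ η > (0 : ℝ),
  ∃ κ₀ > (0 : ℝ), AllD n fun G Y _ _ _ _ T => Geo G Y C m (1 / 2) D →
    ∀ (N : Subgroup G) (z x : Y) (r' κ : ℝ) h h₀ v v₀, 0 < κ → κ ≤ κ₀ →
    T.Vd N (N ⊓ Hs G z r) z s κ h h₀ v v₀ → ¬ N ≤ Hs G z r → (∀ y, 0 < v y ∧ v y < v₀ y) →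
    (∀ g ∈ N, g ∉ Hs G z r → ∀ y, v (g • y) ≤ v₀ y - v y) →
    (∀ y ∉ Nh N z (4 * s), T.Γ (fun y => -κ * Real.log (v y) - -κ * Real.log (v₀ y - v y))
      (fun y => -κ * Real.log (v y) - -κ * Real.log (v₀ y - v y)) y ≤ 16) →
    dist x z < 2 * D + 3 → 0 < r' → r' ≤ s / 2 → r' ≤ 1 → Hs G x r' = N →
    ∃ g ∈ N, |-κ * Real.log (v (g • x)) - -κ * Real.log (v₀ (g • x) - v (g • x))| ≤ 200 * r' + η ∧
      -κ * Real.log (v (g • x)) + -κ * Real.log (v₀ (g • x) - v (g • x)) ≤ R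

/-- the propagation theorem. -/
def PropS : Prop := ∀ (n m : ℕ) (C D r θ : ℝ), 0 < r → r ≤ 1 → 0 < θ → ∃ φ > (0 : ℝ), φ ≤ r / 2 ∧
  AllD n fun G Y _ _ _ _ T => Geo G Y C m (1 / 2) D → ∀ (x z : Y) (E : Set Y),
    dist x z ≤ 2 * D + 1 → E ⊆ T.F₀ → θ * T.ν.real T.F₀ ≤ T.ν.real E →
    (∀ e ∈ E, ∃ g : G, dist x (g • e) < r ∧ Hs G (g • e) φ = Hs G x r) → Hs G x r ≤ Hs G z r

end Pool.Agent.Lib.MP_813db1_ag.NS
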