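import Pool.Agent.Lib.MP_813db1_ag.NS.Bs
import Pool.Agent.Lib.MP_813db1_ag.NS.Dif

/-! The base layer, second part: calculus, the measure on the covering space, volume ratios. -/

namespace Pool.Agent.Lib.MP_813db1_ag.NS

open Pool.Agent.Lib.MP_813db1_ag.HS Pool.Agent.Lib.MP_813db1_ag.AS Pool.Agent.Lib.MP_813db1_ag.AN
open Pool.Agent.Lib.MP_bbd4b9_ag.LC
open MeasureTheory Complex Matrix Filter Topology Set Metric
open scoped ComplexOrder ContDiff ENNReal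

variable {ι X Y G : Type} [Fintype ι] [DecidableEq ι]

/-- the rules of calculus. -/
structure CalB [TopologicalSpace Y] (N : Atl ι Y) (g : Y → Mat ι) : Prop where
  s_add : ∀ f k, N.Ck ∞ f → N.Ck ∞ k → N.Ck ∞ fun y => f y + k y
  s_mul : ∀ f k, N.Ck ∞ f → N.Ck ∞ k → N.Ck ∞ fun y => f y * k y
  s_const : ∀ a : ℝ, N.Ck ∞ fun _ => a
  s_comp : ∀ (Φ : ℝ → ℝ) f, N.Ck ∞ f → (∀ y, ContDiffAt ℝ ∞ Φ (f y)) → N.Ck ∞ fun y => Φ (f y)
  s_L : ∀ f, N.Ck ∞ f → N.Ck ∞ (N.lap g f)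
  s_Γ : ∀ f k, N.Ck ∞ f → N.Ck ∞ k → N.Ck ∞ (N.grad g f k)
  s_cont : ∀ f, N.Ck ∞ f → Continuous f
  Γ_comm : ∀ f k y, N.grad g f k y = N.grad g k f y
  Γ_nn : ∀ f y, 0 ≤ N.grad g f f y
  Γ_add : ∀ f f' k y, N.Ck ∞ f → N.Ck ∞ f' → N.Ck ∞ k →
    N.grad g (fun z => f z + f' z) k y = N.grad g f k y + N.grad g f' k y
  Γ_mul : ∀ f f' k y, N.Ck ∞ f → N.Ck ∞ f' → N.Ck ∞ k →
    N.grad g (fun z => f z * f' z) k y = f y * N.grad g f' k y + f' y * N.grad g f k y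
  Γ_comp : ∀ (Φ : ℝ → ℝ) f k y, N.Ck ∞ f → N.Ck ∞ k → ContDiffAt ℝ ∞ Φ (f y) →
    N.grad g (fun z => Φ (f z)) k y = deriv Φ (f y) * N.grad g f k y
  L_add : ∀ f k y, N.Ck ∞ f → N.Ck ∞ k →
    N.lap g (fun z => f z + k z) y = N.lap g f y + N.lap g k y
  L_mul : ∀ f k y, N.Ck ∞ f → N.Ck ∞ k →
    N.lap g (fun z => f z * k z) y = f y * N.lap g k y + k y * N.lap g f y + 2 * N.grad g f k y
  L_comp : ∀ (Φ : ℝ → ℝ) f y, N.Ck ∞ f → ContDiffAt ℝ ∞ Φ (f y) →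
    N.lap g (fun z => Φ (f z)) y =
      deriv Φ (f y) * N.lap g f y + deriv (deriv Φ) (f y) * N.grad g f f y
  max : ∀ f y, N.Ck ∞ f → IsLocalMax f y →
    N.lap g f y ≤ 0 ∧ ∀ k, N.Ck ∞ k → N.grad g f k y = 0
  L_loc : ∀ f k y, f =ᶠ[𝓝 y] k → N.lap g f y = N.lap g k y
  Γ_loc : ∀ f f' k y, f =ᶠ[𝓝 y] f' → N.grad g f k y = N.grad g f' k y

/-- `ν` counts the points of the fibres. -/
def Cnt [MeasurableSpace X] [MeasurableSpace Y] (μ : Measure X) (p : Y → X) (ν : Measure Y) :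
    Prop := ∀ A, MeasurableSet A → ν A = ∫⁻ x, ((A ∩ p ⁻¹' {x}).encard : ℝ≥0∞) ∂μ

/-- the measure on the covering space and a fundamental domain. -/
structure Msr [MeasurableSpace X] [MeasurableSpace Y] [PseudoMetricSpace Y] (G : Type) [Group G]
    [MulAction G Y] (μ : Measure X) (p : Y → X) (s : X → Y) (ν : Measure Y) (F₀ : Set Y) :
    Prop where
  sec : ∀ x, p (s x) = x
  cnt : Countable G
  inv : ∀ (γ : G) (A : Set Y), MeasurableSet A → ν ((fun y => γ • y) ⁻¹' A) = ν A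
  meas : MeasurableSet F₀
  uniq : ∀ y : Y, ∃! γ : G, γ • y ∈ F₀
  bd : Bornology.IsBounded F₀
  vol : ν F₀ = μ univ
  fib : Cnt μ p ν
  int : ∀ (P : Subgroup G) F, Cc P F →
    ∫ y, F y ∂(ν.restrict {y | ∃ c : G ⧸ P, c.out • y ∈ F₀}) = IP μ s P F

/-- calculus. -/
def CalY : Prop := ∀ (ι Y : Type) [Fintype ι] [DecidableEq ι] [TopologicalSpace Y] (N : Atl ι Y)
  (g : Y → Mat ι), N.IsK g → CalB N g

/-- the measure exists. -/
def MeasY : Prop := ∀ (ι X Y G : Type) [Fintype ι] [DecidableEq ι] [TopologicalSpace X]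
  [T2Space X] [CompactSpace X] [Nonempty X] [MeasurableSpace X] [BorelSpace X] [MetricSpace Y]
  [MeasurableSpace Y] [BorelSpace Y] [Group G] [MulAction G Y] (M : Atl ι X) (H : X → Mat ι)
  (μ : Measure X) (p : Y → X) (N : Atl ι Y) (g : Y → Mat ι) (S : St N g), Lk M H p S →
  IsQuotientCoveringMap p G → Prp G Y → Act S G → IsFiniteMeasure μ →
  ∃ s ν F₀, Msr G μ p s ν F₀

/-- bump functions with a thin collar. -/
def Bump2 : Prop := ∀ (ι Y G : Type) [Fintype ι] [DecidableEq ι] [MetricSpace Y] [Group G]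
  [MulAction G Y] (N : Atl ι Y) (g : Y → Mat ι) (S : St N g), Prp G Y → Act S G → Eqv N g G →
  ∀ (P : Subgroup G) (z : Y) (r η : ℝ), 0 < η → ∃ b : Y → ℝ, N.Ck ∞ b ∧ Iv P b ∧
    (∀ y, 0 ≤ b y ∧ b y ≤ 1) ∧ (∀ y ∈ Nh P z r, b y = 1) ∧ ∀ y ∉ Nh P z (r + η), b y = 0

/-- the volume comparison. -/
def BgS : Prop := ∀ (ι : Type) [Fintype ι] [DecidableEq ι] [Nonempty ι], ∃ Cv ≥ (0 : ℝ),
  ∀ (X Y G : Type) [TopologicalSpace X] [T2Space X] [CompactSpace X] [MeasurableSpace X]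
  [BorelSpace X] [PseudoMetricSpace Y] [MeasurableSpace Y] [BorelSpace Y] [Group G]
  [MulAction G Y] (M : Atl ι X) (H : X → Mat ι) (c : X → X → ℝ) (a : X → X → G) (δ : ℝ)
  (p : Y → X) (γ : Y → G) [PseudoMetricSpace (Tot X G)] (μ : Measure X) (ν : Measure Y),
  M.IsK H → Cost M H c → (∀ x, (M.ricF H x + (((48 ^ 2 : ℝ)⁻¹ : ℝ) : ℂ) • H x).PosSemidef) →
  (∀ x, Coh a x) → DM c a δ → Function.Bijective (fun y => (p y, γ y)) →
  (∀ y y', dist y y' = dist (Tot.mk (p y) (γ y)) (Tot.mk (p y') (γ y'))) → M.IsVol H μ →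
  Cnt μ p ν → ∀ (y : Y) (s R : ℝ), 0 < s → s ≤ R → R ≤ 1 →
    ν (ball y R) ≤ ENNReal.ofReal (Cv * (R / s) ^ (2 * Fintype.card ι)) * ν (ball y s)

end Pool.Agent.Lib.MP_813db1_ag.NS
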