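import Pool.Agent.Lib.MP_bbd4b9_ag.AR.AlgA
import Pool.Agent.Lib.MP_bbd4b9_ag.GR.Nil1
import Pool.Agent.Lib.MP_bbd4b9_ag.HR.Mc
import Pool.Agent.Lib.MP_813db1_ag.AS.Rk

/-! The real cohomology of a virtually nilpotent group vanishes above the rank. -/

namespace Pool.Agent.Lib.MP_813db1_ag.NS.Cd

open Subgroup Pool.Agent.Lib.MP_bbd4b9_ag Pool.Agent.Lib.MP_813db1_ag.AS
open scoped Classical

variable {G : Type} {b : ℕ}

/-- the coboundary. -/
def dl (x : (Fin b → G) → ℝ) (u : Fin (b + 1) → G) : ℝ :=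
  ∑ i : Fin (b + 1), (-1) ^ (i : ℕ) * x fun j => u (i.succAbove j)

theorem dl_cons (x : (Fin (b + 1) → G) → ℝ) (a : G) (u : Fin (b + 1) → G) :
    dl x (Fin.cons a u) = x u - dl (fun v : Fin b → G => x (Fin.cons a v)) u := by
  rw [dl, Fin.sum_univ_succ, dl, sub_eq_add_neg, ← Finset.sum_neg_distrib]
  congr 1
  · simp
  · refine Finset.sum_congr rfl fun i _ => ?_
    rw [Fin.val_succ, pow_succ, mul_neg_one, neg_mul]
    congr 3
    funext j
    refine Fin.cases ?_ (fun j => ?_) j <;> simp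

theorem dl_sub (x y : (Fin b → G) → ℝ) (u : Fin (b + 1) → G) :
    dl (fun v => x v - y v) u = dl x u - dl y u := by
  simp only [dl, mul_sub, Finset.sum_sub_distrib]

theorem dl_dl : ∀ {b : ℕ} (x : (Fin b → G) → ℝ) (u : Fin (b + 2) → G), dl (dl x) u = 0
  | 0, x, u => by
    simp only [dl, Fin.sum_univ_succ, Finset.univ_eq_empty, Finset.sum_empty]
    rw [Subsingleton.elim (fun j : Fin 0 => u _) (fun j => u (Fin.succAbove 0 (Fin.succAbove 0 j)))]
    simp [Subsingleton.elim (α := Fin 0 → G) _ (fun _ => u 0)]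
  | b + 1, x, u => by
    rw [← Fin.cons_self_tail u, dl_cons]
    simp only [dl_cons]
    rw [dl_sub, dl_dl]
    ring

variable [Group G]

/-- the elements that fix a cochain. -/
def St (x : (Fin b → G) → ℝ) : Subgroup G where
  carrier := {g | ∀ u, x (fun i => g * u i) = x u}
  one_mem' u := by simp
  mul_mem' {g h} p q u := by
    simp only [mul_assoc]
    exact (p fun i => h * u i).trans (q u)
  inv_mem' {g} p u := by simpa using (p fun i => g⁻¹ * u i).symm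

theorem st_dl {x : (Fin b → G) → ℝ} : St x ≤ St (dl x) := fun _ p u =>
  Finset.sum_congr rfl fun i _ => congrArg _ (p fun j => u (i.succAbove j))

/-- the vanishing in degree `b + 1`. -/
def Van (Γ : Subgroup G) (b : ℕ) : Prop := ∀ y : (Fin (b + 2) → G) → ℝ, Γ ≤ St y →
  (∀ u, dl y u = 0) → ∃ x : (Fin (b + 1) → G) → ℝ, Γ ≤ St x ∧ ∀ u, dl x u = y u

theorem van_bot : Van (⊥ : Subgroup G) b := fun y _ h =>
  ⟨fun v => y (Fin.cons 1 v), bot_le, fun u => by
    have := h (Fin.cons 1 u)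
    rw [dl_cons] at this
    linarith⟩

theorem van_fi {H Γ : Subgroup G} (le : H ≤ Γ) (fi : H.relIndex Γ ≠ 0) (h : Van H b) :
    Van Γ b := fun y h1 h2 => by
  obtain ⟨x, x1, x2⟩ := h y (le.trans h1) h2
  have : (H.subgroupOf Γ).FiniteIndex := ⟨fi⟩
  have := Fintype.ofFinite (Γ ⧸ H.subgroupOf Γ)
  let F : (Γ ⧸ H.subgroupOf Γ) → (Fin (b + 1) → G) → ℝ := fun q u =>
    Quotient.liftOn' q (fun γ : Γ => x fun i => (γ : G)⁻¹ * u i) fun γ γ' e => by
      have := x1 (inv_mem (mem_subgroupOf.1 (QuotientGroup.leftRel_apply.1 e)))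
        fun i => (γ : G)⁻¹ * u i
      simpa [mul_assoc] using this.symm
  have n0 : (Fintype.card (Γ ⧸ H.subgroupOf Γ) : ℝ) ≠ 0 := by
    exact_mod_cast Fintype.card_ne_zero
  refine ⟨fun u => (∑ q, F q u) / Fintype.card (Γ ⧸ H.subgroupOf Γ), fun g hg u => ?_, fun u => ?_⟩
  · show (∑ q, F q _) / _ = (∑ q, F q u) / _
    rw [← Equiv.sum_comp (MulAction.toPerm (⟨g, hg⟩ : Γ))]
    congr 2
    funext q
    induction q using QuotientGroup.induction_on with
    | H γ =>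
      show x (fun i => ((⟨g, hg⟩ * γ : Γ) : G)⁻¹ * (g * u i)) = x fun i => (γ : G)⁻¹ * u i
      simp [mul_assoc]
  · have : ∀ q, dl (F q) u = y u := fun q => by
      induction q using QuotientGroup.induction_on with
      | H γ => exact (x2 fun i => (γ : G)⁻¹ * u i).trans (h1 (inv_mem γ.2) u)
    rw [eq_comm, ← mul_div_cancel_left₀ (y u) n0, ← nsmul_eq_mul, ← Finset.card_univ,
      ← Finset.sum_const, ← Finset.sum_congr rfl fun q _ => this q]
    simp only [dl]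
    rw [Finset.sum_comm, Finset.sum_div]
    exact Finset.sum_congr rfl fun i _ => by rw [← Finset.mul_sum, mul_div_assoc]

theorem exS : ∃ S : (ℤ → ℝ) → ℤ → ℝ, ∀ a n, S a (n + 1) = S a n + a n := by
  refine ⟨fun a n => Int.rec (fun k => ∑ j ∈ Finset.range k, a j)
    (fun k => -∑ j ∈ Finset.range (k + 1), a (Int.negSucc j)) n, fun a n => ?_⟩
  rcases n with k | _ | k
  · exact Finset.sum_range_succ (fun j => a j) k
  · show ∑ j ∈ Finset.range 0, a j = -∑ j ∈ Finset.range 1, a (Int.negSucc j) + _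
    simp
  · show -∑ j ∈ Finset.range (k + 1), a (Int.negSucc j) =
      -∑ j ∈ Finset.range (k + 1 + 1), a (Int.negSucc j) + _
    rw [Finset.sum_range_succ _ (k + 1)]
    ring

section Wang

variable {K Γ : Subgroup G} {φ : Γ →* Multiplicative ℤ} {τ : Γ}
  (hK : ∀ g, g ∈ K ↔ ∃ h : g ∈ Γ, φ ⟨g, h⟩ = 1) (hτ : φ τ = Multiplicative.ofAdd 1)

include hK

theorem shift {x : (Fin b → G) → ℝ} (h : K ≤ St x) (γ : Γ) :
    K ≤ St fun u => x fun i => γ * u i := fun g hg u => by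
  obtain ⟨a, c⟩ := (hK g).1 hg
  have := h ((hK _).2 ⟨(γ * ⟨g, a⟩ * γ⁻¹).2, by
    show φ (γ * ⟨g, a⟩ * γ⁻¹) = 1
    simp [c]⟩) fun i => γ * u i
  simpa [mul_assoc] using this

include hτ

theorem solve {w : (Fin (b + 1) → G) → ℝ} (h : K ≤ St w) : ∃ f : (Fin (b + 1) → G) → ℝ,
    K ≤ St f ∧ ∀ u, f (fun i => τ * u i) - f u = w u := by
  obtain ⟨S, hS⟩ := exS
  have m : ∀ g : G, g * ((g⁻¹ : G) : G ⧸ Γ).out ∈ Γ := fun g => by
    obtain ⟨c, hc⟩ := QuotientGroup.mk_out_eq_mul Γ g⁻¹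
    rw [hc, mul_inv_cancel_left]
    exact c.2
  obtain ⟨ht, e⟩ : ∃ ht : G → ℤ, ∀ (c : Γ) g, ht (c * g) = (φ c).toAdd + ht g :=
    ⟨fun g => (φ ⟨_, m g⟩).toAdd, fun c g => by
      rw [← toAdd_mul, ← map_mul]
      refine congrArg (fun z => (φ z).toAdd) (Subtype.ext ?_)
      have : (((c * g)⁻¹ : G) : G ⧸ Γ) = (g⁻¹ : G) := QuotientGroup.eq.2 (by simp)
      simp only [this, mul_assoc, coe_mul]⟩
  refine ⟨fun u => S (fun j => w fun i => (τ ^ (j - ht (u 0)) : Γ) * u i) (ht (u 0)),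
    fun g hg u => ?_, fun u => ?_⟩
  · obtain ⟨a, c⟩ := (hK g).1 hg
    have := e ⟨g, a⟩ (u 0)
    rw [c, toAdd_one, zero_add] at this
    show S _ (ht (g * u 0)) = _
    simp only [show ht (g * u 0) = ht (u 0) from this]
    congr 1
    funext j
    exact shift hK h _ hg u
  · have := e τ (u 0)
    rw [hτ, toAdd_ofAdd, add_comm (1 : ℤ)] at this
    simp only [this, hS]
    have e2 : ∀ j i, ((τ ^ (j - (ht (u 0) + 1)) : Γ) : G) * (τ * u i) =
        (τ ^ (j - ht (u 0)) : Γ) * u i := fun j i => by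
      rw [← mul_assoc, ← coe_mul, ← zpow_add_one]
      congr 3
      ring
    simp only [e2]
    simp

theorem wang (h1 : Van K b) (h2 : Van K (b + 1)) : Van Γ (b + 1) := fun y y1 y2 => by
  have le : K ≤ Γ := fun g hg => ((hK g).1 hg).1
  obtain ⟨e, e1, e2⟩ := h2 y (le.trans y1) y2
  obtain ⟨w, w1, w2⟩ := h1 (fun u => e (fun i => τ * u i) - e u)
    (fun g hg u => congrArg₂ _ (shift hK e1 τ hg u) (e1 hg u)) fun u => by
      rw [dl_sub, e2, sub_eq_zero]
      exact (e2 fun i => τ * u i).trans (y1 τ.2 u)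
  obtain ⟨f, f1, f2⟩ := solve hK hτ w1
  refine ⟨fun u => e u - dl f u, fun g hg => ?_, fun u => by rw [dl_sub, dl_dl, e2, sub_zero]⟩
  have a : K ≤ St fun u => e u - dl f u := fun g hg u => congrArg₂ _ (e1 hg u) (st_dl (f1 hg) u)
  have c : (τ : G) ∈ St fun u => e u - dl f u := fun u => by
    have p := dl_sub (fun v => f fun i => τ * v i) f u
    simp only [f2] at p
    have q : dl f (fun i => τ * u i) = dl (fun v => f fun i => τ * v i) u := rfl
    have r := w2 u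
    show e _ - dl f _ = e u - dl f u
    linarith
  obtain ⟨n, hn⟩ : ∃ n, n = (φ ⟨g, hg⟩).toAdd := ⟨_, rfl⟩
  have := mul_mem (a ((hK _).2 ⟨(⟨g, hg⟩ * τ ^ (-n)).2, by
    show φ (⟨g, hg⟩ * τ ^ (-n)) = 1
    rw [map_mul, map_zpow, hτ, ← ofAdd_zsmul, hn]
    simp⟩)) (zpow_mem c n)
  simpa using this

end Wang

theorem sub {N P : Subgroup G} (h1 : N.FG) (h2 : Group.IsVirtuallyNilpotent N) (le : P ≤ N) :
    P.FG ∧ Group.IsVirtuallyNilpotent P :=
  ⟨(HR.Fp.fg_sub le).1 (AR.AlgA.vnil_fg ((Group.fg_iff_subgroup_fg N).2 h1) h2 _),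
    HR.Mc.surj (subgroupOfEquivOfLe le).toMonoidHom (MulEquiv.surjective _)
      (AR.AlgA.vnil_sub h2 _)⟩

theorem van (h : ℕ) : ∀ Γ : Subgroup G, Γ.FG → Group.IsVirtuallyNilpotent Γ → Rk Γ h →
    ∀ b, h ≤ b → Van Γ b := by
  have fin : ∀ Γ : Subgroup G, (⊥ : Subgroup G).relIndex Γ ≠ 0 → ∀ b, Van Γ b := fun Γ e b =>
    van_fi bot_le e van_bot
  induction h with
  | zero => exact fun Γ _ _ r b _ => fin Γ (fun e => (rkS.lt G Γ ⊥ 0 bot_le e).2 r) b
  | succ h ih =>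
    intro Γ fg vn r b hb
    by_cases e : (⊥ : Subgroup G).relIndex Γ = 0
    swap
    · exact fin Γ e b
    have inf : Infinite Γ := by
      rw [relIndex_bot_left] at e
      exact (Nat.card_eq_zero.1 e).resolve_left (by simp)
    obtain ⟨H, H1, φ, H2⟩ := GR.Nil1.vind Γ ((Group.fg_iff_subgroup_fg Γ).2 fg) inf vn
    have l1 : H.map Γ.subtype ≤ Γ := map_subtype_le H
    have i1 : (H.map Γ.subtype).relIndex Γ ≠ 0 := by
      rw [relIndex, subgroupOf, comap_map_eq_self_of_injective Γ.subtype_injective]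
      exact H1.index_ne_zero
    obtain ⟨ψ, hψ⟩ : ∃ ψ : H.map Γ.subtype →* Multiplicative ℤ, Function.Surjective ψ :=
      ⟨φ.comp (H.equivMapOfInjective Γ.subtype Γ.subtype_injective).symm.toMonoidHom,
        H2.comp (MulEquiv.surjective _)⟩
    generalize H.map Γ.subtype = Λ at l1 i1 ψ hψ
    obtain ⟨τ, hτ⟩ := hψ (Multiplicative.ofAdd 1)
    have l2 : ψ.ker.map Λ.subtype ≤ Λ := map_subtype_le _
    have i2 : (ψ.ker.map Λ.subtype).relIndex Γ = 0 := by
      rw [← relIndex_mul_relIndex _ _ _ l2 l1, relIndex, subgroupOf,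
        comap_map_eq_self_of_injective Λ.subtype_injective, index_ker,
        MonoidHom.range_eq_top.2 hψ, card_top, Nat.card_eq_zero_of_infinite, zero_mul]
    obtain ⟨s1, s2⟩ := sub fg vn (l2.trans l1)
    have v := ih _ s1 s2 ((rkS.lt G Γ _ h (l2.trans l1) i2).1 r)
    obtain ⟨b, rfl⟩ : ∃ c, b = c + 1 := ⟨b - 1, by omega⟩
    refine van_fi l1 i1 (wang (K := ψ.ker.map Λ.subtype) (φ := ψ) (fun g => ⟨?_, fun ⟨a, c⟩ => ⟨⟨g, a⟩, c, rfl⟩⟩) hτ
      (v b (by omega)) (v (b + 1) (by omega)))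
    rintro ⟨a, c, rfl⟩
    exact ⟨a.2, c⟩

/-- the vanishing for every subgroup that is virtually contained in `Γ`. -/
theorem cd {Γ Γ' : Subgroup G} {h : ℕ} (fg : Γ.FG) (vn : Group.IsVirtuallyNilpotent Γ)
    (r : Rk Γ h) (le : Γ.relIndex Γ' ≠ 0) (hb : h ≤ b) (y : (Fin (b + 2) → G) → ℝ)
    (y1 : ∀ g ∈ Γ', ∀ u, y (fun i => g * u i) = y u)
    (y2 : ∀ u : Fin (b + 3) → G,
      ∑ i : Fin (b + 3), (-1) ^ (i : ℕ) * y (fun j => u (i.succAbove j)) = 0) :
    ∃ x : (Fin (b + 1) → G) → ℝ, (∀ g ∈ Γ', ∀ u, x (fun i => g * u i) = x u) ∧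
      ∀ u : Fin (b + 2) → G,
        ∑ i : Fin (b + 2), (-1) ^ (i : ℕ) * x (fun j => u (i.succAbove j)) = y u := by
  obtain ⟨s1, s2⟩ := sub fg vn (inf_le_left : Γ ⊓ Γ' ≤ Γ)
  exact van_fi inf_le_right (by rwa [inf_relIndex_right])
    (van h _ s1 s2 (rkS.virt G Γ _ h ((relIndex_eq_one.2 inf_le_left).trans_ne one_ne_zero) r) b hb)
    y y1 y2

end Pool.Agent.Lib.MP_813db1_ag.NS.Cd
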