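import Pool.Agent.Lib.MP_813db1_ag.NS.Win

/-! The glue statement: the normal Margulis subgroup on an abstract nonempty space. -/

namespace Pool.Agent.Lib.MP_813db1_ag.NS

open Pool.Agent.Lib.MP_813db1_ag.AS Pool.Agent.Lib.MP_bbd4b9_ag

/-- the glue statement. -/
def GluS : Prop := ∀ (n m : ℕ) (C D Cv : ℝ), 0 < Cv → ∃ w > (0 : ℝ), ∃ N₀ : ℕ,
  AllD n fun G Y _ _ _ _ T => Nonempty Y → Geo G Y C m (1 / 2) D → BG T.ν Cv m → NC G Y m →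
    Group.FG G ∧ (∃ z : Fin N₀ → Y, ∀ y, ∃ (i : Fin N₀) (g : G), dist (z i) (g • y) < w) ∧
    ∃ N : Subgroup G, N.FG ∧ Group.IsVirtuallyNilpotent N ∧ N.Normal ∧
      ∀ y : Y, N.relIndex (Hs G y (10 * w)) ≠ 0

theorem gluS (hP : PropS) : GluS := fun n m C D Cv v0 => by
  obtain ⟨w, w0, N₀, h⟩ := nsM hP n m C D Cv v0
  exact ⟨w, w0, N₀, fun G Y _ _ _ _ _ _ T ax _ => h G Y T ax⟩

end Pool.Agent.Lib.MP_813db1_ag.NS
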