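import Pool.Agent.Lib.MP_813db1_ag.NS.Bs

/-! The integral over a quotient of the covering space. -/

namespace Pool.Agent.Lib.MP_813db1_ag.NS

open Pool.Agent.Lib.MP_813db1_ag.HS Pool.Agent.Lib.MP_813db1_ag.AS Pool.Agent.Lib.MP_813db1_ag.AN
open MeasureTheory Filter Topology Set Metric

theorem igS (h : FibS) : IgS := by
  intro ι X Y G _ _ _ _ _ _ _ _ _ _ M H μ p s N g S l hp hs hP hA hμ P
  have hf := h ι X Y G M H p s N g S l hp hs hP hA P
  have fin : ∀ F : Y → ℝ, Cc P F → ∀ x,
      Function.HasFiniteSupport fun q : G ⧸ P => F ((Quotient.out q)⁻¹ • s x) := by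
    intro F c x
    obtain ⟨z, R, hz⟩ := c.supp
    exact ((hf z R).1 x).subset fun q hq => hz _ hq
  have cont : ∀ F : Y → ℝ, Cc P F → Continuous (fs s P F) := by
    intro F c
    obtain ⟨z, R, hz⟩ := c.supp
    obtain ⟨r, -, r1, hr⟩ := hA.rad
    refine continuous_iff_continuousAt.2 fun x => ?_
    obtain ⟨k, k1, k2⟩ := hr (s x)
    obtain ⟨T, -, hT⟩ := (hf z R).2 (S.ty k)
    have w3 : S.c k (s x) ∈ ball (0 : V ι) 3 := mem_ball_zero_iff.2 (by linarith)
    have w4 : S.c k (s x) ∈ ball (0 : V ι) 4 := mem_ball_zero_iff.2 (by linarith)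
    have e := l.pr k _ w4
    rw [(S.c k).left_inv k1, hs] at e
    have t4 : S.c k (s x) ∈ (l.e (S.ty k)).target := l.tgt _ ▸ w4
    have x1 : x ∈ (l.e (S.ty k)).source := e ▸ (l.e (S.ty k)).map_target t4
    have x2 : l.e (S.ty k) x = S.c k (s x) := by
      conv_lhs => rw [e]
      exact (l.e (S.ty k)).right_inv t4
    have ce := (l.e (S.ty k)).continuousAt x1
    refine ContinuousAt.congr (f := fun x' => ∑ j ∈ T, F ((S.c j).symm (l.e (S.ty k) x')))
      (tendsto_finsetSum _ fun j _ => c.cont.continuousAt.comp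
        (ContinuousAt.comp ((S.c j).continuousAt_symm (by rw [S.tgt, x2]; exact w4)) ce)) ?_
    filter_upwards [(l.e (S.ty k)).open_source.mem_nhds x1,
      ce.eventually (isOpen_ball.mem_nhds (x2 ▸ w3))] with x' a1 a2
    rw [← hT F c.inv hz _ a2, (l.e (S.ty k)).left_inv a1]
  have int : ∀ F : Y → ℝ, Cc P F → Integrable (fs s P F) μ := fun F c =>
    (cont F c).integrable_of_hasCompactSupport (HasCompactSupport.of_compactSpace _)
  refine ⟨fun F F' c c' => ?_, fun a F _ => ?_, fun F F' c c' hle => ?_,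
    fun F E c h0 hE => ?_, fun F Q c h1 hQ => ?_⟩
  · rw [IP, IP, IP, ← integral_add (int F c) (int F' c')]
    exact integral_congr_ae (Eventually.of_forall fun x =>
      finsum_add_distrib (fin F c x) (fin F' c' x))
  · rw [IP, IP, ← integral_const_mul]
    exact integral_congr_ae (Eventually.of_forall fun x => (mul_finsum _ a).symm)
  · exact integral_mono (int F c) (int F' c') fun x =>
      finsum_le_finsum' (fin F c x) (fin F' c' x) fun q => hle _
  · have h2 := mul_meas_ge_le_integral_of_nonneg (μ := μ) (f := fs s P F)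
      (Eventually.of_forall fun x => finsum_nonneg fun q => h0 _) (int F c) 1
    rw [one_mul] at h2
    refine (measureReal_mono fun x hx => ?_).trans h2
    obtain ⟨y, y1, y2⟩ := hE x hx
    obtain ⟨γ, rfl⟩ := hp.apply_eq_iff_mem_orbit.1 (y1.trans (hs x).symm)
    obtain ⟨n, hn⟩ := QuotientGroup.mk_out_eq_mul P γ⁻¹
    refine le_trans ?_ (single_le_finsum (QuotientGroup.mk γ⁻¹ : G ⧸ P) (fin F c x) fun q => h0 _)
    rw [hn, mul_inv_rev, inv_inv, mul_smul, c.inv _ (P.inv_mem n.2)]
    exact y2
  · classical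
    have h2 : ∀ x, fs s P F x ≤ Q := fun x => by
      have inj : Function.Injective fun q : G ⧸ P => (Quotient.out q)⁻¹ := fun q q' e =>
        Quotient.out_injective (inv_injective e)
      have h3 := hQ (s x) ((fin F c x).toFinset.image fun q => (Quotient.out q)⁻¹)
        (fun γ hγ => by
          obtain ⟨q, hq, rfl⟩ := Finset.mem_image.1 hγ
          exact (fin F c x).mem_toFinset.1 hq)
        (fun γ hγ γ' hγ' e => by
          obtain ⟨q, -, rfl⟩ := Finset.mem_image.1 hγ
          obtain ⟨q', -, rfl⟩ := Finset.mem_image.1 hγ'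
          rw [inv_inv, ← QuotientGroup.eq, QuotientGroup.out_eq', QuotientGroup.out_eq'] at e
          rw [e])
      replace h3 := (Finset.card_image_of_injective _ inj).ge.trans h3
      rw [fs, finsum_eq_sum _ (fin F c x)]
      refine (Finset.sum_le_card_nsmul _ _ 1 fun q _ => h1 _).trans ?_
      rw [nsmul_eq_mul, mul_one]
      exact_mod_cast h3
    refine (integral_mono (int F c) (integrable_const (Q : ℝ)) h2).trans ?_
    rw [integral_const, smul_eq_mul, mul_comm]

end Pool.Agent.Lib.MP_813db1_ag.NS
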