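import Pool.Agent.Lib.MP_813db1_ag.NS.Bs2

/-! The measure on the covering space and a fundamental domain. -/

namespace Pool.Agent.Lib.MP_813db1_ag.NS

open MeasureTheory Filter Topology Set Metric
open scoped ENNReal

namespace MeasYa

variable {X Y G : Type} [TopologicalSpace X] [MeasurableSpace X] [BorelSpace X] [MetricSpace Y]
  [MeasurableSpace Y] [BorelSpace Y] [Group G] [MulAction G Y] {p : Y → X}

theorem sec [CompactSpace X] [Nonempty X] (hp : IsQuotientCoveringMap p G) :
    ∃ s : X → Y, Measurable s ∧ (∀ x, p (s x) = x) ∧ Bornology.IsBounded (range s) := by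
  classical
  have hs := hp.toIsQuotientMap.surjective
  obtain ⟨y0, -⟩ := hs (Classical.arbitrary X)
  have key : ∃ s : X → Y, ∃ U : Set X, univ ⊆ U ∧ MeasurableSet U ∧ Measurable s ∧
      (∀ x ∈ U, p (s x) = x) ∧ Bornology.IsBounded (range s) := by
    refine isCompact_univ.induction_on (p := fun A => ∃ s : X → Y, ∃ U : Set X, A ⊆ U ∧
      MeasurableSet U ∧ Measurable s ∧ (∀ x ∈ U, p (s x) = x) ∧ Bornology.IsBounded (range s))
      ⟨fun _ => y0, ∅, Subset.rfl, MeasurableSet.empty, measurable_const, fun _ h => h.elim,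
        Bornology.isBounded_singleton.subset range_const_subset⟩ ?_ ?_ ?_
    · rintro A B hAB ⟨s, U, h1, h2⟩
      exact ⟨s, U, hAB.trans h1, h2⟩
    · rintro A B ⟨s, U, h1, h2, h3, h4, h5⟩ ⟨s', U', k1, k2, k3, k4, k5⟩
      refine ⟨U.piecewise s s', U ∪ U', union_subset_union h1 k1, h2.union k2,
        Measurable.piecewise h2 h3 k3, fun x hx => ?_, (h5.union k5).subset ?_⟩
      · by_cases hU : x ∈ U
        · rw [piecewise_eq_of_mem _ _ _ hU, h4 x hU]
        · rw [piecewise_eq_of_notMem _ _ _ hU, k4 x (hx.resolve_left hU)]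
      · rintro _ ⟨x, rfl⟩
        by_cases hU : x ∈ U
        · exact Or.inl ⟨x, (piecewise_eq_of_mem _ _ _ hU).symm⟩
        · exact Or.inr ⟨x, (piecewise_eq_of_notMem _ _ _ hU).symm⟩
    · intro x _
      obtain ⟨y, rfl⟩ := hs x
      obtain ⟨e, he, hpe⟩ := hp.isCoveringMap.isLocalHomeomorph y
      have ho : IsOpen (e.target ∩ e.symm ⁻¹' ball y 1) := e.isOpen_inter_preimage_symm isOpen_ball
      refine ⟨e.target ∩ e.symm ⁻¹' ball y 1, mem_nhdsWithin_of_mem_nhds (ho.mem_nhds ⟨?_, ?_⟩),
        (e.target ∩ e.symm ⁻¹' ball y 1).piecewise e.symm fun _ => y, _, Subset.rfl,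
        ho.measurableSet, ContinuousOn.measurable_piecewise
          (e.continuousOn_symm.mono inter_subset_left) continuousOn_const ho.measurableSet,
        fun x hx => ?_, (isBounded_ball (x := y) (r := 1)).subset ?_⟩
      · rw [hpe]
        exact e.map_source he
      · rw [hpe, mem_preimage, e.left_inv he]
        exact mem_ball_self one_pos
      · rw [piecewise_eq_of_mem _ _ _ hx, hpe, e.right_inv hx.1]
      · rintro _ ⟨x, rfl⟩
        by_cases hU : x ∈ e.target ∩ e.symm ⁻¹' ball y 1
        · rw [piecewise_eq_of_mem _ _ _ hU]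
          exact hU.2
        · rw [piecewise_eq_of_notMem _ _ _ hU]
          exact mem_ball_self one_pos
  obtain ⟨s, U, h1, -, h3, h4, h5⟩ := key
  exact ⟨s, h3, fun x => h4 x (h1 trivial), h5⟩

omit [MeasurableSpace Y] [BorelSpace Y] in
theorem cnt (h : Prp G Y) (y : Y) : Countable G := by
  rw [← countable_univ_iff]
  refine (countable_iUnion fun n : ℕ => (h.fin y n).countable).mono fun γ _ => ?_
  exact mem_iUnion.2 (exists_nat_gt (dist y (γ • y)))

omit [MeasurableSpace X] [BorelSpace X] [MeasurableSpace Y] [BorelSpace Y] in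
theorem free (hp : IsQuotientCoveringMap p G) {γ γ' : G} {y : Y} (h : γ • y = γ' • y) :
    γ = γ' := by
  have := hp.isCancelSMul
  exact IsCancelSMul.right_cancel _ _ _ h

omit [TopologicalSpace X] [MeasurableSpace X] [BorelSpace X] [MeasurableSpace Y] [BorelSpace Y] in
theorem fin (h : Prp G Y) {s : X → Y} (hb : Bornology.IsBounded (range s)) {P : Subgroup G}
    {F : Y → ℝ} (hF : Cc P F) :
    ∃ T : Finset (G ⧸ P), ∀ c ∉ T, ∀ x, F ((Quotient.out c)⁻¹ • s x) = 0 := by
  obtain ⟨z, R, hz⟩ := hF.supp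
  obtain ⟨B, hB⟩ := hb.subset_ball z
  refine ⟨((h.fin z (R + B)).image fun γ => (QuotientGroup.mk γ⁻¹ : G ⧸ P)).toFinset,
    fun c hc x => by_contra fun h0 => hc ((Finite.mem_toFinset _).2 ?_)⟩
  obtain ⟨n, hn, hd⟩ := hz _ h0
  refine ⟨n * (Quotient.out c)⁻¹, ?_, ?_⟩
  · have h1 := dist_triangle z ((n * (Quotient.out c)⁻¹) • s x) ((n * (Quotient.out c)⁻¹) • z)
    have h2 : dist (s x) z < B := hB ⟨x, rfl⟩
    rw [h.iso, mul_smul n _ (s x)] at h1
    show dist z _ < _
    linarith
  · show (QuotientGroup.mk (n * (Quotient.out c)⁻¹)⁻¹ : G ⧸ P) = c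
    rw [mul_inv_rev, inv_inv, QuotientGroup.mk_mul_of_mem _ (P.inv_mem hn)]
    exact Quotient.out_eq c

theorem main [CompactSpace X] [Nonempty X] (μ : Measure X) [IsFiniteMeasure μ]
    (hp : IsQuotientCoveringMap p G) (h : Prp G Y) : ∃ s ν F₀, Msr G μ p s ν F₀ := by
  classical
  obtain ⟨s, sm, ps, sb⟩ := sec hp
  have hc : Countable G := cnt h (s (Classical.arbitrary X))
  have : ProperSpace Y := ⟨h.cpt⟩
  have gc : ∀ γ : G, Continuous fun y : Y => γ • y := hp.toContinuousConstSMul.continuous_const_smul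
  have gm : ∀ γ : G, Measurable fun x => γ • s x := fun γ => (gc γ).measurable.comp sm
  have pm : Measurable p := hp.toIsQuotientMap.continuous.measurable
  have pg : ∀ (γ : G) y, p (γ • y) = p y := fun γ y => hp.apply_eq_iff_mem_orbit.2 ⟨γ, rfl⟩
  have ap : ∀ A, MeasurableSet A → (Measure.sum fun γ : G => μ.map fun x => γ • s x) A =
      ∑' γ : G, μ {x | γ • s x ∈ A} := fun A hA => by
    rw [Measure.sum_apply _ hA]
    exact tsum_congr fun γ => Measure.map_apply (gm γ) hA
  have mF : MeasurableSet {y | s (p y) = y} := measurableSet_eq_fun (sm.comp pm) measurable_id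
  have one : ∀ (γ : G) x, γ • s x ∈ {y | s (p y) = y} ↔ γ = 1 := fun γ x => by
    rw [mem_ofPred_eq, pg, ps]
    exact ⟨fun e => free hp (e.symm.trans (one_smul G _).symm), fun e => by rw [e, one_smul]⟩
  refine ⟨s, Measure.sum fun γ : G => μ.map fun x => γ • s x, {y | s (p y) = y}, ps, hc,
    fun γ A hA => ?_, mF, fun y => ?_, sb.subset fun y hy => ⟨_, hy⟩, ?_, fun A hA => ?_,
    fun P F hF => ?_⟩
  · rw [ap _ ((gc γ).measurable hA), ap _ hA,
      ← (Equiv.mulLeft γ).tsum_eq fun γ : G => μ {x | γ • s x ∈ A}]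
    simp only [mem_preimage, Equiv.coe_mulLeft, mul_smul]
  · obtain ⟨γ, hγ⟩ := hp.apply_eq_iff_mem_orbit.1 (ps (p y))
    refine ⟨γ, (congrArg s (pg γ y)).trans hγ.symm, fun γ' e => free hp (y := y) ?_⟩
    exact (e.symm.trans (congrArg s (pg γ' y))).trans hγ.symm
  · rw [ap _ mF, tsum_eq_single 1 fun γ e => by simp only [one, e, ofPred_false, measure_empty]]
    simp only [one, ofPred_true]
  · have mA : ∀ γ : G, MeasurableSet {x | γ • s x ∈ A} := fun γ => gm γ hA
    rw [ap _ hA]
    simp only [← lintegral_indicator_one (mA _)]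
    rw [← lintegral_tsum fun γ => (measurable_one.indicator (mA γ)).aemeasurable]
    refine lintegral_congr fun x => ?_
    have e : A ∩ p ⁻¹' {x} = (fun γ : G => γ • s x) '' {γ | γ • s x ∈ A} := by
      ext y
      constructor
      · rintro ⟨h1, h2⟩
        obtain ⟨γ, rfl⟩ := hp.apply_eq_iff_mem_orbit.1 (Eq.trans h2 (ps x).symm)
        exact ⟨γ, h1, rfl⟩
      · rintro ⟨γ, h1, rfl⟩
        exact ⟨h1, (pg γ _).trans (ps x)⟩
    rw [e, Function.Injective.encard_image fun _ _ => free hp, ← ENNReal.tsum_set_one,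
      tsum_subtype {γ : G | γ • s x ∈ A} fun _ => (1 : ℝ≥0∞)]
    rfl
  · have : Countable (G ⧸ P) := Quotient.out_injective.countable
    have mD : MeasurableSet {y | ∃ c : G ⧸ P, c.out • y ∈ {y | s (p y) = y}} := by
      rw [ofPred_exists]
      exact MeasurableSet.iUnion fun c => (gc _).measurable mF
    have inj : Function.Injective fun c : G ⧸ P => (Quotient.out c)⁻¹ :=
      inv_injective.comp Quotient.out_injective
    have hD : ∀ (γ : G) x, γ • s x ∈ {y | ∃ c : G ⧸ P, c.out • y ∈ {y | s (p y) = y}} ↔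
        ∃ c : G ⧸ P, (Quotient.out c)⁻¹ = γ := fun γ x => by
      refine exists_congr fun c => ?_
      rw [smul_smul, one, inv_eq_iff_mul_eq_one]
    have e : (Measure.sum fun γ : G => μ.map fun x => γ • s x).restrict
        {y | ∃ c : G ⧸ P, c.out • y ∈ {y | s (p y) = y}} =
        Measure.sum fun c : G ⧸ P => μ.map fun x => (Quotient.out c)⁻¹ • s x := by
      ext A hA
      rw [Measure.restrict_apply hA, ap _ (hA.inter mD), Measure.sum_apply _ hA,
        ← inj.tsum_eq fun γ hγ => ?_]
      · refine tsum_congr fun c => ?_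
        rw [Measure.map_apply (gm _) hA]
        congr 1
        ext x
        exact ⟨fun q => q.1, fun q => ⟨q, (hD _ x).2 ⟨c, rfl⟩⟩⟩
      · obtain ⟨x, hx⟩ := nonempty_of_measure_ne_zero hγ
        exact (hD γ x).1 hx.2
    obtain ⟨T, hT⟩ := fin h sb hF
    have fi : ∀ γ : G, Integrable (fun x => F (γ • s x)) μ := fun γ => by
      obtain ⟨B, hB⟩ := (sb.isCompact_closure.image (hF.cont.comp (gc γ))).isBounded.exists_norm_le
      exact Integrable.of_bound (hF.cont.measurable.comp (gm γ)).aestronglyMeasurable B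
        (Eventually.of_forall fun x => hB _ ⟨s x, subset_closure ⟨x, rfl⟩, rfl⟩)
    have f1 : ∀ γ : G, Integrable F (μ.map fun x => γ • s x) := fun γ =>
      (integrable_map_measure hF.cont.aestronglyMeasurable (gm γ).aemeasurable).2 (fi γ)
    have f2 : Integrable F
        (Measure.sum fun c : G ⧸ P => μ.map fun x => (Quotient.out c)⁻¹ • s x) := by
      refine integrable_sum_measure (fun c => f1 _) (summable_of_ne_finset_zero (s := T)
        fun c hc => ?_)
      rw [integral_map (gm _).aemeasurable hF.cont.norm.aestronglyMeasurable]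
      simp only [hT c hc, norm_zero, integral_zero]
    rw [e, integral_sum_measure f2, IP]
    simp only [integral_map (gm _).aemeasurable hF.cont.aestronglyMeasurable]
    rw [tsum_eq_sum (s := T) fun c hc => by simp only [hT c hc, integral_zero],
      ← integral_finsetSum T fun c _ => fi _]
    refine integral_congr_ae (Eventually.of_forall fun x => ?_)
    exact (finsum_eq_sum_of_support_subset _ fun c hc => by_contra fun n => hc (hT c n x)).symm

end MeasYa

theorem measY : MeasY := by
  intro ι X Y G _ _ _ _ _ _ _ _ _ _ _ _ _ M H μ p N g S _ hp h _ hμ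
  exact MeasYa.main μ hp h

end Pool.Agent.Lib.MP_813db1_ag.NS
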