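import Pool.Agent.Lib.MP_813db1_ag.NS.Bs

/-! The metric on the covering space. -/

namespace Pool.Agent.Lib.MP_813db1_ag.NS

open Pool.Agent.Lib.MP_813db1_ag.HS Pool.Agent.Lib.MP_813db1_ag.AS
open Pool.Agent.Lib.MP_bbd4b9_ag.LC
open Filter Topology Set Metric

namespace MetA

variable {X Y G : Type} [TopologicalSpace X] [Group G] {c : X → X → ℝ} {a : X → X → G} {δ : ℝ}
  [PseudoMetricSpace (Tot X G)]

omit [PseudoMetricSpace (Tot X G)] in
theorem nonneg (l : LM c a δ) (p q : X) : 0 ≤ c p q := by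
  rcases eq_or_ne p q with rfl | h
  exacts [(l.zero p).ge, (l.sep p q h).le]

omit [PseudoMetricSpace (Tot X G)] in
theorem ell_cont (l : LM c a δ) (x : X) : Continuous (ell c x) :=
  ((l.cont.comp (.prodMk_right x)).add (l.cont.comp (.prodMk_left x))).sqrt

omit [PseudoMetricSpace (Tot X G)] in
theorem ell_self (l : LM c a δ) (x : X) : ell c x x = 0 := by simp [ell, l.zero]

omit [PseudoMetricSpace (Tot X G)] in
theorem ell_pos (l : LM c a δ) {x y : X} (h : x ≠ y) : 0 < ell c x y :=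
  Real.sqrt_pos.2 (add_pos (l.sep _ _ h) (l.sep _ _ h.symm))

theorem key (l : LM c a δ) (d : DM c a δ) {ε : ℝ} (h : 16 * ε ≤ δ) {x x' : X} {g g' : G}
    (e : dist (Tot.mk x g) (Tot.mk x' g') < ε) : g * a x x' = g' ∧ ell c x x' ≤ 32 * ε := by
  have e0 : 0 < ε := dist_nonneg.trans_lt e
  obtain ⟨k, h1, k1⟩ := ((d.ge ε).and (eventually_ge_atTop 1)).exists
  obtain ⟨s, rfl, rfl, rfl, b⟩ := h1 _ _ _ _ e
  have k2 : (1 : ℝ) ≤ k := by exact_mod_cast k1
  have n : 0 ≤ act c k s := Finset.sum_nonneg fun i _ => nonneg l _ _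
  have u : ∑ i ∈ Finset.range k, ell c (s i) (s (i + 1)) ^ 2 ≤ 4 * act c k s := by
    rw [act, Finset.mul_sum]
    refine Finset.sum_le_sum fun i hi => l.up _ _ ?_
    have : c (s i) (s (i + 1)) ≤ act c k s :=
      Finset.single_le_sum (f := fun i => c (s i) (s (i + 1))) (fun i _ => nonneg l _ _) hi
    nlinarith
  have v : act (ell c) k s ≤ 16 * ε := by
    have := sq_sum_le_card_mul_sum_sq (s := Finset.range k) (f := fun i => ell c (s i) (s (i + 1)))
    rw [Finset.card_range] at this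
    refine le_of_sq_le_sq (this.trans ?_) (by positivity)
    nlinarith
  obtain ⟨m1, m2⟩ := l.merge s k (v.trans h)
  exact ⟨by rw [m2], by linarith⟩

variable [TopologicalSpace Y] [MulAction G Y] {p : Y → X} {γ : Y → G}

omit [PseudoMetricSpace (Tot X G)] in
theorem sec (hp : IsQuotientCoveringMap p G) (y0 : Y) :
    ∃ s : X → Y, Tendsto s (𝓝 (p y0)) (𝓝 y0) ∧ ∀ᶠ x in 𝓝 (p y0), p (s x) = x := by
  obtain ⟨e, he, rfl⟩ := hp.isCoveringMap.isLocalHomeomorph y0
  exact ⟨e.symm, e.tendsto_symm he,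
    (e.open_target.eventually_mem (e.map_source he)).mono fun x => e.right_inv⟩

theorem ind [CompactSpace X] (l : LM c a δ) (d : DM c a δ) (hp : IsQuotientCoveringMap p G)
    (i : Function.Injective fun y => (p y, γ y))
    (loc : ∀ y0, ∀ᶠ y in 𝓝 y0, γ y = γ y0 * a (p y0) (p y)) :
    IsInducing fun y => Tot.mk (p y) (γ y) := by
  have δ0 := l.pos
  refine isInducing_iff_nhds.2 fun y0 => le_antisymm (tendsto_iff_comap.1 (Metric.tendsto_nhds.2
    fun ε e0 => ?_)) fun U hU => ?_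
  · have := ((ell_cont l (p y0)).comp hp.continuous).tendsto y0
    rw [Function.comp_apply, ell_self l] at this
    filter_upwards [loc y0, this.eventually_lt_const e0, this.eventually_le_const (half_pos δ0)]
      with y e1 e2 e3
    rw [e1, dist_comm]
    exact (d.step _ _ _ e3).trans_lt e2
  · obtain ⟨s, s1, s2⟩ := sec hp y0
    obtain ⟨W, w1, w2, w3⟩ := eventually_nhds_iff.1 (s2.and (s1.eventually ((loc y0).and hU)))
    obtain ⟨r, r0, hr⟩ := w2.isClosed_compl.isCompact.exists_forall_le'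
      (ell_cont l (p y0)).continuousOn fun x hx => ell_pos l fun e => hx (e ▸ w3)
    refine mem_comap.2 ⟨_, ball_mem_nhds _ (lt_min (by positivity : 0 < δ / 16)
      (by positivity : 0 < r / 33)), fun y hy => ?_⟩
    obtain ⟨k1, k2⟩ := key l d (by linarith [min_le_left (δ / 16) (r / 33)]) (mem_ball'.1 hy)
    obtain ⟨e1, e2, e3⟩ := w1 (p y) (by_contra fun n => by
      linarith [hr _ n, min_le_right (δ / 16) (r / 33)])
    rw [e1, k1] at e2
    rwa [i (Prod.ext e1 e2)] at e3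

theorem prp {Y : Type} [PseudoMetricSpace Y] [MulAction G Y] {p : Y → X} [CompactSpace X]
    (hp : IsQuotientCoveringMap p G) {Φ : Y → Tot X G} (δ0 : 0 < δ) (d : DM c a δ)
    (e : ∀ y y', dist y y' = dist (Φ y) (Φ y')) (m : ∀ (g : G) y, Φ (g • y) = g • Φ y)
    (f : ∀ (y : Tot X G) (R : ℝ), ∃ T : Finset (Tot X G), ball y R ⊆ ⋃ t ∈ T, ball t (δ / 4)) :
    Prp G Y := by
  have iso : ∀ (g : G) (y y' : Y), dist (g • y) (g • y') = dist y y' := fun g y y' => by
    rw [e, e, m, m, d.iso]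
  have disc : ∀ (g g' : G) (y : Y), dist (g • y) (g' • y) < δ → g = g' := fun g g' y h => by
    rw [← iso g⁻¹, inv_smul_smul, smul_smul, e, m] at h
    exact inv_mul_eq_one.1 (d.disc _ _ h)
  have tri : ∀ {t y y'}, Φ y ∈ ball t (δ / 4) → Φ y' ∈ ball t (δ / 4) → dist y y' < δ / 2 :=
    fun {t y y'} h h' => by
      linarith [e y y', dist_triangle_right (Φ y) (Φ y') t, mem_ball.1 h, mem_ball.1 h']
  refine ⟨iso, fun y R => isCompact_iff_ultrafilter_le_nhds.2 fun F hF => ?_, fun y R => ?_⟩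
  · obtain ⟨T, hT⟩ := f (Φ y) (R + 1)
    rw [le_principal_iff] at hF
    obtain ⟨t, -, ht⟩ := (Ultrafilter.finite_biUnion_mem_iff (f := F) T.finite_toSet
      (s := fun t => Φ ⁻¹' ball t (δ / 4))).1 (mem_of_superset hF fun z hz => by
        simpa using hT (show dist (Φ z) (Φ y) < _ by linarith [e z y, mem_closedBall.1 hz]))
    obtain ⟨x, -, hx⟩ := isCompact_univ.ultrafilter_le_nhds (F.map p) (by simp)
    obtain ⟨y0, rfl⟩ := hp.surjective x
    obtain ⟨s, s1, s2⟩ := sec hp y0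
    have t1 : Tendsto (fun z => s (p z)) F (𝓝 y0) := s1.comp hx
    have A : ∀ᶠ z in F, Φ z ∈ ball t (δ / 4) ∧ ∃ g : G, g • s (p z) = z ∧
        dist (g • y0) z < δ / 4 := by
      filter_upwards [ht, Tendsto.eventually hx s2, Metric.tendsto_nhds.1 t1 _ (by positivity :
        0 < δ / 4)] with z a b c
      obtain ⟨g, hg⟩ := hp.apply_eq_iff_mem_orbit.1 b.symm
      exact ⟨a, g, hg, by rwa [← hg, iso, dist_comm]⟩
    obtain ⟨z1, a1, g, -, b1⟩ := A.exists
    have t2 : Tendsto id F (𝓝 (g • y0)) := by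
      refine (((hp.continuous_const_smul g).tendsto y0).comp t1).congr' (A.mono ?_)
      rintro z ⟨a2, g', u, b2⟩
      rw [disc g g' y0 (by
        linarith [dist_triangle4 (g • y0) z1 z (g' • y0), tri a1 a2, dist_comm z (g' • y0)])]
      exact u
    exact ⟨_, isClosed_closedBall.mem_of_tendsto t2 hF, t2⟩
  · obtain ⟨T, hT⟩ := f (Φ y) R
    refine (T.finite_toSet.biUnion (t := fun t => {g : G | Φ (g • y) ∈ ball t (δ / 4)})
      fun t _ => Subsingleton.finite fun g h g' h' => disc _ _ y ?_).subset fun g h => ?_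
    · linarith [tri h h']
    · simpa using hT (show dist (Φ (g • y)) (Φ y) < R by rwa [← e, dist_comm])

end MetA

open MetA in
theorem metY : MetY := fun ι X Y G _ _ _ _ _ τ _ _ M H c a δ p γ _ h => by
  let m0 := (ind h.lm h.dm h.cov h.bij.1 h.loc).comapPseudoMetricSpace
  have δ0 := h.lm.pos
  refine ⟨⟨fun {y y'} e => ?_⟩, rfl, fun _ _ => rfl, prp h.cov δ0 h.dm (fun _ _ => rfl)
    (fun g y => by rw [Tot.smul_mk, h.eqv, h.cov.map_smul]) h.fin⟩
  have k : ∀ ε, 0 < ε → 16 * ε ≤ δ → _ := fun ε e0 l => key h.lm h.dm l (e.trans_lt e0)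
  have e1 : p y = p y' := by_contra fun n => by
    have := ell_pos h.lm n
    linarith [(k _ (lt_min (by positivity : 0 < δ / 16) (by positivity : 0 < ell c (p y) (p y') / 33))
      (by linarith [min_le_left (δ / 16) (ell c (p y) (p y') / 33)])).2,
      min_le_right (δ / 16) (ell c (p y) (p y') / 33)]
  have e2 := h.dm.disc (Tot.mk (p y) (γ y)) (γ y' * (γ y)⁻¹) (by
    rw [Tot.smul_mk, inv_mul_cancel_right]
    nth_rw 2 [e1]
    exact e.trans_lt δ0)
  exact h.bij.1 (Prod.ext e1 (mul_inv_eq_one.1 e2).symm)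

end Pool.Agent.Lib.MP_813db1_ag.NS
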