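import Pool.Agent.Lib.MP_813db1_ag.NS.Cd
import Pool.Agent.Lib.MP_813db1_ag.AS.Stmt3
import Pool.Agent.Lib.MP_813db1_ag.SV.Bc

/-! A manifold whose fundamental class comes from the group of a covering does not collapse
beyond the rank of the local groups: definitions and statements. -/

namespace Pool.Agent.Lib.MP_813db1_ag.NS

open Pool.Agent.Lib.MP_813db1_ag.HS Pool.Agent.Lib.MP_813db1_ag.AS Pool.Agent.Lib.MP_813db1_ag.SV
open SV.Bc F12
open MeasureTheory Filter Topology Set Metric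
open scoped ComplexOrder Manifold ContDiff

noncomputable section

/-! ### definitions -/

/-- the real cohomology of all subgroups of `Γ` vanishes in degrees above `h`. -/
def CdLe {G : Type} [Group G] (Γ : Subgroup G) (h : ℕ) : Prop :=
  ∀ Γ' ≤ Γ, ∀ b : ℕ, h ≤ b → Cd.Van Γ' b

/-- `Z` contains the invariant cochains that do not depend on one of the slots. -/
def Deg (G : Type) {A : Type} [Group G] [MulAction G A] {N : ℕ}
    (Z : Submodule ℝ ((Fin (N + 1) → A) → ℝ)) : Prop :=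
  ∀ a (i j : Fin (N + 1)), j ≠ i → (∀ (h : G) α, a (h • α) = a α) →
    (∀ α x, a (Function.update α j x) = a α) → a ∈ Z

/-- in the slots `i + 1`, `i ∈ S`, the cochain depends only on the first coordinate. -/
def Hrz {A C : Type} {N : ℕ} (S : Finset (Fin N)) (a : (Fin (N + 1) → A × C) → ℝ) : Prop :=
  ∀ i ∈ S, ∀ α x, a (Function.update α i.succ ((α i.succ).1, x)) = a α

/-- the density of the form attached to a cochain. -/
def itg {ι X Y A : Type} [Fintype ι] [DecidableEq ι] [TopologicalSpace X]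
    [ChartedSpace (ι → ℂ) X] {N : ℕ} (B : Fin N ≃ ι × Fin 2) (W : A → Y → ℝ) (t : X → V ι → Y)
    (g : X → Mat ι) (a : (Fin (N + 1) → A) → ℝ) (x : X) : ℝ :=
  Sm a (mu (dtm B)) (jt W (t x) (chartAt (ι → ℂ) x x)) / (g x).det.re

/-- the quotient is not collapsed beyond the rank of the local groups. -/
def Nc (G Z : Type) [Group G] [MulAction G Z] [PseudoMetricSpace Z] (m : ℕ) : Prop :=
  ∀ (w : ℝ) (N₀ : ℕ) (z : Fin N₀ → Z) (h : ℕ) (s : ℝ) (T : Finset Z), 0 < w → 0 < s → h < m →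
    (∀ y : Z, ∃ (i : Fin N₀) (g : G), dist (z i) (g • y) < w) →
    (∀ i, (Hs G (z i) (10 * w)).FG ∧ Group.IsVirtuallyNilpotent (Hs G (z i) (10 * w)) ∧
      Rk (Hs G (z i) (10 * w)) h) → (∀ y : Z, ∃ t ∈ T, ∃ g : G, dist t (g • y) < s) →
    w ^ (m - h) ≤ (N₀ : ℝ) ^ (m - h) * T.card * (2 * s) ^ (m - h)

end

/-! ### algebra -/

/-- the zigzag in the double complex. -/
def ZigS : Prop := ∀ (G A : Type) [Group G] [MulAction G A] (N m h : ℕ)
  (c : (Fin (N + 1) → G) → ℝ) (Z : Submodule ℝ ((Fin (N + 1) → A × G) → ℝ)), Coc c → m + h ≤ N →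
  (∀ v : A, CdLe (MulAction.stabilizer G v) h) → Deg G Z →
  ∃ (a : (Fin (N + 1) → A × G) → ℝ) (S : Finset (Fin N)), S.card = m ∧ Hrz S a ∧
    (fun α => c fun i => (α i).2) - a ∈ Z

/-- powers of a two-cocycle. -/
def CupS : Prop := ∀ (ι G : Type) [Fintype ι] [DecidableEq ι] [Group G] (b : G → G → G → ℝ),
  (∀ h x y z, b (h * x) (h * y) (h * z) = b x y z) →
  (∀ x y z u, b y z u - b x z u + b x y u - b x y z = 0) →
  ∃ (N : ℕ) (B : Fin N ≃ ι × Fin 2) (c : (Fin (N + 1) → G) → ℝ), Coc c ∧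
    ∀ (T : Finset G) (r : G → Jt ι) (F : V ι → V ι → ℝ), (∀ x ∉ T, r x = 0) →
      ∑ x ∈ T, (r x).1 = 1 →
      (∀ x u v, ∑ y ∈ T, ∑ z ∈ T, b x y z * ((r y).2 u * (r z).2 v) = F u v) →
      Sm c (mu (dtm B)) r = topF F

/-! ### forms -/

/-- the integral of the top power does not change when an exact form is added. -/
def CohS : Prop := ∀ (ι X : Type) [Fintype ι] [DecidableEq ι] [TopologicalSpace X] [T2Space X]
  [CompactSpace X] [MeasurableSpace X] [BorelSpace X] (M : Atl ι X) (g : X → Mat ι)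
  (μ : Measure X) (W W' W'' : X → V ι → V ι → ℝ) (U : X → Set X) (a : X → X → Cv ι)
  (θ : X → Cv ι), M.IsK g → M.IsVol g μ → (∀ x, IsOpen (U x) ∧ x ∈ U x) →
  (∀ x, Prim2 M W (a x) (U x)) → Prim2 M W' θ univ →
  (∀ x u v, W'' x u v = W x u v - W' x u v) →
  ∫ x, topF (W'' x) / (g x).det.re ∂μ = ∫ x, topF (W x) / (g x).det.re ∂μ

/-- degenerate cochains have integral zero. -/
def NulS : Prop := ∀ (ι X Y G A : Type) [Fintype ι] [DecidableEq ι] [TopologicalSpace X]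
  [T2Space X] [CompactSpace X] [MeasurableSpace X] [BorelSpace X] [ChartedSpace (ι → ℂ) X]
  [TopologicalSpace Y] [Group G] [MulAction G Y] [MulAction G A] (M : Atl ι X) (g : X → Mat ι)
  (μ : Measure X) (p : Y → X) (W : A → Y → ℝ) (t : X → V ι → Y) (N : ℕ) (B : Fin N ≃ ι × Fin 2),
  IsQuotientCoveringMap p G → atlas (ι → ℂ) X ⊆ M.A → (∀ x, M.ch x = chartAt (ι → ℂ) x) →
  M.IsK g → M.IsVol g μ → Fam ι G p W →
  (∀ x, Sec p (chartAt (ι → ℂ) x) (chartAt (ι → ℂ) x x) (t x)) →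
  ∃ Z : Submodule ℝ ((Fin (N + 1) → A) → ℝ), Deg G Z ∧ ∀ a a', a - a' ∈ Z →
    ∫ x, itg B W t g a x ∂μ = ∫ x, itg B W t g a' x ∂μ

/-- the form of a horizontal cochain vanishes. -/
def KerS : Prop := ∀ (ι X Y G A C : Type) [Fintype ι] [DecidableEq ι] [TopologicalSpace X]
  [ChartedSpace (ι → ℂ) X] [TopologicalSpace Y] [Group G] [MulAction G Y] [MulAction G A]
  [MulAction G C] (p : Y → X) (W : A → Y → ℝ) (W' : C → Y → ℝ) (N : ℕ) (B : Fin N ≃ ι × Fin 2)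
  (S : Finset (Fin N)) (a : (Fin (N + 1) → A × C) → ℝ) (e : Ch ι X) (z : V ι) (s : V ι → Y),
  Fam ι G p W → Fam ι G p W' → e ∈ atlas (ι → ℂ) X → z ∈ e.target → Sec p e z s → Hrz S a →
  (∃ T : Finset A, T.card ≤ S.card ∧ ∀ᶠ y in 𝓝 (s z), ∀ α ∉ T, W α y = 0) →
  Sm a (mu (dtm B)) (jt (fun (q : A × C) y => W q.1 y * W' q.2 y) s z) = 0

/-- the partition of unity attached to a cover with labels. -/
def FamA : Prop := ∀ (ι X Y G A κ : Type) [Fintype ι] [DecidableEq ι] [TopologicalSpace X]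
  [T2Space X] [CompactSpace X] [ChartedSpace (ι → ℂ) X] [TopologicalSpace Y] [Group G]
  [MulAction G Y] [MulAction G A] [Fintype κ] (M : Atl ι X) (p : Y → X) (U : κ → Set X)
  (k : κ → Y → A) (m : ℕ), IsQuotientCoveringMap p G → atlas (ι → ℂ) X ⊆ M.A →
  (∀ i, IsOpen (U i)) → (∀ x, ∃ i, x ∈ U i) → (∀ x, {i | x ∈ U i}.ncard ≤ m) →
  (∀ i (γ : G) y, p y ∈ U i → k i (γ • y) = γ • k i y) →
  (∀ i y, p y ∈ U i → ∀ᶠ y' in 𝓝 y, k i y' = k i y) →
  ∃ W : A → Y → ℝ, Fam ι G p W ∧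
    ∀ y, ∃ T : Finset A, T.card ≤ m ∧ ∀ᶠ y' in 𝓝 y, ∀ α ∉ T, W α y' = 0

/-- a group cocycle of top degree with nonzero integral. -/
def TopA : Prop := ∀ (ι X Y G : Type) [Fintype ι] [DecidableEq ι] [TopologicalSpace X]
  [T2Space X] [CompactSpace X] [MeasurableSpace X] [BorelSpace X] [ChartedSpace (ι → ℂ) X]
  [TopologicalSpace Y] [ConnectedSpace Y] [Group G] [MulAction G Y] (K : Kahler ι X) (M : Atl ι X)
  (g : X → Mat ι) (μ : Measure X) (p : Y → X), IsQuotientCoveringMap p G →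
  atlas (ι → ℂ) X ⊆ M.A → (∀ x, M.ch x = chartAt (ι → ℂ) x) → M.IsK g →
  (∀ e ∈ atlas (ι → ℂ) X, ∀ z ∈ e.target, M.repF g e z = K.g e z) → M.IsVol g μ → Ess G K p →
  ∃ (W : G → Y → ℝ) (t : X → V ι → Y) (N : ℕ) (B : Fin N ≃ ι × Fin 2)
    (c : (Fin (N + 1) → G) → ℝ), Fam ι G p W ∧
    (∀ x, Sec p (chartAt (ι → ℂ) x) (chartAt (ι → ℂ) x x) (t x)) ∧ Coc c ∧
    ∫ x, itg B W t g c x ∂μ ≠ 0

/-- covers of small multiplicity with stabilisers of small dimension do not exist. -/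
def VanH : Prop := ∀ (ι X Y G A κ : Type) [Fintype ι] [DecidableEq ι] [TopologicalSpace X]
  [T2Space X] [CompactSpace X] [MeasurableSpace X] [BorelSpace X] [ChartedSpace (ι → ℂ) X]
  [IsManifold 𝓘(ℂ, ι → ℂ) ω X] [TopologicalSpace Y] [ConnectedSpace Y] [Group G] [MulAction G Y]
  [MulAction G A] [Fintype κ] (K : Kahler ι X) (p : Y → X) (U : κ → Set X) (k : κ → Y → A)
  (m h : ℕ), IsQuotientCoveringMap p G → Ess G K p → m + h ≤ 2 * Fintype.card ι →
  (∀ v : A, CdLe (MulAction.stabilizer G v) h) →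
  (∀ i, IsOpen (U i)) → (∀ x, ∃ i, x ∈ U i) → (∀ x, {i | x ∈ U i}.ncard ≤ m) →
  (∀ i (γ : G) y, p y ∈ U i → k i (γ • y) = γ • k i y) →
  (∀ i y, p y ∈ U i → ∀ᶠ y' in 𝓝 y, k i y' = k i y) → False

/-- non-collapsing. -/
def NcS : Prop := ∀ (ι X Y G Z : Type) [Fintype ι] [DecidableEq ι] [TopologicalSpace X]
  [T2Space X] [CompactSpace X] [MeasurableSpace X] [BorelSpace X] [ChartedSpace (ι → ℂ) X]
  [IsManifold 𝓘(ℂ, ι → ℂ) ω X] [TopologicalSpace Y] [ConnectedSpace Y] [Group G] [MulAction G Y]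
  [MulAction G Z] [PseudoMetricSpace Z] (K : Kahler ι X) (p : Y → X) (Φ : Y → Z),
  IsQuotientCoveringMap p G → Ess G K p → (∀ (g : G) (y y' : Z), dist (g • y) (g • y') = dist y y') →
  (∀ (g : G) y, Φ (g • y) = g • Φ y) → Continuous Φ → Nc G Z (2 * Fintype.card ι)

theorem cdLe {G : Type} [Group G] {Γ : Subgroup G} {h : ℕ} (h1 : Γ.FG)
    (h2 : Group.IsVirtuallyNilpotent Γ) (h3 : Rk Γ h) : CdLe Γ h := fun _ le _ hb y y1 y2 =>
  Cd.cd h1 h2 h3 ((Subgroup.relIndex_eq_one.2 le).trans_ne one_ne_zero) hb y y1 y2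

end Pool.Agent.Lib.MP_813db1_ag.NS
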