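import Pool.Agent.Lib.MP_813db1_ag.NS.AxS
import Pool.Agent.Lib.MP_813db1_ag.NS.MetY
import Pool.Agent.Lib.MP_813db1_ag.NS.MeasY
import Pool.Agent.Lib.MP_813db1_ag.NS.Glu
import Pool.Agent.Lib.MP_813db1_ag.NS.StA
import Pool.Agent.Lib.MP_813db1_ag.AN.St
import Pool.Agent.Lib.MP_813db1_ag.AS.Geo

/-! The normal Margulis subgroup, from the abstract steps. -/

namespace Pool.Agent.Lib.MP_813db1_ag.NS

open Pool.Agent.Lib.MP_813db1_ag.HS Pool.Agent.Lib.MP_813db1_ag.AS Pool.Agent.Lib.MP_813db1_ag.AN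
open Pool.Agent.Lib.MP_bbd4b9_ag Pool.Agent.Lib.MP_bbd4b9_ag.LC
open MeasureTheory Filter Topology Set Metric
open scoped ContDiff ComplexOrder

namespace MainA

open AF.All in
/-- the metric, with the data it is made from. -/
theorem met (ι : Type) [Fintype ι] [DecidableEq ι] [Nonempty ι] : ∃ C L A r₁ : ℝ,
    0 ≤ L ∧ 0 ≤ A ∧ 0 < r₁ ∧ ∀ (X G : Type) [TopologicalSpace X] [T2Space X] [CompactSpace X]
    [MeasurableSpace X] [BorelSpace X] [Group G] (M : Atl ι X) (h : X → Mat ι) (a : X → X → G),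
    M.IsK h → (∀ x, (M.ricF h x + h x).PosSemidef) → (∀ x, Coh a x) → Conn a →
    ∃ (d : PseudoMetricSpace (Tot X G)) (H : X → Mat ι) (c : X → X → ℝ) (δ : ℝ),
      @Met ι X G _ _ _ _ M h a C L A r₁ d ∧ M.IsK H ∧ Cost M H c ∧
      (∀ x, (M.ricF H x + (((48 ^ 2 : ℝ)⁻¹ : ℝ) : ℂ) • H x).PosSemidef) ∧
      (∀ x, (M.ricF H x + H x).PosSemidef) ∧ LM c a δ ∧ @DM X G _ c a δ d := by
  obtain ⟨C, h3⟩ := AS.covS bish AY.repA' AY.repB' mat AY.volS' ι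
  refine ⟨C, 96, 48 ^ 2 * (Fintype.card ι + 2), 3, by norm_num, by positivity, by norm_num, ?_⟩
  intro X G _ _ _ _ _ _ M h a hh hr ha hc
  have hq : (0 : ℝ) < 48 ^ 2 := by norm_num
  have k2 := (((AY.repA' ι X M).isK_iff h).mp hh).2
  obtain ⟨H, hH⟩ : ∃ H : X → Mat ι, H = fun x => ((48 ^ 2 : ℝ) : ℂ) • h x := ⟨_, rfl⟩
  have hH' : ∀ x, H x = ((48 ^ 2 : ℝ) : ℂ) • h x := fun x => by rw [hH]
  have HK : M.IsK H := hH ▸ MetCov.isK_smul AY.repA' hh hq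
  have e2 : ∀ x, M.ricF H x = M.ricF h x := fun x =>
    hH ▸ MetCov.ric_smul AY.repA' AY.repB' mat hh hq x
  obtain ⟨c, cc⟩ := (cost ι X M H).1 HK
  obtain ⟨⟨δ, δ1, lm⟩, lp⟩ := lmS cost mat dc AY.repA' ι X G M H c a HK cc ha
  obtain ⟨d, dm⟩ := dmS X G c a δ δ1 lm hc
  have r1 : ∀ x, (M.ricF H x + (((48 ^ 2 : ℝ)⁻¹ : ℝ) : ℂ) • H x).PosSemidef := fun x => by
    rw [e2, hH', smul_smul, ← Complex.ofReal_mul, inv_mul_cancel₀ hq.ne', Complex.ofReal_one,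
      one_smul]
    exact hr x
  have hp : ∀ y, (M.ricF H y + H y).PosSemidef := fun y => by
    have h9 := (hr y).add ((k2 y).posSemidef.smul
      (Complex.zero_le_real.2 (show (0 : ℝ) ≤ 48 ^ 2 - 1 by norm_num)))
    rw [e2, hH']
    convert h9 using 1
    push_cast
    module
  refine ⟨d, H, c, δ, ⟨dm.iso, dm.geo, h3 X G M H c a δ HK cc r1 ha dm, ⟨δ, lm.pos, dm.disc⟩,
    fun x => ?_, fun x => ?_⟩, HK, cc, r1, hp, lm, dm⟩
  · have c1 : Continuous fun q : X × X => ell c q.1 q.2 :=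
      (lm.cont.add (lm.cont.comp continuous_swap)).sqrt
    filter_upwards [lp x, (c1.continuousAt (x := (x, x))).eventually_lt_const
      (show ell c x x < δ / 2 by simpa [ell, lm.zero] using lm.pos)] with q q1 q2 γ
    refine (dm.step _ _ γ q2.le).trans (q1.trans_eq ?_)
    rw [hH', show nV (((48 ^ 2 : ℝ) : ℂ) • h x) (M.ch x q.2 - M.ch x q.1) =
      48 ^ 2 * nV (h x) (M.ch x q.2 - M.ch x q.1) by
        have := Var.nV_add_smul 0 (h x) (48 ^ 2) (M.ch x q.2 - M.ch x q.1)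
        rw [zero_add] at this
        rw [this]
        simp [nV, ipV],
      Real.sqrt_mul hq.le, Real.sqrt_sq (by norm_num)]
    ring
  · obtain ⟨k, ⟨Ψ, p1, p2, p3, p4⟩, k2'⟩ := ((brS (LC.barS dc (LC.stepS (LC.locS LC.vanS LC.modS
      AY.curvS') dc cost AY.repA' AY.repB' mat) (LC.varS dc) AY.repA') LC.minS dc ι X M H c HK cc
      hp x).and (dm.le 1)).exists
    refine ⟨Ψ, p1, p2, p3, fun y hy => ?_⟩
    obtain ⟨⟨β, b1, b2, b3, b4⟩, s, rfl, rfl, hs⟩ := p4 y hy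
    refine ⟨⟨β, b1, b2, b3, ?_⟩, _, (k2' s 1 hs).trans_lt ?_⟩
    · have e := AF.Sc.trm_both (k2 (s k)) (levi (fun z => (β z : ℂ)) (M.ch (s k) (s k))) hq.ne'
      rw [AF.Sc.trm_smul, ← hH'] at e
      rw [← e]
      linarith
    · linarith [Real.sqrt_le_one.2 hs]

variable {G Y Z : Type} [Group G] [MulAction G Y] [MulAction G Z] [PseudoMetricSpace Y]
  [PseudoMetricSpace Z] {Φ : Y → Z} {C δ D : ℝ} {m : ℕ}

theorem geo (h : Geo G Z C m δ D) (hs : Function.Surjective Φ)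
    (hd : ∀ y y', dist y y' = dist (Φ y) (Φ y')) (he : ∀ (g : G) y, Φ (g • y) = g • Φ y)
    (hi : Function.Injective Φ) : Geo G Y C m δ D := by
  classical
  choose ψ hψ using hs
  refine ⟨fun g y y' => by rw [hd, he, he, h.iso, ← hd], fun y y' L hL => ?_,
    fun y r R r0 rR R1 => ?_, ?_, fun y y' => ?_⟩
  · obtain ⟨k, s, s0, sk, s1, s2⟩ := h.geo (Φ y) (Φ y') L (hd y y' ▸ hL)
    refine ⟨k, fun i => ψ (s i), hi (by rw [hψ, s0]), hi (by rw [hψ, sk]), ?_, ?_⟩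
    · simpa only [hd, hψ] using s1
    · simpa only [hd, hψ] using s2
  · obtain ⟨T, t1, t2⟩ := h.cov (Φ y) r R r0 rR R1
    refine ⟨T.image ψ, (Nat.cast_le.2 Finset.card_image_le).trans t1, fun z hz => ?_⟩
    obtain ⟨t, ht, h1⟩ := mem_iUnion₂.1 (t2 (show Φ z ∈ ball (Φ y) R by rwa [mem_ball, ← hd]))
    exact mem_iUnion₂.2 ⟨ψ t, Finset.mem_image_of_mem ψ ht, by rwa [mem_ball, hd, hψ]⟩
  · obtain ⟨r, r0, h1⟩ := h.disc
    exact ⟨r, r0, fun y g hg => h1 (Φ y) g (by rwa [← he, ← hd])⟩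
  · obtain ⟨g, hg⟩ := h.diam (Φ y) (Φ y')
    exact ⟨g, by rwa [hd, he]⟩

end MainA

theorem nsS (hG : GluS) (hB : BgS) (hN : NcS) (hE : EssS) : NsS := by
  intro ι _ _ _
  obtain ⟨C, L, A, r₁, L0, A0, r0, hm⟩ := MainA.met ι
  obtain ⟨Cv, C0, hB⟩ := hB ι
  refine ⟨C, L, A, r₁, L0, A0, r0, fun D => ?_⟩
  obtain ⟨w, w0, N₀, hG⟩ := hG (Fintype.card ι) (2 * Fintype.card ι) C D (Cv + 1) (by linarith)
  refine ⟨w, w0, N₀, ?_⟩
  intro X Y G _ _ _ _ _ _ _ _ τ _ _ _ K M h p a γ hA hch hq hex hh hr ha hc bij eqv loc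
  obtain ⟨d, H, c, δ, me, HK, cc, r1, r2, lm, dm⟩ := hm X G M h a hh hr ha hc
  refine ⟨d, me, fun hD => ?_⟩
  have ge : Geo G (Tot X G) C (2 * Fintype.card ι) (1 / 2) D := ⟨me.iso, me.geo, me.cov, me.disc, hD⟩
  have B : Bx M H c a δ p γ := ⟨HK, r2, cc, ha, lm, dm, fun y R => by
    obtain ⟨N, hN⟩ := geoS.chain C (2 * Fintype.card ι) R (δ / 4) (by linarith [lm.pos])
    obtain ⟨T, -, t⟩ := hN G _ _ D ge le_rfl y
    exact ⟨T, t⟩, hq, bij, eqv, loc⟩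
  obtain ⟨mY, rfl, hd, P⟩ := metY ι X Y G M H c a δ p γ B
  obtain ⟨-, N, g, S, ⟨l⟩⟩ := stS ι X Y G M H p HK hq
  obtain ⟨⟨μ, hμ⟩, hV⟩ := AY.volS' ι X M H HK
  borelize Y
  have : ProperSpace Y := ⟨P.cpt⟩
  obtain ⟨s, ν, F₀, ms⟩ := measY ι X Y G M H μ p N g S l hq P
    (actS ι X Y G M H p N g S hq HK l).1 (hV μ hμ).fin
  have he : ∀ (g : G) y, Tot.mk (p (g • y)) (γ (g • y)) = g • Tot.mk (p y) (γ y) := fun g y => by
    rw [Tot.smul_mk, eqv, hq.map_smul]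
  obtain ⟨f1, ⟨z, f2⟩, Q, f3, f4, f5, f6⟩ := hG G Y _ (axS B l hd P hμ ms) inferInstance
    (MainA.geo (Φ := fun y => Tot.mk (p y) (γ y)) ge bij.2 hd he bij.1)
    (fun y s R s0 sR R1 => (hB X Y G M H c a δ p γ μ ν HK cc r1 ha dm bij hd hμ ms.fib y s R s0 sR
      R1).trans (by
        have := s0.trans_le sR
        gcongr
        linarith))
    (hN ι X Y G Y K p id hq (hE ι X Y G K p hq hex) P.iso (fun _ _ => rfl) continuous_id)
  refine ⟨f1, ⟨fun i => Tot.mk (p (z i)) (γ (z i)), fun y => ?_⟩, Q, f3, f4, f5, fun y => ?_⟩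
  · obtain ⟨y, rfl⟩ := bij.2 y
    obtain ⟨i, g, h1⟩ := f2 y
    exact ⟨i, g, by rwa [hd, he] at h1⟩
  · obtain ⟨y, rfl⟩ := bij.2 y
    have h1 := f6 y
    simp only [Hs, hd, he] at h1
    exact h1

end Pool.Agent.Lib.MP_813db1_ag.NS
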