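import Pool.Agent.Lib.MP_813db1_ag.AS.Ng

/-! The Margulis lemma with a packing bound whose exponent bounds the rank. -/

namespace Pool.Agent.Lib.MP_813db1_ag.NS

open Subgroup Pool.Agent.Lib.MP_bbd4b9_ag Pool.Agent.Lib.MP_813db1_ag.AS
open scoped Pointwise Classical

/-- a separated subset of a ball. -/
def Sep {Q : Type} [Group Q] (ν : Q → ℝ) (T : Finset Q) (s R : ℝ) : Prop :=
  (∀ t ∈ T, ν t < R) ∧ ∀ t ∈ T, ∀ t' ∈ T, t ≠ t' → s ≤ ν (t⁻¹ * t')

/-- many separated points on the scales in `[s₀, 1]`. -/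
def Pk {Q : Type} [Group Q] (ν : Q → ℝ) (c : ℝ) (r : ℕ) (s₀ : ℝ) : Prop :=
  ∀ s R : ℝ, s₀ ≤ s → s ≤ R → R ≤ 1 → ∃ T : Finset Q, c * (R / s) ^ r ≤ T.card ∧ Sep ν T s R

/-- the Margulis lemma with packing. -/
def MgP : Prop := ∀ (d : ℕ) (C : ℝ), ∃ f : ℕ, ∃ c > (0 : ℝ), c ≤ 1 ∧ ∀ s₀ > (0 : ℝ),
  ∃ δ > (0 : ℝ), δ ≤ 1 ∧ ∀ (Q : Type) [Group Q] (ν : Q → ℝ), NG Q ν C d δ →
    Group.IsVirtuallyNilpotent Q ∧ ∃ r ≤ f, Rk (⊤ : Subgroup Q) r ∧ Pk ν c r s₀

namespace Mp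

variable {Q Q' : Type} [Group Q] [Group Q'] {ν : Q → ℝ} {C δ c c' s₀ : ℝ} {d r r' : ℕ}

/-- packing in balls of half the radius, inside a set. -/
def Ph (ν : Q → ℝ) (A : Set Q) (c : ℝ) (r : ℕ) (s₀ : ℝ) : Prop :=
  ∀ s R : ℝ, s₀ ≤ s → 2 * s ≤ R → R ≤ 1 → ∃ T : Finset Q, (∀ t ∈ T, t ∈ A) ∧
    c * (R / (2 * s)) ^ r ≤ T.card ∧ Sep ν T s (R / 2)

theorem sep_one (h : ν 1 = 0) (s : ℝ) {R : ℝ} (hR : 0 < R) : Sep ν {1} s R :=
  ⟨fun t ht => by rw [Finset.mem_singleton.1 ht, h]; exact hR, fun t ht t' ht' e =>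
    (e ((Finset.mem_singleton.1 ht).trans (Finset.mem_singleton.1 ht').symm)).elim⟩

theorem pk_mono (h : Pk ν c r s₀) (h0 : 0 < s₀) (hc : c' ≤ c) : Pk ν c' r s₀ :=
  fun s R a b e => by
    obtain ⟨T, t1, t2⟩ := h s R a b e
    have : 0 < s := h0.trans_le a
    have : 0 < R := this.trans_le b
    exact ⟨T, le_trans (by gcongr) t1, t2⟩

theorem pk_zero (h : ν 1 = 0) (h0 : 0 < s₀) (hc : c ≤ 1) : Pk ν c 0 s₀ := fun s _ a b _ =>
  ⟨{1}, by simpa using hc, sep_one h s ((h0.trans_le a).trans_le b)⟩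

theorem ph_zero (h : ν 1 = 0) (h0 : 0 < s₀) {A : Set Q} (hA : 1 ∈ A) : Ph ν A 1 0 s₀ :=
  fun s R a b _ => ⟨{1}, by simpa using hA, by simp, sep_one h s (by linarith)⟩

theorem ph_of (h : Pk ν c r s₀) (h0 : 0 < s₀) : Ph ν Set.univ c r s₀ := fun s R a b e => by
  obtain ⟨T, t1, t2⟩ := h s (R / 2) a (by linarith) (by linarith)
  exact ⟨T, fun _ _ => trivial, by rwa [← div_div], t2⟩

theorem ph_two (h : Pk (fun q => 2 * ν q) c r s₀) (h0 : 0 < s₀) : Ph ν Set.univ c r s₀ :=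
  fun s R a b e => by
    obtain ⟨T, t1, t2, t3⟩ := h (2 * s) R (by linarith) b e
    exact ⟨T, fun _ _ => trivial, t1, fun t ht => by have := t2 t ht; linarith,
      fun t ht t' ht' n => by have := t3 t ht t' ht' n; linarith⟩

theorem ph_sub {K : Subgroup Q} (h : Ph (fun g : K => ν g) Set.univ c r s₀) : Ph ν K c r s₀ :=
  fun s R a b e => by
    obtain ⟨T, -, t1, t2, t3⟩ := h s R a b e
    refine ⟨T.map ⟨Subtype.val, Subtype.val_injective⟩, fun t ht => ?_, by rwa [Finset.card_map],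
      fun t ht => ?_, fun t ht t' ht' n => ?_⟩
    · obtain ⟨u, -, rfl⟩ := Finset.mem_map.1 ht
      exact u.2
    · obtain ⟨u, hu, rfl⟩ := Finset.mem_map.1 ht
      exact t2 u hu
    · obtain ⟨u, hu, rfl⟩ := Finset.mem_map.1 ht
      obtain ⟨u', hu', rfl⟩ := Finset.mem_map.1 ht'
      exact t3 u hu u' hu' fun e => n (congrArg _ e)

theorem ph_line (h : NG Q ν C d δ) {S : Set Q} (h0 : 0 < s₀) (hS : ∀ g ∈ S, ν g < s₀)
    (hi : Infinite (closure S)) : Ph ν (closure S) (1 / 3) 1 s₀ := fun s R a b e => by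
  have hs : 0 < s := h0.trans_le a
  obtain ⟨x, hx⟩ : ∃ x, x = R / (2 * s) := ⟨_, rfl⟩
  have x1 : 1 ≤ x := by rw [hx, le_div_iff₀ (by linarith)]; linarith
  have x2 : x * s = R / 2 := by rw [hx]; field_simp
  have j1 := Nat.floor_le (a := (x + 1) / 2) (by linarith)
  have j2 := Nat.lt_floor_add_one ((x + 1) / 2)
  have j3 : 1 ≤ ⌊(x + 1) / 2⌋₊ := Nat.le_floor (by push_cast; linarith)
  generalize ⌊(x + 1) / 2⌋₊ = J at j1 j2 j3
  obtain ⟨u, u1, u2⟩ := Ng.shells h h0 a hS hi J (R := R / 2) (by linarith) fun j hj => by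
    have : (j : ℝ) + 1 ≤ J := by exact_mod_cast hj
    rw [← x2]
    gcongr
    linarith
  have inj : Set.InjOn u (Finset.range J) := fun j hj k hk n => by
    by_contra m
    have := u2 j (by simpa using hj) k (by simpa using hk) m
    rw [n, inv_mul_cancel, h.one] at this
    linarith
  refine ⟨(Finset.range J).image u, fun t ht => ?_, ?_, fun t ht => ?_, fun t ht t' ht' n => ?_⟩
  · obtain ⟨j, hj, rfl⟩ := Finset.mem_image.1 ht
    exact (u1 j (Finset.mem_range.1 hj)).1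
  · rw [Finset.card_image_of_injOn inj, Finset.card_range, ← hx, pow_one]
    have : (1 : ℝ) ≤ J := by exact_mod_cast j3
    linarith
  · obtain ⟨j, hj, rfl⟩ := Finset.mem_image.1 ht
    exact (u1 j (Finset.mem_range.1 hj)).2
  · obtain ⟨j, hj, rfl⟩ := Finset.mem_image.1 ht
    obtain ⟨k, hk, rfl⟩ := Finset.mem_image.1 ht'
    exact u2 j (Finset.mem_range.1 hj) k (Finset.mem_range.1 hk) fun e => n (congrArg _ e)

theorem pk_ext (h : NG Q ν C d δ) {f : Q →* Q'} (hf : Function.Surjective f) {A : Set Q}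
    (hA : ∀ t ∈ A, f t = 1) (h0 : 0 < s₀) (c0 : 0 < c) (c1 : c ≤ 1) (c2 : 0 < c') (c3 : c' ≤ 1)
    (h1 : Ph ν A c r s₀) (h2 : Ph (qn f ν) Set.univ c' r' s₀) :
    Pk ν (c * c' / 2 ^ (r + r')) (r + r') s₀ := fun s R a b e => by
  have hs : 0 < s := h0.trans_le a
  have hR : 0 < R := hs.trans_le b
  have eq : c * c' / 2 ^ (r + r') * (R / s) ^ (r + r') =
      c * (R / (2 * s)) ^ r * (c' * (R / (2 * s)) ^ r') := by
    have : R / s = 2 * (R / (2 * s)) := by field_simp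
    rw [this, mul_pow, pow_add (R / (2 * s))]
    field_simp
  rw [eq]
  rcases le_or_gt (2 * s) R with b' | b'
  · obtain ⟨T, t0, t1, t2, t3⟩ := h1 s R a b' e
    obtain ⟨U, -, u1, u2, u3⟩ := h2 s R a b' e
    have : ∀ q, ∃ g, q ∈ U → f g = q ∧ ν g < R / 2 := fun q => by
      by_cases hq : q ∈ U
      · obtain ⟨g, hg⟩ := Ng.qn_lt h hf (u2 q hq)
        exact ⟨g, fun _ => hg⟩
      · exact ⟨1, fun e => (hq e).elim⟩
    choose l hl using this
    have key : ∀ p ∈ U ×ˢ T, ∀ p' ∈ U ×ˢ T, p ≠ p' → s ≤ ν ((l p.1 * p.2)⁻¹ * (l p'.1 * p'.2)) := by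
      rintro ⟨q, t⟩ hp ⟨q', t'⟩ hp' n
      obtain ⟨a1, a2⟩ := Finset.mem_product.1 hp
      obtain ⟨a3, a4⟩ := Finset.mem_product.1 hp'
      by_cases m : q = q'
      · subst m
        have := t3 t a2 t' a4 fun e => n (by rw [e])
        simpa [mul_assoc] using this
      · refine (u3 q a1 q' a3 m).trans (le_trans (le_of_eq ?_) (Ng.qn_le h f _))
        simp [(hl q a1).1, (hl q' a3).1, hA t (t0 t a2), hA t' (t0 t' a4)]
    have inj : Set.InjOn (fun p : Q' × Q => l p.1 * p.2) (U ×ˢ T : Finset _) :=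
      fun p hp p' hp' n => by
        by_contra m
        have := key p hp p' hp' m
        rw [show l p.1 * p.2 = l p'.1 * p'.2 from n, inv_mul_cancel, h.one] at this
        linarith
    refine ⟨(U ×ˢ T).image fun p => l p.1 * p.2, ?_, fun t ht => ?_, fun t ht t' ht' n => ?_⟩
    · rw [Finset.card_image_of_injOn inj, Finset.card_product, Nat.cast_mul, mul_comm]
      gcongr
    · obtain ⟨p, hp, rfl⟩ := Finset.mem_image.1 ht
      obtain ⟨a1, a2⟩ := Finset.mem_product.1 hp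
      have := h.mul (l p.1) p.2
      have := (hl _ a1).2
      have := t2 _ a2
      linarith
    · obtain ⟨p, hp, rfl⟩ := Finset.mem_image.1 ht
      obtain ⟨p', hp', rfl⟩ := Finset.mem_image.1 ht'
      exact key p hp p' hp' fun e => n (by rw [e])
  · refine ⟨{1}, ?_, sep_one h.one s hR⟩
    have x0 : 0 ≤ R / (2 * s) := by positivity
    have x1 : R / (2 * s) ≤ 1 := by rw [div_le_one (by linarith)]; exact b'.le
    have p1 := pow_le_one₀ (n := r) x0 x1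
    have p2 := pow_le_one₀ (n := r') x0 x1
    rw [Finset.card_singleton, Nat.cast_one]
    calc _ ≤ 1 * 1 * (1 * 1) := by gcongr
      _ = (1 : ℝ) := by norm_num

end Mp

open Mp in
theorem mgP (h2 : RkS) (h3 : FcU) (h4 : VnS) (h5 : HR.McS) : MgP := by
  have h1 := ngS
  intro d
  induction d with
  | zero =>
    intro C
    obtain ⟨δ, d1, d2⟩ := h1.zero C
    refine ⟨0, 1, one_pos, le_rfl, fun s₀ s0 =>
      ⟨min δ 1, lt_min d1 one_pos, min_le_right _ _, fun Q _ ν h => ?_⟩⟩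
    have := d2 Q ν (h1.mono Q ν C 0 _ _ h (min_le_left _ _))
    exact ⟨⟨⊥, inferInstance, inferInstance⟩, 0, le_rfl, h2.fin Q ⊤ inferInstance,
      pk_zero h.one s0 le_rfl⟩
  | succ d ih =>
    intro C
    obtain ⟨f₁, k₁, p1, p2, ih1⟩ := ih (3 * 4 ^ (d + 1) * C)
    obtain ⟨f₂, k₂, q1, q2, ih2⟩ := ih (3 * 4 ^ (d + 1) * (2 ^ (d + 1) * C))
    obtain ⟨w, hw⟩ : ∃ w : ℝ, w = 2 ^ (1 + f₂ + f₁) := ⟨_, rfl⟩
    have w1 : 1 ≤ w := hw ▸ one_le_pow₀ one_le_two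
    have kk : ∀ x y : ℝ, 0 < x → x ≤ 1 → 0 < y → y ≤ 1 → ∀ n : ℕ,
        0 < x * y / 2 ^ n ∧ x * y / 2 ^ n ≤ 1 := fun x y a b c e n =>
      ⟨by positivity, by
        rw [div_le_one (by positivity)]
        exact (mul_le_one₀ b c.le e).trans (one_le_pow₀ one_le_two)⟩
    have w2 : ∀ n ≤ 1 + f₂ + f₁, (2 : ℝ) ^ n ≤ w := fun n hn => hw ▸ pow_le_pow_right₀ one_le_two hn
    refine ⟨1 + f₂ + f₁, 1 * (1 / 3 * k₂ / w * k₁ / w) / w, by positivity, ?_, fun s₀ s0 => ?_⟩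
    · have : 1 / 3 * k₂ / w * k₁ / w ≤ 1 * 1 / 1 * 1 / 1 := by gcongr; norm_num
      rw [div_le_one (by positivity)]
      linarith
    obtain ⟨δ₁, a1, a2, a3⟩ := ih1 s₀ s0
    obtain ⟨δ₂, b1, -, b3⟩ := ih2 s₀ s0
    obtain ⟨lam, l1, l2, l3, l4⟩ : ∃ lam : ℝ, 0 < lam ∧ 4 * lam ≤ δ₁ ∧ 4 * lam ≤ δ₂ ∧ lam ≤ s₀ :=
      ⟨min (min δ₁ δ₂ / 4) s₀, lt_min (by have := lt_min a1 b1; positivity) s0,
        by have := min_le_left δ₁ δ₂; have := min_le_left (min δ₁ δ₂ / 4) s₀; linarith,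
        by have := min_le_right δ₁ δ₂; have := min_le_left (min δ₁ δ₂ / 4) s₀; linarith,
        min_le_right _ _⟩
    obtain ⟨δ₀, c1, c2⟩ := h3 C (d + 1) lam l1
    obtain ⟨δ, e1, e2, e3⟩ : ∃ δ : ℝ, 0 < δ ∧ 2 * δ ≤ lam ∧ δ ≤ δ₀ :=
      ⟨min (lam / 2) δ₀, lt_min (by positivity) c1,
        by have := min_le_left (lam / 2) δ₀; linarith, min_le_right _ _⟩
    have e4 : δ ≤ 1 := by linarith
    refine ⟨δ, e1, e4, fun Q _ ν h => ?_⟩
    have fg := h1.fg Q ν C _ δ h e4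
    have vn : Group.IsVirtuallyNilpotent Q := h5 Q fg fun Q' _ f hf hQ => by
      obtain ⟨F, ⟨u, u1, u2⟩, -, u3⟩ := c2 Q' _
        (h1.mono _ _ _ _ _ _ (h1.quo Q Q' f ν C _ δ hf h) e3) hQ
      refine ⟨u, u2, F.finite_toSet.subset fun v hv => ?_⟩
      obtain ⟨g, rfl⟩ := isConj_iff.1 hv
      exact u3 g u u1
    refine ⟨vn, ?_⟩
    obtain ⟨T, _, t1, t2⟩ := h4.max Q fg vn
    have n1 := h1.quo Q (Q ⧸ T) (QuotientGroup.mk' T) ν C _ δ (QuotientGroup.mk'_surjective T) h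
    have z0 : 0 < 1 / 3 * k₂ / w * k₁ / w := by positivity
    have z1 : 1 / 3 * k₂ / w * k₁ / w ≤ 1 :=
      calc _ ≤ 1 * 1 / 1 * 1 / 1 := by gcongr; norm_num
        _ = (1 : ℝ) := by norm_num
    suffices H : ∃ r ≤ 1 + f₂ + f₁, Rk (⊤ : Subgroup (Q ⧸ T)) r ∧
        Pk (qn (QuotientGroup.mk' T) ν) (1 / 3 * k₂ / w * k₁ / w) r s₀ by
      obtain ⟨r, r1, r2, r3⟩ := H
      refine ⟨0 + r, by omega, h2.ext Q (Q ⧸ T) (QuotientGroup.mk' T) 0 _
        (h2.fin Q _ (by rw [QuotientGroup.ker_mk']; exact t1)) r2, pk_mono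
        (pk_ext h (QuotientGroup.mk'_surjective T) (A := {1}) (by simp) s0 one_pos le_rfl z0 z1
          (ph_zero h.one s0 rfl) (ph_of r3 s0)) s0 ?_⟩
      have := w2 (0 + r) (by omega)
      gcongr
    generalize qn (QuotientGroup.mk' T) ν = μ at n1
    rcases subsingleton_or_nontrivial (Q ⧸ T) with hs | hs
    · exact ⟨0, Nat.zero_le _, h2.fin _ ⊤ inferInstance, pk_zero n1.one s0 z1⟩
    obtain ⟨F, ⟨u, u1, u2⟩, u3, u4⟩ := c2 _ μ (h1.mono _ _ _ _ _ _ n1 e3) hs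
    obtain ⟨g1, g2, g3⟩ := h4.ab _ F u4 t2
    have u5 : u ∈ closure (F : Set (Q ⧸ T)) := subset_closure u1
    have u6 : ¬ IsOfFinOrder u := fun e => u2 (g3 u u5 e)
    let v : closure (F : Set (Q ⧸ T)) := ⟨u, u5⟩
    have v1 : Infinite (zpowers v) := by
      have : ¬ IsOfFinOrder v := fun e => u6 ((Subgroup.subtype _).isOfFinOrder e)
      exact Set.infinite_coe_iff.2 (infinite_zpowers.2 this)
    have v2 : Infinite (closure (F : Set (Q ⧸ T))) :=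
      Infinite.of_injective _ (zpowers v).subtype_injective
    have v3 : (zpowers v).Normal := ⟨fun x hx g => by
      rwa [g2.is_comm.comm g x, mul_inv_cancel_right]⟩
    have n2 := h1.drop _ _ (QuotientGroup.mk' (closure (F : Set (Q ⧸ T)))) μ C d δ lam F
      (QuotientGroup.mk'_surjective _) n1 e2 u3 (QuotientGroup.ker_mk' _)
      (by rw [QuotientGroup.ker_mk']; exact v2)
    have n3 := h1.sub _ μ C (d + 1) δ lam F n1 e2 u3
    have n4 := h1.drop _ _ (QuotientGroup.mk' (zpowers v)) _ _ d lam (2 * lam) {v}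
      (QuotientGroup.mk'_surjective _) n3 le_rfl
      (by rintro _ rfl; have := u3 u u1; show μ u < _; linarith)
      (by rw [QuotientGroup.ker_mk', zpowers_eq_closure])
      (by rw [QuotientGroup.ker_mk']; exact v1)
    obtain ⟨r₁, x1, x2, x3⟩ := (a3 _ _ (h1.mono _ _ _ _ _ _ n2 (by linarith))).2
    obtain ⟨r₂, y1, y2, y3⟩ := (b3 _ _ (h1.mono _ _ _ _ _ _ n4 (by linarith))).2
    have r3 := h2.ext _ _ (QuotientGroup.mk' (zpowers v)) 1 r₂
      (by rw [QuotientGroup.ker_mk']; exact h2.cyc _ v) y2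
    have m1 := pk_ext n3 (QuotientGroup.mk'_surjective (zpowers v)) (A := closure {v})
      (fun t ht => by
        rw [← MonoidHom.mem_ker, QuotientGroup.ker_mk', zpowers_eq_closure]; exact ht)
      s0 (by norm_num) (by norm_num) q1 q2
      (ph_line n3 s0 (by rintro _ rfl; exact (u3 u u1).trans_le l4)
        (by rw [← zpowers_eq_closure]; exact v1)) (ph_two y3 s0)
    obtain ⟨k1, k2⟩ := kk (1 / 3) k₂ (by norm_num) (by norm_num) q1 q2 (1 + r₂)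
    have m2 := pk_ext n1 (QuotientGroup.mk'_surjective (closure (F : Set (Q ⧸ T))))
      (A := closure (F : Set (Q ⧸ T)))
      (fun t ht => by rw [← MonoidHom.mem_ker, QuotientGroup.ker_mk']; exact ht)
      s0 k1 k2 p1 p2 (ph_sub (ph_of m1 s0)) (ph_two x3 s0)
    refine ⟨1 + r₂ + r₁, by omega, h2.ext _ _ (QuotientGroup.mk' (closure (F : Set (Q ⧸ T)))) _ _
      (by rw [QuotientGroup.ker_mk']; exact (h2.top _ _ _).1 r3) x2, pk_mono m2 s0 ?_⟩
    have := w2 (1 + r₂) (by omega)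
    have := w2 (1 + r₂ + r₁) (by omega)
    gcongr

end Pool.Agent.Lib.MP_813db1_ag.NS
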