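import Pool.Agent.Lib.MP_813db1_ag.AS.MetDefs

/-! The normal Margulis subgroup: the statement. -/

namespace Pool.Agent.Lib.MP_813db1_ag.NS

open Pool.Agent.Lib.MP_813db1_ag.HS Pool.Agent.Lib.MP_813db1_ag.AS Pool.Agent.Lib.MP_bbd4b9_ag.LC
open MeasureTheory Filter Topology Set Metric
open scoped ComplexOrder Manifold ContDiff

/-- the metric on the covering space, with a normal Margulis subgroup. -/
def NsS : Prop := ∀ (ι : Type) [Fintype ι] [DecidableEq ι] [Nonempty ι], ∃ C L A r₁ : ℝ,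
  0 ≤ L ∧ 0 ≤ A ∧ 0 < r₁ ∧ ∀ D : ℝ, ∃ w > (0 : ℝ), ∃ N₀ : ℕ, ∀ (X Y G : Type) [TopologicalSpace X]
  [T2Space X] [CompactSpace X] [Nonempty X] [MeasurableSpace X] [BorelSpace X]
  [ChartedSpace (ι → ℂ) X] [IsManifold 𝓘(ℂ, ι → ℂ) ω X] [TopologicalSpace Y]
  [SimplyConnectedSpace Y] [Group G] [MulAction G Y] (K : Kahler ι X) (M : Atl ι X)
  (h : X → Mat ι) (p : Y → X) (a : X → X → G) (γ : Y → G), atlas (ι → ℂ) X ⊆ M.A →
  (∀ x, M.ch x = chartAt (ι → ℂ) x) → IsQuotientCoveringMap p G → Exact K p → M.IsK h →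
  (∀ x, (M.ricF h x + h x).PosSemidef) → (∀ x, Coh a x) → Conn a →
  Function.Bijective (fun y => (p y, γ y)) → (∀ g y, γ (g • y) = g * γ y) →
  (∀ y0, ∀ᶠ y in 𝓝 y0, γ y = γ y0 * a (p y0) (p y)) →
  ∃ d : PseudoMetricSpace (Tot X G), @Met ι X G _ _ _ _ M h a C L A r₁ d ∧
    ((∀ y y' : Tot X G, ∃ g : G, dist y (g • y') ≤ D) → Group.FG G ∧
      (∃ z : Fin N₀ → Tot X G, ∀ y, ∃ (i : Fin N₀) (g : G), dist (z i) (g • y) < w) ∧
      ∃ N : Subgroup G, N.FG ∧ Group.IsVirtuallyNilpotent N ∧ N.Normal ∧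
        ∀ y : Tot X G, N.relIndex (Hs G y (10 * w)) ≠ 0)

end Pool.Agent.Lib.MP_813db1_ag.NS
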