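import Pool.Agent.Lib.MP_813db1_ag.NS.WinB
import Pool.Agent.Lib.MP_813db1_ag.NS.Dif
import Pool.Agent.Lib.MP_813db1_ag.AS.GAll

/-! The clean window, and the normal Margulis subgroup from the propagation theorem. -/

namespace Pool.Agent.Lib.MP_813db1_ag.NS

open Pool.Agent.Lib.MP_813db1_ag.AS Pool.Agent.Lib.MP_bbd4b9_ag
open MeasureTheory Set Metric Subgroup
open scoped Classical Pointwise

namespace Wn

theorem inner (m f : ℕ) (C D Cv c w : ℝ) (φ : ℝ → ℝ → ℝ) (v0 : 0 < Cv) (c0 : 0 < c) (w0 : 0 < w)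
    (w1 : 4 * w ≤ 1) (hφ : ∀ r θ, 0 < r → r ≤ 1 → 0 < θ → 0 < φ r θ ∧ φ r θ ≤ r / 2) :
    ∃ σ > (0 : ℝ), ∀ (G Y : Type) [Group G] [MulAction G Y] [PseudoMetricSpace Y]
      [MeasurableSpace Y] [BorelSpace Y] [Nonempty Y] (ν : Measure Y) (F : Set Y) (k : ℕ),
      Geo G Y C m (1 / 2) D → FD G ν F → BG ν Cv m → NC G Y m → k ≤ f →
      (∀ y : Y, (Hs G y (10 * w)).FG ∧ Group.IsVirtuallyNilpotent (Hs G y (10 * w)) ∧
        Rk (Hs G y (10 * w)) k) →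
      (∀ (y : Y) (s R : ℝ), σ ≤ s → s ≤ R → R ≤ 1 → Orb (Hs G y σ) y (c * (R / s) ^ k) s R) →
      ∃ (r θ : ℝ) (x : Y) (E : Set Y), σ ≤ r ∧ r ≤ w ∧ 0 < θ ∧ E ⊆ F ∧
        θ * ν.real F ≤ ν.real E ∧
        ∀ e ∈ E, ∃ g : G, dist x (g • e) < r ∧ Hs G (g • e) (φ r θ) = Hs G x r := by
  obtain ⟨K, K0, hK⟩ := volW m C D Cv v0
  obtain ⟨N, hN⟩ := GeoP.chain C m (D + 1) w w0
  choose! Nn hNn using fun a (h : 0 < a) => GeoP.chain C m (D + 1) a h
  obtain ⟨L, hL⟩ := pow_unbounded_of_one_lt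
    (2 * (4 * ((N + 1 : ℕ) : ℝ)) ^ m * ((N + 1 : ℕ) * (C * 8 ^ m)) / c) (one_lt_two (α := ℝ))
  rw [div_lt_iff₀ c0] at hL
  obtain ⟨M, hM⟩ : ∃ M : ℝ, M = 2 * (4 * ((N + 1 : ℕ) : ℝ)) ^ m := ⟨_, rfl⟩
  have M0 : 0 < M := by rw [hM]; positivity
  obtain ⟨θ₁, hθ⟩ : ∃ θ₁ : ℝ, θ₁ = c * (w / 2) ^ m / (2 ^ f * M * K) := ⟨_, rfl⟩
  have θ0 : 0 < θ₁ := by rw [hθ]; positivity
  obtain ⟨θ, hθ'⟩ : ∃ θ : ℝ → ℝ, ∀ a, θ a = θ₁ / (L + 1) / (Nn (a / 20) + 1) := ⟨_, fun _ => rfl⟩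
  have θ1 : ∀ a, 0 < θ a := fun a => by rw [hθ']; positivity
  obtain ⟨a, aw, as⟩ : ∃ a : ℕ → ℝ, a 0 = w ∧ ∀ i, a (i + 1) = φ (a i / 2) (θ (a i)) / 2 :=
    ⟨fun i => Nat.rec w (fun _ x => φ (x / 2) (θ x) / 2) i, rfl, fun _ => rfl⟩
  have a01 : ∀ i, 0 < a i ∧ a i ≤ w := fun i => by
    induction i with
    | zero => exact ⟨aw ▸ w0, aw.le⟩
    | succ i ih =>
      have := hφ (a i / 2) _ (half_pos ih.1) (by linarith [ih.2]) (θ1 (a i))
      rw [as]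
      exact ⟨half_pos this.1, by linarith [ih.1, ih.2, this.2]⟩
  have a0 := fun i => (a01 i).1
  have a8 : ∀ i, a (i + 1) ≤ a i / 8 := fun i => by
    have := hφ (a i / 2) _ (half_pos (a0 i)) (by linarith [(a01 i).2]) (θ1 (a i))
    rw [as]
    linarith [this.2]
  have a1 : ∀ i, a (i + 1) ≤ a i / 2 := fun i => by linarith [a8 i, a0 i]
  have an : Antitone a := antitone_nat_of_succ_le fun i => by linarith [a0 i, a1 i]
  obtain ⟨σ, hσ⟩ : ∃ σ, σ = a L / 4 := ⟨_, rfl⟩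
  have aL := a01 L
  have σ0 : 0 < σ := by linarith [aL.1]
  have σ1 : 4 * σ ≤ w := by linarith [aL.2]
  refine ⟨σ, σ0, fun G Y _ _ _ _ _ ⟨y₀⟩ ν F k h fd bg nc kf hr ho => ?_⟩
  have := finm fd
  rcases (measureReal_nonneg (μ := ν) (s := F)).eq_or_lt with F0 | F0
  · exact ⟨w, 1, y₀, ∅, by linarith, le_rfl, one_pos, empty_subset _, by simp [← F0],
      fun _ e => e.elim⟩
  obtain ⟨T₀, t1, t2⟩ := hN G Y _ D h le_rfl y₀
  obtain ⟨z, hz⟩ := znet h y₀ (t1.trans N.le_succ) t2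
  obtain ⟨T, u1, u2⟩ := net h y₀ σ0
  have gd := good h nc a0 a1 aw σ0 (by linarith [aL.1]) (by linarith) w1 c0 hz hr
    (fun y => ho y σ w le_rfl (by linarith) (by linarith)) hL.le
    (by obtain ⟨t, ht, -⟩ := u2 y₀; exact ⟨t, ht⟩) u1 u2
  rw [← hM] at gd
  obtain ⟨B, hB⟩ : ∃ B, B = T.filter fun t => ∃ i < L, Hs G t (a (i + 1)) = Hs G t (a i) :=
    ⟨_, rfl⟩
  rw [← hB] at gd
  have one : ∀ t : Y, c * (w / σ) ^ k * (σ / 2) ^ m * ν.real F ≤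
      2 ^ f * K * vb G ν F t (σ / 2) := fun t => by
    obtain ⟨P, p1, p2, p3⟩ := ho t (2 * σ) w (by linarith) (by linarith) (by linarith)
    have q := hK G Y ν F h fd bg t (σ / 2) P (half_pos σ0) (by linarith)
      (fun g hg => by linarith [(p2 g hg).2])
      fun g hg g' hg' n => by linarith [p3 g hg g' hg' n]
    have e : w / σ = 2 * (w / (2 * σ)) := by field_simp
    have e2 : (2 : ℝ) ^ k ≤ 2 ^ f := pow_le_pow_right₀ one_le_two kf
    calc _ = 2 ^ k * (c * (w / (2 * σ)) ^ k * (σ / 2) ^ m * ν.real F) := by rw [e, mul_pow]; ring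
      _ ≤ 2 ^ f * (P.card * (σ / 2) ^ m * ν.real F) := by gcongr
      _ ≤ 2 ^ f * (K * vb G ν F t (σ / 2)) := by gcongr
      _ = _ := by ring
  have tot : θ₁ * ν.real F ≤ (ν.restrict F).real (⋃ t ∈ B, Sat G (ball t (σ / 2))) := by
    rw [measureReal_biUnion_finset (fun t ht t' ht' n => ?_)
      (fun t _ => (sat_open h isOpen_ball).measurableSet) fun _ _ => measure_ne_top _ _, hθ,
      div_mul_eq_mul_div, div_le_iff₀ (by positivity)]
    · have q := Finset.card_nsmul_le_sum B _ _ fun t _ => one t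
      rw [nsmul_eq_mul, ← Finset.mul_sum] at q
      have e : w / 2 = w / σ * (σ / 2) := by field_simp
      calc _ = (w / σ) ^ m * (c * (σ / 2) ^ m * ν.real F) := by rw [e, mul_pow]; ring
        _ ≤ M * (B.card * (w / σ) ^ k) * (c * (σ / 2) ^ m * ν.real F) := by gcongr
        _ = M * (B.card * (c * (w / σ) ^ k * (σ / 2) ^ m * ν.real F)) := by ring
        _ ≤ M * (2 ^ f * K * ∑ t ∈ B, vb G ν F t (σ / 2)) := by gcongr
        _ = _ := by simp only [vb]; ring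
    · rw [hB] at ht ht'
      refine Set.disjoint_left.2 ?_
      rintro y ⟨g, hg⟩ ⟨g', hg'⟩
      have p := u1 t (Finset.mem_filter.1 ht).1 t' (Finset.mem_filter.1 ht').1 n (g * g'⁻¹)
      have q := dist_triangle t (g • y) ((g * g'⁻¹) • t')
      have e : dist (g • y) ((g * g'⁻¹) • t') = dist (g' • y) t' := by
        rw [mul_smul, h.iso, ← h.iso g', smul_inv_smul]
      linarith [mem_ball'.1 hg, mem_ball.1 hg']
  choose W x1 x2 using fun i => hNn (a i / 20) (by linarith [a0 i]) G Y _ D h le_rfl y₀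
  obtain ⟨V, hV⟩ : ∃ V : ℕ → Y → Set Y, ∀ i u y, y ∈ V i u ↔ y ∈ Sat G (ball u (a i / 20)) ∧
      ∃ t, Hs G t (a (i + 1)) = Hs G t (a i) ∧ y ∈ Sat G (ball t (σ / 2)) :=
    ⟨fun i u => {y | _}, fun _ _ _ => Iff.rfl⟩
  obtain ⟨i, hi, u, hu⟩ : ∃ i < L, ∃ u, θ (a i) * ν.real F ≤ (ν.restrict F).real (V i u) := by
    by_contra! n
    have b1 : (ν.restrict F).real (⋃ t ∈ B, Sat G (ball t (σ / 2))) ≤
        ∑ i ∈ Finset.range L, ∑ u ∈ W i, (ν.restrict F).real (V i u) := by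
      refine le_trans (measureReal_mono (h₂ := measure_ne_top _ _) fun y hy => ?_)
        ((measureReal_biUnion_finset_le (Finset.range L) fun i => ⋃ u ∈ W i, V i u).trans
          (Finset.sum_le_sum fun i _ => measureReal_biUnion_finset_le _ _))
      obtain ⟨t, p, q⟩ := mem_iUnion₂.1 hy
      rw [hB] at p
      obtain ⟨i, hi, e⟩ := (Finset.mem_filter.1 p).2
      obtain ⟨g, hg⟩ := sat_univ h y₀ y
      obtain ⟨u, p1, p2⟩ := mem_iUnion₂.1 (x2 i hg)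
      exact mem_iUnion₂.2 ⟨i, Finset.mem_range.2 hi,
        mem_iUnion₂.2 ⟨u, p1, (hV _ _ _).2 ⟨⟨g, p2⟩, t, e, q⟩⟩⟩
    have b2 : ∑ i ∈ Finset.range L, ∑ u ∈ W i, (ν.restrict F).real (V i u) ≤
        (Finset.range L).card • (θ₁ / (L + 1) * ν.real F) :=
      Finset.sum_le_card_nsmul _ _ _ fun i hi => by
        refine (Finset.sum_le_card_nsmul _ _ _ fun u _ =>
          (n i (Finset.mem_range.1 hi) u).le).trans ?_
        have : ((W i).card : ℝ) ≤ Nn (a i / 20) + 1 := by exact_mod_cast (x1 i).trans (Nat.le_succ _)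
        rw [nsmul_eq_mul, hθ']
        calc _ ≤ (Nn (a i / 20) + 1 : ℝ) * (θ₁ / (L + 1) / (Nn (a i / 20) + 1) * ν.real F) := by
              gcongr
          _ = _ := by field_simp
    rw [nsmul_eq_mul, Finset.card_range] at b2
    have b3 : (L + 1 : ℝ) * (θ₁ / (L + 1) * ν.real F) = θ₁ * ν.real F := by field_simp
    have b4 : 0 < θ₁ / (L + 1) * ν.real F := by positivity
    linarith
  have aLi : a L ≤ a (i + 1) := an hi
  have ai := a8 i
  have ai0 := a0 i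
  refine ⟨a i / 2, θ (a i), u, V i u ∩ F, by linarith, by linarith [(a01 i).2], θ1 _,
    inter_subset_right,
    hu.trans_eq (by rw [Measure.real, Measure.restrict_apply' fd.meas]; rfl), fun e he => ?_⟩
  obtain ⟨⟨g, hg⟩, t, cl, g', hg'⟩ := (hV _ _ _).1 he.1
  have d1 := mem_ball'.1 hg
  have d2 : dist ((g * g'⁻¹) • t) (g • e) < σ / 2 := by
    rw [mul_smul, h.iso, ← h.iso g', smul_inv_smul]
    exact mem_ball'.1 hg'
  have e2 : φ (a i / 2) (θ (a i)) = 2 * a (i + 1) := by rw [as]; ring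
  refine ⟨g, by linarith, le_antisymm (hs_le h (by rw [dist_comm]; linarith)) ?_⟩
  calc Hs G u (a i / 2) ≤ Hs G ((g * g'⁻¹) • t) (a i) :=
        hs_le h (by linarith [dist_triangle_right u ((g * g'⁻¹) • t) (g • e)])
    _ = Hs G ((g * g'⁻¹) • t) (a (i + 1)) := (cl_smul h _ cl).symm
    _ ≤ _ := hs_le h (by linarith)

end Wn

open Wn Sc in
theorem winM : WinM := by
  intro m C D Cv φ v0 hφ
  have h1 := geoS
  have h2 := rkS
  obtain ⟨f, c, c0, -, h3⟩ := mgP rkS fcAll vnAll (HR.mcS HR.fpS) m (2 ^ m * C)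
  choose! dl d0 d1 d2 using h3
  choose! st n1 n2 n3 using step h1 C m (2 * D + 1)
  choose! sg s0 s1 using fun (w : ℝ) (a : 0 < w) (b : 4 * w ≤ 1) =>
    inner m f C D Cv c w φ v0 c0 a b hφ
  obtain ⟨r, r00, rs⟩ : ∃ r : ℕ → ℝ, r 0 = dl 1 ∧ ∀ i, r (i + 1) =
      min (st (r i)) (min (dl (sg (r i / 10))) (sg (r i / 10))) :=
    ⟨fun i => Nat.rec (dl 1) (fun _ x => min (st x) (min (dl (sg (x / 10))) (sg (x / 10)))) i, rfl,
      fun _ => rfl⟩
  have r01 : ∀ i, 0 < r i ∧ r i ≤ dl 1 := fun i => by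
    induction i with
    | zero => exact ⟨r00 ▸ d0 1 one_pos, r00.le⟩
    | succ i ih =>
      have := s0 (r i / 10) (by linarith [ih.1]) (by linarith [ih.2, d1 1 one_pos])
      rw [rs]
      exact ⟨lt_min (n1 _ ih.1) (lt_min (d0 _ this) this),
        (min_le_left _ _).trans ((n2 _ ih.1).trans ih.2)⟩
  have r0 := fun i => (r01 i).1
  have r1 : ∀ i, r i ≤ 1 := fun i => (r01 i).2.trans (d1 1 one_pos)
  have ra : Antitone r := antitone_nat_of_succ_le fun i =>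
    rs i ▸ (min_le_left _ _).trans (n2 _ (r0 i))
  refine ⟨r (2 * f + 1), r0 _, fun G Y _ _ _ _ _ _ ν F g fd bg nc => ?_⟩
  have hδ : (1 : ℝ) / 2 ≤ 1 / 2 := le_rfl
  have fg : ∀ y s, (Hs G y s).FG := fun (y : Y) s =>
    (fg_iff _).2 ⟨_, rfl, h1.fin G Y C m _ D g hδ y s⟩
  have cj := h1.conj G Y C m _ D g
  have mg : ∀ (y : Y) s s₀, 0 < s → 0 < s₀ → s ≤ dl s₀ →
      Group.IsVirtuallyNilpotent (Hs G y s) ∧ ∃ k ≤ f, Rk (Hs G y s) k ∧
        Pk (fun a : Hs G y s => dist y ((a : G) • y)) c k s₀ := fun y s s₀ a b e => by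
    obtain ⟨p, k, q1, q2, q3⟩ := d2 s₀ b _ _ (Ng.mono (h1.ng G Y C m _ D g hδ y s a) e)
    exact ⟨p, k, q1, (h2.top G _ k).1 q2, q3⟩
  have mf : ∀ (y : Y) i, Rk (Hs G y (r i)) f := fun y i => by
    obtain ⟨-, k, q1, q2, -⟩ := mg y _ 1 (r0 i) one_pos (r01 i).2
    exact h2.mono G _ _ _ q1 q2
  have nr : ∀ x y : Y, ∃ a : G, dist x (a • y) ≤ 2 * D + 1 := fun x y => by
    obtain ⟨a, ha⟩ := g.diam x y
    exact ⟨a, by linarith [dist_nonneg.trans ha]⟩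
  have vi : ∀ i (x y : Y), dist x y ≤ 2 * D + 1 →
      (Hs G y (r i)).relIndex (Hs G x (r (i + 1))) ≠ 0 := fun i x y h =>
    relIndex_ne_zero_trans (n3 _ (r0 i) G Y _ D g hδ x y h)
      (ri_le (hs_mono x (rs i ▸ min_le_left _ _)))
  have ex : ∀ i, ∃ n, ∀ y : Y, Rk (Hs G y (r i)) n := fun i => ⟨f, fun y => mf y i⟩
  obtain ⟨j, j1, j2⟩ := stab (fun i => Nat.find (ex i)) fun i i' h => Nat.find_min' _ fun y =>
    h2.virt G _ _ _ (ri_le (hs_mono y (ra h))) (Nat.find_spec (ex i) y)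
  have j3 : j ≤ f := j1.trans (Nat.find_min' _ fun y => mf y 0)
  have lo : ∀ (x : Y) n, Rk (Hs G x (r (2 * j + 1))) n → Nat.find (ex (2 * j)) ≤ n :=
    fun x n p => j2.symm.trans_le (Nat.find_min' (ex (2 * j + 2)) fun z => by
      obtain ⟨a, ha⟩ := nr z x
      exact h2.virt G _ _ n (vi _ z _ ha) (cj x _ a ▸ h2.conj G _ a n p))
  have w0 : 0 < r (2 * j) / 10 := by linarith [r0 (2 * j)]
  have w1 : 4 * (r (2 * j) / 10) ≤ 1 := by linarith [r1 (2 * j)]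
  have σ0 := s0 _ w0 w1
  have e1 : r (2 * j + 1) ≤ dl (sg (r (2 * j) / 10)) :=
    rs _ ▸ (min_le_right _ _).trans (min_le_left _ _)
  have e2 : r (2 * j + 1) ≤ sg (r (2 * j) / 10) :=
    rs _ ▸ (min_le_right _ _).trans (min_le_right _ _)
  obtain ⟨ρ, θ, x, E, p1, p2, p3, p4⟩ := s1 _ w0 w1 G Y ν F (Nat.find (ex (2 * j))) g fd bg nc
    (Nat.find_min' _ fun y => mf y _) (fun y => by
      rw [mul_div_cancel₀ _ (by norm_num)]
      exact ⟨fg _ _, (mg y _ 1 (r0 _) one_pos (r01 _).2).1, Nat.find_spec (ex _) y⟩)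
    fun y s R b1 b2 b3 => by
      obtain ⟨-, k, -, q2, q3⟩ := mg y _ _ (r0 _) σ0 e1
      obtain ⟨T, t1, t2, t3⟩ := q3 s R b1 b2 b3
      have x1 : 1 ≤ R / s := by rw [le_div_iff₀ (σ0.trans_le b1)]; linarith
      refine ⟨T.map ⟨Subtype.val, Subtype.val_injective⟩, ?_, fun t ht => ?_,
        fun t ht t' ht' n => ?_⟩
      · rw [Finset.card_map]
        exact le_trans (mul_le_mul_of_nonneg_left (pow_le_pow_right₀ x1 (lo y k q2)) c0.le) t1
      · obtain ⟨u, hu, rfl⟩ := Finset.mem_map.1 ht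
        exact ⟨hs_mono y e2 u.2, t2 u hu⟩
      · obtain ⟨u, hu, rfl⟩ := Finset.mem_map.1 ht
        obtain ⟨u', hu', rfl⟩ := Finset.mem_map.1 ht'
        exact (t3 u hu u' hu' fun e => n (congrArg _ e)).trans_eq (GeoP.dist_inv_mul g y _ _)
  have ρ0 : r (2 * f + 1) ≤ ρ := (ra (by omega)).trans (e2.trans p1)
  have ρ1 : ρ ≤ dl 1 := by linarith [r0 (2 * j), (r01 (2 * j)).2]
  exact ⟨ρ, θ, x, E, ρ0, ρ1.trans (d1 1 one_pos), p3,
    (mg x ρ 1 ((r0 _).trans_le ρ0) one_pos ρ1).1, p4⟩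

/-- the normal Margulis subgroup on an abstract space. -/
def NsM : Prop := ∀ (n m : ℕ) (C D Cv : ℝ), 0 < Cv → ∃ w > (0 : ℝ), ∃ N₀ : ℕ,
  AllD n fun G Y _ _ _ _ T => Geo G Y C m (1 / 2) D → BG T.ν Cv m → NC G Y m → Group.FG G ∧
    (∃ z : Fin N₀ → Y, ∀ y, ∃ (i : Fin N₀) (g : G), dist (z i) (g • y) < w) ∧
    ∃ N : Subgroup G, N.FG ∧ Group.IsVirtuallyNilpotent N ∧ N.Normal ∧
      ∀ y : Y, N.relIndex (Hs G y (10 * w)) ≠ 0

/-- the end of the argument: a subgroup contained in its conjugates by generators is normal. -/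
theorem normal_of {G Y : Type} [Group G] [MulAction G Y] [PseudoMetricSpace Y] {C D δ r : ℝ}
    {m : ℕ} (g : Geo G Y C m δ D) (hδ : δ ≤ 1 / 2) (x : Y)
    (h : ∀ z, dist x z ≤ 2 * D + 1 → Hs G x r ≤ Hs G z r) : (Hs G x r).Normal := by
  have key : ∀ a : G, dist x (a • x) < 2 * D + 1 → ∀ u ∈ Hs G x r, a⁻¹ * u * a ∈ Hs G x r :=
    fun a ha u hu => by
      have := h _ ha.le hu
      rw [GeoP.conj g, mem_pointwise_smul_iff_inv_smul_mem] at this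
      simpa using this
  rw [← normalizer_eq_top_iff, eq_top_iff, ← GeoP.gen g hδ x]
  refine (closure_le _).2 fun a ha => mem_normalizer_iff.2 fun u => ⟨fun hu => ?_, fun hu => ?_⟩
  · simpa using key a⁻¹ (by rw [GeoP.dist_inv g]; exact ha) u hu
  · simpa [mul_assoc] using key a ha _ hu

open Wn Sc in
theorem nsM (hP : PropS) : NsM := by
  intro n m C D Cv v0
  choose! φ f0 f1 f2 using fun r θ => hP n m C D r θ
  obtain ⟨w₀, w0, hw⟩ := winM m C D Cv φ v0 fun r θ a b c => ⟨f0 r θ a b c, f1 r θ a b c⟩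
  obtain ⟨r', s0, -, s2⟩ := step geoS C m (2 * D + 1) w₀ w0
  have w1 : 0 < r' / 10 := by linarith
  obtain ⟨N₀, hN⟩ := GeoP.chain C m (D + 1) _ w1
  refine ⟨_, w1, N₀, fun G Y _ _ _ _ _ _ T ax g bg nc => ?_⟩
  have : Nonempty Y := by
    by_contra e
    rw [not_nonempty_iff] at e
    have := ax.fd_vol.1
    rw [Set.eq_empty_of_isEmpty T.F₀, measure_empty] at this
    exact lt_irrefl _ this
  obtain ⟨r, θ, x, E, p1, p2, p3, p4, p5, p6, p7⟩ := hw G Y T.ν T.F₀ g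
    ⟨ax.cnt, ax.ν_inv, ax.fd_meas, ax.fd_uniq, ax.fd_vol.2⟩ bg nc
  have fg : ∀ s, (Hs G x s).FG := fun s => (fg_iff _).2 ⟨_, rfl, GeoP.fin g le_rfl x s⟩
  have nm := normal_of g le_rfl x fun z hz =>
    f2 r θ (w0.trans_le p1) p2 p3 G Y T ax g x z E hz p5 p6 p7
  obtain ⟨T₀, t1, t2⟩ := hN G Y _ D g le_rfl x
  refine ⟨Group.fg_def.2 (GeoP.gen g le_rfl x ▸ fg _), znet g x t1 t2, _, fg r, p4, nm, fun y => ?_⟩
  obtain ⟨a, ha⟩ := g.diam y x
  have q := s2 G Y _ D g le_rfl y (a • x) (by linarith [dist_nonneg.trans ha])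
  rw [mul_div_cancel₀ _ (by norm_num)]
  refine relIndex_ne_zero_trans (ri_le ?_) q
  rw [GeoP.conj g]
  intro u hu
  rw [mem_pointwise_smul_iff_inv_smul_mem] at hu
  simpa [mul_assoc] using nm.conj_mem _ (hs_mono x p1 hu) a

end Pool.Agent.Lib.MP_813db1_ag.NS
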