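import Pool.Agent.Lib.MP_813db1_ag.NS.MgP
import Pool.Agent.Lib.MP_813db1_ag.AS.Geo

/-! The clean window: definitions, and lower bounds for the volume of small balls. -/

namespace Pool.Agent.Lib.MP_813db1_ag.NS

open Pool.Agent.Lib.MP_813db1_ag.AS
open MeasureTheory Set Metric
open scoped ENNReal Classical

/-- an invariant measure with a fundamental domain. -/
structure FD (G : Type) {Y : Type} [Group G] [MulAction G Y] [MeasurableSpace Y] (ν : Measure Y)
    (F : Set Y) : Prop where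
  cnt : Countable G
  inv : ∀ (g : G) (A : Set Y), MeasurableSet A → ν ((fun y => g • y) ⁻¹' A) = ν A
  meas : MeasurableSet F
  uniq : ∀ y : Y, ∃! g : G, g • y ∈ F
  fin : ν F < ⊤

/-- the volume comparison. -/
def BG {Y : Type} [PseudoMetricSpace Y] [MeasurableSpace Y] (ν : Measure Y) (Cv : ℝ) (m : ℕ) :
    Prop := ∀ (y : Y) (s R : ℝ), 0 < s → s ≤ R → R ≤ 1 →
  ν (ball y R) ≤ ENNReal.ofReal (Cv * (R / s) ^ m) * ν (ball y s)

/-- the quotient does not collapse more than the rank of the local groups allows. -/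
def NC (G Y : Type) [Group G] [MulAction G Y] [PseudoMetricSpace Y] (m : ℕ) : Prop :=
  ∀ (w : ℝ) (N₀ : ℕ) (z : Fin N₀ → Y) (h : ℕ) (s : ℝ) (T : Finset Y), 0 < w → 0 < s → h < m →
    (∀ y, ∃ (i : Fin N₀) (g : G), dist (z i) (g • y) < w) →
    (∀ i, (Hs G (z i) (10 * w)).FG ∧ Group.IsVirtuallyNilpotent (Hs G (z i) (10 * w)) ∧
      Rk (Hs G (z i) (10 * w)) h) →
    (∀ y, ∃ t ∈ T, ∃ g : G, dist t (g • y) < s) →
    w ^ (m - h) ≤ (N₀ : ℝ) ^ (m - h) * T.card * (2 * s) ^ (m - h)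

/-- the clean window. -/
def WinM : Prop := ∀ (m : ℕ) (C D Cv : ℝ) (φ : ℝ → ℝ → ℝ), 0 < Cv →
  (∀ r θ, 0 < r → r ≤ 1 → 0 < θ → 0 < φ r θ ∧ φ r θ ≤ r / 2) → ∃ w₀ > (0 : ℝ),
  ∀ (G Y : Type) [Group G] [MulAction G Y] [PseudoMetricSpace Y] [MeasurableSpace Y]
    [BorelSpace Y] [Nonempty Y] (ν : Measure Y) (F : Set Y), Geo G Y C m (1 / 2) D → FD G ν F →
    BG ν Cv m → NC G Y m → ∃ (r θ : ℝ) (x : Y) (E : Set Y), w₀ ≤ r ∧ r ≤ 1 ∧ 0 < θ ∧
      Group.IsVirtuallyNilpotent (Hs G x r) ∧ E ⊆ F ∧ θ * ν.real F ≤ ν.real E ∧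
      ∀ e ∈ E, ∃ g : G, dist x (g • e) < r ∧ Hs G (g • e) (φ r θ) = Hs G x r

namespace Wn

/-- the saturation. -/
def Sat (G : Type) {Y : Type} [Group G] [MulAction G Y] (A : Set Y) : Set Y :=
  {y | ∃ g : G, g • y ∈ A}

variable {G Y : Type} [Group G] [MulAction G Y] [PseudoMetricSpace Y]
  {C D Cv δ : ℝ} {m : ℕ}

theorem cts (h : Geo G Y C m δ D) (g : G) : Continuous fun y : Y => g • y :=
  (Isometry.of_dist_eq (h.iso g)).continuous

theorem sat_open (h : Geo G Y C m δ D) {A : Set Y} (hA : IsOpen A) : IsOpen (Sat G A) := by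
  rw [Sat, ofPred_exists]
  exact isOpen_iUnion fun g => hA.preimage (cts h g)

theorem sat_univ (h : Geo G Y C m δ D) (y z : Y) : z ∈ Sat G (ball y (D + 1)) := by
  obtain ⟨g, hg⟩ := h.diam y z
  exact ⟨g, mem_ball'.2 (hg.trans_lt (lt_add_one D))⟩

variable [MeasurableSpace Y] [BorelSpace Y] {ν : Measure Y} {F : Set Y}

theorem unf (h : Geo G Y C m δ D) (f : FD G ν F) {A : Set Y} (hA : IsOpen A) :
    ν A = ∫⁻ y in F, ∑' g : G, A.indicator 1 (g • y) ∂ν := by
  have := f.cnt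
  have : MeasurableConstSMul G Y := ⟨fun g => (cts h g).measurable⟩
  have : SMulInvariantMeasure G Y ν := ⟨f.inv⟩
  rw [lintegral_tsum (f := fun (g : G) (y : Y) => A.indicator (1 : Y → ℝ≥0∞) (g • y))
      fun g => ((measurable_one.indicator hA.measurableSet).comp
        (cts h g).measurable).aemeasurable,
    ← (IsFundamentalDomain.mk' f.meas.nullMeasurableSet f.uniq).lintegral_eq_tsum'',
    lintegral_indicator_one hA.measurableSet]

theorem low (h : Geo G Y C m δ D) (f : FD G ν F) {A B : Set Y} (hA : IsOpen A)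
    (hB : MeasurableSet B) {a : ℕ}
    (e : ∀ y ∈ B, ∃ Z : Finset G, a ≤ Z.card ∧ ∀ g ∈ Z, g • y ∈ A) :
    a * ν.restrict F B ≤ ν A := by
  rw [unf h f hA, ← lintegral_indicator_const hB]
  refine lintegral_mono fun y => ?_
  by_cases hy : y ∈ B
  · obtain ⟨Z, z1, z2⟩ := e y hy
    rw [indicator_of_mem hy]
    refine le_trans ?_ (ENNReal.sum_le_tsum Z)
    rw [Finset.sum_congr rfl fun g hg => indicator_of_mem (z2 g hg) _]
    simpa using z1
  · simp [indicator_of_notMem hy]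

theorem up (h : Geo G Y C m δ D) (f : FD G ν F) {A : Set Y} (hA : IsOpen A) {b : ℕ}
    (e : ∀ (y : Y) (Z : Finset G), (∀ g ∈ Z, g • y ∈ A) → Z.card ≤ b) :
    ν A ≤ b * ν.restrict F (Sat G A) := by
  rw [unf h f hA, ← lintegral_indicator_const (sat_open h hA).measurableSet]
  refine lintegral_mono fun y => ?_
  by_cases hy : y ∈ Sat G A
  · rw [indicator_of_mem hy, ENNReal.tsum_eq_iSup_sum]
    refine iSup_le fun Z => ?_
    have := e y (Z.filter fun g => g • y ∈ A) fun g hg => (Finset.mem_filter.1 hg).2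
    simp only [indicator_apply, Pi.one_apply, Finset.sum_boole]
    exact_mod_cast this
  · have : ∀ g : G, A.indicator (1 : Y → ℝ≥0∞) (g • y) = 0 := fun g =>
      indicator_of_notMem (fun e => hy ⟨g, e⟩) _
    simp [this]

/-- the volume of the image of a ball. -/
noncomputable def vb (G : Type) {Y : Type} [Group G] [MulAction G Y] [PseudoMetricSpace Y]
    [MeasurableSpace Y] (ν : Measure Y) (F : Set Y) (y : Y) (r : ℝ) : ℝ :=
  (ν.restrict F).real (Sat G (ball y r))

omit [PseudoMetricSpace Y] [BorelSpace Y] in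
theorem finm (f : FD G ν F) : IsFiniteMeasure (ν.restrict F) :=
  ⟨by rw [Measure.restrict_apply_univ]; exact f.fin⟩

theorem ratio (h : Geo G Y C m (1 / 2) D) (f : FD G ν F) (b : BG ν Cv m) (c : 0 < Cv) (y : Y)
    {s u ρ : ℝ} (s0 : 0 < s) (s1 : s ≤ 1) (e : ρ + 2 * s + u ≤ 1) (T : Finset G)
    (t1 : ∀ t ∈ T, dist y (t • y) < ρ)
    (t2 : ∀ t ∈ T, ∀ t' ∈ T, t ≠ t' → 4 * s ≤ dist (t • y) (t' • y)) :
    T.card * vb G ν F y u ≤ Cv * (1 / s) ^ m * vb G ν F y s := by
  have := finm f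
  obtain ⟨S, hS⟩ : ∃ S : Finset G, ∀ g, g ∈ S ↔ dist y (g • y) < 2 * s :=
    ⟨(GeoP.fin h le_rfl y (2 * s)).toFinset, fun g => by simp⟩
  have S0 : 0 < S.card := Finset.card_pos.2 ⟨1, (hS 1).2 (by simpa using s0)⟩
  have a1 := low h f (isOpen_ball (x := y) (ε := 1))
    (sat_open h (isOpen_ball (x := y) (ε := u))).measurableSet (a := T.card * S.card)
    fun z ⟨k, hk⟩ => ⟨(T ×ˢ S).image fun p => p.1 * p.2 * k, by
      rw [Finset.card_image_of_injOn, Finset.card_product]
      rintro ⟨t, g⟩ hp ⟨t', g'⟩ hp' n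
      obtain ⟨p1, p2⟩ := Finset.mem_product.1 hp
      obtain ⟨p3, p4⟩ := Finset.mem_product.1 hp'
      have n : t * g = t' * g' := mul_right_cancel n
      by_cases e : t = t'
      · subst e
        rw [mul_left_cancel n]
      · have q1 := t2 t p1 t' p3 e
        have q2 := dist_triangle_right (t • y) (t' • y) ((t * g) • y)
        have q3 : dist (t • y) ((t * g) • y) < 2 * s := by rw [mul_smul, h.iso]; exact (hS g).1 p2
        have q4 : dist (t' • y) ((t * g) • y) < 2 * s := by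
          rw [n, mul_smul, h.iso]; exact (hS g').1 p4
        linarith, fun g hg => by
      obtain ⟨⟨t, g⟩, hp, rfl⟩ := Finset.mem_image.1 hg
      obtain ⟨p1, p2⟩ := Finset.mem_product.1 hp
      have q1 := GeoP.dist_mul h y t g
      have q2 := dist_triangle y ((t * g) • y) ((t * g) • k • z)
      rw [h.iso] at q2
      have q3 := mem_ball'.1 hk
      have := t1 t p1
      have := (hS g).1 p2
      rw [mem_ball', mul_smul]
      linarith⟩
  have a2 := up h f (isOpen_ball (x := y) (ε := s)) (b := S.card) fun z Z hZ => by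
    rcases Z.eq_empty_or_nonempty with rfl | ⟨k, hk⟩
    · simp
    refine Finset.card_le_card_of_injOn (· * k⁻¹) (fun g hg => (hS _).2 ?_)
      fun _ _ _ _ n => mul_right_cancel n
    have q1 := dist_triangle y (g • z) ((g * k⁻¹) • y)
    have q2 : dist (g • z) ((g * k⁻¹) • y) = dist (k • z) y := by
      rw [mul_smul, h.iso, ← h.iso k, smul_inv_smul]
    have := mem_ball'.1 (hZ g hg)
    have := mem_ball.1 (hZ k hk)
    linarith
  have a3 := (a1.trans (b y s 1 s0 s1 le_rfl)).trans (mul_le_mul_right a2 _)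
  have a4 := ENNReal.toReal_mono (by finiteness) a3
  simp only [ENNReal.toReal_mul, ENNReal.toReal_natCast, Nat.cast_mul] at a4
  rw [ENNReal.toReal_ofReal (by positivity)] at a4
  have S1 : (0 : ℝ) < S.card := by exact_mod_cast S0
  refine le_of_mul_le_mul_left ?_ S1
  simp only [vb, Measure.real]
  linarith

theorem near (h : Geo G Y C m (1 / 2) D) (f : FD G ν F) (b : BG ν Cv m) (c : 0 < Cv) (y : Y)
    (n : ℕ) : ∀ z, dist y z < 1 / 4 + n / 4 →
      vb G ν F z (1 / 40) ≤ (Cv * 40 ^ m) ^ (n + 1) * vb G ν F y (1 / 40) := by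
  have := finm f
  have one : ∀ x z : Y, dist x z < 3 / 4 →
      vb G ν F z (1 / 40) ≤ Cv * 40 ^ m * vb G ν F x (1 / 40) := fun x z e => by
    have := ratio h f b c x (s := 1 / 40) (u := 4 / 5) (ρ := 1 / 40) (by norm_num) (by norm_num)
      (by norm_num) {1} (by simp) (by simp)
    simp only [Finset.card_singleton, Nat.cast_one, one_mul, one_div_one_div] at this
    refine le_trans (measureReal_mono ?_ (measure_ne_top _ _)) this
    rintro p ⟨g, hg⟩
    refine ⟨g, ball_subset_ball' ?_ hg⟩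
    rw [dist_comm]
    linarith
  induction n with
  | zero => exact fun z e => by rw [zero_add, pow_one]; exact one y z (by norm_num at e; linarith)
  | succ n ih =>
    intro z e
    obtain ⟨p, p1, p2⟩ := GeoP.mid h le_rfl y z (1 / 4 + n / 4) (by positivity)
      (by push_cast at e; linarith)
    calc _ ≤ Cv * 40 ^ m * vb G ν F p (1 / 40) := one p z p2
      _ ≤ Cv * 40 ^ m * ((Cv * 40 ^ m) ^ (n + 1) * vb G ν F y (1 / 40)) := by
        gcongr; exact ih p p1
      _ = _ := by ring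

end Wn

open Wn in
/-- small balls are large when the orbit of the centre has many separated points. -/
theorem volW (m : ℕ) (C D Cv : ℝ) (c : 0 < Cv) : ∃ K > (0 : ℝ), ∀ (G Y : Type) [Group G]
    [MulAction G Y] [PseudoMetricSpace Y] [MeasurableSpace Y] [BorelSpace Y] (ν : Measure Y)
    (F : Set Y), Geo G Y C m (1 / 2) D → FD G ν F → BG ν Cv m → ∀ (y : Y) (s : ℝ) (T : Finset G),
    0 < s → s ≤ 1 / 4 → (∀ t ∈ T, dist y (t • y) < 1 / 4) →
    (∀ t ∈ T, ∀ t' ∈ T, t ≠ t' → 4 * s ≤ dist (t • y) (t' • y)) →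
    T.card * s ^ m * ν.real F ≤ K * vb G ν F y s := by
  obtain ⟨N, hN⟩ := GeoP.chain C m (D + 1) (1 / 40) (by norm_num)
  obtain ⟨n, hn⟩ := exists_nat_ge (4 * (D + 2))
  refine ⟨(N + 1) * (Cv * 40 ^ m) ^ (n + 1) * Cv, by positivity,
    fun G Y _ _ _ _ _ ν F h f b y s T s0 s1 t1 t2 => ?_⟩
  have := finm f
  obtain ⟨W, w1, w2⟩ := hN G Y _ D h le_rfl y
  have a1 := ratio h f b c y (u := 1 / 40) s0 (by linarith) (by linarith) T t1 t2
  have v0 : ∀ z r, 0 ≤ vb G ν F z r := fun _ _ => measureReal_nonneg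
  have a2 : ν.real F ≤ (N + 1) * (Cv * 40 ^ m) ^ (n + 1) * vb G ν F y (1 / 40) :=
    calc ν.real F = (ν.restrict F).real univ := by
          simp only [Measure.real, Measure.restrict_apply_univ]
      _ ≤ (ν.restrict F).real (⋃ t ∈ W.filter fun t => dist y t < D + 2, Sat G (ball t (1 / 40))) :=
          measureReal_mono (h₂ := measure_ne_top _ _) fun z _ => by
            obtain ⟨g, hg⟩ := sat_univ h y z
            obtain ⟨t, p1, p2⟩ := mem_iUnion₂.1 (w2 hg)
            refine mem_iUnion₂.2 ⟨t, Finset.mem_filter.2 ⟨p1, ?_⟩, g, p2⟩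
            have := dist_triangle_left y t (g • z)
            have := mem_ball.1 hg
            have := mem_ball.1 p2
            linarith
      _ ≤ ∑ t ∈ W.filter fun t => dist y t < D + 2, vb G ν F t (1 / 40) :=
          measureReal_biUnion_finset_le _ _
      _ ≤ (W.filter fun t => dist y t < D + 2).card •
            ((Cv * 40 ^ m) ^ (n + 1) * vb G ν F y (1 / 40)) :=
          Finset.sum_le_card_nsmul _ _ _ fun t ht =>
            near h f b c y n t (by have := (Finset.mem_filter.1 ht).2; linarith)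
      _ ≤ _ := by
          rw [nsmul_eq_mul, mul_assoc]
          have := v0 y (1 / 40)
          gcongr
          exact_mod_cast ((Finset.card_filter_le _ _).trans w1).trans N.le_succ
  have e : s ^ m * (1 / s) ^ m = 1 := by rw [← mul_pow, mul_one_div_cancel s0.ne', one_pow]
  calc _ ≤ T.card * s ^ m * ((N + 1) * (Cv * 40 ^ m) ^ (n + 1) * vb G ν F y (1 / 40)) := by gcongr
    _ = (N + 1) * (Cv * 40 ^ m) ^ (n + 1) * s ^ m * (T.card * vb G ν F y (1 / 40)) := by ring
    _ ≤ (N + 1) * (Cv * 40 ^ m) ^ (n + 1) * s ^ m * (Cv * (1 / s) ^ m * vb G ν F y s) := by gcongr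
    _ = (N + 1) * (Cv * 40 ^ m) ^ (n + 1) * Cv * vb G ν F y s * (s ^ m * (1 / s) ^ m) := by ring
    _ = _ := by rw [e, mul_one]

end Pool.Agent.Lib.MP_813db1_ag.NS
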