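import Pool.Agent.Lib.MP_813db1_ag.NS.WinA
import Pool.Agent.Lib.MP_813db1_ag.AS.Sc

/-! The clean window: counting cosets and separated points. -/

namespace Pool.Agent.Lib.MP_813db1_ag.NS.Wn

open Pool.Agent.Lib.MP_813db1_ag.AS
open Set Metric Subgroup
open scoped Classical Pointwise

variable {G Y : Type} [Group G] [MulAction G Y] [PseudoMetricSpace Y] {C D δ : ℝ} {m : ℕ}

theorem hs_mem {y : Y} {r : ℝ} {g : G} (e : dist y (g • y) < r) : g ∈ Hs G y r :=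
  subset_closure e

theorem hs_le (h : Geo G Y C m δ D) {x y : Y} {r r' : ℝ} (e : r + 2 * dist x y ≤ r') :
    Hs G x r ≤ Hs G y r' := closure_mono fun g (p : dist x (g • x) < r) => by
  have a := dist_triangle4 y x (g • x) (g • y)
  rw [h.iso, dist_comm y x] at a
  show dist y (g • y) < r'
  linarith

theorem cl_smul (h : Geo G Y C m δ D) {y : Y} {r r' : ℝ} (g : G) (e : Hs G y r = Hs G y r') :
    Hs G (g • y) r = Hs G (g • y) r' := by rw [GeoP.conj h, GeoP.conj h, e]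

theorem jumps (h : Geo G Y C m δ D) (y : Y) (L : ℕ) : ∀ a : ℕ → ℝ, (∀ i, 0 < a i) →
    (∀ i, a (i + 1) ≤ a i / 2) → (∀ i < L, Hs G y (a (i + 1)) ≠ Hs G y (a i)) →
    ∃ A : Finset G, A.card = 2 ^ L ∧ (∀ g ∈ A, g ∈ Hs G y (a 0) ∧ dist y (g • y) < 2 * a 0) ∧
      ∀ g ∈ A, ∀ g' ∈ A, g⁻¹ * g' ∈ Hs G y (a L) → g = g' := by
  induction L with
  | zero =>
    intro a a0 _ _
    refine ⟨{1}, rfl, fun g hg => ?_, fun g hg g' hg' _ => ?_⟩
    · rw [Finset.mem_singleton.1 hg]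
      exact ⟨one_mem _, by simpa using a0 0⟩
    · rw [Finset.mem_singleton.1 hg, Finset.mem_singleton.1 hg']
  | succ L ih =>
    intro a a0 a1 a2
    obtain ⟨A, b1, b2, b3⟩ := ih (fun i => a (i + 1)) (fun i => a0 _) (fun i => a1 _)
      fun i hi => a2 _ (by omega)
    have an : Antitone a := antitone_nat_of_succ_le fun i => by linarith [a0 i, a1 i]
    have le := Sc.hs_mono (G := G) y (an (Nat.zero_le 1))
    have le' := Sc.hs_mono (G := G) y (an (by omega : 1 ≤ L + 1))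
    obtain ⟨k, k1, k2⟩ : ∃ k : G, dist y (k • y) < a 0 ∧ k ∉ Hs G y (a 1) := by
      by_contra! n
      exact a2 0 (by omega) (le_antisymm le ((closure_le _).2 fun g hg => n g hg))
    have k3 : ∀ g ∈ A, ∀ g' ∈ A, g⁻¹ * (k * g') ∉ Hs G y (a 1) := fun g hg g' hg' e => k2 (by
      simpa [mul_assoc] using mul_mem (mul_mem (b2 g hg).1 e) (inv_mem (b2 g' hg').1))
    refine ⟨A ∪ A.image (k * ·), ?_, fun g hg => ?_, fun g hg g' hg' e => ?_⟩
    · rw [Finset.card_union_of_disjoint, Finset.card_image_of_injective _ (mul_right_injective k),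
        b1, pow_succ, mul_two]
      refine Finset.disjoint_left.2 fun g hg hg' => ?_
      obtain ⟨g', p, rfl⟩ := Finset.mem_image.1 hg'
      exact k3 _ hg g' p (by rw [inv_mul_cancel]; exact one_mem _)
    · rcases Finset.mem_union.1 hg with p | p
      · exact ⟨le (b2 g p).1, by linarith [(b2 g p).2, a1 0, a0 0]⟩
      · obtain ⟨g, p', rfl⟩ := Finset.mem_image.1 p
        exact ⟨mul_mem (hs_mem k1) (le (b2 g p').1),
          by linarith [(b2 g p').2, a1 0, GeoP.dist_mul h y k g]⟩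
    · rcases Finset.mem_union.1 hg with p | p <;> rcases Finset.mem_union.1 hg' with q | q
      · exact b3 g p g' q e
      · obtain ⟨g', q', rfl⟩ := Finset.mem_image.1 q
        exact (k3 g p g' q' (le' e)).elim
      · obtain ⟨g, p', rfl⟩ := Finset.mem_image.1 p
        exact (k3 g' q g p' (by simpa using inv_mem (le' e))).elim
      · obtain ⟨g, p', rfl⟩ := Finset.mem_image.1 p
        obtain ⟨g', q', rfl⟩ := Finset.mem_image.1 q
        rw [b3 g p' g' q' (by simpa [mul_assoc] using e)]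

/-- many separated points in the orbit, inside a subgroup. -/
def Orb (H : Subgroup G) (y : Y) (q s R : ℝ) : Prop := ∃ T : Finset G, q ≤ T.card ∧
  (∀ t ∈ T, t ∈ H ∧ dist y (t • y) < R) ∧ ∀ t ∈ T, ∀ t' ∈ T, t ≠ t' → s ≤ dist (t • y) (t' • y)

theorem many (h : Geo G Y C m δ D) (y : Y) {L : ℕ} {a : ℕ → ℝ} (a0 : ∀ i, 0 < a i)
    (a1 : ∀ i, a (i + 1) ≤ a i / 2) (a2 : ∀ i < L, Hs G y (a (i + 1)) ≠ Hs G y (a i)) {q s R : ℝ}
    (s0 : 0 < s) (s1 : s ≤ a L) (o : Orb (Hs G y s) y q s R) :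
    Orb (⊤ : Subgroup G) y (2 ^ L * q) s (2 * a 0 + R) := by
  obtain ⟨A, b1, b2, b3⟩ := jumps h y L a a0 a1 a2
  obtain ⟨T, t1, t2, t3⟩ := o
  have le := Sc.hs_mono (G := G) y s1
  have key : ∀ p ∈ A ×ˢ T, ∀ p' ∈ A ×ˢ T, p ≠ p' →
      s ≤ dist ((p.1 * p.2) • y) ((p'.1 * p'.2) • y) := by
    rintro ⟨g, t⟩ hp ⟨g', t'⟩ hp' n
    obtain ⟨p1, p2⟩ := Finset.mem_product.1 hp
    obtain ⟨p3, p4⟩ := Finset.mem_product.1 hp'
    by_contra! c
    have c' := c
    rw [← GeoP.dist_inv_mul h] at c'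
    obtain rfl : g = g' := b3 g p1 g' p3 (by
      simpa [mul_assoc] using
        mul_mem (mul_mem (le (t2 t p2).1) (le (hs_mem c'))) (inv_mem (le (t2 t' p4).1)))
    rw [mul_smul, mul_smul, h.iso] at c
    exact absurd (t3 t p2 t' p4 fun e => n (by rw [e])) (not_le.2 c)
  refine ⟨(A ×ˢ T).image fun p => p.1 * p.2, ?_, fun t ht => ⟨mem_top _, ?_⟩,
    fun t ht t' ht' n => ?_⟩
  · rw [Finset.card_image_of_injOn, Finset.card_product, b1]
    · push_cast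
      gcongr
    · intro p hp p' hp' n
      by_contra c
      have := key p hp p' hp' c
      rw [show p.1 * p.2 = p'.1 * p'.2 from n, dist_self] at this
      linarith
  · obtain ⟨p, hp, rfl⟩ := Finset.mem_image.1 ht
    obtain ⟨p1, p2⟩ := Finset.mem_product.1 hp
    linarith [GeoP.dist_mul h y p.1 p.2, (b2 _ p1).2, (t2 _ p2).2]
  · obtain ⟨p, hp, rfl⟩ := Finset.mem_image.1 ht
    obtain ⟨p', hp', rfl⟩ := Finset.mem_image.1 ht'
    exact key p hp p' hp' fun e => n (by rw [e])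

theorem pack (h : Geo G Y C m δ D) (y : Y) {r R : ℝ} (h1 : 0 < r) (h2 : r / 2 ≤ R) (h3 : R ≤ 1)
    {ι : Type} (s : Finset ι) (x : ι → Y) (hx : ∀ i ∈ s, dist y (x i) < R)
    (hs : ∀ i ∈ s, ∀ j ∈ s, i ≠ j → r ≤ dist (x i) (x j)) :
    (s.card : ℝ) ≤ C * (R / (r / 2)) ^ m := by
  obtain ⟨T, h4, h5⟩ := h.cov y (r / 2) R (half_pos h1) h2 h3
  have hc : ∀ i, ∃ t, i ∈ s → t ∈ T ∧ dist (x i) t < r / 2 := fun i => by
    by_cases hi : i ∈ s
    · obtain ⟨t, p1, p2⟩ := mem_iUnion₂.1 (h5 (mem_ball'.2 (hx i hi)))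
      exact ⟨t, fun _ => ⟨p1, p2⟩⟩
    · exact ⟨y, fun e => (hi e).elim⟩
  choose t ht using hc
  refine le_trans ?_ h4
  exact_mod_cast Finset.card_le_card_of_injOn t (fun i hi => (ht i hi).1) fun i hi j hj e => by
    by_contra n
    have := hs i hi j hj n
    have := dist_triangle_right (x i) (x j) (t i)
    have := (ht i hi).2
    have := (ht j hj).2
    rw [← e] at this
    linarith

theorem few (h : Geo G Y C m δ D) (y : Y) {q s w : ℝ} (s0 : 0 < s) (s1 : s ≤ w) (w1 : 4 * w ≤ 1)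
    (Z : Finset Y) (x : Y → Y) (z1 : ∀ t ∈ Z, dist y (x t) < w)
    (z2 : ∀ t ∈ Z, ∀ t' ∈ Z, t ≠ t' → ∀ g : G, s ≤ dist (x t) (g • x t'))
    (z3 : ∀ t ∈ Z, Orb (⊤ : Subgroup G) (x t) q s (3 * w)) :
    Z.card * q ≤ C * 8 ^ m * (w / s) ^ m := by
  choose! P p1 p2 p3 using z3
  have := pack h y s0 (R := 4 * w) (by linarith) w1 (Z.sigma P) (fun p => p.2 • x p.1)
    (fun p hp => by
      obtain ⟨a, b⟩ := Finset.mem_sigma.1 hp
      linarith [dist_triangle y (x p.1) (p.2 • x p.1), z1 _ a, (p2 _ a _ b).2])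
    fun ⟨t, g⟩ hp ⟨t', g'⟩ hp' n => by
      obtain ⟨a, b⟩ := Finset.mem_sigma.1 hp
      obtain ⟨a', b'⟩ := Finset.mem_sigma.1 hp'
      by_cases e : t = t'
      · subst e
        exact p3 t a g b g' b' fun e => n (by rw [e])
      · have := z2 t a t' a' e (g⁻¹ * g')
        rwa [← h.iso g, smul_smul, mul_inv_cancel_left] at this
  rw [Finset.card_sigma, Nat.cast_sum, show 4 * w / (s / 2) = 8 * (w / s) by field_simp; ring,
    mul_pow, ← mul_assoc] at this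
  refine le_trans ?_ this
  rw [← nsmul_eq_mul, ← Finset.sum_const]
  exact Finset.sum_le_sum p1

theorem net (h : Geo G Y C m (1 / 2) D) (y : Y) {s : ℝ} (s0 : 0 < s) : ∃ T : Finset Y,
    (∀ t ∈ T, ∀ t' ∈ T, t ≠ t' → ∀ g : G, s ≤ dist t (g • t')) ∧
    ∀ z, ∃ t ∈ T, ∃ g : G, dist t (g • z) < 2 * s := by
  obtain ⟨N, hN⟩ := GeoP.chain C m (D + 1) s s0
  obtain ⟨B, -, b⟩ := hN G Y _ D h le_rfl y
  obtain ⟨T, -, t1, t2⟩ := Ng.net B (fun a b => ∃ g : G, dist a (g • b) < s)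
    (fun a => ⟨1, by simpa using s0⟩) fun a b ⟨g, hg⟩ =>
      ⟨g⁻¹, by rwa [← h.iso g, smul_inv_smul, dist_comm]⟩
  refine ⟨T, fun t ht t' ht' n g => not_lt.1 fun e => t1 t ht t' ht' n ⟨g, e⟩, fun z => ?_⟩
  obtain ⟨g, hg⟩ := sat_univ h y z
  obtain ⟨u, u1, u2⟩ := mem_iUnion₂.1 (b hg)
  obtain ⟨t, p, k, hk⟩ := t2 u u1
  refine ⟨t, p, k * g, ?_⟩
  have := dist_triangle t (k • u) (k • g • z)
  rw [h.iso] at this
  have := mem_ball'.1 u2
  rw [mul_smul]
  linarith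

theorem znet {N : ℕ} (h : Geo G Y C m δ D) (y : Y) {w : ℝ} {T : Finset Y} (t1 : T.card ≤ N)
    (t2 : ball y (D + 1) ⊆ ⋃ t ∈ T, ball t w) :
    ∃ z : Fin N → Y, ∀ x, ∃ (i : Fin N) (g : G), dist (z i) (g • x) < w := by
  obtain ⟨e⟩ := Function.Embedding.nonempty_of_card_le (α := T) (β := Fin N) (by simpa using t1)
  refine ⟨Function.extend e Subtype.val fun _ => y, fun x => ?_⟩
  obtain ⟨a, ha⟩ := sat_univ h y x
  obtain ⟨t, t3, t4⟩ := mem_iUnion₂.1 (t2 ha)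
  exact ⟨e ⟨t, t3⟩, a, by rw [e.injective.extend_apply]; exact mem_ball'.1 t4⟩

/-- a definite part of a net consists of points with a clean window. -/
theorem good (h : Geo G Y C m (1 / 2) D) (nc : NC G Y m) {N L k : ℕ} {z : Fin N → Y} {w s c : ℝ}
    {a : ℕ → ℝ} (a0 : ∀ i, 0 < a i) (a1 : ∀ i, a (i + 1) ≤ a i / 2) (aw : a 0 = w) (s0 : 0 < s)
    (s1 : s ≤ a L) (s2 : s ≤ w) (w1 : 4 * w ≤ 1) (c0 : 0 < c)
    (hz : ∀ x, ∃ (i : Fin N) (g : G), dist (z i) (g • x) < w)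
    (hr : ∀ y : Y, (Hs G y (10 * w)).FG ∧ Group.IsVirtuallyNilpotent (Hs G y (10 * w)) ∧
      Rk (Hs G y (10 * w)) k)
    (ho : ∀ y : Y, Orb (Hs G y s) y (c * (w / s) ^ k) s w)
    (hL : 2 * (4 * N) ^ m * (N * (C * 8 ^ m)) ≤ 2 ^ L * c) {T : Finset Y} (ne : T.Nonempty)
    (t1 : ∀ t ∈ T, ∀ t' ∈ T, t ≠ t' → ∀ g : G, s ≤ dist t (g • t'))
    (t2 : ∀ x, ∃ t ∈ T, ∃ g : G, dist t (g • x) < 2 * s) :
    (w / s) ^ m ≤ 2 * (4 * N) ^ m * ((T.filter fun t =>
      ∃ i < L, Hs G t (a (i + 1)) = Hs G t (a i)).card * (w / s) ^ k) := by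
  have w0 : 0 < w := s0.trans_le s2
  obtain ⟨x, hx⟩ : ∃ x, x = w / s := ⟨_, rfl⟩
  have x1 : 1 ≤ x := by rw [hx, le_div_iff₀ s0]; linarith
  rw [← hx] at ho ⊢
  obtain ⟨y₀, hy₀⟩ := ne
  have N1 : (1 : ℝ) ≤ N := by
    obtain ⟨i, -⟩ := hz y₀
    exact_mod_cast i.pos
  have T1 : (1 : ℝ) ≤ T.card := by exact_mod_cast Finset.card_pos.2 ⟨y₀, hy₀⟩
  have M1 : (1 : ℝ) ≤ (4 * N) ^ m := one_le_pow₀ (by linarith)
  have all : x ^ m ≤ (4 * N) ^ m * (T.card * x ^ k) := by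
    rcases lt_or_ge k m with e | e
    · have p := nc w N z k (2 * s) T w0 (by linarith) e hz (fun i => hr _) t2
      have q : w = x * s := by rw [hx]; field_simp
      have r : x ^ (m - k) ≤ (4 * N) ^ (m - k) * T.card := by
        refine le_of_mul_le_mul_right ?_ (pow_pos s0 (m - k))
        rw [← mul_pow, ← q]
        refine p.trans_eq ?_
        rw [show 2 * (2 * s) = 4 * s by ring, mul_pow, mul_pow]
        ring
      calc x ^ m = x ^ (m - k) * x ^ k := by rw [← pow_add, Nat.sub_add_cancel e.le]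
        _ ≤ (4 * N) ^ m * T.card * x ^ k := by
          have : (4 * N : ℝ) ^ (m - k) ≤ (4 * N) ^ m := pow_le_pow_right₀ (by linarith) (by omega)
          exact mul_le_mul_of_nonneg_right (r.trans (mul_le_mul_of_nonneg_right this
            (Nat.cast_nonneg _))) (pow_nonneg (by linarith) _)
        _ = _ := by ring
    · calc x ^ m ≤ 1 * (1 * x ^ k) := by rw [one_mul, one_mul]; exact pow_le_pow_right₀ x1 e
        _ ≤ _ := by gcongr
  choose I g hg using hz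
  obtain ⟨B, hB⟩ : ∃ B, B = T.filter fun t => ¬ ∃ i < L, Hs G t (a (i + 1)) = Hs G t (a i) :=
    ⟨_, rfl⟩
  have bad : B.card * (2 ^ L * (c * x ^ k)) ≤ N * (C * 8 ^ m * x ^ m) := by
    rw [Finset.card_eq_sum_card_fiberwise (f := I) (t := Finset.univ) fun _ _ => Finset.mem_univ _,
      Nat.cast_sum, Finset.sum_mul]
    refine (Finset.sum_le_card_nsmul _ _ _ fun i _ => ?_).trans_eq
      (by rw [nsmul_eq_mul, Finset.card_univ, Fintype.card_fin])
    have m1 : ∀ t ∈ B.filter fun t => I t = i, t ∈ T ∧ I t = i ∧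
        ¬ ∃ i < L, Hs G t (a (i + 1)) = Hs G t (a i) := fun t ht => by
      obtain ⟨p, q⟩ := Finset.mem_filter.1 ht
      rw [hB] at p
      exact ⟨(Finset.mem_filter.1 p).1, q, (Finset.mem_filter.1 p).2⟩
    rw [hx]
    refine few h (z i) s0 s2 w1 _ (fun t => g t • t) (fun t ht => (m1 t ht).2.1 ▸ hg t)
      (fun t ht t' ht' n k => ?_) fun t ht => ?_
    · have := t1 t (m1 t ht).1 t' (m1 t' ht').1 n ((g t)⁻¹ * k * g t')
      rwa [← h.iso (g t), mul_assoc, smul_smul, mul_inv_cancel_left, mul_smul] at this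
    · have := many h (g t • t) a0 a1 (fun j hj e => (m1 t ht).2.2 ⟨j, hj, by
        simpa using cl_smul h (g t)⁻¹ e⟩) s0 s1 (ho _)
      rwa [aw, show 2 * w + w = 3 * w by ring, hx] at this
  have sp := Finset.card_filter_add_card_filter_not (s := T)
    fun t => ∃ i < L, Hs G t (a (i + 1)) = Hs G t (a i)
  rw [← hB] at sp
  rw [← sp, Nat.cast_add] at all
  have b2 : 2 * (4 * N) ^ m * (B.card * x ^ k) ≤ x ^ m := by
    refine le_of_mul_le_mul_left ?_ (show 0 < 2 ^ L * c by positivity)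
    calc _ = 2 * (4 * N) ^ m * (B.card * (2 ^ L * (c * x ^ k))) := by ring
      _ ≤ 2 * (4 * N) ^ m * (N * (C * 8 ^ m * x ^ m)) := by gcongr
      _ = 2 * (4 * N) ^ m * (N * (C * 8 ^ m)) * x ^ m := by ring
      _ ≤ _ := by gcongr
  linarith

end Pool.Agent.Lib.MP_813db1_ag.NS.Wn
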